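import Pool.Agent.KZP.FDefs

/-!
# KZP: the statements of the moduli theorems
-/

set_option autoImplicit false

open KaehlerDifferential

namespace KZP

/-- The groupoid of the objects is the action groupoid of `ℂˣ` on `XS`. -/
structure ObjModuli : Prop where
  /-- every object has coordinates -/
  obj_coords : ∀ A : Obj, ∃ (q : XS) (X : Fin 3 → A.R), A.Coords q X
  /-- every point of `XS` occurs -/
  obj_all : ∀ q : XS, ∃ (A : Obj) (X : Fin 3 → A.R), A.Coords q X
  /-- objects with the same point of `XS` are isomorphic, compatibly with the coordinates -/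
  obj_iso : ∀ (A A' : Obj) (q : XS) (X : Fin 3 → A.R) (X' : Fin 3 → A'.R), A.Coords q X →
    A'.Coords q X' → ∃! φ : A.Iso A', ∀ i, φ.equiv (X i) = X' i
  /-- the coordinates of an object form one free orbit of `ℂˣ` -/
  obj_orbit : ∀ (A : Obj) (q : XS) (X : Fin 3 → A.R), A.Coords q X →
    ∀ (q' : XS) (X' : Fin 3 → A.R), (A.Coords q' X' ↔ ∃! u : ℂˣ, q'.1 = act u q.1 ∧
      ∀ i : Fin 3, X' i = ((u : ℂ) ^ (4 + (i : ℕ))) • X i)

/-- The 1-form `ω` on `C ∖ P` generates the module of the 1-forms (that is, it has no zeros), and it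
has a zero of order exactly `6` at `P`: if `f` has a pole of order `n > 0` at `P`, that is, `df` has a
pole of order `n + 1`, and `df = g ω`, then `g` has a pole of order `n + 7`. -/
def Obj.IsForm (A : Obj) (ω : Ω[A.R⁄ℂ]) : Prop :=
  (∀ η : Ω[A.R⁄ℂ], ∃! f : A.R, η = f • ω) ∧
    ∀ f g : A.R, A.pole.ord f ≠ 0 → D ℂ A.R f = g • ω → A.pole.ord g = A.pole.ord f + 7

/-- `φ` identifies the fibre of the family `Φ` over the point `t` with the object `A`. -/
structure Fam.IsFibre {T : Type} [TopologicalSpace T] (Φ : Fam T) (t : T) (A : Obj)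
    (φ : Φ.E →+* A.R) : Prop where
  onto : Function.Surjective φ
  kernel : ∀ f, φ f = 0 ↔
    f ∈ Ideal.span {x : Φ.E | ∃ c : C(T, ℂ), c t = 0 ∧ algebraMap C(T, ℂ) Φ.E c = x}
  const : ∀ c : C(T, ℂ), φ (algebraMap C(T, ℂ) Φ.E c) = algebraMap ℂ A.R (c t)
  fib_ord : ∀ n f b, Φ.tail.Lead n f b → b t ≠ 0 → A.pole.ord (φ f) = n
  fib_pt : ∀ j f, A.pt j (φ f) = Φ.sec j f t

/-- The continuous families over `T` correspond to the continuous maps from `T` to `XS`. -/
structure FamModuli (T : Type) [TopologicalSpace T] : Prop where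
  /-- every family has a unique map to `XS` and unique coordinates -/
  fam_coords : ∀ Φ : Fam T, ∃! p : C(T, XS) × (Fin 3 → Φ.E), Φ.FCoords p.1 p.2
  /-- every continuous map to `XS` occurs -/
  fam_all : ∀ q : C(T, XS), ∃ (Φ : Fam T) (X : Fin 3 → Φ.E), Φ.FCoords q X
  /-- families with the same map to `XS` are isomorphic by a unique isomorphism -/
  fam_iso : ∀ (Φ Φ' : Fam T) (q : C(T, XS)) (X : Fin 3 → Φ.E) (X' : Fin 3 → Φ'.E),
    Φ.FCoords q X → Φ'.FCoords q X' → ∃! e : Φ.E ≃ₐ[C(T, ℂ)] Φ'.E,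
      (∀ n f b, Φ.tail.Lead n f b ↔ Φ'.tail.Lead n (e f) b) ∧ ∀ j f, Φ'.sec j (e f) = Φ.sec j f
  /-- the fibre over `t` is the object of `q t` -/
  fam_fibre : ∀ (Φ : Fam T) (q : C(T, XS)) (X : Fin 3 → Φ.E), Φ.FCoords q X →
    ∀ (t : T) (A : Obj) (Y : Fin 3 → A.R), A.Coords (q t) Y →
      ∃ φ : Φ.E →+* A.R, Φ.IsFibre t A φ ∧ ∀ i, φ (X i) = Y i

end KZP
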