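import Pool.Agent.KZP.CTop
import Pool.Agent.KZP.MDefs

/-!
# KZP-COMP: the algebraic half of the final theorem
-/

set_option autoImplicit false

open KaehlerDifferential

namespace KZP

/-- The fibre of a family over `t` is the object of the point `q t`. -/
theorem fam_fibre {T : Type} [TopologicalSpace T] {F : Fam T} {q : C(T, XS)} {X : Fin 3 → F.E}
    (h : F.FCoords q X) (t : T) {A : Obj} {Y : Fin 3 → A.R} (hA : A.Coords (q t) Y) :
    ∃ φ : F.E →+* A.R, Function.Surjective φ ∧
      RingHom.ker φ = Ideal.map (algebraMap C(T, ℂ) F.E) (RingHom.ker (evT t)) ∧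
      (∀ c : C(T, ℂ), φ (algebraMap C(T, ℂ) F.E c) = algebraMap ℂ A.R (c t)) ∧
      (∀ i, φ (X i) = Y i) ∧
      (∀ n f b, F.tail.Lead n f b → b t ≠ 0 → A.pole.ord (φ f) = n) ∧
      ∀ j f, A.pt j (φ f) = F.sec j f t := by
  obtain ⟨e, he⟩ := h.toTail.exists_equiv
  obtain ⟨e', he', ho, hp⟩ := exists_equiv_of_coords hA
  let φ₀ : CoordRing (par q) →+* A.R := (e' : CoordRing (q t).1.1 →+* A.R).comp (baseMap (evT t) (par q))
  have hφ₀ : ∀ f, φ₀ f = e' (baseMap (evT t) (par q) f) := fun _ => rfl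
  let φ : F.E →+* A.R := φ₀.comp (e.symm : F.E →+* CoordRing (par q))
  have hφ : ∀ f, φ (e f) = e' (baseMap (evT t) (par q) f) := by
    intro f
    change e' (baseMap (evT t) (par q) (e.symm (e f))) = _
    rw [AlgEquiv.symm_apply_apply]
  have hsurj : Function.Surjective φ :=
    (e'.surjective.comp (baseMap_surjective (evT t) (evT_surjective t) (par q))).comp
      e.symm.surjective
  have hc : ∀ c : C(T, ℂ), φ (algebraMap C(T, ℂ) F.E c) = algebraMap ℂ A.R (c t) := by
    intro c
    have h1 := hφ (algebraMap C(T, ℂ) (CoordRing (par q)) c)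
    rw [AlgEquiv.commutes, baseMap_algebraMap] at h1
    rw [h1]
    exact e'.commutes (c t)
  have hX : ∀ i, φ (X i) = Y i := by
    intro i
    rw [← he i, hφ, baseMap_coord]
    exact he' i
  have hker : RingHom.ker φ = Ideal.map (algebraMap C(T, ℂ) F.E) (RingHom.ker (evT t)) := by
    ext f
    obtain ⟨g, rfl⟩ := e.surjective f
    have h1 : e g ∈ RingHom.ker φ ↔ g ∈ RingHom.ker (baseMap (evT t) (par q)) := by
      rw [RingHom.mem_ker, RingHom.mem_ker, hφ]
      exact EmbeddingLike.map_eq_zero_iff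
    rw [h1, baseMap_ker (isUnit_two_C T)]
    have h3 : Ideal.map (algebraMap C(T, ℂ) F.E) (RingHom.ker (evT t)) =
        Ideal.map (e : CoordRing (par q) →+* F.E)
          (Ideal.map (algebraMap C(T, ℂ) (CoordRing (par q))) (RingHom.ker (evT t))) := by
      rw [Ideal.map_map]
      congr 1
      ext b
      exact (e.commutes b).symm
    rw [h3]
    have h4 : Ideal.map (e : CoordRing (par q) →+* F.E)
          (Ideal.map (algebraMap C(T, ℂ) (CoordRing (par q))) (RingHom.ker (evT t))) =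
        Ideal.comap (e.symm : F.E →+* CoordRing (par q))
          (Ideal.map (algebraMap C(T, ℂ) (CoordRing (par q))) (RingHom.ker (evT t))) :=
      Ideal.map_comap_of_equiv (I := Ideal.map (algebraMap C(T, ℂ) (CoordRing (par q)))
        (RingHom.ker (evT t))) e.toRingEquiv
    rw [h4, Ideal.mem_comap]
    have h5 : (e.symm : F.E →+* CoordRing (par q)) (e g) = g := e.symm_apply_apply g
    rw [h5]
  refine ⟨φ, hsurj, hker, hc, hX, fun n f b hf hb => ?_, fun j f => ?_⟩
  · obtain ⟨P, rfl⟩ := F.tail.all_val h.toTail.xyz f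
    obtain ⟨h1, h2⟩ := (L_val_iff h.toTail.xyz n P b).1 hf
    obtain ⟨T₀, hT₀⟩ := exists_tail_coords (isUnit_two_C T) (par q)
    have h3 : val (X 0) (X 1) (X 2) P = e (val (coord (par q) 0) (coord (par q) 1) (coord (par q) 2) P) := by
      have h4 := map_val (e : CoordRing (par q) →ₐ[C(T, ℂ)] F.E) (coord (par q) 0) (coord (par q) 1)
        (coord (par q) 2) P
      have h5 : ∀ i, (e : CoordRing (par q) →ₐ[C(T, ℂ)] F.E) (coord (par q) i) = X i := he
      rw [h5, h5, h5] at h4
      exact h4.symm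
    rw [h3, hφ]
    refine (ho _).trans ?_
    have h6 : T₀.Lead n (val (coord (par q) 0) (coord (par q) 1) (coord (par q) 2) P) b :=
      (L_val_iff hT₀.xyz n P b).2 ⟨h1, h2⟩
    have h7 := tail_base_change (evT t) (par q) T₀ (tailC (q t).1.1)
      ⟨hT₀.xyz.hX, hT₀.xyz.hY, hT₀.xyz.hZ⟩
      ⟨(tailC_xyz (q t).1.1).hX, (tailC_xyz (q t).1.1).hY, (tailC_xyz (q t).1.1).hZ⟩ n _ b h6
    exact (tailC (q t).1.1).ord_eq hb h7
  · have h1 : ((A.pt j : A.R →+* ℂ)).comp φ = (evT t).comp (F.sec j : F.E →+* C(T, ℂ)) := by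
      apply h.toTail.ringHom_ext
      · intro b
        change A.pt j (φ (algebraMap C(T, ℂ) F.E b)) = F.sec j (algebraMap C(T, ℂ) F.E b) t
        rw [hc, AlgHom.commutes, AlgHom.commutes]
        rfl
      · intro i
        change A.pt j (φ (X i)) = F.sec j (X i) t
        rw [hX, hA.pt_X, h.sec_X]
    exact DFunLike.congr_fun h1 f

/-- **The algebraic half.** -/
theorem obj_moduli : ObjModuli :=
  ⟨obj_exists_coords, exists_obj_coords, fun _ _ _ _ _ h h' => coords_unique_iso h h',
    fun _ _ _ h => coords_torsor h⟩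

theorem fam_moduli (T : Type) [TopologicalSpace T] : FamModuli T :=
  ⟨fam_exists_coords, exists_fam_coords, fun _ _ _ _ _ h h' => fam_unique_iso h h',
    fun F q X h t A Y hA => by
      obtain ⟨φ, h1, h2, h3, h4, h5, h6⟩ := fam_fibre h t hA
      refine ⟨φ, ⟨h1, fun f => ?_, h3, h5, h6⟩, h4⟩
      rw [← RingHom.mem_ker, h2]
      rfl⟩

theorem exists_obj_form (A : Obj) : ∃ ω, A.IsForm ω := obj_form A

end KZP
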