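import Pool.Agent.KZP.Defs

/-!
# KZP-AL0 (helper88's block): the involution, its fixed points

* `f1_sw`, `f2_sw`: `ring` after unfolding: `f1 (swp s) (sw e) = f1 s e`, same for `f2`
  (`Y → -Y`, `s₃ → -s₃`, `s₇ → -s₇`; careful: indices 1 and 4).
* `tau_sw`: the components of `tau` at `(swp s, sw e)` are `-τ₀, τ₁, -τ₂`.
* `nu_mem`: from these (and `sw` injective).
* `isometry_nu`, `nu_nu`, `betaR_nu`, `betaR_zero`: coordinatewise.
* fixed points: let `q = (s, ρ) ∈ XS`, `nu q = q`.  Then `s 1 = 0`, `s 4 = 0`, `(ρ i) 1 = 0`.  Write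
  `X_i = ρ i 0`, `Z_i = ρ i 2`; `X_i Z_i + s 6 = 0`,
  `Z_i² = X_i³ + s 0 X_i Z_i + s 2 X_i² + s 3 Z_i + s 5 X_i + s 7`, the five pairs are distinct, and
  `G_i = τ₁ = X_i (3 X_i² + s 0 Z_i + 2 s 2 X_i + s 5) + Z_i (2 Z_i - s 0 X_i - s 3)`.
  - `s 6 ≠ 0`: `X_i ≠ 0`, `Z_i = - s 6/X_i`, the `X_i` are distinct and are the roots of
    `R(X) = X⁵ + s 2 X⁴ + s 5 X³ + (s 7 - s 0 s 6) X² - s 3 s 6 X - (s 6)²`, so `R = ∏ (X - X_i)`,
    `R'(X_i) = X_i G_i ≠ 0`, `∑ 1/G_i = ∑ X_i/R'(X_i) = 0` (Lagrange interpolation: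
    `∑ X_i^k / ∏_{j≠i} (X_i - X_j) = 0` for `k ≤ 3`).
  - `s 6 = 0`: each point has `X_i = 0` or `Z_i = 0`; the points with `X_i = 0` satisfy
    `Z² - s 3 Z - s 7 = 0` (at most two), those with `Z_i = 0` satisfy
    `k(X) = X³ + s 2 X² + s 5 X + s 7 = 0` (at most three); five distinct points force exactly two and
    three, disjoint, `s 7 ≠ 0`; `G = Z (2Z - s 3)`, resp. `G = X k'(X)`; nonzero;
    `∑ 1/(Z j'(Z)) = -1/j(0) = 1/s 7` (`j = Z² - s 3 Z - s 7`), `∑ 1/(X k'(X)) = -1/k(0) = -1/s 7`.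
  In both cases every solution of the two equations is one of the five: `zero_Y`.
* The same statement without smoothness (`sys_G`): it only uses the equations and that the five pairs
  are distinct; needed for the sphere.
-/

open scoped BigOperators
open Complex Polynomial

namespace KZP

/-! ## The involution -/

theorem sw_sw (e : Pt) : sw (sw e) = e := by
  funext i; fin_cases i <;> simp [sw]

theorem swp_swp (s : Par) : swp (swp s) = s := by
  funext i; fin_cases i <;> simp [swp]

theorem nu_nu (q : Tot) : nu (nu q) = q := by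
  apply Prod.ext
  · exact swp_swp q.1
  · funext i; exact sw_sw (q.2 i)

theorem isometry_sw : Isometry sw := by
  apply Isometry.of_dist_eq
  intro e e'
  apply le_antisymm
  · rw [dist_pi_le_iff dist_nonneg]
    intro i
    fin_cases i
    · exact dist_le_pi_dist e e' 0
    · show dist (- e 1) (- e' 1) ≤ _
      rw [dist_neg_neg]
      exact dist_le_pi_dist e e' 1
    · exact dist_le_pi_dist e e' 2
  · rw [dist_pi_le_iff dist_nonneg]
    intro i
    fin_cases i
    · exact dist_le_pi_dist (sw e) (sw e') 0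
    · show dist (e 1) (e' 1) ≤ _
      rw [← dist_neg_neg]
      exact dist_le_pi_dist (sw e) (sw e') 1
    · exact dist_le_pi_dist (sw e) (sw e') 2

theorem isometry_swp : Isometry swp := by
  apply Isometry.of_dist_eq
  intro e e'
  have key : ∀ i, dist (swp e i) (swp e' i) = dist (e i) (e' i) := by
    intro i
    fin_cases i <;> simp [swp]
  apply le_antisymm
  · rw [dist_pi_le_iff dist_nonneg]
    intro i
    rw [key]
    exact dist_le_pi_dist e e' i
  · rw [dist_pi_le_iff dist_nonneg]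
    intro i
    rw [← key]
    exact dist_le_pi_dist (swp e) (swp e') i

theorem isometry_nu : Isometry nu := by
  apply Isometry.of_dist_eq
  intro q q'
  rw [Prod.dist_eq, Prod.dist_eq]
  congr 1
  · exact isometry_swp.dist_eq _ _
  · apply le_antisymm
    · rw [dist_pi_le_iff dist_nonneg]
      intro i
      show dist (sw (q.2 i)) (sw (q'.2 i)) ≤ _
      rw [isometry_sw.dist_eq]
      exact dist_le_pi_dist q.2 q'.2 i
    · rw [dist_pi_le_iff dist_nonneg]
      intro i
      rw [← isometry_sw.dist_eq]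
      exact dist_le_pi_dist (nu q).2 (nu q').2 i

theorem f1_sw (s : Par) (e : Pt) : f1 (swp s) (sw e) = f1 s e := by
  simp [f1, swp, sw]

theorem f2_sw (s : Par) (e : Pt) : f2 (swp s) (sw e) = f2 s e := by
  simp [f2, swp, sw]

theorem curve_sw {s : Par} {e : Pt} (h : e ∈ Curve s) : sw e ∈ Curve (swp s) :=
  ⟨by rw [f1_sw]; exact h.1, by rw [f2_sw]; exact h.2⟩

theorem tau_sw (s : Par) (e : Pt) : tau (swp s) (sw e) = ![- tau s e 0, tau s e 1, - tau s e 2] := by
  funext i
  fin_cases i <;> simp [tau, g1, g2, swp, sw] <;> ring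

theorem smoothC_sw {s : Par} (h : SmoothC s) : SmoothC (swp s) := by
  intro e he h0
  have h1 : sw e ∈ Curve s := by
    have := curve_sw he
    rwa [swp_swp] at this
  apply h _ h1
  have h2 := tau_sw s (sw e)
  rw [sw_sw, h0] at h2
  have e0 := congrFun h2 0
  have e1 := congrFun h2 1
  have e2 := congrFun h2 2
  simp only [Pi.zero_apply, Matrix.cons_val] at e0 e1 e2
  funext i
  fin_cases i
  · simpa using e0.symm
  · simpa using e1.symm
  · simpa using e2.symm

theorem nu_mem (q : Tot) (h : q ∈ XS) : nu q ∈ XS :=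
  ⟨smoothC_sw h.1, fun i => curve_sw (h.2.1 i), fun i j hij => h.2.2 (by
    have : sw (sw (q.2 i)) = sw (sw (q.2 j)) := congrArg sw hij
    simpa only [sw_sw] using this)⟩

theorem continuous_sw : Continuous sw := by
  apply continuous_pi
  intro i
  fin_cases i <;> simp [sw] <;> fun_prop

theorem continuous_swp : Continuous swp := by
  apply continuous_pi
  intro i
  fin_cases i <;> simp [swp] <;> fun_prop

theorem continuous_nu : Continuous nu := by
  apply Continuous.prodMk
  · exact continuous_swp.comp continuous_fst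
  · apply continuous_pi
    intro i
    exact continuous_sw.comp ((continuous_apply i).comp continuous_snd)

/-! ## The equations of the fixed set -/

theorem continuous_betaC : Continuous betaC := by
  apply continuous_pi
  intro i
  fin_cases i <;> simp [betaC] <;> fun_prop

theorem continuous_betaR : Continuous betaR := by
  apply continuous_pi
  intro i
  unfold betaR
  split_ifs
  · exact Complex.continuous_re.comp ((continuous_apply _).comp continuous_betaC)
  · exact Complex.continuous_im.comp ((continuous_apply _).comp continuous_betaC)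

theorem betaC_nu (q : Tot) : betaC (nu q) = - betaC q := by
  funext i
  fin_cases i <;> simp [betaC, nu, swp, sw]

theorem betaR_nu (q : Tot) : betaR (nu q) = - betaR q := by
  funext i
  simp only [betaR, betaC_nu, Pi.neg_apply, Complex.neg_re, Complex.neg_im]
  split_ifs <;> rfl

theorem betaC_eq_zero_of_betaR {q : Tot} (h : betaR q = 0) : betaC q = 0 := by
  funext i
  have h1 := congrFun h ⟨i.val, by omega⟩
  have h2 := congrFun h ⟨i.val + 7, by omega⟩
  rw [betaR, dif_pos i.2] at h1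
  rw [betaR, dif_neg (by simp)] at h2
  simp only [Nat.add_sub_cancel, Pi.zero_apply, Fin.eta] at h1 h2
  exact Complex.ext h1 h2

theorem betaC_eq_zero {q : Tot} :
    betaC q = 0 ↔ (q.1 1 = 0 ∧ q.1 4 = 0) ∧ ∀ i, q.2 i 1 = 0 := by
  constructor
  · intro h
    have h0 := congrFun h 0
    have h1 := congrFun h 1
    have h2 := congrFun h 2
    have h3 := congrFun h 3
    have h4 := congrFun h 4
    have h5 := congrFun h 5
    have h6 := congrFun h 6
    simp only [betaC, Matrix.cons_val, Pi.zero_apply] at h0 h1 h2 h3 h4 h5 h6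
    refine ⟨⟨h0, h1⟩, fun i => ?_⟩
    fin_cases i <;> assumption
  · rintro ⟨⟨h0, h1⟩, h2⟩
    funext i
    fin_cases i <;> simp [betaC, h0, h1, h2]

theorem nu_eq_iff {q : Tot} : nu q = q ↔ (q.1 1 = 0 ∧ q.1 4 = 0) ∧ ∀ i, q.2 i 1 = 0 := by
  constructor
  · intro h
    have h1 : swp q.1 = q.1 := congrArg Prod.fst h
    have h2 : ∀ i, sw (q.2 i) = q.2 i := fun i => congrFun (congrArg Prod.snd h) i
    refine ⟨⟨?_, ?_⟩, fun i => ?_⟩
    · have := congrFun h1 1
      simp only [swp, Matrix.cons_val] at this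
      exact neg_eq_self.1 this
    · have := congrFun h1 4
      simp only [swp, Matrix.cons_val] at this
      exact neg_eq_self.1 this
    · have := congrFun (h2 i) 1
      simp only [sw, Matrix.cons_val] at this
      exact neg_eq_self.1 this
  · rintro ⟨⟨h0, h1⟩, h2⟩
    apply Prod.ext
    · funext i
      fin_cases i <;> simp [nu, swp, h0, h1]
    · funext j i
      fin_cases i <;> simp [nu, sw, h2]

theorem betaR_zero (q : Tot) (h : betaR q = 0) : nu q = q :=
  nu_eq_iff.2 (betaC_eq_zero.1 (betaC_eq_zero_of_betaR h))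

theorem betaR_eq_zero {q : Tot} : betaR q = 0 ↔ nu q = q := by
  rw [nu_eq_iff, ← betaC_eq_zero]
  constructor
  · exact betaC_eq_zero_of_betaR
  · intro h
    funext i
    unfold betaR
    split_ifs <;> simp [h]


/-! ## Lagrange interpolation -/

section Lagrange
variable {ι : Type*} [DecidableEq ι] {s : Finset ι} {v : ι → ℂ} {P : ℂ[X]}

theorem eq_nodal (hv : Set.InjOn v s) (hm : P.Monic) (hd : P.natDegree = s.card)
    (h0 : ∀ i ∈ s, P.eval (v i) = 0) : P = Lagrange.nodal s v := by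
  apply Polynomial.eq_of_degree_sub_lt_of_eval_index_eq s hv
  · have h1 : P.degree = (Lagrange.nodal s v).degree := by
      rw [Lagrange.degree_nodal, Polynomial.degree_eq_natDegree hm.ne_zero, hd]
    have h2 := Polynomial.degree_sub_lt_left h1 hm.ne_zero
      (by rw [hm.leadingCoeff, Lagrange.nodal_monic.leadingCoeff])
    rwa [Polynomial.degree_eq_natDegree hm.ne_zero, hd] at h2
  · intro i hi
    rw [h0 i hi, Lagrange.eval_nodal_at_node hi]

theorem sum_div_derivative (hv : Set.InjOn v s) (hm : P.Monic) (hd : P.natDegree = s.card)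
    (h0 : ∀ i ∈ s, P.eval (v i) = 0) {q : ℂ[X]} (hq : q.degree < s.card) :
    ∑ i ∈ s, q.eval (v i) / P.derivative.eval (v i) = q.coeff (s.card - 1) := by
  rw [Lagrange.coeff_eq_sum hv hq]
  apply Finset.sum_congr rfl
  intro i hi
  rw [eq_nodal hv hm hd h0, Lagrange.eval_nodal_derivative_eval_node_eq hi, Lagrange.eval_nodal]

theorem derivative_ne_zero (hv : Set.InjOn v s) (hm : P.Monic) (hd : P.natDegree = s.card)
    (h0 : ∀ i ∈ s, P.eval (v i) = 0) {i : ι} (hi : i ∈ s) : P.derivative.eval (v i) ≠ 0 := by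
  rw [eq_nodal hv hm hd h0, Lagrange.eval_nodal_derivative_eval_node_eq hi, Lagrange.eval_nodal,
    Finset.prod_ne_zero_iff]
  intro j hj h
  rw [Finset.mem_erase] at hj
  exact hj.1 (hv hj.2 hi (sub_eq_zero.1 h).symm)

theorem exists_of_root (hv : Set.InjOn v s) (hm : P.Monic) (hd : P.natDegree = s.card)
    (h0 : ∀ i ∈ s, P.eval (v i) = 0) {x : ℂ} (hx : P.eval x = 0) : ∃ i ∈ s, x = v i := by
  rw [eq_nodal hv hm hd h0, Lagrange.eval_nodal, Finset.prod_eq_zero_iff] at hx
  obtain ⟨i, hi, h⟩ := hx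
  exact ⟨i, hi, sub_eq_zero.1 h⟩

theorem card_le_of_roots (hv : Set.InjOn v s) (hm : P.Monic) (h0 : ∀ i ∈ s, P.eval (v i) = 0) :
    s.card ≤ P.natDegree := by
  by_contra h
  push Not at h
  apply hm.ne_zero
  apply Polynomial.eq_zero_of_degree_lt_of_eval_index_eq_zero s hv _ h0
  rw [Polynomial.degree_eq_natDegree hm.ne_zero]
  exact_mod_cast h

end Lagrange

/-- The equations of a fixed curve at a point with `Y = 0`. -/
theorem curve_fixed {s : Par} {e : Pt} (he : e ∈ Curve s) (h1 : e 1 = 0) :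
    e 0 * e 2 = - s 6 ∧
    e 2 ^ 2 = e 0 ^ 3 + s 0 * (e 0 * e 2) + s 2 * e 0 ^ 2 + s 3 * e 2 + s 5 * e 0 + s 7 := by
  obtain ⟨a, b⟩ := he
  rw [f1, h1] at a
  rw [f2, h1] at b
  constructor
  · linear_combination -a
  · linear_combination b

/-- the quintic -/
noncomputable def qui (s : Par) : ℂ[X] :=
  X ^ 5 + C (s 2) * X ^ 4 + C (s 5) * X ^ 3 + C (s 7 - s 0 * s 6) * X ^ 2 - C (s 3 * s 6) * X
    - C (s 6 ^ 2)

/-- the quadratic polynomial -/
noncomputable def qua (s : Par) : ℂ[X] := X ^ 2 - C (s 3) * X - C (s 7)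

/-- the cubic polynomial -/
noncomputable def cub (s : Par) : ℂ[X] := X ^ 3 + C (s 2) * X ^ 2 + C (s 5) * X + C (s 7)

theorem qui_deg (s : Par) : (qui s).natDegree = 5 := by unfold qui; compute_degree!
theorem qui_monic (s : Par) : (qui s).Monic := by unfold qui; monicity!
theorem qua_deg (s : Par) : (qua s).natDegree = 2 := by unfold qua; compute_degree!
theorem qua_monic (s : Par) : (qua s).Monic := by unfold qua; monicity!
theorem cub_deg (s : Par) : (cub s).natDegree = 3 := by unfold cub; compute_degree!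
theorem cub_monic (s : Par) : (cub s).Monic := by unfold cub; monicity!

/-- the second component of `tau` at a point with `Y = 0`, if `s₃ = s₇ = 0` -/
def gg (s : Par) (e : Pt) : ℂ :=
  3 * e 0 ^ 3 + 2 * s 2 * e 0 ^ 2 + s 5 * e 0 + 2 * e 2 ^ 2 - s 3 * e 2

theorem qua_deriv (s : Par) (z : ℂ) : (qua s).derivative.eval z = 2 * z - s 3 := by
  simp [qua, one_add_one_eq_two]

theorem cub_deriv (s : Par) (x : ℂ) :
    (cub s).derivative.eval x = 3 * x ^ 2 + s 2 * (2 * x) + s 5 := by
  simp [cub]; ring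

theorem qui_deriv {s : Par} {ρ : Fin 5 → Pt} (hρ : ∀ i, ρ i ∈ Curve s) (hY : ∀ i, ρ i 1 = 0)
    (i : Fin 5) : (qui s).derivative.eval (ρ i 0) = ρ i 0 * gg s (ρ i) := by
  obtain ⟨e1, e2⟩ := curve_fixed (hρ i) (hY i)
  rw [gg, qui]
  simp only [derivative_add, derivative_sub, derivative_mul, derivative_X_pow, derivative_C,
    derivative_X, eval_add, eval_sub, eval_mul, eval_pow, eval_X, eval_C, eval_zero, eval_one]
  have h3 : s 6 = - (ρ i 0 * ρ i 2) := by rw [e1, neg_neg]
  rw [h3]
  push_cast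
  linear_combination (-2 * ρ i 0) * e2

section Fixed
variable {s : Par} {ρ : Fin 5 → Pt} (hρ : ∀ i, ρ i ∈ Curve s) (hY : ∀ i, ρ i 1 = 0)
  (hinj : Function.Injective ρ)
include hρ hY hinj

theorem pt_fixed (i : Fin 5) : ρ i 0 * ρ i 2 = - s 6 ∧
    ρ i 2 ^ 2 = ρ i 0 ^ 3 + s 0 * (ρ i 0 * ρ i 2) + s 2 * ρ i 0 ^ 2
      + s 3 * ρ i 2 + s 5 * ρ i 0 + s 7 :=
  curve_fixed (hρ i) (hY i)

theorem pt_inj {i j : Fin 5} (h0 : ρ i 0 = ρ j 0) (h2 : ρ i 2 = ρ j 2) : i = j := by
  apply hinj
  funext k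
  fin_cases k
  · exact h0
  · show ρ i 1 = ρ j 1
    rw [hY i, hY j]
  · exact h2

/-! ### The case `s₁₀ ≠ 0` -/

theorem x_ne_zero (h6 : s 6 ≠ 0) (i : Fin 5) : ρ i 0 ≠ 0 := by
  intro h
  have := (pt_fixed hρ hY hinj i).1
  rw [h, zero_mul] at this
  exact h6 (neg_eq_zero.1 this.symm)

theorem x_inj (h6 : s 6 ≠ 0) : Function.Injective fun i => ρ i 0 := by
  intro i j h
  have h' : ρ i 0 = ρ j 0 := h
  apply pt_inj hρ hY hinj h'
  have e1 := (pt_fixed hρ hY hinj i).1
  have e2 := (pt_fixed hρ hY hinj j).1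
  rw [h'] at e1
  exact mul_left_cancel₀ (x_ne_zero hρ hY hinj h6 j) (e1.trans e2.symm)

omit hρ hY hinj in
theorem qui_eval {s : Par} {x z : ℂ} (h1 : x * z = - s 6)
    (h2 : z ^ 2 = x ^ 3 + s 0 * (x * z) + s 2 * x ^ 2 + s 3 * z + s 5 * x + s 7) :
    (qui s).eval x = 0 := by
  unfold qui
  simp only [eval_add, eval_sub, eval_mul, eval_pow, eval_X, eval_C]
  have h3 : s 6 = - (x * z) := by rw [h1, neg_neg]
  rw [h3]
  linear_combination (- x ^ 2) * h2

theorem sum_inv_of_ne (h6 : s 6 ≠ 0) : ∑ i, (gg s (ρ i))⁻¹ = 0 := by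
  have hroot : ∀ i ∈ (Finset.univ : Finset (Fin 5)), (qui s).eval (ρ i 0) = 0 :=
    fun i _ => qui_eval (pt_fixed hρ hY hinj i).1 (pt_fixed hρ hY hinj i).2
  have h := sum_div_derivative (s := Finset.univ) (v := fun i => ρ i 0) (P := qui s)
    (x_inj hρ hY hinj h6).injOn (qui_monic _) (by rw [qui_deg]; rfl) hroot (q := X)
    (by rw [degree_X]; norm_num)
  rw [show (Finset.univ : Finset (Fin 5)).card - 1 = 4 from rfl, coeff_X_of_ne_one (by norm_num)] at h
  rw [← h]
  apply Finset.sum_congr rfl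
  intro i _
  have hx := x_ne_zero hρ hY hinj h6 i
  have hd := qui_deriv hρ hY i
  rw [hd, eval_X, div_mul_cancel_left₀ hx]

/-! ### The case `s₁₀ = 0` -/

theorem x_or_z (h6 : s 6 = 0) (i : Fin 5) : ρ i 0 = 0 ∨ ρ i 2 = 0 := by
  have := (pt_fixed hρ hY hinj i).1
  rw [h6, neg_zero] at this
  exact mul_eq_zero.1 this

omit hρ hY hinj in
theorem qua_eval {s : Par} {z : ℂ} (h2 : z ^ 2 = (0 : ℂ) ^ 3 + s 0 * (0 * z) + s 2 * 0 ^ 2
    + s 3 * z + s 5 * 0 + s 7) : (qua s).eval z = 0 := by
  unfold qua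
  simp only [eval_sub, eval_mul, eval_pow, eval_X, eval_C]
  linear_combination h2

omit hρ hY hinj in
theorem cub_eval {s : Par} {x : ℂ} (h2 : (0 : ℂ) ^ 2 = x ^ 3 + s 0 * (x * 0) + s 2 * x ^ 2
    + s 3 * 0 + s 5 * x + s 7) : (cub s).eval x = 0 := by
  unfold cub
  simp only [eval_add, eval_mul, eval_pow, eval_X, eval_C]
  linear_combination -h2

theorem split_card (h6 : s 6 = 0) :
    (Finset.univ.filter fun i => ρ i 0 = 0).card = 2 ∧
    (Finset.univ.filter fun i => ¬ ρ i 0 = 0).card = 3 ∧ s 7 ≠ 0 := by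
  classical
  have hz : ∀ i, ¬ ρ i 0 = 0 → ρ i 2 = 0 := fun i h => (x_or_z hρ hY hinj h6 i).resolve_left h
  have c0 : (Finset.univ.filter fun i => ρ i 0 = 0).card ≤ 2 := by
    refine (card_le_of_roots (v := fun i => ρ i 2) (P := qua s) ?_ (qua_monic _) ?_).trans_eq
      (qua_deg _)
    rotate_left
    · intro i hi
      rw [Finset.mem_filter] at hi
      have := (pt_fixed hρ hY hinj i).2
      rw [hi.2] at this
      exact qua_eval this
    · intro i hi j hj h
      simp only [Finset.coe_filter, Finset.mem_univ, true_and, Set.mem_ofPred_eq] at hi hj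
      exact pt_inj hρ hY hinj (hi.trans hj.symm) h
  have inj1 : Set.InjOn (fun i => ρ i 0)
      (Finset.univ.filter fun i => ¬ ρ i 0 = 0 : Finset (Fin 5)) := by
    intro i hi j hj h
    simp only [Finset.coe_filter, Finset.mem_univ, true_and, Set.mem_ofPred_eq] at hi hj
    exact pt_inj hρ hY hinj h ((hz i hi).trans (hz j hj).symm)
  have r1 : ∀ i ∈ (Finset.univ.filter fun i => ¬ ρ i 0 = 0), (cub s).eval (ρ i 0) = 0 := by
    intro i hi
    rw [Finset.mem_filter] at hi
    have := (pt_fixed hρ hY hinj i).2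
    rw [hz i hi.2] at this
    exact cub_eval this
  have c1 : (Finset.univ.filter fun i => ¬ ρ i 0 = 0).card ≤ 3 := by
    exact (card_le_of_roots (v := fun i => ρ i 0) inj1 (cub_monic _) r1).trans_eq (cub_deg _)
  have hs : (Finset.univ.filter fun i => ρ i 0 = 0).card +
      (Finset.univ.filter fun i => ¬ ρ i 0 = 0).card = 5 := by
    rw [Finset.card_filter_add_card_filter_not]
    rfl
  refine ⟨by omega, by omega, fun h7 => ?_⟩
  have c2 : (Finset.univ.filter fun i => ¬ ρ i 0 = 0).card ≤ 2 := by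
    have hm : (X ^ 2 + C (s 2) * X + C (s 5) : ℂ[X]).Monic := by monicity!
    have hd : (X ^ 2 + C (s 2) * X + C (s 5) : ℂ[X]).natDegree = 2 := by compute_degree!
    refine (card_le_of_roots (v := fun i => ρ i 0) inj1 hm ?_).trans_eq hd
    intro i hi
    have h1 := r1 i hi
    rw [Finset.mem_filter] at hi
    unfold cub at h1
    simp only [eval_add, eval_mul, eval_pow, eval_X, eval_C, h7] at h1 ⊢
    apply mul_left_cancel₀ hi.2
    linear_combination h1
  omega

theorem sum_inv_of_eq (h6 : s 6 = 0) : ∑ i, (gg s (ρ i))⁻¹ = 0 := by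
  classical
  obtain ⟨c0, c1, h7⟩ := split_card hρ hY hinj h6
  have hz : ∀ i, ¬ ρ i 0 = 0 → ρ i 2 = 0 := fun i h => (x_or_z hρ hY hinj h6 i).resolve_left h
  rw [← Finset.sum_filter_add_sum_filter_not Finset.univ (fun i => ρ i 0 = 0)]
  have s0 : ∑ i ∈ Finset.univ.filter (fun i => ρ i 0 = 0), (gg s (ρ i))⁻¹ = (s 7)⁻¹ := by
    have r0 : ∀ i ∈ Finset.univ.filter (fun i => ρ i 0 = 0), (qua s).eval (ρ i 2) = 0 := by
      intro i hi
      rw [Finset.mem_filter] at hi
      have := (pt_fixed hρ hY hinj i).2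
      rw [hi.2] at this
      exact qua_eval this
    have h := sum_div_derivative (s := Finset.univ.filter (fun i => ρ i 0 = 0))
      (v := fun i => ρ i 2) (P := qua s) (by
        intro i hi j hj h
        simp only [Finset.coe_filter, Finset.mem_univ, true_and, Set.mem_ofPred_eq] at hi hj
        exact pt_inj hρ hY hinj (hi.trans hj.symm) h) (qua_monic _) (by rw [qua_deg, c0]) r0
      (q := C (s 7)⁻¹ * (X - C (s 3))) (by
        rw [c0]
        rw [degree_C_mul (inv_ne_zero h7), degree_X_sub_C]; norm_num)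
    rw [c0] at h
    have hc : (C (s 7)⁻¹ * (X - C (s 3)) : ℂ[X]).coeff (2 - 1) = (s 7)⁻¹ := by
      rw [coeff_C_mul, coeff_sub]
      simp
    rw [hc] at h
    rw [← h]
    apply Finset.sum_congr rfl
    intro i hi
    have h1 := r0 i hi
    rw [Finset.mem_filter] at hi
    rw [qua_deriv]
    unfold qua at h1
    simp only [eval_sub, eval_mul, eval_pow, eval_X, eval_C] at h1 ⊢
    rw [gg, hi.2]
    have hz0 : ρ i 2 ≠ 0 := by
      intro h0
      rw [h0] at h1
      apply h7
      linear_combination -h1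
    have key : (s 7)⁻¹ * (ρ i 2 - s 3) = (ρ i 2)⁻¹ := by
      field_simp
      linear_combination h1
    rw [key, div_eq_mul_inv, ← mul_inv]
    congr 1
    ring
  have s1 : ∑ i ∈ Finset.univ.filter (fun i => ¬ ρ i 0 = 0), (gg s (ρ i))⁻¹ = - (s 7)⁻¹ := by
    have r1 : ∀ i ∈ Finset.univ.filter (fun i => ¬ ρ i 0 = 0), (cub s).eval (ρ i 0) = 0 := by
      intro i hi
      rw [Finset.mem_filter] at hi
      have := (pt_fixed hρ hY hinj i).2
      rw [hz i hi.2] at this
      exact cub_eval this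
    have h := sum_div_derivative (s := Finset.univ.filter (fun i => ¬ ρ i 0 = 0))
      (v := fun i => ρ i 0) (P := cub s) (by
        intro i hi j hj h
        simp only [Finset.coe_filter, Finset.mem_univ, true_and, Set.mem_ofPred_eq] at hi hj
        exact pt_inj hρ hY hinj h ((hz i hi).trans (hz j hj).symm)) (cub_monic _)
        (by rw [cub_deg, c1]) r1
      (q := C (-(s 7)⁻¹) * (X ^ 2 + C (s 2) * X + C (s 5))) (by
        rw [c1]
        have : (X ^ 2 + C (s 2) * X + C (s 5) : ℂ[X]).degree = 2 := by compute_degree!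
        rw [degree_C_mul (neg_ne_zero.2 (inv_ne_zero h7)), this]; norm_num)
    rw [c1] at h
    have hc : (C (-(s 7)⁻¹) * (X ^ 2 + C (s 2) * X + C (s 5)) : ℂ[X]).coeff (3 - 1)
        = - (s 7)⁻¹ := by
      rw [coeff_C_mul, coeff_add, coeff_add, coeff_C_mul]
      simp [coeff_X]
    rw [hc] at h
    rw [← h]
    apply Finset.sum_congr rfl
    intro i hi
    have h1 := r1 i hi
    rw [Finset.mem_filter] at hi
    rw [cub_deriv]
    unfold cub at h1
    simp only [eval_add, eval_mul, eval_pow, eval_X, eval_C] at h1 ⊢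
    rw [gg, hz i hi.2]
    have hx0 : ρ i 0 ≠ 0 := hi.2
    have key : -(s 7)⁻¹ * (ρ i 0 ^ 2 + s 2 * ρ i 0 + s 5) = (ρ i 0)⁻¹ := by
      field_simp
      linear_combination -h1
    rw [key, div_eq_mul_inv, ← mul_inv]
    congr 1
    ring
  rw [s0, s1, add_neg_cancel]

/-- The sum of the `1 / G i` is zero. -/
theorem sum_inv_Gf : ∑ i, (gg s (ρ i))⁻¹ = 0 := by
  by_cases h6 : s 6 = 0
  · exact sum_inv_of_eq hρ hY hinj h6
  · exact sum_inv_of_ne hρ hY hinj h6

/-- The zeros of `Y` on a fixed curve are the five marked points. -/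
theorem zero_Y {e : Pt} (he : e ∈ Curve s) (h1 : e 1 = 0) : ∃ i, e = ρ i := by
  classical
  obtain ⟨e1, e2⟩ := curve_fixed he h1
  have hfin : ∀ i, e 0 = ρ i 0 → e 2 = ρ i 2 → e = ρ i := by
    intro i a b
    funext k
    fin_cases k
    · exact a
    · show e 1 = ρ i 1
      rw [h1, hY i]
    · exact b
  by_cases h6 : s 6 = 0
  · obtain ⟨c0, c1, h7⟩ := split_card hρ hY hinj h6
    have hz : ∀ i, ¬ ρ i 0 = 0 → ρ i 2 = 0 := fun i h => (x_or_z hρ hY hinj h6 i).resolve_left h
    rw [h6, neg_zero] at e1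
    by_cases h0 : e 0 = 0
    · rw [h0] at e2
      obtain ⟨i, hi, h⟩ := exists_of_root (s := Finset.univ.filter (fun i => ρ i 0 = 0))
        (v := fun i => ρ i 2) (P := qua s) (by
        intro i hi j hj h
        simp only [Finset.coe_filter, Finset.mem_univ, true_and, Set.mem_ofPred_eq] at hi hj
        exact pt_inj hρ hY hinj (hi.trans hj.symm) h) (qua_monic _) (by rw [qua_deg, c0]) (by
        intro i hi
        rw [Finset.mem_filter] at hi
        have := (pt_fixed hρ hY hinj i).2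
        rw [hi.2] at this
        exact qua_eval this) (qua_eval e2)
      rw [Finset.mem_filter] at hi
      exact ⟨i, hfin i (h0.trans hi.2.symm) h⟩
    · have h2 : e 2 = 0 := (mul_eq_zero.1 e1).resolve_left h0
      rw [h2] at e2
      obtain ⟨i, hi, h⟩ := exists_of_root (s := Finset.univ.filter (fun i => ¬ ρ i 0 = 0))
        (v := fun i => ρ i 0) (P := cub s) (by
        intro i hi j hj h
        simp only [Finset.coe_filter, Finset.mem_univ, true_and, Set.mem_ofPred_eq] at hi hj
        exact pt_inj hρ hY hinj h ((hz i hi).trans (hz j hj).symm)) (cub_monic _)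
        (by rw [cub_deg, c1]) (by
        intro i hi
        rw [Finset.mem_filter] at hi
        have := (pt_fixed hρ hY hinj i).2
        rw [hz i hi.2] at this
        exact cub_eval this) (cub_eval e2)
      rw [Finset.mem_filter] at hi
      exact ⟨i, hfin i h (h2.trans (hz i hi.2).symm)⟩
  · obtain ⟨i, -, h⟩ := exists_of_root (s := Finset.univ) (v := fun i => ρ i 0) (P := qui s)
      (x_inj hρ hY hinj h6).injOn (qui_monic _) (by rw [qui_deg]; rfl)
      (fun i _ => qui_eval (pt_fixed hρ hY hinj i).1 (pt_fixed hρ hY hinj i).2) (qui_eval e1 e2)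
    have h' : e 0 = ρ i 0 := h
    refine ⟨i, hfin i h' ?_⟩
    have e3 := (pt_fixed hρ hY hinj i).1
    rw [h'] at e1
    exact mul_left_cancel₀ (x_ne_zero hρ hY hinj h6 i) (e1.trans e3.symm)

theorem gg_ne_zero (i : Fin 5) : gg s (ρ i) ≠ 0 := by
  classical
  by_cases h6 : s 6 = 0
  · obtain ⟨c0, c1, h7⟩ := split_card hρ hY hinj h6
    have hz : ∀ i, ¬ ρ i 0 = 0 → ρ i 2 = 0 :=
      fun i h => (x_or_z hρ hY hinj h6 i).resolve_left h
    by_cases h0 : ρ i 0 = 0
    · have r0 : ∀ i ∈ Finset.univ.filter (fun i => ρ i 0 = 0), (qua s).eval (ρ i 2) = 0 := by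
        intro i hi
        rw [Finset.mem_filter] at hi
        have := (pt_fixed hρ hY hinj i).2
        rw [hi.2] at this
        exact qua_eval this
      have hd := derivative_ne_zero (s := Finset.univ.filter (fun i => ρ i 0 = 0))
        (v := fun i => ρ i 2) (P := qua s) (by
          intro i hi j hj h
          simp only [Finset.coe_filter, Finset.mem_univ, true_and, Set.mem_ofPred_eq] at hi hj
          exact pt_inj hρ hY hinj (hi.trans hj.symm) h) (qua_monic _) (by rw [qua_deg, c0]) r0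
          (i := i) (by rw [Finset.mem_filter]; exact ⟨Finset.mem_univ _, h0⟩)
      rw [qua_deriv] at hd
      have h1 := r0 i (by rw [Finset.mem_filter]; exact ⟨Finset.mem_univ _, h0⟩)
      unfold qua at h1
      simp only [eval_sub, eval_mul, eval_pow, eval_X, eval_C] at h1
      have hz0 : ρ i 2 ≠ 0 := by
        intro h
        rw [h] at h1
        apply h7
        linear_combination -h1
      have : gg s (ρ i) = ρ i 2 * (2 * ρ i 2 - s 3) := by rw [gg, h0]; ring
      rw [this]
      exact mul_ne_zero hz0 hd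
    · have r1 : ∀ i ∈ Finset.univ.filter (fun i => ¬ ρ i 0 = 0), (cub s).eval (ρ i 0) = 0 := by
        intro i hi
        rw [Finset.mem_filter] at hi
        have := (pt_fixed hρ hY hinj i).2
        rw [hz i hi.2] at this
        exact cub_eval this
      have hd := derivative_ne_zero (s := Finset.univ.filter (fun i => ¬ ρ i 0 = 0))
        (v := fun i => ρ i 0) (P := cub s) (by
          intro i hi j hj h
          simp only [Finset.coe_filter, Finset.mem_univ, true_and, Set.mem_ofPred_eq] at hi hj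
          exact pt_inj hρ hY hinj h ((hz i hi).trans (hz j hj).symm)) (cub_monic _)
          (by rw [cub_deg, c1]) r1 (i := i)
          (by rw [Finset.mem_filter]; exact ⟨Finset.mem_univ _, h0⟩)
      rw [cub_deriv] at hd
      have : gg s (ρ i) = ρ i 0 * (3 * ρ i 0 ^ 2 + s 2 * (2 * ρ i 0) + s 5) := by
        rw [gg, hz i h0]; ring
      rw [this]
      exact mul_ne_zero h0 hd
  · have hd := derivative_ne_zero (s := Finset.univ) (v := fun i => ρ i 0) (P := qui s)
      (x_inj hρ hY hinj h6).injOn (qui_monic _) (by rw [qui_deg]; rfl)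
      (fun i _ => qui_eval (pt_fixed hρ hY hinj i).1 (pt_fixed hρ hY hinj i).2)
      (Finset.mem_univ i)
    rw [qui_deriv hρ hY] at hd
    exact right_ne_zero_of_mul hd

end Fixed

/-! ## The functions `G` -/

theorem continuous_tau : Continuous fun x : Par × Pt => tau x.1 x.2 := by
  apply continuous_pi
  intro i
  fin_cases i <;> simp [tau, g1, g2] <;> fun_prop

theorem continuous_Gf : Continuous Gf := by
  apply continuous_pi
  intro i
  have h : Continuous fun q : Tot => ((q.1, q.2 i) : Par × Pt) := by fun_prop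
  have h2 : Continuous ((fun x : Par × Pt => tau x.1 x.2) ∘ fun q : Tot => ((q.1, q.2 i) : Par × Pt)) :=
    continuous_tau.comp h
  have h3 := (continuous_pi_iff.1 h2) 1
  have h4 : (fun q : Tot => Gf q i) = fun q : Tot =>
      ((fun x : Par × Pt => tau x.1 x.2) ∘ fun q : Tot => ((q.1, q.2 i) : Par × Pt)) q 1 := by
    funext q
    simp only [Gf, Function.comp_apply]
  rw [h4]
  exact h3

theorem tau_one {s : Par} (h1 : s 1 = 0) {e : Pt} (hY : e 1 = 0) : tau s e 1 = gg s e := by
  simp only [gg, tau, g1, g2, Matrix.cons_val, hY, h1]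
  ring

/-- the purely algebraic statement: parameters with `s 1 = s 4 = 0` and five distinct points with
`Y = 0` on the curve -/
theorem sys_G (s : Par) (h1 : s 1 = 0) (_h4 : s 4 = 0) (ρ : Fin 5 → Pt)
    (hρ : ∀ i, ρ i ∈ Curve s) (hY : ∀ i, ρ i 1 = 0) (hinj : Function.Injective ρ) :
    (∀ i, tau s (ρ i) 1 ≠ 0) ∧ (∑ i, (tau s (ρ i) 1)⁻¹ = 0) ∧
      ∀ e ∈ Curve s, e 1 = 0 → ∃ i, e = ρ i := by
  refine ⟨fun i => ?_, ?_, fun e he h => zero_Y hρ hY hinj he h⟩
  · rw [tau_one h1 (hY i)]
    exact gg_ne_zero hρ hY hinj i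
  · rw [← sum_inv_Gf hρ hY hinj]
    exact Finset.sum_congr rfl fun i _ => by rw [tau_one h1 (hY i)]

theorem fixed_G (q : Tot) (hq : q ∈ XS) (hν : nu q = q) :
    q.1 1 = 0 ∧ q.1 4 = 0 ∧ (∀ i, q.2 i 1 = 0) ∧ (∀ i, Gf q i ≠ 0) ∧ (∑ i, (Gf q i)⁻¹ = 0) ∧
      ∀ e ∈ Curve q.1, e 1 = 0 → ∃ i, e = q.2 i := by
  obtain ⟨⟨h1, h4⟩, hY⟩ := nu_eq_iff.1 hν
  exact ⟨h1, h4, hY, sys_G q.1 h1 h4 q.2 hq.2.1 hY hq.2.2⟩

end KZP
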