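import Mathlib

/-!
# KZP-COMP: a Noetherian domain with principal cotangent spaces is a Dedekind domain
-/

open Ideal IsLocalRing

namespace KZP

theorem maximalIdeal_principal_of {R : Type*} [CommRing R] [IsNoetherianRing R] (m : Ideal R)
    [hm : m.IsMaximal] {π : R} (hπ : π ∈ m) (h : m ≤ Ideal.span {π} ⊔ m ^ 2) :
    (maximalIdeal (Localization.AtPrime m)).IsPrincipal := by
  have e1 : Ideal.map (algebraMap R (Localization.AtPrime m)) m =
      maximalIdeal (Localization.AtPrime m) := Localization.AtPrime.map_eq_maximalIdeal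
  have h2 : maximalIdeal (Localization.AtPrime m) ≤
      Ideal.span {algebraMap R (Localization.AtPrime m) π} ⊔
        maximalIdeal (Localization.AtPrime m) • maximalIdeal (Localization.AtPrime m) := by
    have := Ideal.map_mono (f := algebraMap R (Localization.AtPrime m)) h
    rwa [Ideal.map_sup, Ideal.map_pow, Ideal.map_span, Set.image_singleton, e1, pow_two] at this
  have h3 : maximalIdeal (Localization.AtPrime m) ≤
      Ideal.span {algebraMap R (Localization.AtPrime m) π} := by
    apply Submodule.le_of_le_smul_of_le_jacobson_bot (IsNoetherian.noetherian _) _ h2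
    rw [IsLocalRing.jacobson_eq_maximalIdeal ⊥ bot_ne_top]
  have h4 : Ideal.span {algebraMap R (Localization.AtPrime m) π} ≤
      maximalIdeal (Localization.AtPrime m) := by
    rw [Ideal.span_le, Set.singleton_subset_iff, ← e1]
    exact Ideal.mem_map_of_mem _ hπ
  exact ⟨⟨_, le_antisymm h3 h4⟩⟩

theorem dedekind_of_cotangent {R : Type*} [CommRing R] [IsDomain R] [IsNoetherianRing R]
    (h : ∀ m : Ideal R, m.IsMaximal → ∃ π ∈ m, m ≤ Ideal.span {π} ⊔ m ^ 2) :
    IsDedekindDomain R := by
  have key : ∀ P : Ideal R, P ≠ ⊥ → ∀ hP : P.IsPrime, P.IsMaximal := by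
    intro P hP0 hP
    obtain ⟨m, hm, hPm⟩ := P.exists_le_maximal hP.ne_top
    obtain ⟨π, hπ, hle⟩ := h m hm
    have hpr := maximalIdeal_principal_of m hπ hle
    have hdisj : Disjoint (m.primeCompl : Set R) (P : Set R) := by
      rw [Set.disjoint_left]
      intro x hx hx'
      exact hx (hPm hx')
    have hmp : (Ideal.map (algebraMap R (Localization.AtPrime m)) P).IsPrime :=
      IsLocalization.isPrime_of_isPrime_disjoint m.primeCompl _ P hP hdisj
    have hm0 : Ideal.map (algebraMap R (Localization.AtPrime m)) P ≠ ⊥ := by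
      intro h0
      apply hP0
      rw [← IsLocalization.under_map_of_isPrime_disjoint m.primeCompl (Localization.AtPrime m)
        hP hdisj, h0]
      rw [Ideal.under_def, ← RingHom.ker_eq_comap_bot, RingHom.ker_eq_bot_iff_eq_zero]
      intro x hx
      exact (IsLocalization.to_map_eq_zero_iff (Localization.AtPrime m)
        m.primeCompl_le_nonZeroDivisors).1 hx
    have hpid : IsPrincipalIdealRing (Localization.AtPrime m) :=
      ((tfae_of_isNoetherianRing_of_isLocalRing_of_isDomain
        (Localization.AtPrime m)).out 4 0).1 hpr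
    have hmax : (Ideal.map (algebraMap R (Localization.AtPrime m)) P).IsMaximal :=
      hmp.isMaximal hm0
    have e2 := IsLocalRing.eq_maximalIdeal hmax
    have e3 : P = m := by
      rw [← IsLocalization.under_map_of_isPrime_disjoint m.primeCompl (Localization.AtPrime m)
        hP hdisj, e2]
      exact Localization.AtPrime.under_maximalIdeal
    rw [e3]
    exact hm
  have : IsDedekindDomainDvr R := by
    refine { is_dvr_at_nonzero_prime := fun P hP0 hP => ?_ }
    have hm := key P hP0 hP
    obtain ⟨π, hπ, hle⟩ := h P hm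
    have hpr := maximalIdeal_principal_of P hπ hle
    have hf : ¬ IsField (Localization.AtPrime P) := by
      intro hf
      rw [IsLocalRing.isField_iff_maximalIdeal_eq] at hf
      apply hP0
      rw [eq_bot_iff]
      intro x hx
      have h1 : algebraMap R (Localization.AtPrime P) x ∈ maximalIdeal (Localization.AtPrime P) := by
        rw [← Localization.AtPrime.map_eq_maximalIdeal]
        exact Ideal.mem_map_of_mem _ hx
      rw [hf, Ideal.mem_bot] at h1
      exact (IsLocalization.to_map_eq_zero_iff (Localization.AtPrime P)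
        P.primeCompl_le_nonZeroDivisors).1 h1
    exact ((IsDiscreteValuationRing.TFAE (Localization.AtPrime P) hf).out 4 0).1 hpr
  infer_instance

/-- In a Dedekind domain the cotangent space at a maximal ideal is generated by one element. -/
theorem exists_uniformizer {R : Type*} [CommRing R] [IsDedekindDomain R] (m : Ideal R)
    (hm : m.IsMaximal) (h0 : m ≠ ⊥) : ∃ π ∈ m, m ≤ Ideal.span {π} ⊔ m ^ 2 := by
  have hlt := m.pow_right_strictAnti h0 hm.ne_top (show 1 < 2 by norm_num)
  simp only [pow_one] at hlt
  obtain ⟨π, hπ, hπ2⟩ := SetLike.exists_of_lt hlt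
  refine ⟨π, hπ, fun c hc => ?_⟩
  obtain ⟨d, e, he, hde⟩ := Ideal.exists_mul_add_mem_pow_succ (P := m) h0 (i := 1) π c
    (by rwa [pow_one]) hπ2 (by rwa [pow_one])
  rw [← hde]
  exact Ideal.add_mem _ (Ideal.mem_sup_left (Ideal.mul_mem_right _ _ (Ideal.mem_span_singleton_self π)))
    (Ideal.mem_sup_right he)

end KZP
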