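import Pool.Agent.KZP.CRing
import Pool.Agent.KZP.CLoc

/-!
# KZP-COMP: the coordinate ring is a Dedekind domain if and only if the curve is smooth
-/

open MvPolynomial

namespace KZP

variable {s : Par}

/-- every maximal ideal of the coordinate ring is the ideal of a point of the curve -/
theorem maximal_eq_ker (m : Ideal (CoordRing s)) (hm : m.IsMaximal) :
    ∃ (e : Pt) (he : e ∈ Curve s), m = RingHom.ker (ev he) := by
  have hm' : (Ideal.comap (Ideal.Quotient.mk (Ideal.span {eq1 s, eq2 s})) m).IsMaximal :=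
    Ideal.comap_isMaximal_of_surjective _ Ideal.Quotient.mk_surjective
  obtain ⟨e, he⟩ := (MvPolynomial.isMaximal_iff_eq_vanishingIdeal_singleton).1 hm'
  have hmem : ∀ p : MvPolynomial (Fin 3) ℂ,
      Ideal.Quotient.mk (Ideal.span {eq1 s, eq2 s}) p ∈ m ↔ aeval e p = 0 := by
    intro p
    rw [← Ideal.mem_comap, he, MvPolynomial.mem_vanishingIdeal_singleton_iff]
  have h1 : aeval e (eq1 s) = 0 := by
    rw [← hmem, Ideal.Quotient.eq_zero_iff_mem.2 (Ideal.subset_span (by simp))]
    exact m.zero_mem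
  have h2 : aeval e (eq2 s) = 0 := by
    rw [← hmem, Ideal.Quotient.eq_zero_iff_mem.2 (Ideal.subset_span (by simp))]
    exact m.zero_mem
  have hc : e ∈ Curve s := by
    constructor
    · simpa [eq1, f1] using h1
    · simpa [eq2, f2] using h2
  refine ⟨e, hc, ?_⟩
  ext x
  obtain ⟨p, rfl⟩ := Ideal.Quotient.mk_surjective x
  rw [hmem, RingHom.mem_ker]
  rfl

theorem ker_maximal {e : Pt} (he : e ∈ Curve s) : (RingHom.ker (ev he)).IsMaximal :=
  RingHom.ker_isMaximal_of_surjective _ fun c => ⟨algebraMap ℂ _ c, by simp⟩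

/-- the coordinates centred at a point -/
noncomputable def dd (s : Par) (e : Pt) (i : Fin 3) : CoordRing s := coord s i - algebraMap ℂ (CoordRing s) (e i)

theorem dd_mem {e : Pt} (he : e ∈ Curve s) (i : Fin 3) : dd s e i ∈ RingHom.ker (ev he) := by
  rw [RingHom.mem_ker, dd, map_sub, ev_coord]
  simp

theorem ker_le {e : Pt} (he : e ∈ Curve s) :
    RingHom.ker (ev he) ≤ Ideal.span (Set.range (dd s e)) := by
  have key : ∀ p : MvPolynomial (Fin 3) ℂ,
      Ideal.Quotient.mk (Ideal.span {eq1 s, eq2 s}) p - algebraMap ℂ (CoordRing s) (aeval e p) ∈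
        Ideal.span (Set.range (dd s e)) := by
    intro p
    induction p using MvPolynomial.induction_on with
    | C a =>
      have : Ideal.Quotient.mk (Ideal.span {eq1 s, eq2 s}) (C a) = algebraMap ℂ (CoordRing s) a := rfl
      rw [MvPolynomial.aeval_C, Algebra.algebraMap_self_apply, this, sub_self]
      exact Ideal.zero_mem _
    | add p q hp hq =>
      have := Ideal.add_mem _ hp hq
      rw [map_add, map_add, map_add]
      convert this using 1
      ring
    | mul_X p i hp =>
      rw [map_mul, map_mul, map_mul, aeval_X]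
      have h1 := Ideal.mul_mem_right (coord s i) _ hp
      have h2 : algebraMap ℂ (CoordRing s) (aeval e p) * dd s e i ∈
          Ideal.span (Set.range (dd s e)) :=
        Ideal.mul_mem_left _ _ (Ideal.subset_span ⟨i, rfl⟩)
      have h3 := Ideal.add_mem _ h1 h2
      convert h3 using 1
      rw [dd, coord]
      ring
  intro x hx
  obtain ⟨p, rfl⟩ := Ideal.Quotient.mk_surjective x
  have h0 : aeval e p = 0 := hx
  have := key p
  rwa [h0, map_zero, sub_zero] at this

theorem mul_mem_sq {R : Type*} [CommRing R] {I : Ideal R} {a b : R} (ha : a ∈ I) (hb : b ∈ I) :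
    a * b ∈ I ^ 2 := by
  rw [pow_two]; exact Ideal.mul_mem_mul ha hb

theorem rel1 {e : Pt} (he : e ∈ Curve s) :
    algebraMap ℂ (CoordRing s) (g1 s e 0) * dd s e 0 + algebraMap ℂ (CoordRing s) (g1 s e 1) * dd s e 1
      + algebraMap ℂ (CoordRing s) (g1 s e 2) * dd s e 2 ∈ (RingHom.ker (ev he)) ^ 2 := by
  have h : algebraMap ℂ (CoordRing s) (g1 s e 0) * dd s e 0 + algebraMap ℂ (CoordRing s) (g1 s e 1) * dd s e 1
      + algebraMap ℂ (CoordRing s) (g1 s e 2) * dd s e 2 =
      dd s e 0 * dd s e 2 - dd s e 1 * dd s e 1 := by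
    have e1 := coord_eq1 s
    have e2 := congrArg (algebraMap ℂ (CoordRing s)) he.1
    simp only [f1, map_sub, map_mul, map_pow, map_zero] at e2
    simp only [g1, dd, Matrix.cons_val, map_neg, map_mul, map_ofNat]
    linear_combination e1 - e2
  rw [h]
  exact Ideal.sub_mem _ (mul_mem_sq (dd_mem he 0) (dd_mem he 2))
    (mul_mem_sq (dd_mem he 1) (dd_mem he 1))

theorem rel2 {e : Pt} (he : e ∈ Curve s) :
    algebraMap ℂ (CoordRing s) (g2 s e 0) * dd s e 0 + algebraMap ℂ (CoordRing s) (g2 s e 1) * dd s e 1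
      + algebraMap ℂ (CoordRing s) (g2 s e 2) * dd s e 2 ∈ (RingHom.ker (ev he)) ^ 2 := by
  have h : algebraMap ℂ (CoordRing s) (g2 s e 0) * dd s e 0 + algebraMap ℂ (CoordRing s) (g2 s e 1) * dd s e 1
      + algebraMap ℂ (CoordRing s) (g2 s e 2) * dd s e 2 =
      - (dd s e 2 * dd s e 2) + (3 * algebraMap ℂ (CoordRing s) (e 0) + dd s e 0
        + algebraMap ℂ (CoordRing s) (s 2)) * (dd s e 0 * dd s e 0)
        + algebraMap ℂ (CoordRing s) (s 0) * (dd s e 0 * dd s e 2)
        + algebraMap ℂ (CoordRing s) (s 1) * (dd s e 0 * dd s e 1) := by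
    have e1 := coord_eq2 s
    have e2 := congrArg (algebraMap ℂ (CoordRing s)) he.2
    simp only [f2, map_sub, map_mul, map_pow, map_zero] at e2
    simp only [g2, dd, Matrix.cons_val, map_neg, map_sub, map_mul, map_pow, map_ofNat]
    linear_combination e1 - e2
  rw [h]
  refine Ideal.add_mem _ (Ideal.add_mem _ (Ideal.add_mem _ ?_ ?_) ?_) ?_
  · exact Ideal.neg_mem_iff _ |>.2 (mul_mem_sq (dd_mem he 2) (dd_mem he 2))
  · exact Ideal.mul_mem_left _ _ (mul_mem_sq (dd_mem he 0) (dd_mem he 0))
  · exact Ideal.mul_mem_left _ _ (mul_mem_sq (dd_mem he 0) (dd_mem he 2))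
  · exact Ideal.mul_mem_left _ _ (mul_mem_sq (dd_mem he 0) (dd_mem he 1))

/-- at a smooth point the cotangent space is generated by one coordinate -/
theorem ker_le_of_smooth {e : Pt} (he : e ∈ Curve s) (ht : tau s e ≠ 0) :
    ∃ π ∈ RingHom.ker (ev he), RingHom.ker (ev he) ≤ Ideal.span {π} ⊔ (RingHom.ker (ev he)) ^ 2 := by
  have r1 := rel1 he
  have r2 := rel2 he
  set M := RingHom.ker (ev he) with hM
  set a := algebraMap ℂ (CoordRing s) with ha
  have c01 : a (tau s e 0) * dd s e 1 - a (tau s e 1) * dd s e 0 ∈ M ^ 2 := by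
    have := Ideal.sub_mem _ (Ideal.mul_mem_left _ (a (g2 s e 2)) r1)
      (Ideal.mul_mem_left _ (a (g1 s e 2)) r2)
    convert this using 1
    simp only [tau, Matrix.cons_val, map_sub, map_mul]
    ring
  have c12 : a (tau s e 1) * dd s e 2 - a (tau s e 2) * dd s e 1 ∈ M ^ 2 := by
    have := Ideal.sub_mem _ (Ideal.mul_mem_left _ (a (g2 s e 0)) r1)
      (Ideal.mul_mem_left _ (a (g1 s e 0)) r2)
    convert this using 1
    simp only [tau, Matrix.cons_val, map_sub, map_mul]
    ring
  have c20 : a (tau s e 2) * dd s e 0 - a (tau s e 0) * dd s e 2 ∈ M ^ 2 := by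
    have := Ideal.sub_mem _ (Ideal.mul_mem_left _ (a (g2 s e 1)) r1)
      (Ideal.mul_mem_left _ (a (g1 s e 1)) r2)
    convert this using 1
    simp only [tau, Matrix.cons_val, map_sub, map_mul]
    ring
  have hc : ∀ k i : Fin 3, a (tau s e k) * dd s e i - a (tau s e i) * dd s e k ∈ M ^ 2 := by
    have hneg : ∀ {x y : CoordRing s}, x - y ∈ M ^ 2 → y - x ∈ M ^ 2 := fun {x y} h => by
      have := (Ideal.neg_mem_iff _).2 h
      rwa [neg_sub] at this
    have hself : ∀ x : CoordRing s, x - x ∈ M ^ 2 := fun x => by rw [sub_self]; exact Ideal.zero_mem _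
    intro k i
    fin_cases k <;> fin_cases i
    · exact hself _
    · exact c01
    · exact hneg c20
    · exact hneg c01
    · exact hself _
    · exact c12
    · exact c20
    · exact hneg c12
    · exact hself _
  obtain ⟨k, hk⟩ : ∃ k, tau s e k ≠ 0 := by
    by_contra h
    push Not at h
    exact ht (funext h)
  refine ⟨dd s e k, dd_mem he k, (ker_le he).trans ?_⟩
  rw [Ideal.span_le]
  rintro _ ⟨i, rfl⟩
  have h1 := Ideal.mul_mem_left (M ^ 2) (a (tau s e k)⁻¹) (hc k i)
  have h2 : dd s e i = a (tau s e k)⁻¹ * (a (tau s e k) * dd s e i - a (tau s e i) * dd s e k)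
      + a ((tau s e k)⁻¹ * tau s e i) * dd s e k := by
    have h3 : a (tau s e k)⁻¹ * a (tau s e k) = 1 := by
      rw [← map_mul, inv_mul_cancel₀ hk, map_one]
    rw [map_mul]
    linear_combination (-(dd s e i)) * h3
  rw [h2]
  exact Ideal.add_mem _ (Ideal.mem_sup_right h1)
    (Ideal.mem_sup_left (Ideal.mul_mem_left _ _ (Ideal.mem_span_singleton_self _)))

theorem dedekind_of_smooth (hs : SmoothC s) [IsDomain (CoordRing s)] : IsDedekindDomain (CoordRing s) := by
  apply dedekind_of_cotangent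
  intro m hm
  obtain ⟨e, he, rfl⟩ := maximal_eq_ker m hm
  exact ker_le_of_smooth he (hs e he)

/-! ## The converse -/

/-- the derivation in the direction `t` at the point `e` -/
noncomputable def der (t e : Pt) (p : MvPolynomial (Fin 3) ℂ) : ℂ :=
  ∑ i, t i * aeval e (pderiv i p)

theorem der_add (t e : Pt) (p q : MvPolynomial (Fin 3) ℂ) :
    der t e (p + q) = der t e p + der t e q := by
  simp only [der, map_add, mul_add, Finset.sum_add_distrib]

theorem der_mul (t e : Pt) (p q : MvPolynomial (Fin 3) ℂ) :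
    der t e (p * q) = aeval e p * der t e q + aeval e q * der t e p := by
  simp only [der, Derivation.leibniz, smul_eq_mul, map_add, map_mul, mul_add,
    Finset.sum_add_distrib, Finset.mul_sum]
  congr 1 <;> apply Finset.sum_congr rfl <;> intro i _ <;> ring

/-- the polynomials that vanish to second order at `e` in the direction `t` -/
noncomputable def derIdeal (t e : Pt) : Ideal (MvPolynomial (Fin 3) ℂ) where
  carrier := {p | der t e p = 0 ∧ aeval e p = 0}
  add_mem' := by
    rintro p q ⟨h1, h2⟩ ⟨h3, h4⟩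
    exact ⟨by rw [der_add, h1, h3, add_zero], by rw [map_add, h2, h4, add_zero]⟩
  zero_mem' := ⟨by simp [der], by simp⟩
  smul_mem' := by
    rintro a p ⟨h1, h2⟩
    exact ⟨by rw [smul_eq_mul, der_mul, h1, h2]; ring, by rw [smul_eq_mul, map_mul, h2, mul_zero]⟩

theorem der_eq1 (s : Par) (t e : Pt) : der t e (eq1 s) = ∑ i, t i * g1 s e i := by
  simp only [der, Fin.sum_univ_three]
  simp [eq1, g1, Derivation.leibniz, pderiv_X]

theorem der_eq2 (s : Par) (t e : Pt) : der t e (eq2 s) = ∑ i, t i * g2 s e i := by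
  simp only [der, Fin.sum_univ_three]
  simp [eq2, g2, Derivation.leibniz, pderiv_X]
  left
  ring

theorem smooth_of_dedekind [IsDedekindDomain (CoordRing s)] : SmoothC s := by
  intro e he ht
  set M := RingHom.ker (ev he) with hM
  obtain ⟨π, hπ, hle⟩ : ∃ π ∈ M, M ≤ Ideal.span {π} ⊔ M ^ 2 := by
    by_cases h0 : M = ⊥
    · refine ⟨0, Ideal.zero_mem _, ?_⟩
      rw [h0]; exact bot_le
    · exact exists_uniformizer M (ker_maximal he) h0
  obtain ⟨P, rfl⟩ := Ideal.Quotient.mk_surjective π
  set c : Pt := fun i => aeval e (pderiv i P) with hc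
  have hdet : (Matrix.of ![g1 s e, g2 s e, c]).det = 0 := by
    have h0 := congrFun ht 0
    have h1 := congrFun ht 1
    have h2 := congrFun ht 2
    simp only [tau, Matrix.cons_val, Pi.zero_apply] at h0 h1 h2
    rw [Matrix.det_fin_three]
    simp only [Matrix.of_apply, Matrix.cons_val]
    linear_combination c 0 * h0 + c 1 * h1 + c 2 * h2
  obtain ⟨t, ht0, htv⟩ := Matrix.exists_mulVec_eq_zero_iff.2 hdet
  have t1 : ∑ i, t i * g1 s e i = 0 := by
    have := congrFun htv 0
    simp only [Matrix.mulVec, dotProduct, Matrix.of_apply, Matrix.cons_val, Pi.zero_apply] at this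
    rw [← this]
    exact Finset.sum_congr rfl fun i _ => mul_comm _ _
  have t2 : ∑ i, t i * g2 s e i = 0 := by
    have := congrFun htv 1
    simp only [Matrix.mulVec, dotProduct, Matrix.of_apply, Matrix.cons_val, Pi.zero_apply] at this
    rw [← this]
    exact Finset.sum_congr rfl fun i _ => mul_comm _ _
  have t3 : ∑ i, t i * c i = 0 := by
    have := congrFun htv 2
    simp only [Matrix.mulVec, dotProduct, Matrix.of_apply, Matrix.cons_val, Pi.zero_apply] at this
    rw [← this]
    exact Finset.sum_congr rfl fun i _ => mul_comm _ _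
  have evm : ∀ p : MvPolynomial (Fin 3) ℂ,
      Ideal.Quotient.mk (Ideal.span {eq1 s, eq2 s}) p ∈ M ↔ aeval e p = 0 := fun p => Iff.rfl
  have hI : Ideal.span {eq1 s, eq2 s} ≤ derIdeal t e := by
    rw [Ideal.span_le]
    rintro x (rfl | rfl)
    · refine ⟨by rw [der_eq1, t1], ?_⟩
      have := he.1
      simpa [eq1, f1] using this
    · refine ⟨by rw [der_eq2, t2], ?_⟩
      have := he.2
      simpa [eq2, f2] using this
  have hPI : P ∈ derIdeal t e := ⟨t3, hπ⟩
  have hsq : Ideal.comap (Ideal.Quotient.mk (Ideal.span {eq1 s, eq2 s})) (M ^ 2) ≤ derIdeal t e := by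
    have h1 : M = Ideal.map (Ideal.Quotient.mk (Ideal.span {eq1 s, eq2 s}))
        (Ideal.comap (Ideal.Quotient.mk (Ideal.span {eq1 s, eq2 s})) M) :=
      (Ideal.map_comap_of_surjective _ Ideal.Quotient.mk_surjective _).symm
    rw [h1, ← Ideal.map_pow, Ideal.comap_map_of_surjective _ Ideal.Quotient.mk_surjective,
      ← RingHom.ker_eq_comap_bot, Ideal.mk_ker]
    refine sup_le ?_ hI
    rw [pow_two, Ideal.mul_le]
    intro p hp q hq
    have hp' : aeval e p = 0 := (evm p).1 hp
    have hq' : aeval e q = 0 := (evm q).1 hq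
    exact ⟨by rw [der_mul, hp', hq']; ring, by rw [map_mul, hp', zero_mul]⟩
  have hall : ∀ p : MvPolynomial (Fin 3) ℂ, aeval e p = 0 → der t e p = 0 := by
    intro p hp
    have h1 := hle ((evm p).2 hp)
    rw [Submodule.mem_sup] at h1
    obtain ⟨y, hy, z, hz, hyz⟩ := h1
    rw [Ideal.mem_span_singleton'] at hy
    obtain ⟨b, rfl⟩ := hy
    obtain ⟨b', rfl⟩ := Ideal.Quotient.mk_surjective b
    have h2 : p - b' * P ∈ derIdeal t e := by
      apply hsq
      rw [Ideal.mem_comap, map_sub, map_mul, ← hyz, add_sub_cancel_left]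
      exact hz
    have h3 := Ideal.add_mem _ h2 (Ideal.mul_mem_left _ b' hPI)
    rw [sub_add_cancel] at h3
    exact h3.1
  apply ht0
  funext i
  have h1 := hall (X i - C (e i)) (by simp)
  simp only [der, map_sub, pderiv_C, sub_zero] at h1
  rw [Finset.sum_eq_single i] at h1
  · simpa using h1
  · intro j _ hj
    rw [pderiv_X_of_ne hj.symm]
    simp
  · intro h; exact absurd (Finset.mem_univ i) h

end KZP
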