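import Pool.Agent.KZP.TailD

/-!
# KZP-COMP: families over a ring, in coordinates
-/

set_option autoImplicit false

namespace KZP

section
variable {B R : Type} [CommRing B] [CommRing R] [Algebra B R]

/-- `X 0, X 1, X 2` have poles of order `4, 5, 6` with leading coefficient `1` and satisfy the equations
with the parameters `s`. -/
structure Tail.Coords (T : Tail B R) (s : Fin 8 → B) (X : Fin 3 → R) : Prop where
  lead_X : ∀ i : Fin 3, T.Lead (4 + (i : ℕ)) (X i) 1
  eqs : Eqs s (X 0) (X 1) (X 2)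

theorem Tail.Coords.xyz {T : Tail B R} {s : Fin 8 → B} {X : Fin 3 → R} (h : T.Coords s X) :
    XYZ T.pre (X 0) (X 1) (X 2) := ⟨h.lead_X 0, h.lead_X 1, h.lead_X 2⟩

theorem Tail.exists_coords (T : Tail B R) (h2 : IsUnit (2 : B)) :
    ∃! p : (Fin 8 → B) × (Fin 3 → R), T.Coords p.1 p.2 := by
  obtain ⟨h, hh⟩ : ∃ h : B, 2 * h = 1 := h2.exists_right_inv
  obtain ⟨s, X, Y, Z, hL, hE⟩ := T.exists_normal hh
  refine ⟨(s, ![X, Y, Z]), ⟨fun i => ?_, hE⟩, ?_⟩
  · fin_cases i
    · exact hL.hX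
    · exact hL.hY
    · exact hL.hZ
  · rintro ⟨s', X'⟩ hc
    obtain ⟨e0, e1, e2, e3⟩ := T.unique_normal hh hc.xyz hc.eqs hL hE
    refine Prod.ext e3 ?_
    funext i
    fin_cases i
    · exact e0
    · exact e1
    · exact e2

theorem exists_tail_coords (h2 : IsUnit (2 : B)) (s : Fin 8 → B) :
    ∃ T : Tail B (CoordRing s), T.Coords s (coord s) := by
  obtain ⟨T, hT⟩ := exists_tail h2 s
  refine ⟨T, fun i => ?_, eqs_coord s⟩
  fin_cases i
  · exact hT.hX
  · exact hT.hY
  · exact hT.hZ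

/-- the coordinate ring is the algebra -/
theorem Tail.Coords.exists_equiv {T : Tail B R} {s : Fin 8 → B} {X : Fin 3 → R}
    (h : T.Coords s X) : ∃ e : CoordRing s ≃ₐ[B] R, ∀ i, e (coord s i) = X i := by
  have hinj : Function.Injective (toR s (X 0) (X 1) (X 2) h.eqs) := by
    rw [injective_iff_map_eq_zero]
    intro f hf
    obtain ⟨P, rfl⟩ := exists_val s f
    rw [toR_val] at hf
    have h3 := val_eq_zero h.xyz P hf
    rw [h3]
    unfold val
    simp
  have hsurj : Function.Surjective (toR s (X 0) (X 1) (X 2) h.eqs) := by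
    intro f
    obtain ⟨P, rfl⟩ := T.all_val h.xyz f
    exact ⟨_, toR_val s (X 0) (X 1) (X 2) h.eqs P⟩
  refine ⟨AlgEquiv.ofBijective (toR s (X 0) (X 1) (X 2) h.eqs) ⟨hinj, hsurj⟩, fun i => ?_⟩
  change toR s (X 0) (X 1) (X 2) h.eqs (coord s i) = X i
  rw [toR_coord]
  fin_cases i <;> rfl

theorem Tail.Coords.hom_ext {T : Tail B R} {s : Fin 8 → B} {X : Fin 3 → R}
    (h : T.Coords s X) {S : Type} [CommRing S] [Algebra B S] {φ ψ : R →ₐ[B] S}
    (hh : ∀ i, φ (X i) = ψ (X i)) : φ = ψ := by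
  ext f
  obtain ⟨P, rfl⟩ := T.all_val h.xyz f
  rw [map_val, map_val, hh, hh, hh]

/-- Two algebras with the same parameters are isomorphic, by a unique isomorphism of the coordinates, and
it respects the leading coefficients. -/
theorem Tail.Coords.unique_iso {R' : Type} [CommRing R'] [Algebra B R'] {T : Tail B R}
    {T' : Tail B R'} {s : Fin 8 → B} {X : Fin 3 → R} {X' : Fin 3 → R'} (h : T.Coords s X)
    (h' : T'.Coords s X') :
    ∃ e : R ≃ₐ[B] R', (∀ i, e (X i) = X' i) ∧ T.Compat T' e ∧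
      ∀ e' : R ≃ₐ[B] R', (∀ i, e' (X i) = X' i) → e' = e := by
  obtain ⟨e₁, h₁⟩ := h.exists_equiv
  obtain ⟨e₂, h₂⟩ := h'.exists_equiv
  have he : ∀ i, (e₁.symm.trans e₂) (X i) = X' i := by
    intro i
    rw [AlgEquiv.trans_apply, ← h₁ i, AlgEquiv.symm_apply_apply, h₂]
  refine ⟨e₁.symm.trans e₂, he, fun n f b => ?_, fun e' he' => ?_⟩
  · obtain ⟨P, rfl⟩ := T.all_val h.xyz f
    have h3 : (e₁.symm.trans e₂) (val (X 0) (X 1) (X 2) P) = val (X' 0) (X' 1) (X' 2) P := by
      have h4 := map_val ((e₁.symm.trans e₂ : R ≃ₐ[B] R') : R →ₐ[B] R') (X 0) (X 1) (X 2) P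
      have h5 : ∀ i, ((e₁.symm.trans e₂ : R ≃ₐ[B] R') : R →ₐ[B] R') (X i) = X' i := he
      rw [h5, h5, h5] at h4
      exact h4
    rw [h3]
    exact (L_val_iff h.xyz n P b).trans (L_val_iff h'.xyz n P b).symm
  · apply AlgEquiv.coe_toAlgHom_injective
    apply h.hom_ext
    intro i
    exact (he' i).trans (he i).symm

theorem Tail.Coords.base_change {B' R' : Type} [CommRing B'] [CommRing R'] [Algebra B' R']
    {T : Tail B R} {T' : Tail B' R'} (φ : B →+* B') (h : R →+* R')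
    (hh : ∀ b, h (algebraMap B R b) = algebraMap B' R' (φ b))
    (hl : ∀ n f b, T.Lead n f b → T'.Lead n (h f) (φ b)) {s : Fin 8 → B} {X : Fin 3 → R}
    (hc : T.Coords s X) : T'.Coords (fun i => φ (s i)) (fun i => h (X i)) := by
  refine ⟨fun i => ?_, ?_, ?_⟩
  · have := hl _ _ _ (hc.lead_X i)
    rwa [map_one] at this
  · have := congrArg h hc.eqs.1
    simpa only [map_add, map_mul, map_pow, hh] using this
  · have := congrArg h hc.eqs.2
    simpa only [map_add, map_mul, map_pow, hh] using this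

end

end KZP
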