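import Pool.Agent.KZP.TailC
import Pool.Agent.KZP.CDed

/-!
# KZP-CForm: the 1-form without zeros on the affine curve

On a smooth `C_s` the module of differentials is free on `ω`, where `dX = τ₀ ω`, `dY = τ₁ ω`,
`dZ = τ₂ ω`; at the point at infinity `ω` has a zero of order exactly six.
-/

set_option autoImplicit false

namespace KZP

open MvPolynomial PreTail

/-! ## The vector field `τ` -/

/-- the gradient of `eq1` -/
noncomputable def gp1 : Fin 3 → MvPolynomial (Fin 3) ℂ := ![- X 2, 2 * X 1, - X 0]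

/-- the gradient of `eq2` -/
noncomputable def gp2 (s : Par) : Fin 3 → MvPolynomial (Fin 3) ℂ :=
  ![- (3 * X 0 ^ 2) - C (s 0) * X 2 - C (s 1) * X 1 - 2 * C (s 2) * X 0 - C (s 5),
    - (C (s 1) * X 0) - C (s 4), 2 * X 2 - C (s 0) * X 0 - C (s 3)]

/-- the cross product of the gradients -/
noncomputable def tp (s : Par) : Fin 3 → MvPolynomial (Fin 3) ℂ :=
  ![gp1 1 * gp2 s 2 - gp1 2 * gp2 s 1, gp1 2 * gp2 s 0 - gp1 0 * gp2 s 2,
    gp1 0 * gp2 s 1 - gp1 1 * gp2 s 0]

/-- the derivation of the polynomial ring in the direction `τ` -/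
noncomputable def DpC (s : Par) : Derivation ℂ (MvPolynomial (Fin 3) ℂ) (MvPolynomial (Fin 3) ℂ) :=
  mkDerivation ℂ (tp s)

theorem DpC_X (s : Par) (i : Fin 3) : DpC s (X i) = tp s i := mkDerivation_X ..

theorem Dp_C (s : Par) (c : ℂ) : DpC s (C c) = 0 := (DpC s).map_algebraMap c

theorem Dp_eq1 (s : Par) : DpC s (eq1 s) = 0 := by
  unfold eq1
  simp only [map_sub, Derivation.leibniz, Derivation.leibniz_pow, DpC_X, Dp_C, smul_eq_mul,
    nsmul_eq_mul]
  simp only [tp, gp1, gp2, Matrix.cons_val]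
  push_cast
  ring

theorem Dp_eq2 (s : Par) : DpC s (eq2 s) = 0 := by
  unfold eq2
  simp only [map_sub, Derivation.leibniz, Derivation.leibniz_pow, DpC_X, Dp_C, smul_eq_mul,
    nsmul_eq_mul]
  simp only [tp, gp1, gp2, Matrix.cons_val]
  push_cast
  ring

/-- the quotient map -/
noncomputable def qm (s : Par) : MvPolynomial (Fin 3) ℂ →ₐ[ℂ] CoordRing s :=
  Ideal.Quotient.mkₐ ℂ (Ideal.span {eq1 s, eq2 s})

theorem qm_surj (s : Par) : Function.Surjective (qm s) := Ideal.Quotient.mkₐ_surjective ℂ _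

theorem qm_eq_zero (s : Par) (p : MvPolynomial (Fin 3) ℂ) :
    qm s p = 0 ↔ p ∈ Ideal.span {eq1 s, eq2 s} := Ideal.Quotient.eq_zero_iff_mem

theorem qm_X (s : Par) (i : Fin 3) : qm s (X i) = coord s i := rfl

theorem qm_C (s : Par) (c : ℂ) : qm s (C c) = algebraMap ℂ (CoordRing s) c := rfl

theorem DpC_descend (s : Par) (p : MvPolynomial (Fin 3) ℂ) (hp : qm s p = 0) :
    qm s (DpC s p) = 0 := by
  rw [qm_eq_zero] at hp
  obtain ⟨a, b, rfl⟩ := Ideal.mem_span_pair.1 hp
  have h1 : qm s (eq1 s) = 0 := (qm_eq_zero s _).2 (Ideal.subset_span (by simp))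
  have h2 : qm s (eq2 s) = 0 := (qm_eq_zero s _).2 (Ideal.subset_span (by simp))
  simp only [map_add, Derivation.leibniz, Dp_eq1, Dp_eq2, smul_eq_mul, mul_zero, map_mul, h1, h2,
    zero_mul, add_zero, map_zero]

/-- the derivation of the coordinate ring -/
noncomputable def del (s : Par) : Derivation ℂ (CoordRing s) (CoordRing s) :=
  Derivation.liftOfSurjective (qm_surj s) (d := DpC s) (DpC_descend s)

theorem del_qm (s : Par) (p : MvPolynomial (Fin 3) ℂ) : del s (qm s p) = qm s (DpC s p) :=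
  Derivation.liftOfSurjective_apply (qm_surj s) (DpC_descend s) p

/-- the components of the vector field -/
noncomputable def tc (s : Par) (i : Fin 3) : CoordRing s := qm s (tp s i)

theorem del_coord (s : Par) (i : Fin 3) : del s (coord s i) = tc s i := by
  rw [← qm_X, del_qm, DpC_X]
  rfl

theorem ev_qm {s : Par} {e : Pt} (he : e ∈ Curve s) (p : MvPolynomial (Fin 3) ℂ) :
    ev he (qm s p) = aeval e p := rfl

theorem ev_tc {s : Par} {e : Pt} (he : e ∈ Curve s) (i : Fin 3) : ev he (tc s i) = tau s e i := by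
  unfold tc
  rw [ev_qm]
  fin_cases i <;>
  simp [tp, gp1, gp2, tau, g1, g2]

theorem tc_span {s : Par} (hs : SmoothC s) : ∃ a : Fin 3 → CoordRing s, ∑ i, a i * tc s i = 1 := by
  have h : Ideal.span (Set.range (tc s)) = ⊤ := by
    by_contra hne
    obtain ⟨m, hm, hle⟩ := Ideal.exists_le_maximal _ hne
    obtain ⟨e, he, rfl⟩ := maximal_eq_ker m hm
    apply hs e he
    funext i
    have h1 : tc s i ∈ RingHom.ker (ev he) := hle (Ideal.subset_span ⟨i, rfl⟩)
    have h2 : ev he (tc s i) = 0 := h1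
    rw [ev_tc] at h2
    exact h2
  have h1 : (1 : CoordRing s) ∈ Ideal.span (Set.range (tc s)) := by rw [h]; trivial
  obtain ⟨a, ha⟩ := (Submodule.mem_span_range_iff_exists_fun (CoordRing s)).1 h1
  exact ⟨a, ha⟩

/-! ## The differentials -/

open KaehlerDifferential in
theorem D_rel1 (s : Par) : (2 * coord s 1) • D ℂ (CoordRing s) (coord s 1)
    - coord s 0 • D ℂ (CoordRing s) (coord s 2) - coord s 2 • D ℂ (CoordRing s) (coord s 0) = 0 := by
  have h := congrArg (D ℂ (CoordRing s)) (coord_eq1 s)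
  rw [map_zero] at h
  simp only [map_sub, Derivation.leibniz, Derivation.leibniz_pow, Derivation.map_algebraMap] at h
  rw [← h]
  module

open KaehlerDifferential in
theorem D_rel2 (s : Par) :
    (2 * coord s 2 - algebraMap ℂ (CoordRing s) (s 0) * coord s 0
        - algebraMap ℂ (CoordRing s) (s 3)) • D ℂ (CoordRing s) (coord s 2)
      - (algebraMap ℂ (CoordRing s) (s 1) * coord s 0 + algebraMap ℂ (CoordRing s) (s 4)) •
        D ℂ (CoordRing s) (coord s 1)
      - (3 * coord s 0 ^ 2 + algebraMap ℂ (CoordRing s) (s 0) * coord s 2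
          + algebraMap ℂ (CoordRing s) (s 1) * coord s 1
          + 2 * algebraMap ℂ (CoordRing s) (s 2) * coord s 0 + algebraMap ℂ (CoordRing s) (s 5)) •
        D ℂ (CoordRing s) (coord s 0) = 0 := by
  have h := congrArg (D ℂ (CoordRing s)) (coord_eq2 s)
  rw [map_zero] at h
  simp only [map_sub, Derivation.leibniz, Derivation.leibniz_pow, Derivation.map_algebraMap] at h
  rw [← h]
  module

theorem tc_zero (s : Par) : tc s 0 = 2 * coord s 1 * (2 * coord s 2
      - algebraMap ℂ (CoordRing s) (s 0) * coord s 0 - algebraMap ℂ (CoordRing s) (s 3))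
    - coord s 0 * (algebraMap ℂ (CoordRing s) (s 1) * coord s 0
      + algebraMap ℂ (CoordRing s) (s 4)) := by
  unfold tc
  simp only [tp, gp1, gp2, Matrix.cons_val, map_sub, map_mul, map_neg, map_ofNat, map_pow, qm_X, qm_C]
  ring

theorem tc_one (s : Par) : tc s 1 = coord s 0 * (3 * coord s 0 ^ 2
      + algebraMap ℂ (CoordRing s) (s 0) * coord s 2
      + algebraMap ℂ (CoordRing s) (s 1) * coord s 1
      + 2 * algebraMap ℂ (CoordRing s) (s 2) * coord s 0 + algebraMap ℂ (CoordRing s) (s 5))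
    + coord s 2 * (2 * coord s 2
      - algebraMap ℂ (CoordRing s) (s 0) * coord s 0 - algebraMap ℂ (CoordRing s) (s 3)) := by
  unfold tc
  simp only [tp, gp1, gp2, Matrix.cons_val, map_sub, map_mul, map_neg, map_ofNat, map_pow, qm_X, qm_C]
  ring

theorem tc_two (s : Par) : tc s 2 = coord s 2 * (algebraMap ℂ (CoordRing s) (s 1) * coord s 0
      + algebraMap ℂ (CoordRing s) (s 4))
    + 2 * coord s 1 * (3 * coord s 0 ^ 2
      + algebraMap ℂ (CoordRing s) (s 0) * coord s 2
      + algebraMap ℂ (CoordRing s) (s 1) * coord s 1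
      + 2 * algebraMap ℂ (CoordRing s) (s 2) * coord s 0 + algebraMap ℂ (CoordRing s) (s 5)) := by
  unfold tc
  simp only [tp, gp1, gp2, Matrix.cons_val, map_sub, map_mul, map_neg, map_ofNat, map_pow, qm_X, qm_C]
  ring

open KaehlerDifferential in
theorem tc_D (s : Par) (i j : Fin 3) :
    tc s j • D ℂ (CoordRing s) (coord s i) = tc s i • D ℂ (CoordRing s) (coord s j) := by
  have r1 := D_rel1 s
  have r2 := D_rel2 s
  have c01 : tc s 0 • D ℂ (CoordRing s) (coord s 1) = tc s 1 • D ℂ (CoordRing s) (coord s 0) := by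
    rw [tc_zero, tc_one]
    linear_combination (norm := module) (2 * coord s 2
      - algebraMap ℂ (CoordRing s) (s 0) * coord s 0 - algebraMap ℂ (CoordRing s) (s 3)) • r1
      + (coord s 0) • r2
  have c12 : tc s 1 • D ℂ (CoordRing s) (coord s 2) = tc s 2 • D ℂ (CoordRing s) (coord s 1) := by
    rw [tc_one, tc_two]
    linear_combination (norm := module) (-(3 * coord s 0 ^ 2
      + algebraMap ℂ (CoordRing s) (s 0) * coord s 2
      + algebraMap ℂ (CoordRing s) (s 1) * coord s 1
      + 2 * algebraMap ℂ (CoordRing s) (s 2) * coord s 0 + algebraMap ℂ (CoordRing s) (s 5))) • r1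
      + (coord s 2) • r2
  have c20 : tc s 2 • D ℂ (CoordRing s) (coord s 0) = tc s 0 • D ℂ (CoordRing s) (coord s 2) := by
    rw [tc_zero, tc_two]
    linear_combination (norm := module) (-(algebraMap ℂ (CoordRing s) (s 1) * coord s 0
      + algebraMap ℂ (CoordRing s) (s 4))) • r1 - (2 * coord s 1) • r2
  fin_cases i <;> fin_cases j
  · rfl
  · exact c01.symm
  · exact c20
  · exact c01
  · rfl
  · exact c12.symm
  · exact c20.symm
  · exact c12
  · rfl

/-- an additive induction on the coordinate ring -/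
theorem coord_induction {s : Par} {p : CoordRing s → Prop} (f : CoordRing s)
    (hc : ∀ c : ℂ, p (algebraMap ℂ (CoordRing s) c)) (ha : ∀ f g, p f → p g → p (f + g))
    (hx : ∀ f i, p f → p (f * coord s i)) : p f := by
  obtain ⟨P, rfl⟩ := qm_surj s f
  induction P using MvPolynomial.induction_on with
  | C c => exact hc c
  | add f g hf hg =>
    rw [map_add]
    exact ha _ _ hf hg
  | mul_X f i hf =>
    rw [map_mul]
    exact hx _ i hf

section abstract_form

open KaehlerDifferential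

variable {R : Type} [CommRing R] [Algebra ℂ R]

/-- the form, for an algebra generated by three elements -/
theorem abstract_omega (x : Fin 3 → R)
    (hx : ∀ p : R → Prop, (∀ c : ℂ, p (algebraMap ℂ R c)) → (∀ f g, p f → p g → p (f + g)) →
      (∀ f i, p f → p (f * x i)) → ∀ f, p f)
    (d : Derivation ℂ R R) (a : Fin 3 → R) (ha : ∑ i, a i * d (x i) = 1)
    (hD : ∀ i j, d (x j) • D ℂ R (x i) = d (x i) • D ℂ R (x j)) :
    ∃ ω : Ω[R⁄ℂ], (∀ η : Ω[R⁄ℂ], ∃! f : R, η = f • ω) ∧ ∀ f, D ℂ R f = d f • ω := by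
  obtain ⟨ω, hω⟩ : ∃ ω : Ω[R⁄ℂ], ω = ∑ i, a i • D ℂ R (x i) := ⟨_, rfl⟩
  have h1 : d.liftKaehlerDifferential ω = 1 := by
    rw [hω, map_sum, ← ha]
    refine Finset.sum_congr rfl fun i _ => ?_
    rw [map_smul, Derivation.liftKaehlerDifferential_comp_D, smul_eq_mul]
  have key : ∀ j, D ℂ R (x j) = d (x j) • ω := by
    intro j
    rw [hω, Finset.smul_sum]
    calc D ℂ R (x j) = (∑ i, a i * d (x i)) • D ℂ R (x j) := by
          rw [ha, one_smul]
      _ = ∑ i, d (x j) • a i • D ℂ R (x i) := by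
          rw [Finset.sum_smul]
          refine Finset.sum_congr rfl fun i _ => ?_
          rw [mul_smul, ← hD i j, smul_smul, smul_smul, mul_comm]
  have h2 : ∀ f, D ℂ R f = d f • ω := by
    apply hx
    · intro c
      rw [Derivation.map_algebraMap, Derivation.map_algebraMap, zero_smul]
    · intro f g hf hg
      rw [map_add, map_add, add_smul, hf, hg]
    · intro f i hf
      rw [Derivation.leibniz, Derivation.leibniz, hf, key i, add_smul, smul_eq_mul, smul_eq_mul,
        mul_smul, mul_smul]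
  refine ⟨ω, fun η => ?_, h2⟩
  have hη : η ∈ Submodule.span R {ω} := by
    have h3 : η ∈ Submodule.span R (Set.range (D ℂ R)) := by
      rw [KaehlerDifferential.span_range_derivation]
      trivial
    refine Submodule.span_le.2 ?_ h3
    rintro _ ⟨f, rfl⟩
    show D ℂ R f ∈ Submodule.span R {ω}
    rw [h2 f]
    exact Submodule.smul_mem _ _ (Submodule.mem_span_singleton_self ω)
  obtain ⟨f, rfl⟩ := Submodule.mem_span_singleton.1 hη
  refine ⟨f, rfl, fun g hg => ?_⟩
  have h4 := congrArg d.liftKaehlerDifferential hg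
  rw [map_smul, map_smul, h1, smul_eq_mul, smul_eq_mul, mul_one, mul_one] at h4
  exact h4.symm

end abstract_form

/-! ## The pole orders -/

section lead

variable {s : Par} (T : Tail ℂ (CoordRing s))

theorem lead_tc (h : XYZ T.pre (coord s 0) (coord s 1) (coord s 2)) :
    T.pre.L 11 (tc s 0) 4 ∧ T.pre.L 12 (tc s 1) 5 ∧ T.pre.L 13 (tc s 2) 6 := by
  have hX := h.hX
  have hY := h.hY
  have hZ := h.hZ
  -- `A = 3X² + …` of weight 8, `B = s₁X + s₄` of weight 4, `C = 2Z - …` of weight 6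
  have hA : T.pre.L 8 (3 * coord s 0 ^ 2
      + algebraMap ℂ (CoordRing s) (s 0) * coord s 2
      + algebraMap ℂ (CoordRing s) (s 1) * coord s 1
      + 2 * algebraMap ℂ (CoordRing s) (s 2) * coord s 0 + algebraMap ℂ (CoordRing s) (s 5)) 3 := by
    have h1 := ((hX.mul hX).cmul 3)
    have h2 := (hZ.cmul (s 0)).upto (m := 8) (by norm_num)
    have h3 := (hY.cmul (s 1)).upto (m := 8) (by norm_num)
    have h4 := (hX.cmul (2 * s 2)).upto (m := 8) (by norm_num)
    have h5 := (L.const (T := T.pre) (s 5)).upto (m := 8) (by norm_num)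
    refine ((((h1.add h2).add h3).add h4).add h5).congr ?_ (by norm_num)
    simp only [map_mul, map_ofNat]
    ring
  have hB : T.pre.L 4 (algebraMap ℂ (CoordRing s) (s 1) * coord s 0
      + algebraMap ℂ (CoordRing s) (s 4)) (s 1) := by
    have h1 := hX.cmul (s 1)
    have h2 := (L.const (T := T.pre) (s 4)).upto (m := 4) (by norm_num)
    exact (h1.add h2).congr rfl (by ring)
  have hC : T.pre.L 6 (2 * coord s 2 - algebraMap ℂ (CoordRing s) (s 0) * coord s 0
      - algebraMap ℂ (CoordRing s) (s 3)) 2 := by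
    have h1 := hZ.cmul 2
    have h2 := (hX.cmul (s 0)).upto (m := 6) (by norm_num)
    have h3 := (L.const (T := T.pre) (s 3)).upto (m := 6) (by norm_num)
    refine ((h1.sub h2).sub h3).congr ?_ (by norm_num)
    simp only [map_ofNat]
  refine ⟨?_, ?_, ?_⟩
  · rw [tc_zero]
    have h1 := (hY.mul hC).cmul 2
    have h2 := (hX.mul hB).upto (m := 11) (by norm_num)
    refine (h1.sub h2).congr ?_ (by norm_num)
    simp only [map_ofNat]
    ring
  · rw [tc_one]
    have h1 := hX.mul hA
    have h2 := hZ.mul hC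
    refine (h1.add h2).congr rfl (by norm_num)
  · rw [tc_two]
    have h1 := (hZ.mul hB).upto (m := 13) (by norm_num)
    have h2 := (hY.mul hA).cmul 2
    refine (h1.add h2).congr ?_ (by norm_num)
    simp only [map_ofNat]
    ring

theorem lead_monomial (h : XYZ T.pre (coord s 0) (coord s 1) (coord s 2)) (n : ℕ)
    (hn : ¬ IsGap n) : ∃ M, T.pre.L n M 1 ∧ T.pre.L (n + 7) (del s M) n := by
  obtain ⟨h0, h1, h2⟩ := lead_tc T h
  have hmul : ∀ m n M N, (T.pre.L m M 1 ∧ T.pre.L (m + 7) (del s M) m) →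
      (T.pre.L n N 1 ∧ T.pre.L (n + 7) (del s N) n) →
      T.pre.L (m + n) (M * N) 1 ∧ T.pre.L (m + n + 7) (del s (M * N)) ((m + n : ℕ) : ℂ) := by
    rintro m n M N ⟨a1, a2⟩ ⟨b1, b2⟩
    refine ⟨(a1.mul b1).congr rfl (mul_one 1), ?_⟩
    rw [Derivation.leibniz, smul_eq_mul, smul_eq_mul]
    have e1 := a1.mul b2
    have e2 := b1.mul a2
    rw [show m + (n + 7) = m + n + 7 by omega] at e1
    rw [show n + (m + 7) = m + n + 7 by omega] at e2
    refine (e1.add e2).congr rfl ?_
    push_cast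
    ring
  have hX : T.pre.L 4 (coord s 0) 1 ∧ T.pre.L (4 + 7) (del s (coord s 0)) ((4 : ℕ) : ℂ) :=
    ⟨h.hX, by rw [del_coord]; exact h0.congr rfl (by norm_num)⟩
  have hY : T.pre.L 5 (coord s 1) 1 ∧ T.pre.L (5 + 7) (del s (coord s 1)) ((5 : ℕ) : ℂ) :=
    ⟨h.hY, by rw [del_coord]; exact h1.congr rfl (by norm_num)⟩
  have hZ : T.pre.L 6 (coord s 2) 1 ∧ T.pre.L (6 + 7) (del s (coord s 2)) ((6 : ℕ) : ℂ) :=
    ⟨h.hZ, by rw [del_coord]; exact h2.congr rfl (by norm_num)⟩
  induction n using Nat.strong_induction_on with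
  | _ n ih =>
    by_cases h8 : 8 ≤ n ∧ n ≠ 11
    · obtain ⟨M, hM⟩ := ih (n - 4) (by omega) (by unfold IsGap; omega)
      have h3 := hmul _ _ _ _ hM hX
      rw [show n - 4 + 4 = n by omega] at h3
      exact ⟨_, h3⟩
    · unfold IsGap at hn
      have h9 : n = 0 ∨ n = 4 ∨ n = 5 ∨ n = 6 ∨ n = 11 := by omega
      rcases h9 with rfl | rfl | rfl | rfl | rfl
      · refine ⟨1, L.one, ?_⟩
        rw [Derivation.map_one_eq_zero, Nat.cast_zero]
        exact L.zero _
      · exact ⟨_, hX⟩
      · exact ⟨_, hY⟩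
      · exact ⟨_, hZ⟩
      · exact ⟨_, hmul 5 6 _ _ hY hZ⟩

theorem lead_del (h : XYZ T.pre (coord s 0) (coord s 1) (coord s 2)) (n : ℕ) (f : CoordRing s)
    (b : ℂ) (hf : T.pre.L n f b) : T.pre.L (n + 7) (del s f) (n * b) := by
  induction n generalizing f b with
  | zero =>
    rw [T.eq_const hf, Derivation.map_algebraMap, Nat.cast_zero, zero_mul]
    exact L.zero _
  | succ n ih =>
    by_cases hg : IsGap (n + 1)
    · obtain ⟨c, hc⟩ := T.skip hg hf
      rw [T.gapL hg hf, mul_zero]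
      exact (ih f c hc).up
    · obtain ⟨M, hM1, hM2⟩ := lead_monomial T h (n + 1) hg
      have h1 : T.pre.L (n + 1) (f - b • M) 0 := (hf.sub (hM1.smul b)).congr rfl (by ring)
      obtain ⟨c, hc⟩ := h1.down
      have h2 := (ih _ c hc).up
      have h3 := h2.add (hM2.smul b)
      refine h3.congr ?_ (by ring)
      rw [map_sub, Derivation.map_smul]
      abel

end lead

/-- **The 1-form.**  On a smooth `C_s` the Kähler differentials are free on one element `ω`; if `f` has
a pole of order `n` at infinity with leading coefficient `b`, then `df = g ω` where `g` has a pole of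
order `n + 7` and leading coefficient `n b`: at the point at infinity `ω` has a zero of order six. -/
theorem exists_form (s : Par) (hs : SmoothC s) (T : Tail ℂ (CoordRing s))
    (hT : T.Lead 4 (coord s 0) 1 ∧ T.Lead 5 (coord s 1) 1 ∧ T.Lead 6 (coord s 2) 1) :
    ∃ ω : Ω[CoordRing s⁄ℂ], (∀ η : Ω[CoordRing s⁄ℂ], ∃! f : CoordRing s, η = f • ω) ∧
      ∀ (n : ℕ) (f : CoordRing s) (b : ℂ), T.Lead n f b →
        ∃ g : CoordRing s, KaehlerDifferential.D ℂ (CoordRing s) f = g • ω ∧
          T.Lead (n + 7) g (n * b) := by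
  obtain ⟨a, ha⟩ := tc_span hs
  have hXYZ : XYZ T.pre (coord s 0) (coord s 1) (coord s 2) := ⟨hT.1, hT.2.1, hT.2.2⟩
  obtain ⟨ω, h1, h2⟩ := abstract_omega (coord s)
    (fun p hc ha hx f => coord_induction f hc ha hx) (del s) a
    (by rw [← ha]; exact Finset.sum_congr rfl fun i _ => by rw [del_coord])
    (fun i j => by rw [del_coord, del_coord]; exact tc_D s i j)
  exact ⟨ω, h1, fun n f b hf => ⟨del s f, h2 f, lead_del T hXYZ n f b hf⟩⟩

end KZP
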