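import Pool.Agent.KZP.TailE
import Pool.Agent.KZP.CDed

/-!
# KZP-COMP: the moduli space `M_4(7,1,1,1,1,1)^odd`

The objects are given by the ring `R` of the regular functions on the curve `C` minus the zero `P` of
the 1-form; the main theorem says that the groupoid of the objects is the action groupoid of `ℂˣ` on
`XS`.
-/

set_option autoImplicit false

namespace KZP

/-! ## Transport along isomorphisms -/

theorem isDedekindDomain_of_equiv {R S : Type*} [CommRing R] [CommRing S] [IsDedekindDomain R]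
    (e : R ≃+* S) : IsDedekindDomain S := by
  have : IsDomain S := e.symm.toMulEquiv.isDomain R
  have : IsNoetherianRing S := isNoetherianRing_of_ringEquiv R e
  apply dedekind_of_cotangent
  intro m hm
  have hm' : (Ideal.comap (e : R →+* S) m).IsMaximal :=
    Ideal.comap_isMaximal_of_surjective _ e.surjective
  obtain ⟨π, hπ, hle⟩ : ∃ π ∈ Ideal.comap (e : R →+* S) m,
      Ideal.comap (e : R →+* S) m ≤ Ideal.span {π} ⊔ (Ideal.comap (e : R →+* S) m) ^ 2 := by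
    by_cases h0 : Ideal.comap (e : R →+* S) m = ⊥
    · refine ⟨0, Ideal.zero_mem _, ?_⟩
      rw [h0]; exact bot_le
    · exact exists_uniformizer _ hm' h0
  refine ⟨e π, hπ, ?_⟩
  have h1 : Ideal.map (e : R →+* S) (Ideal.comap (e : R →+* S) m) = m :=
    Ideal.map_comap_of_surjective _ e.surjective m
  have h2 := Ideal.map_mono (f := (e : R →+* S)) hle
  rw [Ideal.map_sup, Ideal.map_pow, Ideal.map_span, Set.image_singleton, h1] at h2
  exact h2

/-- the transport of a tail along an isomorphism -/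
noncomputable def Tail.transport {B R R' : Type} [CommRing B] [CommRing R] [Algebra B R]
    [CommRing R'] [Algebra B R'] (T : Tail B R) (e : R ≃ₐ[B] R') : Tail B R' where
  F n := (T.F n).comap e.symm.toLinearMap
  lc n := (T.lc n).comp (e.symm.toLinearMap.restrict
    (p := (T.F n).comap e.symm.toLinearMap) (q := T.F n) (fun _ h => h))
  le_succ n := Submodule.comap_mono (T.le_succ n)
  exhaust f := T.exhaust (e.symm f)
  one_mem := by
    change e.symm 1 ∈ T.F 0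
    rw [map_one]
    exact T.one_mem
  lc_one := by
    change T.lc 0 ⟨e.symm 1, _⟩ = 1
    have h1 : (⟨e.symm 1, by rw [map_one]; exact T.one_mem⟩ : T.F 0) = ⟨1, T.one_mem⟩ :=
      Subtype.ext (map_one e.symm)
    rw [h1, T.lc_one]
  mul_mem m n f g hf hg := by
    change e.symm (f * g) ∈ T.F (m + n)
    rw [map_mul]
    exact T.mul_mem m n _ _ hf hg
  lc_mul m n f g := by
    have h1 := T.lc_mul m n ⟨e.symm f.1, f.2⟩ ⟨e.symm g.1, g.2⟩
    have h2 : (⟨e.symm (f.1 * g.1), by rw [map_mul]; exact T.mul_mem m n _ _ f.2 g.2⟩ :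
        T.F (m + n)) = ⟨e.symm f.1 * e.symm g.1, T.mul_mem m n _ _ f.2 g.2⟩ :=
      Subtype.ext (map_mul e.symm f.1 g.1)
    change T.lc (m + n) ⟨e.symm (f.1 * g.1), _⟩ = T.lc m ⟨e.symm f.1, f.2⟩ * T.lc n ⟨e.symm g.1, g.2⟩
    rw [h2, h1]
  lc_zero f := by
    refine (T.lc_zero ⟨e.symm f.1, f.2⟩).trans ?_
    constructor
    · intro h
      have h1 : e.symm f.1 = 0 := congrArg Subtype.val h
      rw [EmbeddingLike.map_eq_zero_iff] at h1
      exact Subtype.ext h1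
    · rintro rfl
      exact Subtype.ext (map_zero e.symm)
  lc_succ n f := T.lc_succ n ⟨e.symm f.1, f.2⟩
  surj n hn b := by
    obtain ⟨f, hf⟩ := T.surj n hn b
    refine ⟨⟨e f.1, ?_⟩, ?_⟩
    · change e.symm (e f.1) ∈ T.F n
      rw [AlgEquiv.symm_apply_apply]
      exact f.2
    · rw [← hf]
      change T.lc n ⟨e.symm (e f.1), _⟩ = T.lc n f
      congr 1
      exact Subtype.ext (e.symm_apply_apply f.1)
  gap n hn f := T.gap n hn ⟨e.symm f.1, f.2⟩

theorem Tail.transport_lead {B R R' : Type} [CommRing B] [CommRing R] [Algebra B R]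
    [CommRing R'] [Algebra B R'] (T : Tail B R) (e : R ≃ₐ[B] R') (n : ℕ) (f : R) (b : B) :
    (T.transport e).Lead n (e f) b ↔ T.Lead n f b := by
  constructor
  · rintro ⟨h, h2⟩
    have h3 : e.symm (e f) ∈ T.F n := h
    rw [AlgEquiv.symm_apply_apply] at h3
    refine ⟨h3, ?_⟩
    rw [← h2]
    change T.lc n ⟨f, h3⟩ = T.lc n ⟨e.symm (e f), _⟩
    congr 1
    exact Subtype.ext (e.symm_apply_apply f).symm
  · rintro ⟨h, h2⟩
    have h3 : e f ∈ (T.transport e).F n := by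
      change e.symm (e f) ∈ T.F n
      rw [AlgEquiv.symm_apply_apply]
      exact h
    refine ⟨h3, ?_⟩
    rw [← h2]
    change T.lc n ⟨e.symm (e f), _⟩ = T.lc n ⟨f, h⟩
    congr 1
    exact Subtype.ext (e.symm_apply_apply f)

theorem Tail.mem_iff_lead {B R : Type} [CommRing B] [CommRing R] [Algebra B R] (T : Tail B R)
    {n : ℕ} {f : R} : f ∈ T.F n ↔ ∃ b, T.Lead n f b :=
  ⟨fun h => ⟨_, h, rfl⟩, fun ⟨_, h, _⟩ => h⟩

theorem isUnit_two : IsUnit (2 : ℂ) := isUnit_iff_ne_zero.2 two_ne_zero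

theorem two_half : (2 : ℂ) * (1 / 2) = 1 := by norm_num

/-- The pole orders at infinity on the coordinate ring, with leading coefficients: `X, Y, Z` have
poles of order `4, 5, 6`. -/
noncomputable def tailC (s : Par) : Tail ℂ (CoordRing s) := Classical.choose (exists_tail isUnit_two s)

theorem tailC_xyz (s : Par) : XYZ (tailC s).pre (coord s 0) (coord s 1) (coord s 2) :=
  Classical.choose_spec (exists_tail isUnit_two s)

instance (s : Par) : IsDomain (CoordRing s) := (tailC s).isDomain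

/-! ## The objects -/

/-- The object given by a point of `XS`. -/
noncomputable def toObj (q : XS) : Obj :=
  have : IsDedekindDomain (CoordRing q.1.1) := dedekind_of_smooth q.2.1
  { R := CoordRing q.1.1
    pole := (tailC q.1.1).pole
    stratum := (tailC q.1.1).pole_isOddStratum
    pt := fun i => ev (q.2.2.1 i)
    pt_injective := fun _ _ h => q.2.2.2 (ev_inj _ _ h) }

/-! ## Tails with the same coordinates -/

/-- two tails on the same ring with compatible coordinates are the same -/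
theorem lead_iff_of_xyz {s : Par} {R R' : Type} [CommRing R] [Algebra ℂ R] [CommRing R']
    [Algebra ℂ R'] (T : Tail ℂ R) (T' : Tail ℂ R') (e : R ≃ₐ[ℂ] R')
    (φ : CoordRing s ≃ₐ[ℂ] R)
    (h : XYZ T.pre (φ (coord s 0)) (φ (coord s 1)) (φ (coord s 2)))
    (h' : XYZ T'.pre (e (φ (coord s 0))) (e (φ (coord s 1))) (e (φ (coord s 2))))
    (n : ℕ) (f : R) (b : ℂ) : T'.Lead n (e f) b ↔ T.Lead n f b := by
  obtain ⟨g, rfl⟩ := φ.surjective f
  obtain ⟨P, rfl⟩ := exists_val s g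
  have h1 : φ (val (coord s 0) (coord s 1) (coord s 2) P) =
      val (φ (coord s 0)) (φ (coord s 1)) (φ (coord s 2)) P := map_val (φ : CoordRing s →ₐ[ℂ] R) _ _ _ P
  have h2 : e (val (φ (coord s 0)) (φ (coord s 1)) (φ (coord s 2)) P) =
      val (e (φ (coord s 0))) (e (φ (coord s 1))) (e (φ (coord s 2))) P :=
    map_val (e : R →ₐ[ℂ] R') _ _ _ P
  rw [h1, h2]
  exact (L_val_iff h' n P b).trans (L_val_iff h n P b).symm

/-! ## Every object comes from a point of `XS` -/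

theorem ord_eq_of_F {R R' : Type} [CommRing R] [Algebra ℂ R] [CommRing R'] [Algebra ℂ R']
    (P : PoleOrder R) (P' : PoleOrder R') (e : R → R')
    (h : ∀ n f, e f ∈ P'.L n ↔ f ∈ P.L n) (f : R) : P'.ord (e f) = P.ord f := by
  apply le_antisymm
  · exact (h _ f).2 (P.mem_L.2 le_rfl)
  · exact (h _ f).1 (P'.mem_L.2 le_rfl)

theorem exists_iso (A : Obj) : ∃ q : XS, Nonempty ((toObj q).Iso A) := by
  obtain ⟨T, hT⟩ := exists_tail_of_pole A.R A.pole A.stratum
  obtain ⟨T₀, hT₀, hall⟩ := tail_main ℂ isUnit_two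
  obtain ⟨s, ⟨e, he, -⟩, -⟩ := hall A.R T
  -- the curve is smooth
  have hded : IsDedekindDomain (CoordRing s) := isDedekindDomain_of_equiv e.symm.toRingEquiv
  have hs : SmoothC s := smooth_of_dedekind
  -- the points
  have hpt : ∀ i, (fun k => (A.pt i) (e (coord s k))) ∈ Curve s := fun i =>
    pt_mem ((A.pt i).comp (e : CoordRing s →ₐ[ℂ] A.R))
  have hev : ∀ i, ev (hpt i) = (A.pt i).comp (e : CoordRing s →ₐ[ℂ] A.R) := fun i =>
    ev_pt ((A.pt i).comp (e : CoordRing s →ₐ[ℂ] A.R))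
  refine ⟨⟨(s, fun i k => (A.pt i) (e (coord s k))), hs, hpt, fun i j hij => ?_⟩, ⟨?_⟩⟩
  · apply A.pt_injective
    have h1 : (A.pt i).comp (e : CoordRing s →ₐ[ℂ] A.R) = (A.pt j).comp (e : CoordRing s →ₐ[ℂ] A.R) :=
      coord_hom_ext fun k => congrFun hij k
    ext f
    obtain ⟨g, rfl⟩ := e.surjective f
    exact DFunLike.congr_fun h1 g
  · refine ⟨e, ?_, ?_⟩
    · apply ord_eq_of_F (tailC s).pole A.pole e
      intro n f
      rw [← hT, Tail.pole_L, T.mem_iff_lead, (tailC s).mem_iff_lead]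
      apply exists_congr
      intro b
      rw [← he n f b]
      exact lead_iff_of_xyz (tailC s) (T₀ s) AlgEquiv.refl AlgEquiv.refl (tailC_xyz s)
        ⟨(hT₀ s).1, (hT₀ s).2.1, (hT₀ s).2.2⟩ n f b
    · intro i f
      exact (DFunLike.congr_fun (hev i) f).symm

/-! ## The isomorphisms between the objects of `XS` -/

/-- the action on the parameters -/
def actPar (u : ℂˣ) (s : Par) : Par := fun i => (u : ℂ) ^ wts i * s i

theorem act_fst (u : ℂˣ) (q : Tot) : (act u q).1 = actPar u q.1 := rfl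

theorem eqs_act (u : ℂˣ) (s : Par) {R : Type} [CommRing R] [Algebra ℂ R] {X Y Z : R}
    (h : Eqs (actPar u s) X Y Z) :
    Eqs s (algebraMap ℂ R ((u⁻¹ : ℂˣ) : ℂ) ^ 4 * X) (algebraMap ℂ R ((u⁻¹ : ℂˣ) : ℂ) ^ 5 * Y)
      (algebraMap ℂ R ((u⁻¹ : ℂˣ) : ℂ) ^ 6 * Z) := by
  obtain ⟨v, hv⟩ : ∃ v : R, v = algebraMap ℂ R ((u⁻¹ : ℂˣ) : ℂ) := ⟨_, rfl⟩
  obtain ⟨w, hw⟩ : ∃ w : R, w = algebraMap ℂ R (u : ℂ) := ⟨_, rfl⟩
  have hwv : w * v = 1 := by rw [hw, hv, ← map_mul, Units.mul_inv, map_one]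
  have hk : ∀ k, w ^ k * v ^ k = 1 := fun k => by rw [← mul_pow, hwv, one_pow]
  obtain ⟨q1, q2⟩ := h
  change Y ^ 2 = X * Z + algebraMap ℂ R ((u : ℂ) ^ 10 * s 6) at q1
  change Z ^ 2 = X ^ 3 + algebraMap ℂ R ((u : ℂ) ^ 2 * s 0) * (X * Z)
    + algebraMap ℂ R ((u : ℂ) ^ 3 * s 1) * (X * Y) + algebraMap ℂ R ((u : ℂ) ^ 4 * s 2) * X ^ 2
    + algebraMap ℂ R ((u : ℂ) ^ 6 * s 3) * Z + algebraMap ℂ R ((u : ℂ) ^ 7 * s 4) * Y
    + algebraMap ℂ R ((u : ℂ) ^ 8 * s 5) * X + algebraMap ℂ R ((u : ℂ) ^ 12 * s 7) at q2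
  simp only [map_mul, map_pow, ← hw] at q1 q2
  rw [← hv]
  constructor
  · linear_combination v ^ 10 * q1 + algebraMap ℂ R (s 6) * hk 10
  · linear_combination v ^ 12 * q2 + algebraMap ℂ R (s 0) * X * Z * v ^ 10 * hk 2
      + algebraMap ℂ R (s 1) * X * Y * v ^ 9 * hk 3 + algebraMap ℂ R (s 2) * X ^ 2 * v ^ 8 * hk 4
      + algebraMap ℂ R (s 3) * Z * v ^ 6 * hk 6 + algebraMap ℂ R (s 4) * Y * v ^ 5 * hk 7
      + algebraMap ℂ R (s 5) * X * v ^ 4 * hk 8 + algebraMap ℂ R (s 7) * hk 12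

theorem eqs_act' (u : ℂˣ) (s : Par) {R : Type} [CommRing R] [Algebra ℂ R] {X Y Z : R}
    (h : Eqs s X Y Z) :
    Eqs (actPar u s) (algebraMap ℂ R (u : ℂ) ^ 4 * X) (algebraMap ℂ R (u : ℂ) ^ 5 * Y)
      (algebraMap ℂ R (u : ℂ) ^ 6 * Z) := by
  obtain ⟨w, hw⟩ : ∃ w : R, w = algebraMap ℂ R (u : ℂ) := ⟨_, rfl⟩
  obtain ⟨q1, q2⟩ := h
  rw [← hw]
  constructor
  · change (w ^ 5 * Y) ^ 2 = w ^ 4 * X * (w ^ 6 * Z) + algebraMap ℂ R ((u : ℂ) ^ 10 * s 6)
    simp only [map_mul, map_pow, ← hw]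
    linear_combination w ^ 10 * q1
  · change (w ^ 6 * Z) ^ 2 = (w ^ 4 * X) ^ 3
      + algebraMap ℂ R ((u : ℂ) ^ 2 * s 0) * (w ^ 4 * X * (w ^ 6 * Z))
      + algebraMap ℂ R ((u : ℂ) ^ 3 * s 1) * (w ^ 4 * X * (w ^ 5 * Y))
      + algebraMap ℂ R ((u : ℂ) ^ 4 * s 2) * (w ^ 4 * X) ^ 2
      + algebraMap ℂ R ((u : ℂ) ^ 6 * s 3) * (w ^ 6 * Z)
      + algebraMap ℂ R ((u : ℂ) ^ 7 * s 4) * (w ^ 5 * Y)
      + algebraMap ℂ R ((u : ℂ) ^ 8 * s 5) * (w ^ 4 * X) + algebraMap ℂ R ((u : ℂ) ^ 12 * s 7)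
    simp only [map_mul, map_pow, ← hw]
    linear_combination w ^ 12 * q2

theorem actPar_mul (u v : ℂˣ) (s : Par) : actPar u (actPar v s) = actPar (u * v) s := by
  funext i
  simp only [actPar, Units.val_mul, mul_pow]
  ring

theorem actPar_one (s : Par) : actPar 1 s = s := by
  funext i
  simp [actPar]

theorem act_mul (u v : ℂˣ) (q : Tot) : act u (act v q) = act (u * v) q := by
  apply Prod.ext
  · exact actPar_mul u v q.1
  · funext j i
    simp only [act, Units.val_mul, mul_pow]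
    ring

theorem act_one (q : Tot) : act 1 q = q := by
  apply Prod.ext
  · exact actPar_one q.1
  · funext j i
    simp [act]

/-- the action on the points -/
def actPt (u : ℂˣ) (e : Pt) : Pt := fun i => (u : ℂ) ^ (4 + (i : ℕ)) * e i

theorem curve_act (u : ℂˣ) {s : Par} {e : Pt} (h : e ∈ Curve s) : actPt u e ∈ Curve (actPar u s) := by
  obtain ⟨h1, h2⟩ := h
  constructor
  · have : f1 (actPar u s) (actPt u e) = (u : ℂ) ^ 10 * f1 s e := by
      simp only [f1, actPar, actPt, wts, Matrix.cons_val, Fin.val_zero, Fin.val_one, Fin.val_two]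
      ring
    rw [this, h1, mul_zero]
  · have : f2 (actPar u s) (actPt u e) = (u : ℂ) ^ 12 * f2 s e := by
      simp only [f2, actPar, actPt, wts, Matrix.cons_val, Fin.val_zero, Fin.val_one, Fin.val_two]
      ring
    rw [this, h2, mul_zero]

theorem tau_act (u : ℂˣ) (s : Par) (e : Pt) (i : Fin 3) :
    tau (actPar u s) (actPt u e) i = (u : ℂ) ^ (11 + (i : ℕ)) * tau s e i := by
  fin_cases i <;>
  · simp only [tau, g1, g2, actPar, actPt, wts, Matrix.cons_val, Fin.val_zero, Fin.val_one,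
      Fin.val_two, Fin.zero_eta, Fin.mk_one, Fin.reduceFinMk]
    ring

theorem actPt_mul (u v : ℂˣ) (e : Pt) : actPt u (actPt v e) = actPt (u * v) e := by
  funext i
  simp only [actPt, Units.val_mul, mul_pow]
  ring

theorem actPt_one (e : Pt) : actPt 1 e = e := by
  funext i
  simp [actPt]

theorem smooth_act (u : ℂˣ) {s : Par} (h : SmoothC s) : SmoothC (actPar u s) := by
  intro e he h0
  have h1 := curve_act u⁻¹ he
  rw [actPar_mul, inv_mul_cancel, actPar_one] at h1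
  apply h _ h1
  funext i
  have h2 := tau_act u s (actPt u⁻¹ e) i
  rw [actPt_mul, mul_inv_cancel, actPt_one, h0] at h2
  have h3 : (u : ℂ) ^ (11 + (i : ℕ)) ≠ 0 := pow_ne_zero _ u.ne_zero
  exact (mul_eq_zero.1 h2.symm).resolve_left h3

theorem act_mem (u : ℂˣ) {q : Tot} (h : q ∈ XS) : act u q ∈ XS := by
  refine ⟨smooth_act u h.1, fun i => curve_act u (h.2.1 i), fun i j hij => h.2.2 ?_⟩
  have h1 : actPt u (q.2 i) = actPt u (q.2 j) := hij
  have h2 := congrArg (actPt u⁻¹) h1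
  rwa [actPt_mul, actPt_mul, inv_mul_cancel, actPt_one, actPt_one] at h2

/-- the isomorphism of the coordinate rings given by the action -/
noncomputable def actRing (u : ℂˣ) (s : Par) : CoordRing s ≃ₐ[ℂ] CoordRing (actPar u s) :=
  AlgEquiv.ofAlgHom
    (toR s _ _ _ (eqs_act u s (eqs_coord (actPar u s))))
    (toR (actPar u s) _ _ _ (eqs_act' u s (eqs_coord s)))
    (by
      have hu : ∀ k, algebraMap ℂ (CoordRing (actPar u s)) (u : ℂ) ^ k *
          algebraMap ℂ (CoordRing (actPar u s)) ((u⁻¹ : ℂˣ) : ℂ) ^ k = 1 := fun k => by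
        rw [← mul_pow, ← map_mul, Units.mul_inv, map_one, one_pow]
      apply coord_hom_ext
      intro i
      rw [AlgHom.comp_apply, toR_coord, AlgHom.id_apply]
      fin_cases i
      · change toR s _ _ _ _ (algebraMap ℂ (CoordRing s) (u : ℂ) ^ 4 * coord s 0) = _
        rw [map_mul, map_pow, AlgHom.commutes, toR_coord]
        change _ * (_ * _) = coord _ 0
        rw [← mul_assoc, hu, one_mul]
      · change toR s _ _ _ _ (algebraMap ℂ (CoordRing s) (u : ℂ) ^ 5 * coord s 1) = _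
        rw [map_mul, map_pow, AlgHom.commutes, toR_coord]
        change _ * (_ * _) = coord _ 1
        rw [← mul_assoc, hu, one_mul]
      · change toR s _ _ _ _ (algebraMap ℂ (CoordRing s) (u : ℂ) ^ 6 * coord s 2) = _
        rw [map_mul, map_pow, AlgHom.commutes, toR_coord]
        change _ * (_ * _) = coord _ 2
        rw [← mul_assoc, hu, one_mul])
    (by
      have hu : ∀ k, algebraMap ℂ (CoordRing s) ((u⁻¹ : ℂˣ) : ℂ) ^ k *
          algebraMap ℂ (CoordRing s) (u : ℂ) ^ k = 1 := fun k => by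
        rw [← mul_pow, ← map_mul, Units.inv_mul, map_one, one_pow]
      apply coord_hom_ext
      intro i
      rw [AlgHom.comp_apply, toR_coord, AlgHom.id_apply]
      fin_cases i
      · change toR (actPar u s) _ _ _ _ (algebraMap ℂ (CoordRing (actPar u s)) ((u⁻¹ : ℂˣ) : ℂ) ^ 4
          * coord (actPar u s) 0) = _
        rw [map_mul, map_pow, AlgHom.commutes, toR_coord]
        change _ * (_ * _) = coord _ 0
        rw [← mul_assoc, hu, one_mul]
      · change toR (actPar u s) _ _ _ _ (algebraMap ℂ (CoordRing (actPar u s)) ((u⁻¹ : ℂˣ) : ℂ) ^ 5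
          * coord (actPar u s) 1) = _
        rw [map_mul, map_pow, AlgHom.commutes, toR_coord]
        change _ * (_ * _) = coord _ 1
        rw [← mul_assoc, hu, one_mul]
      · change toR (actPar u s) _ _ _ _ (algebraMap ℂ (CoordRing (actPar u s)) ((u⁻¹ : ℂˣ) : ℂ) ^ 6
          * coord (actPar u s) 2) = _
        rw [map_mul, map_pow, AlgHom.commutes, toR_coord]
        change _ * (_ * _) = coord _ 2
        rw [← mul_assoc, hu, one_mul])

theorem actRing_coord (u : ℂˣ) (s : Par) (i : Fin 3) : actRing u s (coord s i) =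
    algebraMap ℂ _ (((u⁻¹ : ℂˣ) : ℂ) ^ (4 + (i : ℕ))) * coord (actPar u s) i := by
  have h : actRing u s (coord s i) = toR s _ _ _ (eqs_act u s (eqs_coord (actPar u s))) (coord s i) :=
    rfl
  rw [h, toR_coord, map_pow]
  fin_cases i <;> rfl

theorem xyz_rescale (u : ℂˣ) (s : Par) : XYZ ((tailC s).rescale u).pre
    (algebraMap ℂ _ (((u⁻¹ : ℂˣ) : ℂ) ^ 4) * coord s 0)
    (algebraMap ℂ _ (((u⁻¹ : ℂˣ) : ℂ) ^ 5) * coord s 1)
    (algebraMap ℂ _ (((u⁻¹ : ℂˣ) : ℂ) ^ 6) * coord s 2) := by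
  have huk : ∀ k : ℕ, (u : ℂ) ^ k * ((u⁻¹ : ℂˣ) : ℂ) ^ k = 1 := fun k => by
    rw [← mul_pow, Units.mul_inv, one_pow]
  have h := tailC_xyz s
  refine ⟨?_, ?_, ?_⟩
  · refine PreTail.L.congr ((tailC s).rescale_lead u (h.hX.cmul (((u⁻¹ : ℂˣ) : ℂ) ^ 4))) rfl ?_
    rw [mul_one]
    exact huk 4
  · refine PreTail.L.congr ((tailC s).rescale_lead u (h.hY.cmul (((u⁻¹ : ℂˣ) : ℂ) ^ 5))) rfl ?_
    rw [mul_one]
    exact huk 5
  · refine PreTail.L.congr ((tailC s).rescale_lead u (h.hZ.cmul (((u⁻¹ : ℂˣ) : ℂ) ^ 6))) rfl ?_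
    rw [mul_one]
    exact huk 6

theorem actRing_lead (u : ℂˣ) (s : Par) (n : ℕ) (f : CoordRing s) (b : ℂ) :
    ((tailC (actPar u s)).rescale u).Lead n (actRing u s f) b ↔ (tailC s).Lead n f b := by
  apply lead_iff_of_xyz (tailC s) _ (actRing u s) AlgEquiv.refl (tailC_xyz s)
  have h := xyz_rescale u (actPar u s)
  change XYZ _ (actRing u s (coord s 0)) (actRing u s (coord s 1)) (actRing u s (coord s 2))
  rw [actRing_coord, actRing_coord, actRing_coord]
  exact h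

/-- the isomorphism of the objects given by the action -/
noncomputable def actIso (u : ℂˣ) (q : XS) : (toObj q).Iso (toObj ⟨act u q.1, act_mem u q.2⟩) where
  equiv := actRing u q.1.1
  ord_equiv f := by
    apply ord_eq_of_F (tailC q.1.1).pole (tailC (actPar u q.1.1)).pole (actRing u q.1.1)
    intro n f
    rw [Tail.pole_L, Tail.pole_L, (tailC q.1.1).mem_iff_lead]
    have h1 : (tailC (actPar u q.1.1)).F n = ((tailC (actPar u q.1.1)).rescale u).F n := rfl
    rw [h1, Tail.mem_iff_lead]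
    exact exists_congr fun b => actRing_lead u q.1.1 n f b
  pt_equiv i f := by
    have h : (ev (curve_act u (q.2.2.1 i))).comp (actRing u q.1.1 : CoordRing q.1.1 →ₐ[ℂ] _) =
        ev (q.2.2.1 i) := by
      apply coord_hom_ext
      intro k
      change ev (curve_act u (q.2.2.1 i)) (actRing u q.1.1 (coord q.1.1 k)) = _
      rw [actRing_coord, map_mul, AlgHom.commutes, ev_coord, ev_coord]
      change ((u⁻¹ : ℂˣ) : ℂ) ^ (4 + (k : ℕ)) * ((u : ℂ) ^ (4 + (k : ℕ)) * q.1.2 i k) = q.1.2 i k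
      rw [← mul_assoc, ← mul_pow, Units.inv_mul, one_pow, one_mul]
    exact DFunLike.congr_fun h f

theorem eqs_map {s : Par} {R R' : Type} [CommRing R] [Algebra ℂ R] [CommRing R'] [Algebra ℂ R']
    (φ : R →ₐ[ℂ] R') {X Y Z : R} (h : Eqs s X Y Z) : Eqs s (φ X) (φ Y) (φ Z) := by
  obtain ⟨h1, h2⟩ := h
  constructor
  · have := congrArg φ h1
    simpa only [map_add, map_mul, map_pow, AlgHom.commutes] using this
  · have := congrArg φ h2
    simpa only [map_add, map_mul, map_pow, AlgHom.commutes] using this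

theorem iso_unit {s s' : Par} (e : CoordRing s ≃ₐ[ℂ] CoordRing s')
    (he : ∀ f, (tailC s').pole.ord (e f) = (tailC s).pole.ord f) :
    ∃ u : ℂˣ, s' = actPar u s ∧ ∀ i : Fin 3, e (coord s i) =
      algebraMap ℂ (CoordRing s') (((u⁻¹ : ℂˣ) : ℂ) ^ (4 + (i : ℕ))) * coord s' i := by
  have hF : ∀ n, (tailC s').F n = ((tailC s).transport e).F n := by
    intro n
    ext g
    have h1 : g ∈ ((tailC s).transport e).F n ↔ e.symm g ∈ (tailC s).F n := Iff.rfl
    rw [h1, Tail.mem_F_iff, Tail.mem_F_iff]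
    have h2 : (tailC s').ord (e (e.symm g)) = (tailC s).ord (e.symm g) := he (e.symm g)
    rw [AlgEquiv.apply_symm_apply] at h2
    rw [h2]
  obtain ⟨u, hu⟩ := tail_unique_up_to_units (tailC s') ((tailC s).transport e) hF
  have hL : XYZ ((tailC s').rescale u).pre (e (coord s 0)) (e (coord s 1)) (e (coord s 2)) := by
    have h := tailC_xyz s
    exact ⟨(hu _ _ _).1 (((tailC s).transport_lead e _ _ _).2 h.hX),
      (hu _ _ _).1 (((tailC s).transport_lead e _ _ _).2 h.hY),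
      (hu _ _ _).1 (((tailC s).transport_lead e _ _ _).2 h.hZ)⟩
  have hE : Eqs s (e (coord s 0)) (e (coord s 1)) (e (coord s 2)) :=
    eqs_map (e : CoordRing s →ₐ[ℂ] CoordRing s') (eqs_coord s)
  have hL' := xyz_rescale u s'
  have hE' := eqs_act' u⁻¹ s' (eqs_coord s')
  rw [← map_pow, ← map_pow, ← map_pow] at hE'
  obtain ⟨e0, e1, e2, e3⟩ := ((tailC s').rescale u).unique_normal two_half hL hE hL' hE'
  refine ⟨u, ?_, ?_⟩
  · rw [e3, actPar_mul, mul_inv_cancel, actPar_one]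
  · intro i
    fin_cases i
    · exact e0
    · exact e1
    · exact e2

theorem coord_ne_zero (s : Par) (i : Fin 3) : coord s i ≠ 0 := by
  have h := tailC_xyz s
  fin_cases i
  · intro h0
    exact one_ne_zero (h.hX.unique ((PreTail.L.zero 4).congr h0.symm rfl))
  · intro h0
    exact one_ne_zero (h.hY.unique ((PreTail.L.zero 5).congr h0.symm rfl))
  · intro h0
    exact one_ne_zero (h.hZ.unique ((PreTail.L.zero 6).congr h0.symm rfl))

theorem Obj.Iso.ext' {A A' : Obj} {φ ψ : A.Iso A'} (h : ∀ f, φ.equiv f = ψ.equiv f) : φ = ψ := by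
  obtain ⟨e, h1, h2⟩ := φ
  obtain ⟨e', h1', h2'⟩ := ψ
  have h3 : e = e' := AlgEquiv.ext h
  subst h3
  rfl

theorem coord_equiv_ext {s s' : Par} {φ ψ : CoordRing s ≃ₐ[ℂ] CoordRing s'}
    (h : ∀ i, φ (coord s i) = ψ (coord s i)) (f : CoordRing s) : φ f = ψ f := by
  have h1 : (φ : CoordRing s →ₐ[ℂ] CoordRing s') = ψ := coord_hom_ext h
  exact DFunLike.congr_fun h1 f

theorem iso_ext {q q' : XS} {φ ψ : (toObj q).Iso (toObj q')}
    (h : ∀ i, φ.equiv (coord q.1.1 i) = ψ.equiv (coord q.1.1 i)) : φ = ψ :=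
  Obj.Iso.ext' (coord_equiv_ext (s := q.1.1) (s' := q'.1.1) h)

theorem unit_unique {s s' : Par} {u v : ℂˣ} (e : CoordRing s → CoordRing s')
    (hu : ∀ i : Fin 3, e (coord s i) =
      algebraMap ℂ (CoordRing s') (((u⁻¹ : ℂˣ) : ℂ) ^ (4 + (i : ℕ))) * coord s' i)
    (hv : ∀ i : Fin 3, e (coord s i) =
      algebraMap ℂ (CoordRing s') (((v⁻¹ : ℂˣ) : ℂ) ^ (4 + (i : ℕ))) * coord s' i) : u = v := by
  have key : ∀ i : Fin 3, ((u⁻¹ : ℂˣ) : ℂ) ^ (4 + (i : ℕ)) = ((v⁻¹ : ℂˣ) : ℂ) ^ (4 + (i : ℕ)) := by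
    intro i
    have h1 := (hu i).symm.trans (hv i)
    exact algebraMap_injective_of_tail (tailC s') (mul_right_cancel₀ (coord_ne_zero s' i) h1)
  have h4 : ((u⁻¹ : ℂˣ) : ℂ) ^ 4 = ((v⁻¹ : ℂˣ) : ℂ) ^ 4 := key 0
  have h5 : ((u⁻¹ : ℂˣ) : ℂ) ^ 5 = ((v⁻¹ : ℂˣ) : ℂ) ^ 5 := key 1
  have h6 : ((u⁻¹ : ℂˣ) : ℂ) = ((v⁻¹ : ℂˣ) : ℂ) := by
    rw [pow_succ _ 4, pow_succ _ 4, h4] at h5
    exact mul_left_cancel₀ (pow_ne_zero 4 (Units.ne_zero _)) h5
  exact inv_injective (Units.ext h6)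

theorem iso_unit_full {q q' : XS} (φ : (toObj q).Iso (toObj q')) : ∃ u : ℂˣ, q'.1 = act u q.1 ∧
    ∀ i : Fin 3, φ.equiv (coord q.1.1 i) =
      algebraMap ℂ (CoordRing q'.1.1) (((u⁻¹ : ℂˣ) : ℂ) ^ (4 + (i : ℕ))) * coord q'.1.1 i := by
  obtain ⟨u, h1, h2⟩ := iso_unit (s := q.1.1) (s' := q'.1.1) φ.equiv φ.ord_equiv
  refine ⟨u, ?_, h2⟩
  apply Prod.ext
  · exact h1
  · funext i k
    have h3 : ev (q'.2.2.1 i) (φ.equiv (coord q.1.1 k)) = ev (q.2.2.1 i) (coord q.1.1 k) :=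
      φ.pt_equiv i (coord q.1.1 k)
    have h4 : ev (q'.2.2.1 i) (φ.equiv (coord q.1.1 k)) =
        ev (q'.2.2.1 i) (algebraMap ℂ (CoordRing q'.1.1) (((u⁻¹ : ℂˣ) : ℂ) ^ (4 + (k : ℕ)))
          * coord q'.1.1 k) := congrArg _ (h2 k)
    rw [map_mul, AlgHom.commutes, ev_coord] at h4
    rw [ev_coord] at h3
    rw [h3] at h4
    change q'.1.2 i k = (u : ℂ) ^ (4 + (k : ℕ)) * q.1.2 i k
    rw [h4]
    change q'.1.2 i k = (u : ℂ) ^ (4 + (k : ℕ)) * (((u⁻¹ : ℂˣ) : ℂ) ^ (4 + (k : ℕ)) * q'.1.2 i k)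
    rw [← mul_assoc, ← mul_pow, Units.mul_inv, one_pow, one_mul]

theorem exists_actIso {q q' : XS} (u : ℂˣ) (h : q'.1 = act u q.1) :
    ∃ φ : (toObj q).Iso (toObj q'), ∀ i : Fin 3, φ.equiv (coord q.1.1 i) =
      algebraMap ℂ (CoordRing q'.1.1) (((u⁻¹ : ℂˣ) : ℂ) ^ (4 + (i : ℕ))) * coord q'.1.1 i := by
  obtain ⟨q', hq'⟩ := q'
  change q' = act u q.1 at h
  subst h
  exact ⟨actIso u q, fun i => actRing_coord u q.1.1 i⟩

/-- **The moduli theorem.** Every object is isomorphic to the object of a point of `XS`, and the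
isomorphisms between the objects of two points `q, q'` of `XS` are the elements `u` of `ℂˣ` with
`q' = u q`. That is, the groupoid of the objects is the action groupoid of `ℂˣ` on `XS`. -/
theorem moduli :
    (∀ A : Obj, ∃ q : XS, Nonempty ((toObj q).Iso A)) ∧
    ∀ q q' : XS, ∃ Φ : {u : ℂˣ // q'.1 = act u q.1} ≃ (toObj q).Iso (toObj q'),
      ∀ u (i : Fin 3), (Φ u).equiv (coord q.1.1 i) =
        algebraMap ℂ (CoordRing q'.1.1) (((u.1⁻¹ : ℂˣ) : ℂ) ^ (4 + (i : ℕ))) * coord q'.1.1 i := by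
  refine ⟨exists_iso, fun q q' => ?_⟩
  choose Φ hΦ using fun u : {u : ℂˣ // q'.1 = act u q.1} => exists_actIso u.1 u.2
  refine ⟨Equiv.ofBijective Φ ⟨fun u v h => ?_, fun φ => ?_⟩, hΦ⟩
  · apply Subtype.ext
    refine unit_unique (Φ u).equiv (hΦ u) ?_
    rw [h]
    exact hΦ v
  · obtain ⟨u, h1, h2⟩ := iso_unit_full φ
    refine ⟨⟨u, h1⟩, iso_ext fun i => ?_⟩
    rw [hΦ]
    exact (h2 i).symm

end KZP
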