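import Pool.Agent.KZP.CMod
import Pool.Agent.KZP.CForm

/-!
# KZP-COMP: the objects in coordinates
-/

set_option autoImplicit false

open KaehlerDifferential

namespace KZP

/-- composition -/
def Obj.Iso.trans {A B C : Obj} (φ : A.Iso B) (ψ : B.Iso C) : A.Iso C where
  equiv := φ.equiv.trans ψ.equiv
  ord_equiv f := (ψ.ord_equiv (φ.equiv f)).trans (φ.ord_equiv f)
  pt_equiv i f := (ψ.pt_equiv i (φ.equiv f)).trans (φ.pt_equiv i f)

/-- inverse -/
def Obj.Iso.symm {A B : Obj} (φ : A.Iso B) : B.Iso A where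
  equiv := φ.equiv.symm
  ord_equiv f := by
    have h := φ.ord_equiv (φ.equiv.symm f)
    rw [AlgEquiv.apply_symm_apply] at h
    exact h.symm
  pt_equiv i f := by
    have h := φ.pt_equiv i (φ.equiv.symm f)
    rw [AlgEquiv.apply_symm_apply] at h
    exact h.symm

theorem toObj_ord_coord (s : Par) (i : Fin 3) : (tailC s).pole.ord (coord s i) = 4 + (i : ℕ) := by
  have h := tailC_xyz s
  fin_cases i
  · exact (tailC s).ord_eq one_ne_zero h.hX
  · exact (tailC s).ord_eq one_ne_zero h.hY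
  · exact (tailC s).ord_eq one_ne_zero h.hZ

theorem coords_of_iso {q : XS} {A : Obj} (φ : (toObj q).Iso A) :
    A.Coords q (fun i => φ.equiv (coord q.1.1 i)) where
  ord_X i := (φ.ord_equiv (coord q.1.1 i)).trans (toObj_ord_coord q.1.1 i)
  eqs := eqs_map (s := q.1.1) (R := CoordRing q.1.1) (R' := A.R)
    (AlgEquiv.toAlgHom (A₁ := CoordRing q.1.1) φ.equiv) (eqs_coord q.1.1)
  pt_X j i := (φ.pt_equiv j (coord q.1.1 i)).trans (ev_coord (q.2.2.1 j) i)

theorem Tail.exists_lead_of_ord {R : Type} [CommRing R] [Algebra ℂ R] (T : Tail ℂ R) {f : R} {n : ℕ}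
    (hn : n ≠ 0) (h : T.pole.ord f = n) : ∃ b, b ≠ 0 ∧ T.pre.L n f b := by
  have hf : f ≠ 0 := by
    rintro rfl
    rw [T.pole.ord_zero] at h
    exact hn h.symm
  obtain ⟨b, hb, h1⟩ := T.exists_lead_ord hf
  exact ⟨b, hb, by rw [← h]; exact h1⟩

theorem rescale_xyz {R : Type} [CommRing R] [Algebra ℂ R] (T : Tail ℂ R) {s : Par} {X Y Z : R}
    (hX : T.pole.ord X = 4) (hY : T.pole.ord Y = 5) (hZ : T.pole.ord Z = 6) (hE : Eqs s X Y Z) :
    ∃ u : ℂˣ, XYZ (T.rescale u).pre X Y Z := by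
  obtain ⟨a, ha, hXa⟩ := T.exists_lead_of_ord (by norm_num) hX
  obtain ⟨b, hb, hYb⟩ := T.exists_lead_of_ord (by norm_num) hY
  obtain ⟨c, hc, hZc⟩ := T.exists_lead_of_ord (by norm_num) hZ
  obtain ⟨q1, q2⟩ := hE
  -- `b² = a c`
  have e1 : b ^ 2 = a * c := by
    have h1 : T.pre.L 10 (Y ^ 2) (b ^ 2) := by
      rw [pow_two, pow_two]
      exact hYb.mul hYb
    have h2 : T.pre.L 10 (X * Z) (a * c) := hXa.mul hZc
    have h3 : T.pre.L 10 (algebraMap ℂ R (s 6)) 0 := (PreTail.L.const (s 6)).upto (by norm_num)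
    have h4 := h2.add h3
    rw [add_zero, ← q1] at h4
    exact h1.unique h4
  -- `c² = a³`
  have e2 : c ^ 2 = a ^ 3 := by
    have h1 : T.pre.L 12 (Z ^ 2) (c ^ 2) := by
      rw [pow_two, pow_two]
      exact hZc.mul hZc
    have h2 : T.pre.L 12 (X ^ 3) (a ^ 3) := by
      have := (hXa.mul hXa).mul hXa
      exact this.congr (by ring) (by ring)
    have hc0 : ∀ (n : ℕ) (g : R) (d t : ℂ), n < 12 → T.pre.L n g d →
        T.pre.L 12 (algebraMap ℂ R t * g) 0 := fun n g d t hn hg => (hg.cmul t).upto hn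
    have h3 := hc0 10 (X * Z) _ (s 0) (by norm_num) (hXa.mul hZc)
    have h4 := hc0 9 (X * Y) _ (s 1) (by norm_num) (hXa.mul hYb)
    have h5 := hc0 8 (X ^ 2) (a ^ 2) (s 2) (by norm_num)
      ((hXa.mul hXa).congr (by ring) (by ring))
    have h6 := hc0 6 Z _ (s 3) (by norm_num) hZc
    have h7 := hc0 5 Y _ (s 4) (by norm_num) hYb
    have h8 := hc0 4 X _ (s 5) (by norm_num) hXa
    have h9 : T.pre.L 12 (algebraMap ℂ R (s 7)) 0 := (PreTail.L.const (s 7)).upto (by norm_num)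
    have h10 := ((((((h2.add h3).add h4).add h5).add h6).add h7).add h8).add h9
    rw [← q2] at h10
    simp only [add_zero] at h10
    exact h1.unique h10
  have hu : b / a ≠ 0 := div_ne_zero hb ha
  have huu : a / b ≠ 0 := div_ne_zero ha hb
  -- `a u⁴ = b u⁵ = c u⁶ = 1` for `u = a / b`
  have f4 : (a / b) ^ 4 * a = 1 := by
    have h1 : a ^ 5 = b ^ 4 := by
      calc a ^ 5 = a ^ 2 * a ^ 3 := by ring
        _ = (a * c) ^ 2 := by rw [← e2]; ring
        _ = b ^ 4 := by rw [← e1]; ring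
    rw [div_pow, div_mul_eq_mul_div, div_eq_one_iff_eq (pow_ne_zero 4 hb), ← h1]
    ring
  have f5 : (a / b) ^ 5 * b = 1 := by
    rw [← f4]
    field_simp
  have f6 : (a / b) ^ 6 * c = 1 := by
    rw [← f4, div_pow, div_pow, div_mul_eq_mul_div, div_mul_eq_mul_div,
      div_eq_div_iff (pow_ne_zero 6 hb) (pow_ne_zero 4 hb)]
    linear_combination (-(a ^ 5 * b ^ 4)) * e1
  refine ⟨Units.mk0 (a / b) huu, ?_, ?_, ?_⟩
  · exact PreTail.L.congr (T.rescale_lead (Units.mk0 (a / b) huu) hXa) rfl f4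
  · exact PreTail.L.congr (T.rescale_lead (Units.mk0 (a / b) huu) hYb) rfl f5
  · exact PreTail.L.congr (T.rescale_lead (Units.mk0 (a / b) huu) hZc) rfl f6

theorem lead_rescale_of {R : Type} [CommRing R] [Algebra ℂ R] {T : Tail ℂ R} {v w : ℂˣ} {n : ℕ}
    {f : R} (h : (T.rescale w).pre.L n f 1) :
    (T.rescale v).pre.L n (algebraMap ℂ R ((w / v : ℂˣ) : ℂ) ^ n * f) 1 := by
  obtain ⟨h1, h2⟩ := h
  have h3 : T.pre.L n f (T.lc n ⟨f, h1⟩) := ⟨h1, rfl⟩
  have h4 : (T.rescale v).pre.L n f _ := T.rescale_lead v h3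
  have h2' : (w : ℂ) ^ n * T.lc n ⟨f, h1⟩ = 1 := h2
  refine (h4.cmul (((w / v : ℂˣ) : ℂ) ^ n)).congr (by rw [map_pow]) ?_
  rw [← mul_assoc, ← mul_pow, ← Units.val_mul, div_mul_cancel]
  exact h2'

theorem exists_iso_of_coords {q : XS} {A : Obj} {X : Fin 3 → A.R} (h : A.Coords q X) :
    ∃ φ : (toObj q).Iso A, ∀ i, φ.equiv (coord q.1.1 i) = X i := by
  obtain ⟨q₀, ⟨φ₀⟩⟩ := exists_iso A
  have h₀ := coords_of_iso φ₀
  obtain ⟨X₀, hX₀⟩ : ∃ X₀ : Fin 3 → A.R, X₀ = fun i => φ₀.equiv (coord q₀.1.1 i) := ⟨_, rfl⟩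
  rw [← hX₀] at h₀
  obtain ⟨T, hT⟩ := exists_tail_of_pole A.R A.pole A.stratum
  have hord : ∀ f, T.pole.ord f = A.pole.ord f := by
    intro f
    refine (ord_eq_of_F T.pole A.pole id (fun n f => ?_) f).symm
    rw [T.pole_L, hT]
    rfl
  obtain ⟨v, hv⟩ := rescale_xyz T (by rw [hord, h.ord_X]; rfl) (by rw [hord, h.ord_X]; rfl)
    (by rw [hord, h.ord_X]; rfl) h.eqs
  obtain ⟨w, hw⟩ := rescale_xyz T (by rw [hord, h₀.ord_X]; rfl) (by rw [hord, h₀.ord_X]; rfl)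
    (by rw [hord, h₀.ord_X]; rfl) h₀.eqs
  obtain ⟨u, hu⟩ : ∃ u : ℂˣ, u = w / v := ⟨_, rfl⟩
  have hL : XYZ (T.rescale v).pre (algebraMap ℂ A.R (u : ℂ) ^ 4 * X₀ 0)
      (algebraMap ℂ A.R (u : ℂ) ^ 5 * X₀ 1) (algebraMap ℂ A.R (u : ℂ) ^ 6 * X₀ 2) := by
    rw [hu]
    exact ⟨lead_rescale_of hw.hX, lead_rescale_of hw.hY, lead_rescale_of hw.hZ⟩
  obtain ⟨e0, e1, e2, e3⟩ := (T.rescale v).unique_normal two_half hv h.eqs hL
    (eqs_act' u q₀.1.1 h₀.eqs)
  have hX : ∀ i : Fin 3, X i = algebraMap ℂ A.R ((u : ℂ) ^ (4 + (i : ℕ))) * X₀ i := by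
    intro i
    rw [map_pow]
    fin_cases i
    · exact e0
    · exact e1
    · exact e2
  have hq : q.1 = act u q₀.1 := by
    apply Prod.ext
    · exact e3
    · funext j i
      change q.1.2 j i = (u : ℂ) ^ (4 + (i : ℕ)) * q₀.1.2 j i
      rw [← h.pt_X, ← h₀.pt_X, hX, map_mul, AlgHom.commutes]
      rfl
  have hq' : q₀.1 = act u⁻¹ q.1 := by
    rw [hq, act_mul, inv_mul_cancel, act_one]
  obtain ⟨ψ, hψ⟩ := exists_actIso (q := q) (q' := q₀) u⁻¹ hq'
  refine ⟨ψ.trans φ₀, fun i => ?_⟩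
  change φ₀.equiv (ψ.equiv (coord q.1.1 i)) = X i
  rw [hψ i, hX i, hX₀, inv_inv]
  have h1 : ∀ (e : CoordRing q₀.1.1 ≃ₐ[ℂ] A.R) (a : CoordRing q₀.1.1),
      e (algebraMap ℂ (CoordRing q₀.1.1) ((u : ℂ) ^ (4 + (i : ℕ))) * a)
      = algebraMap ℂ A.R ((u : ℂ) ^ (4 + (i : ℕ))) * e a := by
    intro e a
    rw [map_mul, AlgEquiv.commutes]
  exact h1 φ₀.equiv _

theorem exists_equiv_of_coords {q : XS} {A : Obj} {X : Fin 3 → A.R} (h : A.Coords q X) :
    ∃ e : CoordRing q.1.1 ≃ₐ[ℂ] A.R, (∀ i, e (coord q.1.1 i) = X i) ∧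
      (∀ f, A.pole.ord (e f) = (tailC q.1.1).pole.ord f) ∧
      ∀ j f, A.pt j (e f) = ev (q.2.2.1 j) f := by
  obtain ⟨φ, hφ⟩ := exists_iso_of_coords h
  exact ⟨φ.equiv, hφ, φ.ord_equiv, φ.pt_equiv⟩

/-! ## The theorems for the objects in coordinates -/

theorem obj_exists_coords (A : Obj) : ∃ (q : XS) (X : Fin 3 → A.R), A.Coords q X := by
  obtain ⟨q, ⟨φ⟩⟩ := exists_iso A
  exact ⟨q, _, coords_of_iso φ⟩

theorem exists_obj_coords (q : XS) : ∃ (A : Obj) (X : Fin 3 → A.R), A.Coords q X := by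
  have φ : (toObj q).Iso (toObj q) := ⟨AlgEquiv.refl, fun _ => rfl, fun _ _ => rfl⟩
  exact ⟨toObj q, _, coords_of_iso φ⟩

theorem hom_ext_of_coords {q : XS} {A : Obj} {X : Fin 3 → A.R} (h : A.Coords q X) {R : Type}
    [CommRing R] [Algebra ℂ R] {φ ψ : A.R →ₐ[ℂ] R} (hh : ∀ i, φ (X i) = ψ (X i)) : φ = ψ := by
  obtain ⟨e, he, -, -⟩ := exists_equiv_of_coords h
  have h1 : φ.comp (e : CoordRing q.1.1 →ₐ[ℂ] A.R) = ψ.comp (e : CoordRing q.1.1 →ₐ[ℂ] A.R) := by
    apply coord_hom_ext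
    intro i
    change φ (e (coord q.1.1 i)) = ψ (e (coord q.1.1 i))
    rw [he, hh]
  ext f
  obtain ⟨g, rfl⟩ := e.surjective f
  exact DFunLike.congr_fun h1 g

theorem coords_unique_iso {q : XS} {A A' : Obj} {X : Fin 3 → A.R} {X' : Fin 3 → A'.R}
    (h : A.Coords q X) (h' : A'.Coords q X') : ∃! φ : A.Iso A', ∀ i, φ.equiv (X i) = X' i := by
  obtain ⟨e, he, he1, he2⟩ := exists_equiv_of_coords h
  obtain ⟨e', he', he1', he2'⟩ := exists_equiv_of_coords h'
  have hφ : ∀ i, (e.symm.trans e') (X i) = X' i := by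
    intro i
    rw [AlgEquiv.trans_apply, ← he i, AlgEquiv.symm_apply_apply, he']
  refine ⟨⟨e.symm.trans e', fun f => ?_, fun j f => ?_⟩, hφ, fun ψ hψ => ?_⟩
  · rw [AlgEquiv.trans_apply, he1', ← he1, AlgEquiv.apply_symm_apply]
  · rw [AlgEquiv.trans_apply, he2', ← he2, AlgEquiv.apply_symm_apply]
  · apply Obj.Iso.ext'
    intro f
    have h1 : (ψ.equiv : A.R →ₐ[ℂ] A'.R) = (e.symm.trans e' : A.R ≃ₐ[ℂ] A'.R) := by
      apply hom_ext_of_coords h
      intro i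
      exact (hψ i).trans (hφ i).symm
    exact DFunLike.congr_fun h1 f

/-- the coordinates of an object are unique up to the action of `ℂˣ` -/
theorem coords_torsor {q : XS} {A : Obj} {X : Fin 3 → A.R} (h : A.Coords q X) (q' : XS)
    (X' : Fin 3 → A.R) : A.Coords q' X' ↔ ∃! u : ℂˣ, q'.1 = act u q.1 ∧
      ∀ i : Fin 3, X' i = ((u : ℂ) ^ (4 + (i : ℕ))) • X i := by
  have hne : ∀ i, X i ≠ 0 := by
    intro i h0
    have h1 := h.ord_X i
    rw [h0, A.pole.ord_zero] at h1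
    omega
  have huniq : ∀ u v : ℂˣ, (∀ i : Fin 3, X' i = ((u : ℂ) ^ (4 + (i : ℕ))) • X i) →
      (∀ i : Fin 3, X' i = ((v : ℂ) ^ (4 + (i : ℕ))) • X i) → u = v := by
    intro u v hu hv
    have key : ∀ i : Fin 3, (u : ℂ) ^ (4 + (i : ℕ)) = (v : ℂ) ^ (4 + (i : ℕ)) := by
      intro i
      have h1 := (hu i).symm.trans (hv i)
      rw [← sub_eq_zero, ← sub_smul, smul_eq_zero, sub_eq_zero] at h1
      exact h1.resolve_right (hne i)
    have h4 : (u : ℂ) ^ 4 = (v : ℂ) ^ 4 := key 0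
    have h5 : (u : ℂ) ^ 5 = (v : ℂ) ^ 5 := key 1
    rw [pow_succ _ 4, pow_succ _ 4, h4] at h5
    exact Units.ext (mul_left_cancel₀ (pow_ne_zero 4 (Units.ne_zero _)) h5)
  constructor
  · intro h'
    obtain ⟨φ, hφ⟩ := exists_iso_of_coords h
    obtain ⟨φ', hφ'⟩ := exists_iso_of_coords h'
    obtain ⟨u, hu1, hu2⟩ := iso_unit_full (φ.trans φ'.symm)
    have hX : ∀ i : Fin 3, X' i = ((u : ℂ) ^ (4 + (i : ℕ))) • X i := by
      intro i
      have h1 : ∀ (e : CoordRing q.1.1 ≃ₐ[ℂ] A.R) (e' : CoordRing q'.1.1 ≃ₐ[ℂ] A.R),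
          e (coord q.1.1 i) = X i → e' (coord q'.1.1 i) = X' i →
          e'.symm (e (coord q.1.1 i)) = algebraMap ℂ (CoordRing q'.1.1)
            (((u⁻¹ : ℂˣ) : ℂ) ^ (4 + (i : ℕ))) * coord q'.1.1 i →
          X' i = ((u : ℂ) ^ (4 + (i : ℕ))) • X i := by
        intro e e' he he' hh
        rw [he] at hh
        have h2 := congrArg e' hh
        rw [AlgEquiv.apply_symm_apply, map_mul, AlgEquiv.commutes, he'] at h2
        rw [h2, Algebra.smul_def, ← mul_assoc, ← map_mul, ← mul_pow, Units.mul_inv, one_pow,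
          map_one, one_mul]
      exact h1 φ.equiv φ'.equiv (hφ i) (hφ' i) (hu2 i)
    exact ⟨u, ⟨hu1, hX⟩, fun v hv => huniq v u hv.2 hX⟩
  · rintro ⟨u, ⟨hq, hX⟩, -⟩
    have hu : (u : ℂ) ≠ 0 := u.ne_zero
    have hX' : ∀ i : Fin 3, X' i = algebraMap ℂ A.R ((u : ℂ) ^ (4 + (i : ℕ))) * X i := fun i => by
      rw [hX, Algebra.smul_def]
    refine ⟨fun i => ?_, ?_, fun j i => ?_⟩
    · have h1 : algebraMap ℂ A.R ((u : ℂ) ^ (4 + (i : ℕ))) ≠ 0 := by
        rw [Ne, map_eq_zero]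
        exact pow_ne_zero _ hu
      rw [hX', A.pole.ord_mul _ _ h1 (hne i), A.pole.ord_algebraMap, zero_add, h.ord_X]
    · have h1 : q'.1.1 = actPar u q.1.1 := by rw [hq]; rfl
      rw [h1, hX', hX', hX', map_pow, map_pow, map_pow]
      exact eqs_act' u q.1.1 h.eqs
    · rw [hX', map_mul, AlgHom.commutes, h.pt_X, hq]
      rfl

/-! ## The 1-form -/

/-- transport of a derivation -/
noncomputable def transportDer {S R : Type} [CommRing S] [Algebra ℂ S] [CommRing R] [Algebra ℂ R]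
    (e : S ≃ₐ[ℂ] R) (d : Derivation ℂ S S) : Derivation ℂ R R where
  toLinearMap := e.toLinearMap ∘ₗ (d : S →ₗ[ℂ] S) ∘ₗ e.symm.toLinearMap
  map_one_eq_zero' := by
    change e (d (e.symm 1)) = 0
    rw [map_one, Derivation.map_one_eq_zero, map_zero]
  leibniz' f g := by
    change e (d (e.symm (f * g))) = f • e (d (e.symm g)) + g • e (d (e.symm f))
    rw [map_mul, Derivation.leibniz, map_add, smul_eq_mul, smul_eq_mul, map_mul, map_mul,
      AlgEquiv.apply_symm_apply, AlgEquiv.apply_symm_apply, smul_eq_mul, smul_eq_mul]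

theorem transportDer_apply {S R : Type} [CommRing S] [Algebra ℂ S] [CommRing R] [Algebra ℂ R]
    (e : S ≃ₐ[ℂ] R) (d : Derivation ℂ S S) (f : S) : transportDer e d (e f) = e (d f) := by
  change e (d (e.symm (e f))) = e (d f)
  rw [AlgEquiv.symm_apply_apply]

theorem D_transport {S R : Type} [CommRing S] [Algebra ℂ S] [CommRing R] [Algebra ℂ R]
    (e : S ≃ₐ[ℂ] R) (a b x y : S) (h : a • D ℂ S x = b • D ℂ S y) :
    e a • D ℂ R (e x) = e b • D ℂ R (e y) := by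
  letI := (e : S →ₐ[ℂ] R).toRingHom.toAlgebra
  haveI : IsScalarTower ℂ S R := IsScalarTower.of_algebraMap_eq fun c =>
    ((e : S →ₐ[ℂ] R).commutes c).symm
  have h1 := congrArg (KaehlerDifferential.map ℂ ℂ S R) h
  rw [map_smul, map_smul, KaehlerDifferential.map_D, KaehlerDifferential.map_D] at h1
  have key : ∀ (c : S) (η : Ω[R⁄ℂ]), c • η = e c • η := fun c η =>
    (algebraMap_smul R c η).symm
  rw [key, key] at h1
  exact h1

/-- On `C ∖ P` there is a 1-form `ω` without zeros, and it has a zero of order exactly `6` at `P`: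
if `f` has a pole of order `n > 0` at `P`, that is `df` has a pole of order `n + 1`, and `df = g ω`,
then `g` has a pole of order `n + 7`. -/
theorem obj_form (A : Obj) : ∃ ω : Ω[A.R⁄ℂ], (∀ η : Ω[A.R⁄ℂ], ∃! f : A.R, η = f • ω) ∧
    ∀ f g : A.R, A.pole.ord f ≠ 0 → D ℂ A.R f = g • ω → A.pole.ord g = A.pole.ord f + 7 := by
  obtain ⟨q, X, h⟩ := obj_exists_coords A
  obtain ⟨e, he, he1, he2⟩ := exists_equiv_of_coords h
  obtain ⟨a, ha⟩ := tc_span q.2.1
  obtain ⟨ω, h1, h2⟩ := abstract_omega (fun i => e (coord q.1.1 i))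
    (fun p hc ha hx f => by
      obtain ⟨g, rfl⟩ := e.surjective f
      refine coord_induction (p := fun g => p (e g)) g (fun c => ?_) (fun f g hf hg => ?_)
        (fun f i hf => ?_)
      · show p (e (algebraMap ℂ _ c))
        rw [AlgEquiv.commutes]
        exact hc c
      · show p (e (f + g))
        rw [map_add]
        exact ha _ _ hf hg
      · show p (e (f * _))
        rw [map_mul]
        exact hx _ i hf)
    (transportDer e (del q.1.1)) (fun i => e (a i))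
    (by
      rw [← map_one e, ← ha, map_sum]
      refine Finset.sum_congr rfl fun i _ => ?_
      rw [transportDer_apply, del_coord, map_mul])
    (fun i j => by
      rw [transportDer_apply, transportDer_apply, del_coord, del_coord]
      exact D_transport e _ _ _ _ (tc_D q.1.1 i j))
  refine ⟨ω, h1, fun f g hf hg => ?_⟩
  rw [h2 f] at hg
  have hgg : g = transportDer e (del q.1.1) f := by
    obtain ⟨k, hk1, hk2⟩ := h1 (g • ω)
    rw [hk2 g rfl, hk2 _ hg.symm]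
  obtain ⟨f, rfl⟩ := e.surjective f
  rw [hgg, transportDer_apply, he1, he1]
  rw [he1] at hf
  have hf0 : f ≠ 0 := by
    rintro rfl
    exact hf (tailC q.1.1).pole.ord_zero
  obtain ⟨b, hb, hL⟩ := (tailC q.1.1).exists_lead_ord hf0
  have h3 := lead_del (tailC q.1.1) (tailC_xyz q.1.1) _ f b hL
  exact (tailC q.1.1).ord_eq (mul_ne_zero (Nat.cast_ne_zero.2 hf) hb) h3

end KZP
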