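import Pool.Agent.KZP.ODefs

/-!
# KZP-COMP: pole order functions
-/

open Module

namespace KZP

namespace PoleOrder

variable {R : Type*} [CommRing R] [Algebra ℂ R] (P : PoleOrder R)

theorem ord_one [Nontrivial R] : P.ord 1 = 0 := by
  have := P.ord_mul 1 1 one_ne_zero one_ne_zero
  rw [mul_one] at this
  omega

theorem ord_algebraMap (c : ℂ) : P.ord (algebraMap ℂ R c) = 0 := by
  rcases subsingleton_or_nontrivial R with hR | hR
  · rw [Subsingleton.elim (algebraMap ℂ R c) 0, P.ord_zero]
  by_cases hc : c = 0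
  · rw [hc, map_zero, P.ord_zero]
  · have h1 : algebraMap ℂ R c ≠ 0 := by
      rw [Ne, map_eq_zero]; exact hc
    have h2 : algebraMap ℂ R c⁻¹ ≠ 0 := by
      rw [Ne, map_eq_zero]; exact inv_ne_zero hc
    have := P.ord_mul _ _ h1 h2
    rw [← map_mul, mul_inv_cancel₀ hc, map_one, P.ord_one] at this
    omega

theorem ord_neg (f : R) : P.ord (-f) = P.ord f := by
  apply le_antisymm
  · have := P.ord_smul_le (-1) f
    rwa [neg_one_smul] at this
  · have := P.ord_smul_le (-1) (-f)
    rwa [neg_one_smul, neg_neg] at this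

theorem ord_sub (f g : R) : P.ord (f - g) ≤ max (P.ord f) (P.ord g) := by
  rw [sub_eq_add_neg, ← P.ord_neg g]
  exact P.ord_add _ _

/-- the functions with pole order less than `n`, together with `0` -/
def T (n : ℕ) : Submodule ℂ R where
  carrier := {f | f = 0 ∨ P.ord f < n}
  add_mem' := by
    rintro f g (rfl | hf) (rfl | hg)
    · left; rw [add_zero]
    · right; rwa [zero_add]
    · right; rwa [add_zero]
    · right; exact (P.ord_add f g).trans_lt (max_lt hf hg)
  zero_mem' := Or.inl rfl
  smul_mem' := by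
    rintro c f (rfl | hf)
    · left; rw [smul_zero]
    · right; exact (P.ord_smul_le c f).trans_lt hf

theorem mem_L {n : ℕ} {f : R} : f ∈ P.L n ↔ P.ord f ≤ n := Iff.rfl
theorem mem_T {n : ℕ} {f : R} : f ∈ P.T n ↔ f = 0 ∨ P.ord f < n := Iff.rfl

theorem T_le_L (n : ℕ) : P.T n ≤ P.L n := by
  rintro f (rfl | h)
  · exact Submodule.zero_mem _
  · exact h.le

theorem T_succ (n : ℕ) : P.T (n + 1) = P.L n := by
  ext f
  rw [mem_T, mem_L]
  constructor
  · rintro (rfl | h)
    · rw [P.ord_zero]; exact Nat.zero_le _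
    · omega
  · intro h; right; omega

/-- the value semigroup -/
def S : Set ℕ := {n | ∃ f : R, f ≠ 0 ∧ P.ord f = n}

theorem add_mem_S [IsDomain R] {m n : ℕ} (hm : m ∈ P.S) (hn : n ∈ P.S) : m + n ∈ P.S := by
  obtain ⟨f, hf, rfl⟩ := hm
  obtain ⟨g, hg, rfl⟩ := hn
  exact ⟨f * g, _root_.mul_ne_zero hf hg, P.ord_mul f g hf hg⟩

theorem zero_mem_S [Nontrivial R] : 0 ∈ P.S := ⟨1, one_ne_zero, P.ord_one⟩

theorem L_zero [Nontrivial R] : P.L 0 = Submodule.span ℂ {(1 : R)} := by
  apply le_antisymm
  · intro f hf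
    obtain ⟨c, rfl⟩ := P.ord_eq_zero f (Nat.le_zero.1 hf)
    rw [Submodule.mem_span_singleton]
    exact ⟨c, by rw [Algebra.smul_def, mul_one]⟩
  · rw [Submodule.span_le, Set.singleton_subset_iff]
    exact P.ord_one.le

theorem L_succ_of_not_mem {n : ℕ} (h : n + 1 ∉ P.S) : P.L (n + 1) = P.L n := by
  apply le_antisymm
  · intro f hf
    rcases Nat.lt_or_ge n (P.ord f) with h1 | h1
    · exfalso
      apply h
      refine ⟨f, ?_, le_antisymm hf h1⟩
      rintro rfl
      rw [P.ord_zero] at h1
      omega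
    · exact h1
  · intro f hf
    exact le_trans hf (Nat.le_succ n)

theorem L_succ_of_mem {n : ℕ} {g : R} (hg : g ≠ 0) (hn : P.ord g = n + 1) :
    P.L (n + 1) = P.L n ⊔ Submodule.span ℂ {g} := by
  apply le_antisymm
  · intro f hf
    rcases Nat.lt_or_ge n (P.ord f) with h1 | h1
    · have hf0 : f ≠ 0 := by
        rintro rfl
        rw [P.ord_zero] at h1
        omega
      have he : P.ord f = P.ord g := by rw [hn]; exact le_antisymm hf h1
      obtain ⟨c, hc⟩ := P.lead f g hf0 hg he
      rw [Submodule.mem_sup]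
      refine ⟨f - c • g, ?_, c • g, Submodule.smul_mem _ _ (Submodule.mem_span_singleton_self g),
        sub_add_cancel _ _⟩
      rcases hc with hc | hc
      · rw [hc, sub_self]; exact Submodule.zero_mem _
      · rw [mem_L]; omega
    · exact Submodule.mem_sup_left h1
  · apply sup_le
    · intro f hf
      exact le_trans hf (Nat.le_succ n)
    · rw [Submodule.span_le, Set.singleton_subset_iff]
      exact hn.le

theorem inf_span_eq_bot {n : ℕ} {g : R} (hn : P.ord g = n + 1) :
    P.L n ⊓ Submodule.span ℂ {g} = ⊥ := by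
  rw [eq_bot_iff]
  rintro f ⟨hf, hf'⟩
  rw [SetLike.mem_coe, Submodule.mem_span_singleton] at hf'
  obtain ⟨c, rfl⟩ := hf'
  by_cases hc : c = 0
  · rw [hc, zero_smul]; exact Submodule.zero_mem _
  · exfalso
    have h1 : P.ord (c⁻¹ • (c • g)) ≤ P.ord (c • g) := P.ord_smul_le _ _
    rw [smul_smul, inv_mul_cancel₀ hc, one_smul, hn] at h1
    have : P.ord (c • g) ≤ n := hf
    omega

theorem finite_L [Nontrivial R] (n : ℕ) : FiniteDimensional ℂ (P.L n) := by
  induction n with
  | zero => rw [P.L_zero]; infer_instance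
  | succ n ih =>
    by_cases h : n + 1 ∈ P.S
    · obtain ⟨g, hg, hn⟩ := h
      rw [P.L_succ_of_mem hg hn]
      infer_instance
    · rw [P.L_succ_of_not_mem h]; exact ih

open Classical in
theorem finrank_L_succ [Nontrivial R] (n : ℕ) :
    finrank ℂ (P.L (n + 1)) = finrank ℂ (P.L n) + if n + 1 ∈ P.S then 1 else 0 := by
  have := P.finite_L n
  split_ifs with h
  · obtain ⟨g, hg, hn⟩ := h
    have h1 := Submodule.finrank_sup_add_finrank_inf_eq (P.L n) (Submodule.span ℂ {g})
    rw [P.inf_span_eq_bot hn, finrank_bot, finrank_span_singleton hg, add_zero] at h1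
    rw [P.L_succ_of_mem hg hn, h1]
  · rw [P.L_succ_of_not_mem h, add_zero]

theorem finrank_L_zero [Nontrivial R] : finrank ℂ (P.L 0) = 1 := by
  rw [P.L_zero, finrank_span_singleton one_ne_zero]

open Classical in
theorem finrank_L [Nontrivial R] (n : ℕ) :
    finrank ℂ (P.L n) = ((Finset.range (n + 1)).filter fun k => k ∈ P.S).card := by
  induction n with
  | zero =>
    rw [P.finrank_L_zero]
    have : (Finset.range (0 + 1)).filter (fun k => k ∈ P.S) = {0} := by
      ext k
      simp only [Finset.mem_filter, Finset.mem_range, Finset.mem_singleton]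
      constructor
      · rintro ⟨h, -⟩; omega
      · rintro rfl; exact ⟨by norm_num, P.zero_mem_S⟩
    rw [this, Finset.card_singleton]
  | succ n ih =>
    rw [P.finrank_L_succ, ih, Finset.range_add_one (n := n + 1), Finset.filter_insert]
    split_ifs with h
    · rw [Finset.card_insert_of_notMem (by simp)]
    · rw [add_zero]

/-- the semigroup of the stratum of genus `4` -/
theorem semigroup [IsDomain R] (h : P.IsOddStratum 4) (n : ℕ) :
    n ∈ P.S ↔ n ≠ 1 ∧ n ≠ 2 ∧ n ≠ 3 ∧ n ≠ 7 := by
  classical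
  obtain ⟨N, hN⟩ := h.genus
  have hcan : finrank ℂ (P.L 6) = 4 := h.canonical
  have hodd : Odd (finrank ℂ (P.L 3)) := h.odd
  have s1 : finrank ℂ (P.L 1) = finrank ℂ (P.L 0) + if 1 ∈ P.S then 1 else 0 :=
    P.finrank_L_succ 0
  have s2 : finrank ℂ (P.L 2) = finrank ℂ (P.L 1) + if 2 ∈ P.S then 1 else 0 :=
    P.finrank_L_succ 1
  have s3 : finrank ℂ (P.L 3) = finrank ℂ (P.L 2) + if 3 ∈ P.S then 1 else 0 :=
    P.finrank_L_succ 2
  have s4 : finrank ℂ (P.L 4) = finrank ℂ (P.L 3) + if 4 ∈ P.S then 1 else 0 :=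
    P.finrank_L_succ 3
  have s5 : finrank ℂ (P.L 5) = finrank ℂ (P.L 4) + if 5 ∈ P.S then 1 else 0 :=
    P.finrank_L_succ 4
  have s6 : finrank ℂ (P.L 6) = finrank ℂ (P.L 5) + if 6 ∈ P.S then 1 else 0 :=
    P.finrank_L_succ 5
  have s0 := P.finrank_L_zero
  -- a lower bound for the number of gaps
  have gaps : ∀ A : Finset ℕ, (∀ k, k ∉ A → k ∈ P.S) → 4 ≤ A.card := by
    intro A hA
    have h1 := hN (max N (A.sup id)) (le_max_left _ _)
    rw [P.finrank_L] at h1
    have h2 : (Finset.range (max N (A.sup id) + 1)) \ A ⊆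
        (Finset.range (max N (A.sup id) + 1)).filter fun k => k ∈ P.S := by
      intro k hk
      rw [Finset.mem_sdiff] at hk
      rw [Finset.mem_filter]
      exact ⟨hk.1, hA k hk.2⟩
    have h3 := Finset.card_le_card h2
    have h4 := Finset.le_card_sdiff A (Finset.range (max N (A.sup id) + 1))
    rw [Finset.card_range] at h4
    omega
  have n1 : 1 ∉ P.S := by
    intro h1
    have hall : ∀ k, k ∈ P.S := by
      intro k
      induction k with
      | zero => exact P.zero_mem_S
      | succ k ih => exact P.add_mem_S ih h1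
    have := gaps ∅ (fun k _ => hall k)
    simp at this
  have n23 : ¬ (2 ∈ P.S ∧ 3 ∈ P.S) := by
    rintro ⟨h2, h3⟩
    have hall : ∀ j, j + 2 ∈ P.S ∧ j + 3 ∈ P.S := by
      intro j
      induction j with
      | zero => exact ⟨h2, h3⟩
      | succ j ih =>
        refine ⟨?_, ?_⟩
        · have e : j + 1 + 2 = j + 3 := by ring
          rw [e]; exact ih.2
        · have e : j + 1 + 3 = (j + 2) + 2 := by ring
          rw [e]; exact P.add_mem_S ih.1 h2
    have := gaps {1} (fun k hk => by
      rcases k with _ | _ | k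
      · exact P.zero_mem_S
      · exact absurd (by simp) hk
      · exact (hall k).1)
    simp at this
  rw [if_neg n1] at s1
  have n2 : 2 ∉ P.S := by
    intro h2
    have h3 : 3 ∉ P.S := fun h3 => n23 ⟨h2, h3⟩
    rw [if_pos h2] at s2
    rw [if_neg h3] at s3
    rw [s3, s2, s1, s0] at hodd
    exact absurd hodd (by decide)
  have n3 : 3 ∉ P.S := by
    intro h3
    rw [if_neg n2] at s2
    rw [if_pos h3] at s3
    rw [s3, s2, s1, s0] at hodd
    exact absurd hodd (by decide)
  rw [if_neg n2] at s2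
  rw [if_neg n3] at s3
  have h4 : 4 ∈ P.S := by
    by_contra h
    rw [if_neg h] at s4
    split_ifs at s5 s6 <;> omega
  have h5 : 5 ∈ P.S := by
    by_contra h
    rw [if_neg h] at s5
    split_ifs at s4 s6 <;> omega
  have h6 : 6 ∈ P.S := by
    by_contra h
    rw [if_neg h] at s6
    split_ifs at s4 s5 <;> omega
  have h8 : ∀ j, j + 8 ∈ P.S := by
    intro j
    induction j using Nat.strong_induction_on with
    | _ j ih =>
      rcases j with _ | _ | _ | _ | j
      · exact (by norm_num : 4 + 4 = 0 + 8) ▸ P.add_mem_S h4 h4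
      · exact (by norm_num : 4 + 5 = 0 + 1 + 8) ▸ P.add_mem_S h4 h5
      · exact (by norm_num : 4 + 6 = 0 + 1 + 1 + 8) ▸ P.add_mem_S h4 h6
      · exact (by norm_num : 5 + 6 = 0 + 1 + 1 + 1 + 8) ▸ P.add_mem_S h5 h6
      · have e : j + 1 + 1 + 1 + 1 + 8 = (j + 8) + 4 := by ring
        rw [e]
        exact P.add_mem_S (ih j (by omega)) h4
  have n7 : 7 ∉ P.S := by
    intro h7
    have := gaps {1, 2, 3} (fun k hk => by
      simp only [Finset.mem_insert, Finset.mem_singleton, not_or] at hk
      rcases Nat.lt_or_ge k 8 with h | h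
      · interval_cases k
        · exact P.zero_mem_S
        · omega
        · omega
        · omega
        · exact h4
        · exact h5
        · exact h6
        · exact h7
      · obtain ⟨j, rfl⟩ := Nat.exists_eq_add_of_le' h
        exact h8 j)
    simp at this
  constructor
  · intro hn
    refine ⟨?_, ?_, ?_, ?_⟩ <;> rintro rfl
    · exact n1 hn
    · exact n2 hn
    · exact n3 hn
    · exact n7 hn
  · rintro ⟨a, b, c, d⟩
    rcases Nat.lt_or_ge n 8 with h | h
    · interval_cases n
      · exact P.zero_mem_S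
      · omega
      · omega
      · omega
      · exact h4
      · exact h5
      · exact h6
      · omega
    · obtain ⟨j, rfl⟩ := Nat.exists_eq_add_of_le' h
      exact h8 j

end PoleOrder

end KZP
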