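import Pool.Agent.KZP.FDefs

/-!
# KZP-TailDefs: filtered algebras with the associated graded ring `B[t⁴, t⁵, t⁶]`

Functions on a curve minus a point, filtered by the order of the pole, with the leading coefficients
with respect to a tangent vector at the point; Weierstrass semigroup `⟨4, 5, 6⟩ = ℕ ∖ {1, 2, 3, 7}`.
-/

set_option autoImplicit false

namespace KZP

/-- `Y² - XZ - s₁₀` -/
noncomputable def eq1 {B : Type} [CommRing B] (s : Fin 8 → B) : MvPolynomial (Fin 3) B :=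
  MvPolynomial.X 1 ^ 2 - MvPolynomial.X 0 * MvPolynomial.X 2 - MvPolynomial.C (s 6)

/-- `Z² - X³ - s₂ XZ - s₃ XY - s₄ X² - s₆ Z - s₇ Y - s₈ X - s₁₂` -/
noncomputable def eq2 {B : Type} [CommRing B] (s : Fin 8 → B) : MvPolynomial (Fin 3) B :=
  MvPolynomial.X 2 ^ 2 - MvPolynomial.X 0 ^ 3
    - MvPolynomial.C (s 0) * (MvPolynomial.X 0 * MvPolynomial.X 2)
    - MvPolynomial.C (s 1) * (MvPolynomial.X 0 * MvPolynomial.X 1)
    - MvPolynomial.C (s 2) * MvPolynomial.X 0 ^ 2 - MvPolynomial.C (s 3) * MvPolynomial.X 2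
    - MvPolynomial.C (s 4) * MvPolynomial.X 1 - MvPolynomial.C (s 5) * MvPolynomial.X 0
    - MvPolynomial.C (s 7)

/-- The coordinate ring `B[X, Y, Z]/(Y² - XZ - s₁₀, Z² - X³ - …)` of the affine curve `C_s`. -/
abbrev CoordRing {B : Type} [CommRing B] (s : Fin 8 → B) : Type :=
  MvPolynomial (Fin 3) B ⧸ Ideal.span {eq1 s, eq2 s}

/-- The coordinate functions `X, Y, Z`. -/
noncomputable def coord {B : Type} [CommRing B] (s : Fin 8 → B) (i : Fin 3) : CoordRing s :=
  Ideal.Quotient.mk (Ideal.span {eq1 s, eq2 s}) (MvPolynomial.X i)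

/-- The isomorphism `e` respects the filtrations and the leading coefficients. -/
def Tail.Compat {B R R' : Type} [CommRing B] [CommRing R] [Algebra B R] [CommRing R'] [Algebra B R']
    (T : Tail B R) (T' : Tail B R') (e : R ≃ₐ[B] R') : Prop :=
  ∀ n f b, T.Lead n f b ↔ T'.Lead n (e f) b

/-! ### auxiliary: the structure without the conditions on the gaps -/

/-- auxiliary structure: a filtration with leading coefficients -/
structure PreTail (B R : Type) [CommRing B] [CommRing R] [Algebra B R] where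
  /-- the filtration -/
  F : ℕ → Submodule B R
  /-- the leading coefficient -/
  lc : ∀ n, F n →ₗ[B] B
  le_succ : ∀ n, F n ≤ F (n + 1)
  one_mem : (1 : R) ∈ F 0
  lc_one : lc 0 ⟨1, one_mem⟩ = 1
  mul_mem : ∀ m n (f g : R), f ∈ F m → g ∈ F n → f * g ∈ F (m + n)
  lc_mul : ∀ m n (f : F m) (g : F n),
    lc (m + n) ⟨f * g, mul_mem m n f g f.2 g.2⟩ = lc m f * lc n g
  lc_succ : ∀ n (f : F (n + 1)), lc (n + 1) f = 0 ↔ (f : R) ∈ F n

/-- forget the conditions on the gaps -/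
def Tail.pre {B R : Type} [CommRing B] [CommRing R] [Algebra B R] (T : Tail B R) : PreTail B R :=
  ⟨T.F, T.lc, T.le_succ, T.one_mem, T.lc_one, T.mul_mem, T.lc_mul, T.lc_succ⟩

namespace PreTail

variable {B R : Type} [CommRing B] [CommRing R] [Algebra B R] (T : PreTail B R)

/-- `f` is in `F n`, with leading coefficient `b` -/
def L (n : ℕ) (f : R) (b : B) : Prop := ∃ h : f ∈ T.F n, T.lc n ⟨f, h⟩ = b

variable {T}

theorem L.congr {n : ℕ} {f g : R} {b c : B} (h : T.L n f b) (hf : f = g) (hb : b = c) :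
    T.L n g c := by
  subst hf hb
  exact h

theorem L.add {n : ℕ} {f g : R} {b c : B} (hf : T.L n f b) (hg : T.L n g c) :
    T.L n (f + g) (b + c) := by
  obtain ⟨hf, rfl⟩ := hf
  obtain ⟨hg, rfl⟩ := hg
  exact ⟨(T.F n).add_mem hf hg, map_add (T.lc n) ⟨f, hf⟩ ⟨g, hg⟩⟩

theorem L.smul {n : ℕ} {f : R} {b : B} (a : B) (hf : T.L n f b) : T.L n (a • f) (a * b) := by
  obtain ⟨hf, rfl⟩ := hf
  exact ⟨(T.F n).smul_mem a hf, map_smul (T.lc n) a ⟨f, hf⟩⟩

theorem L.neg {n : ℕ} {f : R} {b : B} (hf : T.L n f b) : T.L n (-f) (-b) :=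
  (hf.smul (-1)).congr (by rw [neg_smul, one_smul]) (by rw [neg_mul, one_mul])

theorem L.sub {n : ℕ} {f g : R} {b c : B} (hf : T.L n f b) (hg : T.L n g c) :
    T.L n (f - g) (b - c) :=
  (hf.add hg.neg).congr (by ring) (by ring)

theorem L.mul {m n : ℕ} {f g : R} {b c : B} (hf : T.L m f b) (hg : T.L n g c) :
    T.L (m + n) (f * g) (b * c) := by
  obtain ⟨hf, rfl⟩ := hf
  obtain ⟨hg, rfl⟩ := hg
  exact ⟨T.mul_mem m n f g hf hg, T.lc_mul m n ⟨f, hf⟩ ⟨g, hg⟩⟩

theorem L.cmul {n : ℕ} {f : R} {b : B} (a : B) (hf : T.L n f b) :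
    T.L n (algebraMap B R a * f) (a * b) :=
  (hf.smul a).congr (Algebra.smul_def a f) rfl

theorem L.zero (n : ℕ) : T.L n 0 0 := ⟨(T.F n).zero_mem, map_zero (T.lc n)⟩

theorem L.one : T.L 0 1 1 := ⟨T.one_mem, T.lc_one⟩

theorem L.const (b : B) : T.L 0 (algebraMap B R b) b :=
  (L.one.smul b).congr (by rw [Algebra.algebraMap_eq_smul_one]) (mul_one b)

theorem L.unique {n : ℕ} {f : R} {b c : B} (hf : T.L n f b) (hg : T.L n f c) : b = c := by
  obtain ⟨hf, rfl⟩ := hf
  obtain ⟨_, rfl⟩ := hg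
  rfl

theorem L.up {n : ℕ} {f : R} {b : B} (hf : T.L n f b) : T.L (n + 1) f 0 := by
  obtain ⟨hf, rfl⟩ := hf
  exact ⟨T.le_succ n hf, (T.lc_succ n ⟨f, T.le_succ n hf⟩).2 hf⟩

theorem L.down {n : ℕ} {f : R} (hf : T.L (n + 1) f 0) : ∃ b, T.L n f b := by
  obtain ⟨hf, h0⟩ := hf
  exact ⟨_, (T.lc_succ n ⟨f, hf⟩).1 h0, rfl⟩

theorem L.upto {n : ℕ} {f : R} {b : B} (hf : T.L n f b) {m : ℕ} (hm : n < m) : T.L m f 0 := by
  induction m with
  | zero => omega
  | succ m ih =>
    rcases Nat.lt_or_ge n m with h | h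
    · exact (ih h).up
    · have : n = m := by omega
      subst this
      exact hf.up

theorem L.sum {ι : Type} (S : Finset ι) {n : ℕ} (f : ι → R) (b : ι → B)
    (h : ∀ i ∈ S, T.L n (f i) (b i)) : T.L n (∑ i ∈ S, f i) (∑ i ∈ S, b i) := by
  classical
  induction S using Finset.induction_on with
  | empty =>
    rw [Finset.sum_empty, Finset.sum_empty]
    exact L.zero n
  | insert a S ha ih =>
    rw [Finset.sum_insert ha, Finset.sum_insert ha]
    exact (h a (Finset.mem_insert_self a S)).add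
      (ih fun i hi => h i (Finset.mem_insert_of_mem hi))

theorem L.pow {n : ℕ} {f : R} (hf : T.L n f 1) (k : ℕ) : T.L (n * k) (f ^ k) 1 := by
  induction k with
  | zero =>
    rw [pow_zero, Nat.mul_zero]
    exact L.one
  | succ k ih =>
    rw [pow_succ]
    exact (ih.mul hf).congr rfl (mul_one 1)

end PreTail

end KZP
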