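import Pool.Agent.KZP.Defs
import Pool.Agent.KZP.TailDefs

/-!
# KZP-COMP: homomorphisms from the coordinate ring; points
-/

open MvPolynomial

namespace KZP

section
variable {B : Type} [CommRing B]

/-- the algebra homomorphism from the coordinate ring given by a solution of the equations -/
noncomputable def liftCoord (s : Fin 8 → B) {R : Type*} [CommRing R] [Algebra B R] (e : Fin 3 → R)
    (h1 : e 1 ^ 2 - e 0 * e 2 - algebraMap B R (s 6) = 0)
    (h2 : e 2 ^ 2 - e 0 ^ 3 - algebraMap B R (s 0) * (e 0 * e 2)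
      - algebraMap B R (s 1) * (e 0 * e 1) - algebraMap B R (s 2) * e 0 ^ 2
      - algebraMap B R (s 3) * e 2 - algebraMap B R (s 4) * e 1 - algebraMap B R (s 5) * e 0
      - algebraMap B R (s 7) = 0) : CoordRing s →ₐ[B] R :=
  Ideal.Quotient.liftₐ _ (aeval e) (by
    have : Ideal.span {eq1 s, eq2 s} ≤ RingHom.ker (aeval e : MvPolynomial (Fin 3) B →ₐ[B] R) := by
      rw [Ideal.span_le]
      rintro x (rfl | rfl)
      · show aeval e (eq1 s) = 0
        rw [← h1]
        simp [eq1]
      · show aeval e (eq2 s) = 0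
        rw [← h2]
        simp [eq2]
    exact fun a ha => this ha)

theorem liftCoord_coord (s : Fin 8 → B) {R : Type*} [CommRing R] [Algebra B R] (e : Fin 3 → R)
    (h1 h2) (i : Fin 3) : liftCoord s e h1 h2 (coord s i) = e i := by
  show (aeval e) (X i : MvPolynomial (Fin 3) B) = e i
  simp

theorem coord_eq1 (s : Fin 8 → B) :
    coord s 1 ^ 2 - coord s 0 * coord s 2 - algebraMap B (CoordRing s) (s 6) = 0 := by
  have : Ideal.Quotient.mk (Ideal.span {eq1 s, eq2 s}) (eq1 s) = 0 :=
    Ideal.Quotient.eq_zero_iff_mem.2 (Ideal.subset_span (by simp))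
  rw [← this]
  rfl

theorem coord_eq2 (s : Fin 8 → B) :
    coord s 2 ^ 2 - coord s 0 ^ 3 - algebraMap B (CoordRing s) (s 0) * (coord s 0 * coord s 2)
      - algebraMap B (CoordRing s) (s 1) * (coord s 0 * coord s 1)
      - algebraMap B (CoordRing s) (s 2) * coord s 0 ^ 2
      - algebraMap B (CoordRing s) (s 3) * coord s 2 - algebraMap B (CoordRing s) (s 4) * coord s 1
      - algebraMap B (CoordRing s) (s 5) * coord s 0 - algebraMap B (CoordRing s) (s 7) = 0 := by
  have : Ideal.Quotient.mk (Ideal.span {eq1 s, eq2 s}) (eq2 s) = 0 :=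
    Ideal.Quotient.eq_zero_iff_mem.2 (Ideal.subset_span (by simp))
  rw [← this]
  rfl

/-- Two algebra homomorphisms that agree on `X, Y, Z` are equal. -/
theorem coord_hom_ext {s : Fin 8 → B} {R : Type*} [CommRing R] [Algebra B R]
    {φ ψ : CoordRing s →ₐ[B] R} (h : ∀ i, φ (coord s i) = ψ (coord s i)) : φ = ψ := by
  apply Ideal.Quotient.algHom_ext
  apply MvPolynomial.algHom_ext
  intro i
  exact h i

end

/-! ## Points -/

/-- the evaluation at a point of the curve -/
noncomputable def ev {s : Par} {e : Pt} (he : e ∈ Curve s) : CoordRing s →ₐ[ℂ] ℂ :=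
  liftCoord s e he.1 (by
    have := he.2
    simpa [f2] using this)

@[simp] theorem ev_coord {s : Par} {e : Pt} (he : e ∈ Curve s) (i : Fin 3) :
    ev he (coord s i) = e i := liftCoord_coord _ _ _ _ _

/-- the point of the curve given by an algebra homomorphism -/
theorem pt_mem {s : Par} (φ : CoordRing s →ₐ[ℂ] ℂ) : (fun i => φ (coord s i)) ∈ Curve s := by
  constructor
  · have := congrArg φ (coord_eq1 s)
    simpa [f1] using this
  · have := congrArg φ (coord_eq2 s)
    simpa [f2] using this

theorem ev_pt {s : Par} (φ : CoordRing s →ₐ[ℂ] ℂ) : ev (pt_mem φ) = φ :=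
  coord_hom_ext fun i => by rw [ev_coord]

theorem ev_inj {s : Par} {e e' : Pt} (he : e ∈ Curve s) (he' : e' ∈ Curve s)
    (h : ev he = ev he') : e = e' := by
  funext i
  rw [← ev_coord he i, h, ev_coord]

end KZP
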