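import Pool.Agent.KZP.CFam
import Pool.Agent.KZP.CObj

/-!
# KZP-COMP: continuous families over a topological space
-/

set_option autoImplicit false

namespace KZP

/-! ## Fibres -/

section
variable {B B' R : Type} [CommRing B] [CommRing B'] [CommRing R] [Algebra B R]

theorem aeval_mem_map {I : Ideal B} (P : Polynomial B) (hP : ∀ n, P.coeff n ∈ I) (x : R) :
    Polynomial.aeval x P ∈ Ideal.map (algebraMap B R) I := by
  rw [Polynomial.aeval_eq_sum_range]
  refine Ideal.sum_mem _ fun n _ => ?_
  rw [Algebra.smul_def]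
  exact Ideal.mul_mem_right _ _ (Ideal.mem_map_of_mem _ (hP n))

theorem val_mem_map {I : Ideal B} (P : Fin 4 → Polynomial B) (hP : ∀ i n, (P i).coeff n ∈ I)
    (X Y Z : R) : val X Y Z P ∈ Ideal.map (algebraMap B R) I := by
  unfold val
  refine Ideal.add_mem _ (Ideal.add_mem _ (Ideal.add_mem _ ?_ ?_) ?_) ?_
  · exact aeval_mem_map _ (hP 0) _
  · exact Ideal.mul_mem_right _ _ (aeval_mem_map _ (hP 1) _)
  · exact Ideal.mul_mem_right _ _ (aeval_mem_map _ (hP 2) _)
  · exact Ideal.mul_mem_right _ _ (aeval_mem_map _ (hP 3) _)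

theorem baseMap_val (φ : B →+* B') (s : Fin 8 → B) (P : Fin 4 → Polynomial B) :
    baseMap φ s (val (coord s 0) (coord s 1) (coord s 2) P) =
      val (coord (fun i => φ (s i)) 0) (coord (fun i => φ (s i)) 1) (coord (fun i => φ (s i)) 2)
        (fun i => (P i).map φ) := by
  unfold val
  simp only [map_add, map_mul, baseMap_aeval, baseMap_coord]

theorem baseMap_surjective (φ : B →+* B') (hφ : Function.Surjective φ) (s : Fin 8 → B) :
    Function.Surjective (baseMap φ s) := by
  intro f
  obtain ⟨P, rfl⟩ := exists_val _ f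
  choose Q hQ using fun i => Polynomial.map_surjective φ hφ (P i)
  refine ⟨val (coord s 0) (coord s 1) (coord s 2) Q, ?_⟩
  rw [baseMap_val]
  congr 1
  funext i
  exact hQ i

theorem baseMap_ker (h2 : IsUnit (2 : B)) (φ : B →+* B') (s : Fin 8 → B) :
    RingHom.ker (baseMap φ s) = Ideal.map (algebraMap B (CoordRing s)) (RingHom.ker φ) := by
  have h2' : IsUnit (2 : B') := by
    have := h2.map φ
    rwa [map_ofNat] at this
  obtain ⟨T, hT⟩ := exists_tail h2' (fun i => φ (s i))
  apply le_antisymm
  · intro f hf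
    obtain ⟨P, rfl⟩ := exists_val _ f
    have h1 : baseMap φ s (val (coord s 0) (coord s 1) (coord s 2) P) = 0 := hf
    rw [baseMap_val] at h1
    have h3 := val_eq_zero hT _ h1
    apply val_mem_map
    intro i n
    have h4 : (P i).map φ = 0 := congrFun h3 i
    have h5 := congrArg (fun Q => Polynomial.coeff Q n) h4
    simp only [Polynomial.coeff_map, Polynomial.coeff_zero] at h5
    exact h5
  · rw [Ideal.map_le_iff_le_comap]
    intro b hb
    have hb' : φ b = 0 := hb
    show baseMap φ s (algebraMap B (CoordRing s) b) = 0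
    rw [baseMap_algebraMap, hb', map_zero]

/-- the fibre of the family -/
theorem Tail.Coords.exists_fibre (h2 : IsUnit (2 : B)) {T : Tail B R} {s : Fin 8 → B}
    {X : Fin 3 → R} (h : T.Coords s X) (φ : B →+* B') (hφ : Function.Surjective φ) :
    Nonempty ((R ⧸ Ideal.map (algebraMap B R) (RingHom.ker φ)) ≃+*
      CoordRing (fun i => φ (s i))) := by
  obtain ⟨e, he⟩ := h.exists_equiv
  let g : R →+* CoordRing (fun i => φ (s i)) := (baseMap φ s).comp (e.symm : R →+* CoordRing s)
  have hg : Function.Surjective g := (baseMap_surjective φ hφ s).comp e.symm.surjective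
  have hk : RingHom.ker g = Ideal.map (algebraMap B R) (RingHom.ker φ) := by
    have h1 : RingHom.ker g = Ideal.comap (e.symm : R →+* CoordRing s) (RingHom.ker (baseMap φ s)) :=
      rfl
    rw [h1, baseMap_ker h2]
    have h3 : Ideal.comap (e.symm : R →+* CoordRing s)
        (Ideal.map (algebraMap B (CoordRing s)) (RingHom.ker φ)) =
        Ideal.map (e : CoordRing s →+* R) (Ideal.map (algebraMap B (CoordRing s)) (RingHom.ker φ)) :=
      (Ideal.map_comap_of_equiv (I := Ideal.map (algebraMap B (CoordRing s)) (RingHom.ker φ))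
        e.toRingEquiv).symm
    rw [h3, Ideal.map_map]
    congr 1
    ext b
    exact e.commutes b
  exact ⟨(Ideal.quotEquivOfEq hk.symm).trans (RingHom.quotientKerEquivOfSurjective hg)⟩

theorem Tail.Coords.ringHom_ext {T : Tail B R} {s : Fin 8 → B} {X : Fin 3 → R}
    (h : T.Coords s X) {S : Type} [CommRing S] {φ ψ : R →+* S}
    (h0 : ∀ b, φ (algebraMap B R b) = ψ (algebraMap B R b)) (hh : ∀ i, φ (X i) = ψ (X i)) :
    φ = ψ := by
  let _ : Algebra B S := (φ.comp (algebraMap B R)).toAlgebra
  let φ' : R →ₐ[B] S := { φ with commutes' := fun b => rfl }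
  let ψ' : R →ₐ[B] S := { ψ with commutes' := fun b => (h0 b).symm }
  have h1 : φ' = ψ' := h.hom_ext hh
  ext f
  exact DFunLike.congr_fun h1 f

end

/-! ## Continuous families -/

/-- the evaluation of the continuous functions at the point `t` -/
noncomputable def evT {T : Type} [TopologicalSpace T] (t : T) : C(T, ℂ) →+* ℂ where
  toFun f := f t
  map_one' := rfl
  map_mul' _ _ := rfl
  map_zero' := rfl
  map_add' _ _ := rfl

theorem evT_surjective {T : Type} [TopologicalSpace T] (t : T) : Function.Surjective (evT t) :=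
  fun c => ⟨ContinuousMap.const T c, rfl⟩

theorem isUnit_two_C (T : Type) [TopologicalSpace T] : IsUnit (2 : C(T, ℂ)) := by
  refine IsUnit.of_mul_eq_one (ContinuousMap.const T (1 / 2 : ℂ)) ?_
  ext t
  show (2 : ℂ) * (1 / 2) = 1
  norm_num

section
variable {T : Type} [TopologicalSpace T]

/-- a coordinate of a point as a continuous function -/
noncomputable def parPt (q : C(T, XS)) (j : Fin 5) (i : Fin 3) : C(T, ℂ) :=
  ⟨fun t => (q t).1.2 j i, by
    have := q.continuous
    fun_prop⟩

theorem Fam.FCoords.toTail {F : Fam T} {q : C(T, XS)} {X : Fin 3 → F.E} (h : F.FCoords q X) :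
    F.tail.Coords (par q) X := ⟨h.lead_X, h.eqs_X⟩

/-- Every family comes from exactly one continuous map to `XS`, with unique coordinates. -/
theorem fam_exists_coords (F : Fam T) : ∃! p : C(T, XS) × (Fin 3 → F.E), F.FCoords p.1 p.2 := by
  obtain ⟨⟨s, X⟩, hc, huniq⟩ := F.tail.exists_coords (isUnit_two_C T)
  have hcur : ∀ t j, (fun i => F.sec j (X i) t) ∈ Curve (fun k => s k t) := by
    intro t j
    have h1 := congrArg (fun f => F.sec j f t) hc.eqs.1
    have h2 := congrArg (fun f => F.sec j f t) hc.eqs.2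
    simp only [map_add, map_mul, map_pow, AlgHom.commutes, Algebra.algebraMap_self, RingHom.id_apply,
      ContinuousMap.add_apply, ContinuousMap.mul_apply, ContinuousMap.pow_apply] at h1 h2
    constructor
    · show f1 _ _ = 0
      unfold f1
      linear_combination h1
    · show f2 _ _ = 0
      unfold f2
      linear_combination h2
  have hsm : ∀ t, SmoothC (fun k => s k t) := by
    intro t
    obtain ⟨e⟩ := hc.exists_fibre (isUnit_two_C T) (evT t) (evT_surjective t)
    have h0 := F.smooth t
    have : IsDedekindDomain (F.E ⧸ Ideal.map (algebraMap C(T, ℂ) F.E) (RingHom.ker (evT t))) := h0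
    have hd : IsDedekindDomain (CoordRing fun i => evT t (s i)) := isDedekindDomain_of_equiv e
    exact smooth_of_dedekind (s := fun i => evT t (s i))
  have hinj : ∀ t, Function.Injective fun (j : Fin 5) (i : Fin 3) => F.sec j (X i) t := by
    intro t j j' hj
    apply F.distinct t
    have h1 : (evT t).comp (F.sec j : F.E →+* C(T, ℂ)) = (evT t).comp (F.sec j' : F.E →+* C(T, ℂ)) := by
      apply hc.ringHom_ext
      · intro b
        change (F.sec j (algebraMap _ _ b)) t = (F.sec j' (algebraMap _ _ b)) t
        rw [AlgHom.commutes, AlgHom.commutes]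
      · intro i
        exact congrFun hj i
    funext f
    exact DFunLike.congr_fun h1 f
  let q : C(T, XS) := ⟨fun t => ⟨(fun k => s k t, fun j i => F.sec j (X i) t),
    hsm t, hcur t, hinj t⟩, by fun_prop⟩
  refine ⟨(q, X), ⟨hc.lead_X, hc.eqs, fun j i t => rfl⟩, ?_⟩
  rintro ⟨q', X'⟩ h'
  have h1 := huniq (par q', X') h'.toTail
  have h2 : par q' = s := congrArg Prod.fst h1
  have h3 : X' = X := congrArg Prod.snd h1
  subst h3
  refine Prod.ext ?_ rfl
  apply ContinuousMap.ext
  intro t
  apply Subtype.ext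
  apply Prod.ext
  · funext k
    exact DFunLike.congr_fun (congrFun h2 k) t
  · funext j i
    exact (h'.sec_X j i t).symm

/-- Every continuous map to `XS` comes from a family. -/
theorem exists_fam_coords (q : C(T, XS)) : ∃ (F : Fam T) (X : Fin 3 → F.E), F.FCoords q X := by
  obtain ⟨Tl, hT⟩ := exists_tail_coords (isUnit_two_C T) (par q)
  have hsm : ∀ t : T, IsDedekindDomain (CoordRing (par q) ⧸
      Ideal.map (algebraMap C(T, ℂ) (CoordRing (par q))) (RingHom.ker (evT t))) := by
    intro t
    obtain ⟨e⟩ := hT.exists_fibre (isUnit_two_C T) (evT t) (evT_surjective t)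
    have : IsDedekindDomain (CoordRing fun i => evT t (par q i)) := dedekind_of_smooth (q t).2.1
    exact isDedekindDomain_of_equiv e.symm
  let pt : Fin 5 → (CoordRing (par q) →ₐ[C(T, ℂ)] C(T, ℂ)) := fun j =>
    liftCoord (par q) (parPt q j) (by
      ext t
      exact ((q t).2.2.1 j).1) (by
      ext t
      have h := ((q t).2.2.1 j).2
      unfold f2 at h
      exact h)
  have hpt : ∀ j i t, pt j (coord (par q) i) t = (q t).1.2 j i := by
    intro j i t
    have h : pt j (coord (par q) i) = parPt q j i := liftCoord_coord _ _ _ _ _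
    rw [h]
    rfl
  refine ⟨{ E := CoordRing (par q)
            tail := Tl
            smooth := hsm
            sec := pt
            distinct := fun t j j' h => (q t).2.2.2 ?_ }, coord (par q), hT.lead_X, hT.eqs, hpt⟩
  funext i
  rw [← hpt, ← hpt]
  exact congrFun h (coord (par q) i)

/-- Two families with the same map to `XS` are isomorphic, by a unique isomorphism. -/
theorem fam_unique_iso {F F' : Fam T} {q : C(T, XS)} {X : Fin 3 → F.E} {X' : Fin 3 → F'.E}
    (h : F.FCoords q X) (h' : F'.FCoords q X') :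
    ∃! e : F.E ≃ₐ[C(T, ℂ)] F'.E, F.tail.Compat F'.tail e ∧ ∀ j f, F'.sec j (e f) = F.sec j f := by
  obtain ⟨e, he, hc, hu⟩ := h.toTail.unique_iso h'.toTail
  refine ⟨e, ⟨hc, fun j f => ?_⟩, ?_⟩
  · have h1 : (F'.sec j).comp (e : F.E →ₐ[C(T, ℂ)] F'.E) = F.sec j := by
      apply h.toTail.hom_ext
      intro i
      ext t
      change F'.sec j (e (X i)) t = F.sec j (X i) t
      rw [he, h'.sec_X, h.sec_X]
    exact DFunLike.congr_fun h1 f
  · rintro e' ⟨hc', hp'⟩
    apply hu
    have h1 : F'.tail.Coords (par q) (fun i => e' (X i)) := by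
      refine ⟨fun i => (hc' _ _ _).1 (h.lead_X i), ?_, ?_⟩
      · have := congrArg e' h.eqs_X.1
        simpa only [map_add, map_mul, map_pow, AlgEquiv.commutes] using this
      · have := congrArg e' h.eqs_X.2
        simpa only [map_add, map_mul, map_pow, AlgEquiv.commutes] using this
    have h2 := (F'.tail.exists_coords (isUnit_two_C T)).unique
      (y₁ := (par q, fun i => e' (X i))) (y₂ := (par q, X')) h1 h'.toTail
    exact fun i => congrFun (congrArg Prod.snd h2) i

/-- Naturality: pull-back of families along `g : T' → T`. -/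
theorem fam_pullback {T' : Type} [TopologicalSpace T'] (g : C(T', T)) {F : Fam T} {F' : Fam T'}
    (h : F.E →+* F'.E)
    (hh : ∀ b : C(T, ℂ), h (algebraMap C(T, ℂ) F.E b) = algebraMap C(T', ℂ) F'.E (b.comp g))
    (hl : ∀ n f b, F.tail.Lead n f b → F'.tail.Lead n (h f) (b.comp g))
    (hp : ∀ j f, F'.sec j (h f) = (F.sec j f).comp g)
    {q : C(T, XS)} {X : Fin 3 → F.E} (hc : F.FCoords q X) :
    F'.FCoords (q.comp g) (fun i => h (X i)) := by
  have hc' := Tail.Coords.base_change (T' := F'.tail)
    ({ toFun := fun b => b.comp g, map_one' := rfl, map_mul' := fun _ _ => rfl,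
       map_zero' := rfl, map_add' := fun _ _ => rfl } : C(T, ℂ) →+* C(T', ℂ)) h hh hl hc.toTail
  refine ⟨hc'.lead_X, hc'.eqs, fun j i t => ?_⟩
  rw [hp]
  exact hc.sec_X j i (g t)

end

end KZP
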