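import Pool.Agent.KZP.XDefs

/-!
# KZP: definitions
-/

open scoped BigOperators ComplexConjugate
open Complex

namespace KZP

/-! ## the involution, the equations of its fixed set, the functions `G` and `kap` -/

/-- `Y ↦ -Y` -/
def sw (e : Pt) : Pt := ![e 0, - e 1, e 2]

/-- change the signs of `s₃, s₇` -/
def swp (s : Par) : Par := ![s 0, - s 1, s 2, s 3, - s 4, s 5, s 6, s 7]

/-- the involution on parameters with five points -/
def nu (q : Tot) : Tot := (swp q.1, fun i => sw (q.2 i))

/-- the seven complex equations of the fixed set of `nu` -/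
def betaC (q : Tot) : Fin 7 → ℂ :=
  ![q.1 1, q.1 4, q.2 0 1, q.2 1 1, q.2 2 1, q.2 3 1, q.2 4 1]

/-- the same, as fourteen real numbers -/
def betaR (q : Tot) : Fin 14 → ℝ := fun i =>
  if h : (i : ℕ) < 7 then (betaC q ⟨i, h⟩).re else (betaC q ⟨(i : ℕ) - 7, by omega⟩).im

/-- `G_i`: the derivative of `Y` at the `i`-th point along the vector `tau` -/
def Gf (q : Tot) (i : Fin 5) : ℂ := tau q.1 (q.2 i) 1

/-- local coordinate near the `i`-th point: hermitian product of `e - ρ_i` with `tau` -/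
def kap (q : Tot) (i : Fin 5) (e : Pt) : ℂ :=
  ∑ k, (starRingEnd ℂ) (tau q.1 (q.2 i) k) * (e k - q.2 i k)

/-! ## boxes (sup norm) -/

/-- the unit box of `ℝⁿ` (closed ball of the sup norm) -/
abbrev Bx (n : ℕ) : Set (Fin n → ℝ) := Metric.closedBall 0 1

/-- its boundary -/
abbrev Sx (n : ℕ) : Set (Fin n → ℝ) := Metric.sphere 0 1

/-- The arguments of the `G i`, up to a common phase, have continuous real lifts on the part over
the fixed set of every compact convex family starting at `y0`. -/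
def LiftProp {X : Type*} [TopologicalSpace X] (ν : X → X) {p : ℕ} (G : X → Fin p → ℂ) (y0 : X)
    (E : Type*) [NormedAddCommGroup E] [NormedSpace ℝ E] : Prop :=
  ∀ DD : Set E, IsCompact DD → Convex ℝ DD → ∀ x0 ∈ DD, ∀ f : E → X, ContinuousOn f DD →
    f x0 = y0 → ∃ a : E → Fin p → ℝ, ContinuousOn a {x | x ∈ DD ∧ ν (f x) = f x} ∧
      ∀ x ∈ DD, ν (f x) = f x → ∃ c : ℂ, ∀ i, G (f x) i = c * (‖G (f x) i‖ * cexp (a x i * I))

end KZP
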