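import Pool.Agent.KZP.Defs
import Pool.Agent.KZT.T1c

/-!
# KZP-EXT (helper47): equivariant extension from vanishing homotopy groups
-/

namespace KZP

open Pool.Agent.KZT

/-- The map from the product of the two boxes to the box of the product. -/
noncomputable def Th (p n : ℕ) (x : (Fin p → ℝ) × (Fin (n + 1) → ℝ)) : Fin (p + n + 1) → ℝ := fun j =>
  (max ‖x.1‖ (1 - ‖x.1‖))⁻¹ *
    (if h : (j : ℕ) < p then x.1 ⟨j, h⟩ else (1 - ‖x.1‖) * x.2 ⟨(j : ℕ) - p, by omega⟩)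

theorem Th_pos (r : ℝ) : 0 < max r (1 - r) := by
  rcases lt_or_ge 0 r with h | h
  · exact lt_max_of_lt_left h
  · exact lt_max_of_lt_right (by linarith)

theorem continuous_Th (p n : ℕ) : Continuous (Th p n) := by
  unfold Th
  refine continuous_pi fun j => ?_
  have h1 : Continuous fun x : (Fin p → ℝ) × (Fin (n + 1) → ℝ) =>
      (max ‖x.1‖ (1 - ‖x.1‖))⁻¹ := by
    refine Continuous.inv₀ ?_ fun x => (Th_pos _).ne'
    fun_prop
  refine h1.mul ?_
  split_ifs with h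
  · exact (continuous_apply _).comp continuous_fst
  · refine Continuous.mul (by fun_prop) ?_
    exact (continuous_apply _).comp continuous_snd

theorem Th_neg (p n : ℕ) (u : Fin p → ℝ) (v : Fin (n + 1) → ℝ) :
    Th p n (u, -v) = nuR p (Th p n (u, v)) := by
  funext j
  by_cases h : (j : ℕ) < p
  · simp [Th, nuR, h]
  · simp [Th, nuR, h]

theorem Th_norm_le (p n : ℕ) (u : Fin p → ℝ) (v : Fin (n + 1) → ℝ) (hu : ‖u‖ ≤ 1) (hv : ‖v‖ ≤ 1) :
    ‖Th p n (u, v)‖ ≤ 1 := by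
  have h0 := Th_pos ‖u‖
  rw [pi_norm_le_iff_of_nonneg zero_le_one]
  intro j
  unfold Th
  rw [norm_mul, norm_inv, Real.norm_of_nonneg h0.le, inv_mul_le_iff₀ h0, mul_one]
  split_ifs with h
  · exact (norm_le_pi_norm u _).trans (le_max_left _ _)
  · rw [norm_mul, Real.norm_of_nonneg (by linarith : (0 : ℝ) ≤ 1 - ‖u‖)]
    refine le_trans ?_ (le_max_right _ _)
    have h1 := (norm_le_pi_norm v ⟨(j : ℕ) - p, by omega⟩).trans hv
    exact mul_le_of_le_one_right (by linarith) h1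

theorem Th_norm_ge (p n : ℕ) (u : Fin p → ℝ) (v : Fin (n + 1) → ℝ) (hu : ‖u‖ ≤ 1) (hv : ‖v‖ = 1) :
    1 ≤ ‖Th p n (u, v)‖ := by
  have h0 := Th_pos ‖u‖
  have key : max ‖u‖ (1 - ‖u‖) ≤ max ‖u‖ (1 - ‖u‖) * ‖Th p n (u, v)‖ := by
    refine max_le ?_ ?_
    · rw [pi_norm_le_iff_of_nonneg (by positivity)]
      intro i
      have h1 := norm_le_pi_norm (Th p n (u, v)) ⟨(i : ℕ), by omega⟩
      have h2 : ‖u i‖ = max ‖u‖ (1 - ‖u‖) * ‖Th p n (u, v) ⟨(i : ℕ), by omega⟩‖ := by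
        unfold Th
        simp only [i.isLt, dif_pos, Fin.eta]
        rw [norm_mul, norm_inv, Real.norm_of_nonneg h0.le, mul_inv_cancel_left₀ h0.ne']
      rw [h2]
      exact mul_le_mul_of_nonneg_left h1 h0.le
    · have h3 : (1 - ‖u‖) * ‖v‖ ≤ max ‖u‖ (1 - ‖u‖) * ‖Th p n (u, v)‖ := by
        have h4 : ‖(1 - ‖u‖) • v‖ ≤ max ‖u‖ (1 - ‖u‖) * ‖Th p n (u, v)‖ := by
          rw [pi_norm_le_iff_of_nonneg (by positivity)]
          intro i
          have h1 := norm_le_pi_norm (Th p n (u, v)) ⟨p + (i : ℕ), by omega⟩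
          have h2 : ‖((1 - ‖u‖) • v) i‖ =
              max ‖u‖ (1 - ‖u‖) * ‖Th p n (u, v) ⟨p + (i : ℕ), by omega⟩‖ := by
            unfold Th
            simp only [show ¬ (p + (i : ℕ) < p) by omega, dif_neg, not_false_eq_true]
            rw [norm_mul, norm_inv, Real.norm_of_nonneg h0.le, mul_inv_cancel_left₀ h0.ne']
            simp
          rw [h2]
          exact mul_le_mul_of_nonneg_left h1 h0.le
        rwa [norm_smul, Real.norm_of_nonneg (by linarith : (0 : ℝ) ≤ 1 - ‖u‖)] at h4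
      rwa [hv, mul_one] at h3
  exact (le_mul_iff_one_le_right h0).1 key

theorem Th_pad (p n : ℕ) (u : Fin p → ℝ) (v : Fin (n + 1) → ℝ) (hu : ‖u‖ = 1) :
    Th p n (u, v) = pad (p + n + 1) u := by
  funext j
  unfold Th pad
  split_ifs with h
  · simp [hu]
  · simp [hu]

theorem ext_main {X : Type*} [TopologicalSpace X] (ν : X → X) (hν : Continuous ν)
    (hνν : ∀ x, ν (ν x) = x) (p n : ℕ) (hp : 2 ≤ p)
    (hπ : ∀ j : ℕ, p - 1 ≤ j → j ≤ p + n → ∀ x : X, Subsingleton (HomotopyGroup (Fin j) X x))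
    (s : (Fin p → ℝ) → X) (hs : ContinuousOn s (Sx p)) (hsν : ∀ u ∈ Sx p, ν (s u) = s u) :
    ∃ f : (Fin p → ℝ) × (Fin (n + 1) → ℝ) → X, ContinuousOn f (Bx p ×ˢ Bx (n + 1)) ∧
      (∀ u ∈ Sx p, ∀ v ∈ Bx (n + 1), f (u, v) = s u) ∧
      (∀ u ∈ Bx p, ∀ v ∈ Sx (n + 1), f (u, -v) = ν (f (u, v))) := by
  obtain ⟨F, hF, hFν, hFs⟩ := equivariant_extension ν hν hνν p (p + n) hp (by omega)
    (fun j h1 h2 x => hπ j (by omega) h2 x) s hs (fun u hu => hsν u (by simpa using hu))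
  refine ⟨fun x => F (Th p n x), ?_, ?_, ?_⟩
  · refine hF.comp (continuous_Th p n).continuousOn ?_
    rintro ⟨u, v⟩ ⟨hu, hv⟩
    simp only [mem_closedBall_zero_iff] at hu hv ⊢
    exact Th_norm_le p n u v hu hv
  · intro u hu v _
    have hu' : ‖u‖ = 1 := by simpa using hu
    show F (Th p n (u, v)) = s u
    rw [Th_pad p n u v hu', hFs u hu']
  · intro u hu v hv
    have hu' : ‖u‖ ≤ 1 := by simpa using hu
    have hv' : ‖v‖ = 1 := by simpa using hv
    show F (Th p n (u, -v)) = ν (F (Th p n (u, v)))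
    rw [Th_neg, hFν _ (le_antisymm (Th_norm_le p n u v hu' hv'.le) (Th_norm_ge p n u v hu' hv'))]

end KZP
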