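import Pool.Agent.KZP.ODefs

/-!
# KZP: continuous families of pointed curves with a tangent vector and five points
-/

set_option autoImplicit false

namespace KZP

/-- the gaps of the semigroup `⟨4, 5, 6⟩` -/
def IsGap (n : ℕ) : Prop := n = 1 ∨ n = 2 ∨ n = 3 ∨ n = 7

/-- A filtration `F 0 ⊆ F 1 ⊆ …` of the `B`-algebra `V` (think of the functions on a curve minus a
point `P`, and of those with a pole of order at most `n` at `P`) with multiplicative leading
coefficients `lc n : F n → B`, such that the kernel of `lc n` is `F (n - 1)`, and the image of `lc n` is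
`B` for `n` in the semigroup `⟨4, 5, 6⟩` and zero for the gaps `1, 2, 3, 7`.  That is: the associated
graded ring is the semigroup ring `B[t⁴, t⁵, t⁶]`. -/
structure Tail (B V : Type) [CommRing B] [CommRing V] [Algebra B V] where
  /-- the filtration -/
  F : ℕ → Submodule B V
  /-- the leading coefficient -/
  lc : ∀ n, F n →ₗ[B] B
  le_succ : ∀ n, F n ≤ F (n + 1)
  exhaust : ∀ f, ∃ n, f ∈ F n
  one_mem : (1 : V) ∈ F 0
  lc_one : lc 0 ⟨1, one_mem⟩ = 1
  mul_mem : ∀ m n (f g : V), f ∈ F m → g ∈ F n → f * g ∈ F (m + n)
  lc_mul : ∀ m n (f : F m) (g : F n),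
    lc (m + n) ⟨f * g, mul_mem m n f g f.2 g.2⟩ = lc m f * lc n g
  lc_zero : ∀ f : F 0, lc 0 f = 0 ↔ f = 0
  lc_succ : ∀ n (f : F (n + 1)), lc (n + 1) f = 0 ↔ (f : V) ∈ F n
  surj : ∀ n, ¬ IsGap n → Function.Surjective (lc n)
  gap : ∀ n, IsGap n → ∀ f : F n, lc n f = 0

/-- `f` is in `F n`, with leading coefficient `b`. -/
def Tail.Lead {B V : Type} [CommRing B] [CommRing V] [Algebra B V] (W : Tail B V) (n : ℕ) (f : V)
    (b : B) : Prop := ∃ h : f ∈ W.F n, W.lc n ⟨f, h⟩ = b

/-- A continuous family over the topological space `T` of smooth pointed curves `(C, P)` with a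
tangent vector at `P` and five distinct labelled points of `C ∖ P`: the algebra `E` of the functions
on the family of the affine curves `C ∖ P`, over the ring of the continuous functions on `T`, with
the pole orders and the leading coefficients at `P` (with respect to the tangent vector). -/
structure Fam (T : Type) [TopologicalSpace T] where
  /-- the functions on the family of the affine curves -/
  E : Type
  [ringE : CommRing E]
  [algE : Algebra C(T, ℂ) E]
  /-- pole orders and leading coefficients -/
  tail : Tail C(T, ℂ) E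
  /-- the fibres over the points `t` of `T` are smooth curves -/
  smooth : ∀ t : T, IsDedekindDomain
    (E ⧸ Ideal.span {x : E | ∃ c : C(T, ℂ), c t = 0 ∧ algebraMap C(T, ℂ) E c = x})
  /-- the five points: sections of the family -/
  sec : Fin 5 → (E →ₐ[C(T, ℂ)] C(T, ℂ))
  /-- the values of the sections at `t` are distinct -/
  distinct : ∀ t : T, Function.Injective fun (j : Fin 5) (f : E) => sec j f t

attribute [instance] Fam.ringE Fam.algE

/-- the parameters of `q : C(T, XS)` as continuous functions on `T` -/
noncomputable def par {T : Type} [TopologicalSpace T] (q : C(T, XS)) (k : Fin 8) : C(T, ℂ) :=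
  ⟨fun t => (q t).1.1 k, by
    have := q.continuous
    fun_prop⟩

/-- The functions `X 0, X 1, X 2` on the family with poles of order `4, 5, 6` and leading coefficient
`1`, in which the fibre over `t` is the curve with the five points `q t`. -/
structure Fam.FCoords {T : Type} [TopologicalSpace T] (Φ : Fam T) (q : C(T, XS))
    (X : Fin 3 → Φ.E) : Prop where
  lead_X : ∀ i : Fin 3, Φ.tail.Lead (4 + (i : ℕ)) (X i) 1
  eqs_X : Eqs (par q) (X 0) (X 1) (X 2)
  sec_X : ∀ (j : Fin 5) (i : Fin 3) (t : T), Φ.sec j (X i) t = (q t).1.2 j i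

end KZP
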