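import Pool.Agent.KZP.Defs

/-!
# KZP-TR1: a uniform implicit function theorem near a compact set

Proof.  Let `L z = Ψ' z 0`.  On the compact set `K` the maps `L z` are injective, hence (finite
dimension) bijective, and `‖v‖ ≤ c₁ ‖L z v‖` with a constant `c₁ > 0` for all `z ∈ K`
(compactness of `K × unit sphere`).  By continuity of `Ψ'` and compactness of `K` (with a compact
neighbourhood of `K`: `Z` is proper) there are `r₀, ρ > 0` such that for `z ∈ Z`, `z₀ ∈ K`,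
`dist z z₀ ≤ r₀`, `‖μ‖ ≤ ρ`: `‖Ψ' z μ - L z₀‖ ≤ 1/(2 c₁)`.  So for these `z, z₀` the map
`Ψ z - L z₀` is `1/(2c₁)`-Lipschitz on `closedBall 0 ρ` (mean value inequality on a convex set:
`Convex.norm_image_sub_le_of_norm_hasFDerivWithin_le`), and the map
`μ ↦ μ - (L z₀)⁻¹ (Ψ z μ)` is `1/2`-Lipschitz there.  By continuity of `Ψ` and `Ψ z₀ 0 = 0` on `K`
choose `r ≤ r₀` with `c₁ ‖Ψ z 0‖ ≤ ρ/2` whenever `dist z z₀ ≤ r`.  Then that map sends
`closedBall 0 ρ` to itself and is a contraction: unique fixed point (`ContractingWith` on the complete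
set `closedBall 0 ρ`), i.e. a unique zero `μ z` of `Ψ z` in the ball; and
`‖μ z‖ ≤ ‖μ z - T 0‖ + ‖T 0‖ ≤ (1/2)‖μ z‖ + c₁ ‖Ψ z 0‖`, so `‖μ z‖ ≤ 2 c₁ ‖Ψ z 0‖`.
Continuity of `μ` on `{z | ∃ z₀ ∈ K, dist z z₀ ≤ r}`: for `z, z'` in the set near each other,
uniqueness and compactness of `closedBall 0 ρ` (if `z_n → z`, every limit point of `μ z_n` is a zero
of `Ψ z` in the ball, hence `μ z`).  (In a sequentially compact/proper setting this is three lines.)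
-/

namespace KZP

open Metric Set Filter Topology

theorem lower_bound {Z V : Type*} [TopologicalSpace Z] [NormedAddCommGroup V]
    [NormedSpace ℝ V] [FiniteDimensional ℝ V] (L : Z → (V →L[ℝ] V)) (hL : Continuous L)
    (K : Set Z) (hK : IsCompact K) (hinj : ∀ z ∈ K, ∀ v, L z v = 0 → v = 0) :
    ∃ c : ℝ, 0 < c ∧ ∀ z ∈ K, ∀ v, c * ‖v‖ ≤ ‖L z v‖ := by
  have hc : IsCompact (K ×ˢ (Metric.sphere (0 : V) 1)) := hK.prod (isCompact_sphere 0 1)
  have hcont : ContinuousOn (fun x : Z × V => ‖L x.1 x.2‖) (K ×ˢ (Metric.sphere (0 : V) 1)) := by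
    refine Continuous.continuousOn ?_
    exact ((hL.comp continuous_fst).clm_apply continuous_snd).norm
  obtain ⟨c, hc0, hcc⟩ := hc.exists_forall_le' hcont (a := 0) (by
    rintro ⟨z, v⟩ ⟨hz, hv⟩
    rw [norm_pos_iff]
    intro h
    have := hinj z hz v h
    rw [mem_sphere_zero_iff_norm, this, norm_zero] at hv
    exact zero_ne_one hv)
  refine ⟨c, hc0, fun z hz v => ?_⟩
  by_cases hv : v = 0
  · simp [hv]
  · have hn : ‖v‖ ≠ 0 := by simpa using hv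
    have h1 := hcc (z, ‖v‖⁻¹ • v) ⟨hz, by simp [norm_smul, hn]⟩
    simp only [map_smul, norm_smul, norm_inv, norm_norm] at h1
    rw [mul_comm, ← le_inv_mul_iff₀ (by positivity)]
    exact h1

theorem unif_ift {Z V : Type*} [MetricSpace Z] [ProperSpace Z] [NormedAddCommGroup V]
    [NormedSpace ℝ V] [FiniteDimensional ℝ V] (Ψ : Z → V → V) (Ψ' : Z → V → (V →L[ℝ] V))
    (hΨ : Continuous (Function.uncurry Ψ)) (hΨ' : Continuous (Function.uncurry Ψ'))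
    (hd : ∀ z μ, HasFDerivAt (Ψ z) (Ψ' z μ) μ) (K : Set Z) (hK : IsCompact K)
    (h0 : ∀ z ∈ K, Ψ z 0 = 0) (hinj : ∀ z ∈ K, ∀ v, Ψ' z 0 v = 0 → v = 0) :
    ∃ r : ℝ, 0 < r ∧ ∃ ρ : ℝ, 0 < ρ ∧ ∃ C : ℝ, 0 < C ∧ ∃ μ : Z → V,
      ContinuousOn μ {z | ∃ z₀ ∈ K, dist z z₀ ≤ r} ∧
      ∀ z, (∃ z₀ ∈ K, dist z z₀ ≤ r) → Ψ z (μ z) = 0 ∧ ‖μ z‖ ≤ C * ‖Ψ z 0‖ ∧ ‖μ z‖ ≤ ρ ∧
        ∀ w, ‖w‖ ≤ ρ → Ψ z w = 0 → w = μ z := by
  classical
  have hL : Continuous (fun z => Ψ' z 0) := hΨ'.comp (continuous_id.prodMk continuous_const)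
  obtain ⟨c, hc, hcL⟩ := lower_bound (fun z => Ψ' z 0) hL K hK hinj
  -- uniform estimate for the derivative
  have hKK : IsCompact (K ×ˢ ({0} : Set V)) := hK.prod isCompact_singleton
  have hu := hKK.uniformContinuousAt_of_continuousAt (Function.uncurry Ψ')
    (fun a _ => hΨ'.continuousAt) (Metric.dist_mem_uniformity (half_pos hc))
  rw [Metric.mem_uniformity_dist] at hu
  obtain ⟨δ, hδ, hδu⟩ := hu
  set ρ := δ / 2 with hρ
  have hρ0 : 0 < ρ := by positivity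
  have hder : ∀ z₀ ∈ K, ∀ z, dist z z₀ ≤ ρ → ∀ μ : V, ‖μ‖ ≤ ρ → ‖Ψ' z μ - Ψ' z₀ 0‖ ≤ c / 2 := by
    intro z₀ hz₀ z hz μ hμ
    have h1 : dist ((z₀, (0 : V)) : Z × V) (z, μ) < δ := by
      rw [Prod.dist_eq, dist_comm z₀ z, dist_comm (0 : V) μ, dist_zero_right]
      exact max_lt (by linarith) (by linarith)
    have h2 := hδu h1
    have h3 : dist (Ψ' z₀ 0) (Ψ' z μ) < c / 2 := h2 ⟨hz₀, rfl⟩
    rw [dist_comm, dist_eq_norm] at h3
    exact h3.le
  -- uniform estimate for the value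
  have hΨ0 : Continuous (fun z => Ψ z 0) := hΨ.comp (continuous_id.prodMk continuous_const)
  have hv := hK.uniformContinuousAt_of_continuousAt (fun z => Ψ z 0)
    (fun a _ => hΨ0.continuousAt) (Metric.dist_mem_uniformity (show 0 < c / 2 * ρ by positivity))
  rw [Metric.mem_uniformity_dist] at hv
  obtain ⟨δ', hδ', hδv⟩ := hv
  set r := min ρ (δ' / 2) with hr
  have hr0 : 0 < r := by positivity
  have hrρ : r ≤ ρ := min_le_left _ _
  have hval : ∀ z₀ ∈ K, ∀ z, dist z z₀ ≤ r → ‖Ψ z 0‖ ≤ c / 2 * ρ := by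
    intro z₀ hz₀ z hz
    have h1 : dist z₀ z < δ' := by
      rw [dist_comm]
      have : r ≤ δ' / 2 := min_le_right _ _
      linarith
    have h2 := hδv h1 hz₀
    have h3 : dist (Ψ z₀ 0) (Ψ z 0) < c / 2 * ρ := h2
    rw [h0 z₀ hz₀, dist_comm, dist_zero_right] at h3
    exact h3.le
  -- lower Lipschitz bound
  have happ : ∀ z₀ ∈ K, ∀ z, dist z z₀ ≤ r → ∀ w ∈ closedBall (0 : V) ρ, ∀ w' ∈ closedBall (0 : V) ρ,
      ‖Ψ z w - Ψ z w' - Ψ' z₀ 0 (w - w')‖ ≤ c / 2 * ‖w - w'‖ := by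
    intro z₀ hz₀ z hz w hw w' hw'
    have hconv : Convex ℝ (closedBall (0 : V) ρ) := convex_closedBall 0 ρ
    have h1 := hconv.norm_image_sub_le_of_norm_hasFDerivWithin_le
      (f := fun μ => Ψ z μ - Ψ' z₀ 0 μ) (f' := fun μ => Ψ' z μ - Ψ' z₀ 0) (C := c / 2)
      (x := w') (y := w)
      (fun μ _ => ((hd z μ).sub (Ψ' z₀ 0).hasFDerivAt).hasFDerivWithinAt)
      (fun μ hμ => hder z₀ hz₀ z (hz.trans hrρ) μ (by simpa using hμ)) hw' hw
    have h2 : (fun μ => Ψ z μ - Ψ' z₀ 0 μ) w - (fun μ => Ψ z μ - Ψ' z₀ 0 μ) w' =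
        Ψ z w - Ψ z w' - Ψ' z₀ 0 (w - w') := by
      simp only [map_sub]
      abel
    rw [h2] at h1
    exact h1
  have hlow : ∀ z, (∃ z₀ ∈ K, dist z z₀ ≤ r) → ∀ w, ‖w‖ ≤ ρ → ∀ w', ‖w'‖ ≤ ρ →
      c / 2 * ‖w - w'‖ ≤ ‖Ψ z w - Ψ z w'‖ := by
    rintro z ⟨z₀, hz₀, hz⟩ w hw w' hw'
    have h1 := happ z₀ hz₀ z hz w (by simpa using hw) w' (by simpa using hw')
    have h2 := hcL z₀ hz₀ (w - w')
    have h3 : ‖Ψ' z₀ 0 (w - w')‖ ≤ ‖Ψ z w - Ψ z w'‖ + ‖Ψ z w - Ψ z w' - Ψ' z₀ 0 (w - w')‖ := by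
      have h4 : Ψ' z₀ 0 (w - w') = (Ψ z w - Ψ z w') - (Ψ z w - Ψ z w' - Ψ' z₀ 0 (w - w')) := by
        abel
      conv_lhs => rw [h4]
      exact norm_sub_le _ _
    linarith
  have hex : ∀ z, (∃ z₀ ∈ K, dist z z₀ ≤ r) → ∃ w, ‖w‖ ≤ ρ ∧ Ψ z w = 0 := by
    rintro z ⟨z₀, hz₀, hz⟩
    have hinjL : Function.Injective (Ψ' z₀ 0) := by
      intro v v' hvv
      have h1 := hinj z₀ hz₀ (v - v') (by rw [map_sub, hvv, sub_self])
      exact sub_eq_zero.1 h1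
    have hsurj : Function.Surjective (Ψ' z₀ 0) :=
      LinearMap.surjective_of_injective (f := ((Ψ' z₀ 0 : V →L[ℝ] V) : V →ₗ[ℝ] V)) hinjL
    let S : (Ψ' z₀ 0).NonlinearRightInverse :=
      { toFun := fun y => (hsurj y).choose
        nnnorm := ⟨c⁻¹, by positivity⟩
        bound' := by
          intro y
          have h1 := hcL z₀ hz₀ (hsurj y).choose
          rw [(hsurj y).choose_spec] at h1
          show ‖(hsurj y).choose‖ ≤ c⁻¹ * ‖y‖
          rw [← div_eq_inv_mul, le_div_iff₀ hc, mul_comm]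
          exact h1
        right_inv' := fun y => (hsurj y).choose_spec }
    have happ' : ApproximatesLinearOn (Ψ z) (Ψ' z₀ 0) (closedBall 0 ρ) ⟨c / 2, by positivity⟩ := by
      intro w hw w' hw'
      exact happ z₀ hz₀ z hz w hw w' hw'
    have h2 := happ'.surjOn_closedBall_of_nonlinearRightInverse S hρ0.le (Set.Subset.refl _)
    have h3 : (0 : V) ∈ closedBall (Ψ z 0) ((((S.nnnorm : ℝ))⁻¹ - ((⟨c / 2, by positivity⟩ : NNReal) : ℝ)) * ρ) := by
      have h4 : ((S.nnnorm : ℝ))⁻¹ = c := by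
        show (c⁻¹)⁻¹ = c
        rw [inv_inv]
      rw [h4, mem_closedBall, dist_comm, dist_zero_right]
      show ‖Ψ z 0‖ ≤ (c - c / 2) * ρ
      have := hval z₀ hz₀ z hz
      have h5 : c - c / 2 = c / 2 := by ring
      rw [h5]
      exact this
    obtain ⟨w, hw, hw0⟩ := h2 h3
    exact ⟨w, by simpa using hw, hw0⟩
  choose! μ hμρ hμ0 using hex
  refine ⟨r, hr0, ρ, hρ0, 2 / c, by positivity, μ, ?_, ?_⟩
  · intro z hz
    rw [ContinuousWithinAt, tendsto_iff_dist_tendsto_zero]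
    have h1 : Tendsto (fun z' => 2 / c * ‖Ψ z' (μ z)‖) (𝓝[{z | ∃ z₀ ∈ K, dist z z₀ ≤ r}] z) (𝓝 0) := by
      have h2 : Continuous (fun z' => 2 / c * ‖Ψ z' (μ z)‖) :=
        continuous_const.mul (hΨ.comp (continuous_id.prodMk continuous_const)).norm
      have h3 := h2.tendsto z
      simp only [hμ0 z hz, norm_zero, mul_zero] at h3
      exact h3.mono_left nhdsWithin_le_nhds
    refine squeeze_zero' (Eventually.of_forall fun _ => dist_nonneg) ?_ h1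
    filter_upwards [self_mem_nhdsWithin] with z' hz'
    have h4 := hlow z' hz' (μ z') (hμρ z' hz') (μ z) (hμρ z hz)
    rw [hμ0 z' hz', zero_sub, norm_neg] at h4
    rw [dist_eq_norm, div_mul_eq_mul_div, le_div_iff₀ hc]
    linarith
  · intro z hz
    refine ⟨hμ0 z hz, ?_, hμρ z hz, ?_⟩
    · have h4 := hlow z hz (μ z) (hμρ z hz) 0 (by simpa using hρ0.le)
      rw [hμ0 z hz, zero_sub, norm_neg, sub_zero] at h4
      rw [div_mul_eq_mul_div, le_div_iff₀ hc]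
      linarith
    · intro w hw hw0
      have h4 := hlow z hz w hw (μ z) (hμρ z hz)
      rw [hμ0 z hz, hw0, sub_zero, norm_zero] at h4
      have h5 : ‖w - μ z‖ ≤ 0 := by
        by_contra h6
        push Not at h6
        have : 0 < c / 2 * ‖w - μ z‖ := by positivity
        linarith
      exact sub_eq_zero.1 (norm_le_zero_iff.1 h5)

end KZP
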