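import Pool.Agent.KZP.Defs

/-!
# KZP-TR2: weights, the curve at infinity, a compact set of regular points

`Dl λ` is the scaling of points with weights `4, 5, 6`, `Dp λ` the scaling of the parameters with
weights `2,3,4,6,7,8,10,12`; `wN` is the weighted norm `max (‖X‖^{1/4}, ‖Y‖^{1/5}, ‖Z‖^{1/6})`.

* `f1_scale`, `f2_scale`: `ring` after unfolding (weights 10 and 12).
* `tau_scale`: `tau (Dp λ s) (Dl λ e) = ![λ^11 τ₀, λ^12 τ₁, λ^13 τ₂]`-type formulas; only the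
  equivalence `tau (Dp λ s) (Dl λ e) = 0 ↔ tau s e = 0` for `λ ≠ 0` is stated.  (Precisely:
  the components of `g1` scale with weights `6,5,4`, those of `g2` with `8,7,6`, so
  `τ₀ = g1₁ g2₂ - g1₂ g2₁` has weight `11`, `τ₁` has weight `12`, `τ₂` has weight `13`.)
* `wN` is continuous (`Real.continuous_rpow_const` for exponents `≥ 0`, norms are `≥ 0`),
  `wN (Dl λ e) = λ * wN e` for `λ ≥ 0`, `wN e = 0 ↔ e = 0`, sublevel sets are compact (closed and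
  bounded: `‖X‖ ≤ R^4` etc.).
* `regular_zero`: on the monomial curve `s = 0`: `f1 = Y² - XZ = 0`, `f2 = Z² - X³ = 0`,
  `τ₁ = g1₂ g2₀ - g1₀ g2₂ = (-X)(-3X²) - (-Z)(2Z) = 3X³ + 2Z² = 5 X³`; if it vanishes then `X = 0`,
  `Z² = 0`, `Y² = 0`, so `e = 0`.
* `KK` is the compact set of pairs (point, parameter) with `parameter = Dp λ s₁`, `s₁ ∈ Kp`,
  `λ ∈ [0,1]`, the point on the curve, `wN e ≤ R`, and (`λ = 1` or `wN e = R`).  Compact: it is the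
  union of the images/projections of two compact sets; or closed in the compact set
  `{wN ≤ R} × (image of [0,1] × Kp)`: write it as the union of
  `{(e, s) | s ∈ Kp, wN e ≤ R, e ∈ Curve s}` (closed in a compact set) and the image under
  `(e, λ, s₁) ↦ (e, Dp λ s₁)` of the compact set `{wN e = R, λ ∈ [0,1], s₁ ∈ Kp, e ∈ Curve (Dp λ s₁)}`.
  `tau ≠ 0` on `KK`: if `λ > 0`, `e = Dl λ e₁` with `e₁ = Dl λ⁻¹ e ∈ Curve s₁` smooth, use
  `tau_scale`; if `λ = 0` then `Dp 0 s₁ = 0`, `wN e = R > 0`, so `e ≠ 0`: `regular_zero`.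
-/

namespace KZP

/-- scaling of points with weights 4, 5, 6 -/
noncomputable def Dl (l : ℝ) (e : Pt) : Pt := ![(l : ℂ) ^ 4 * e 0, (l : ℂ) ^ 5 * e 1, (l : ℂ) ^ 6 * e 2]

/-- scaling of parameters with weights 2, 3, 4, 6, 7, 8, 10, 12 -/
noncomputable def Dp (l : ℝ) (s : Par) : Par :=
  ![(l : ℂ) ^ 2 * s 0, (l : ℂ) ^ 3 * s 1, (l : ℂ) ^ 4 * s 2, (l : ℂ) ^ 6 * s 3,
    (l : ℂ) ^ 7 * s 4, (l : ℂ) ^ 8 * s 5, (l : ℂ) ^ 10 * s 6, (l : ℂ) ^ 12 * s 7]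

/-- weighted norm -/
noncomputable def wN (e : Pt) : ℝ :=
  max (‖e 0‖ ^ ((1 : ℝ) / 4)) (max (‖e 1‖ ^ ((1 : ℝ) / 5)) (‖e 2‖ ^ ((1 : ℝ) / 6)))

theorem tr2_Dl0 (l : ℝ) (e : Pt) : Dl l e 0 = (l : ℂ) ^ 4 * e 0 := rfl
theorem tr2_Dl1 (l : ℝ) (e : Pt) : Dl l e 1 = (l : ℂ) ^ 5 * e 1 := rfl
theorem tr2_Dl2 (l : ℝ) (e : Pt) : Dl l e 2 = (l : ℂ) ^ 6 * e 2 := rfl
theorem tr2_Dp0 (l : ℝ) (s : Par) : Dp l s 0 = (l : ℂ) ^ 2 * s 0 := rfl
theorem tr2_Dp1 (l : ℝ) (s : Par) : Dp l s 1 = (l : ℂ) ^ 3 * s 1 := rfl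
theorem tr2_Dp2 (l : ℝ) (s : Par) : Dp l s 2 = (l : ℂ) ^ 4 * s 2 := rfl
theorem tr2_Dp3 (l : ℝ) (s : Par) : Dp l s 3 = (l : ℂ) ^ 6 * s 3 := rfl
theorem tr2_Dp4 (l : ℝ) (s : Par) : Dp l s 4 = (l : ℂ) ^ 7 * s 4 := rfl
theorem tr2_Dp5 (l : ℝ) (s : Par) : Dp l s 5 = (l : ℂ) ^ 8 * s 5 := rfl
theorem tr2_Dp6 (l : ℝ) (s : Par) : Dp l s 6 = (l : ℂ) ^ 10 * s 6 := rfl
theorem tr2_Dp7 (l : ℝ) (s : Par) : Dp l s 7 = (l : ℂ) ^ 12 * s 7 := rfl
theorem tr2_g10 (s : Par) (e : Pt) : g1 s e 0 = - e 2 := rfl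
theorem tr2_g11 (s : Par) (e : Pt) : g1 s e 1 = 2 * e 1 := rfl
theorem tr2_g12 (s : Par) (e : Pt) : g1 s e 2 = - e 0 := rfl
theorem tr2_g20 (s : Par) (e : Pt) :
    g2 s e 0 = - (3 * e 0 ^ 2) - s 0 * e 2 - s 1 * e 1 - 2 * s 2 * e 0 - s 5 := rfl
theorem tr2_g21 (s : Par) (e : Pt) : g2 s e 1 = - (s 1 * e 0) - s 4 := rfl
theorem tr2_g22 (s : Par) (e : Pt) : g2 s e 2 = 2 * e 2 - s 0 * e 0 - s 3 := rfl
theorem tr2_tau0 (s : Par) (e : Pt) : tau s e 0 = g1 s e 1 * g2 s e 2 - g1 s e 2 * g2 s e 1 := rfl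
theorem tr2_tau1 (s : Par) (e : Pt) : tau s e 1 = g1 s e 2 * g2 s e 0 - g1 s e 0 * g2 s e 2 := rfl
theorem tr2_tau2 (s : Par) (e : Pt) : tau s e 2 = g1 s e 0 * g2 s e 1 - g1 s e 1 * g2 s e 0 := rfl

theorem tr2_ext {a b : Pt} (h0 : a 0 = b 0) (h1 : a 1 = b 1) (h2 : a 2 = b 2) : a = b := by
  funext k
  fin_cases k
  · exact h0
  · exact h1
  · exact h2

theorem tr2_ts0 (l : ℝ) (s : Par) (e : Pt) : tau (Dp l s) (Dl l e) 0 = (l : ℂ) ^ 11 * tau s e 0 := by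
  simp only [tr2_tau0, tr2_g11, tr2_g22, tr2_g12, tr2_g21, tr2_Dl0, tr2_Dl1, tr2_Dl2, tr2_Dp0, tr2_Dp1,
    tr2_Dp3, tr2_Dp4]
  ring

theorem tr2_ts1 (l : ℝ) (s : Par) (e : Pt) : tau (Dp l s) (Dl l e) 1 = (l : ℂ) ^ 12 * tau s e 1 := by
  simp only [tr2_tau1, tr2_g12, tr2_g20, tr2_g10, tr2_g22, tr2_Dl0, tr2_Dl1, tr2_Dl2, tr2_Dp0, tr2_Dp1,
    tr2_Dp2, tr2_Dp3, tr2_Dp5]
  ring

theorem tr2_ts2 (l : ℝ) (s : Par) (e : Pt) : tau (Dp l s) (Dl l e) 2 = (l : ℂ) ^ 13 * tau s e 2 := by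
  simp only [tr2_tau2, tr2_g10, tr2_g21, tr2_g11, tr2_g20, tr2_Dl0, tr2_Dl1, tr2_Dl2, tr2_Dp0, tr2_Dp1,
    tr2_Dp2, tr2_Dp4, tr2_Dp5]
  ring

theorem f1_scale (l : ℝ) (s : Par) (e : Pt) : f1 (Dp l s) (Dl l e) = (l : ℂ) ^ 10 * f1 s e := by
  unfold f1
  simp only [tr2_Dl0, tr2_Dl1, tr2_Dl2, tr2_Dp6]
  ring

theorem f2_scale (l : ℝ) (s : Par) (e : Pt) : f2 (Dp l s) (Dl l e) = (l : ℂ) ^ 12 * f2 s e := by
  unfold f2
  simp only [tr2_Dl0, tr2_Dl1, tr2_Dl2, tr2_Dp0, tr2_Dp1, tr2_Dp2, tr2_Dp3, tr2_Dp4, tr2_Dp5, tr2_Dp7]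
  ring

theorem tau_scale (l : ℝ) (hl : l ≠ 0) (s : Par) (e : Pt) :
    tau (Dp l s) (Dl l e) = 0 ↔ tau s e = 0 := by
  have hl' : (l : ℂ) ≠ 0 := by exact_mod_cast hl
  constructor
  · intro h
    refine tr2_ext ?_ ?_ ?_
    · have h1 := congrFun h 0
      rw [tr2_ts0] at h1
      exact (mul_eq_zero.1 h1).resolve_left (pow_ne_zero _ hl')
    · have h1 := congrFun h 1
      rw [tr2_ts1] at h1
      exact (mul_eq_zero.1 h1).resolve_left (pow_ne_zero _ hl')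
    · have h1 := congrFun h 2
      rw [tr2_ts2] at h1
      exact (mul_eq_zero.1 h1).resolve_left (pow_ne_zero _ hl')
  · intro h
    refine tr2_ext ?_ ?_ ?_
    · rw [tr2_ts0, h]; simp
    · rw [tr2_ts1, h]; simp
    · rw [tr2_ts2, h]; simp

theorem Dl_inv (l : ℝ) (hl : l ≠ 0) (e : Pt) : Dl l⁻¹ (Dl l e) = e ∧ Dl l (Dl l⁻¹ e) = e := by
  have hl' : (l : ℂ) ≠ 0 := by exact_mod_cast hl
  constructor
  · refine tr2_ext ?_ ?_ ?_
    · rw [tr2_Dl0, tr2_Dl0, Complex.ofReal_inv]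
      field_simp
    · rw [tr2_Dl1, tr2_Dl1, Complex.ofReal_inv]
      field_simp
    · rw [tr2_Dl2, tr2_Dl2, Complex.ofReal_inv]
      field_simp
  · refine tr2_ext ?_ ?_ ?_
    · rw [tr2_Dl0, tr2_Dl0, Complex.ofReal_inv]
      field_simp
    · rw [tr2_Dl1, tr2_Dl1, Complex.ofReal_inv]
      field_simp
    · rw [tr2_Dl2, tr2_Dl2, Complex.ofReal_inv]
      field_simp

theorem tr2_cmul {X : Type*} [TopologicalSpace X] (n : ℕ) {g : X → ℝ} {h : X → ℂ} (hg : Continuous g)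
    (hh : Continuous h) : Continuous (fun x => (g x : ℂ) ^ n * h x) :=
  ((Complex.continuous_ofReal.comp hg).pow n).mul hh

theorem continuous_Dl : Continuous (fun z : ℝ × Pt => Dl z.1 z.2) := by
  refine continuous_pi fun k => ?_
  fin_cases k
  · exact tr2_cmul 4 continuous_fst ((continuous_apply 0).comp continuous_snd)
  · exact tr2_cmul 5 continuous_fst ((continuous_apply 1).comp continuous_snd)
  · exact tr2_cmul 6 continuous_fst ((continuous_apply 2).comp continuous_snd)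

theorem continuous_Dp : Continuous (fun z : ℝ × Par => Dp z.1 z.2) := by
  refine continuous_pi fun k => ?_
  fin_cases k
  · exact tr2_cmul 2 continuous_fst ((continuous_apply 0).comp continuous_snd)
  · exact tr2_cmul 3 continuous_fst ((continuous_apply 1).comp continuous_snd)
  · exact tr2_cmul 4 continuous_fst ((continuous_apply 2).comp continuous_snd)
  · exact tr2_cmul 6 continuous_fst ((continuous_apply 3).comp continuous_snd)
  · exact tr2_cmul 7 continuous_fst ((continuous_apply 4).comp continuous_snd)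
  · exact tr2_cmul 8 continuous_fst ((continuous_apply 5).comp continuous_snd)
  · exact tr2_cmul 10 continuous_fst ((continuous_apply 6).comp continuous_snd)
  · exact tr2_cmul 12 continuous_fst ((continuous_apply 7).comp continuous_snd)

theorem tr2_dist (l : ℝ) (hl0 : 0 ≤ l) (hl1 : l ≤ 1) (n : ℕ) (a b : ℂ) :
    dist ((l : ℂ) ^ n * a) ((l : ℂ) ^ n * b) ≤ dist a b := by
  rw [dist_eq_norm, ← mul_sub, norm_mul, norm_pow, Complex.norm_real, Real.norm_of_nonneg hl0, dist_eq_norm]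
  calc l ^ n * ‖a - b‖ ≤ 1 * ‖a - b‖ := mul_le_mul_of_nonneg_right (pow_le_one₀ hl0 hl1) (norm_nonneg _)
    _ = ‖a - b‖ := one_mul _

theorem dist_Dp (l : ℝ) (hl0 : 0 ≤ l) (hl1 : l ≤ 1) (s s' : Par) :
    dist (Dp l s) (Dp l s') ≤ dist s s' := by
  rw [dist_pi_le_iff dist_nonneg]
  intro k
  refine le_trans ?_ (dist_le_pi_dist s s' k)
  fin_cases k
  · exact tr2_dist l hl0 hl1 2 _ _
  · exact tr2_dist l hl0 hl1 3 _ _
  · exact tr2_dist l hl0 hl1 4 _ _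
  · exact tr2_dist l hl0 hl1 6 _ _
  · exact tr2_dist l hl0 hl1 7 _ _
  · exact tr2_dist l hl0 hl1 8 _ _
  · exact tr2_dist l hl0 hl1 10 _ _
  · exact tr2_dist l hl0 hl1 12 _ _

theorem continuous_wN : Continuous wN := by
  unfold wN
  refine Continuous.max ?_ (Continuous.max ?_ ?_)
  · exact (continuous_norm.comp (continuous_apply 0)).rpow_const fun _ => Or.inr (by norm_num)
  · exact (continuous_norm.comp (continuous_apply 1)).rpow_const fun _ => Or.inr (by norm_num)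
  · exact (continuous_norm.comp (continuous_apply 2)).rpow_const fun _ => Or.inr (by norm_num)

theorem tr2_rp (n : ℕ) (hn : n ≠ 0) (l : ℝ) (hl : 0 ≤ l) (a : ℂ) :
    ‖(l : ℂ) ^ n * a‖ ^ ((1 : ℝ) / n) = l * ‖a‖ ^ ((1 : ℝ) / n) := by
  rw [norm_mul, norm_pow, Complex.norm_real, Real.norm_of_nonneg hl,
    Real.mul_rpow (pow_nonneg hl n) (norm_nonneg a), one_div, Real.pow_rpow_inv_natCast hl hn]

theorem wN_scale (l : ℝ) (hl : 0 ≤ l) (e : Pt) : wN (Dl l e) = l * wN e := by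
  unfold wN
  rw [tr2_Dl0, tr2_Dl1, tr2_Dl2]
  have h4 := tr2_rp 4 (by norm_num) l hl (e 0)
  have h5 := tr2_rp 5 (by norm_num) l hl (e 1)
  have h6 := tr2_rp 6 (by norm_num) l hl (e 2)
  norm_num only [Nat.cast_ofNat] at h4 h5 h6
  norm_num only
  rw [h4, h5, h6, ← mul_max_of_nonneg _ _ hl, ← mul_max_of_nonneg _ _ hl]

theorem tr2_le0 (e : Pt) : ‖e 0‖ ^ ((1 : ℝ) / 4) ≤ wN e := le_max_left _ _
theorem tr2_le1 (e : Pt) : ‖e 1‖ ^ ((1 : ℝ) / 5) ≤ wN e := (le_max_left _ _).trans (le_max_right _ _)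
theorem tr2_le2 (e : Pt) : ‖e 2‖ ^ ((1 : ℝ) / 6) ≤ wN e := (le_max_right _ _).trans (le_max_right _ _)

theorem tr2_nn (e : Pt) : 0 ≤ wN e :=
  (Real.rpow_nonneg (norm_nonneg _) _).trans (tr2_le0 e)

theorem tr2_z (a : ℂ) (p : ℝ) (hp : p ≠ 0) (h : ‖a‖ ^ p ≤ 0) : a = 0 := by
  have h1 : ‖a‖ ^ p = 0 := le_antisymm h (Real.rpow_nonneg (norm_nonneg _) _)
  rw [Real.rpow_eq_zero (norm_nonneg _) hp] at h1
  exact norm_eq_zero.1 h1

theorem wN_eq_zero (e : Pt) : wN e = 0 ↔ e = 0 := by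
  constructor
  · intro h
    refine tr2_ext ?_ ?_ ?_
    · exact tr2_z _ _ (by norm_num) ((tr2_le0 e).trans h.le)
    · exact tr2_z _ _ (by norm_num) ((tr2_le1 e).trans h.le)
    · exact tr2_z _ _ (by norm_num) ((tr2_le2 e).trans h.le)
  · rintro rfl
    unfold wN
    simp only [Pi.zero_apply, norm_zero]
    rw [Real.zero_rpow (by norm_num), Real.zero_rpow (by norm_num), Real.zero_rpow (by norm_num), max_self,
      max_self]

theorem wN_nonneg (e : Pt) : 0 ≤ wN e := by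
  exact tr2_nn e

theorem tr2_bd (n : ℕ) (hn : n ≠ 0) (a : ℂ) {R : ℝ} (h : ‖a‖ ^ ((1 : ℝ) / n) ≤ R) : ‖a‖ ≤ R ^ n := by
  have h1 : (‖a‖ ^ ((1 : ℝ) / n)) ^ n = ‖a‖ := by
    rw [one_div, Real.rpow_inv_natCast_pow (norm_nonneg a) hn]
  rw [← h1]
  exact pow_le_pow_left₀ (Real.rpow_nonneg (norm_nonneg _) _) h n

theorem isCompact_wN (R : ℝ) : IsCompact {e : Pt | wN e ≤ R} := by
  refine Metric.isCompact_of_isClosed_isBounded (isClosed_le continuous_wN continuous_const) ?_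
  rw [isBounded_iff_forall_norm_le]
  refine ⟨|R| ^ 4 + |R| ^ 5 + |R| ^ 6, fun e he => ?_⟩
  have hR : R ≤ |R| := le_abs_self R
  have he' : wN e ≤ |R| := le_trans he hR
  have h4 : ‖e 0‖ ≤ |R| ^ 4 := by
    refine tr2_bd 4 (by norm_num) _ ?_
    have := (tr2_le0 e).trans he'
    exact_mod_cast this
  have h5 : ‖e 1‖ ≤ |R| ^ 5 := by
    refine tr2_bd 5 (by norm_num) _ ?_
    have := (tr2_le1 e).trans he'
    exact_mod_cast this
  have h6 : ‖e 2‖ ≤ |R| ^ 6 := by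
    refine tr2_bd 6 (by norm_num) _ ?_
    have := (tr2_le2 e).trans he'
    exact_mod_cast this
  have p4 : 0 ≤ |R| ^ 4 := by positivity
  have p5 : 0 ≤ |R| ^ 5 := by positivity
  have p6 : 0 ≤ |R| ^ 6 := by positivity
  rw [pi_norm_le_iff_of_nonneg (by positivity)]
  intro k
  fin_cases k
  · show ‖e 0‖ ≤ _
    linarith
  · show ‖e 1‖ ≤ _
    linarith
  · show ‖e 2‖ ≤ _
    linarith

theorem regular_zero (e : Pt) (he : e ∈ Curve 0) (h0 : e ≠ 0) : tau 0 e ≠ 0 := by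
  intro h
  apply h0
  have h1 : e 1 ^ 2 - e 0 * e 2 = 0 := by
    have := he.1
    unfold f1 at this
    simpa using this
  have h2 : e 2 ^ 2 - e 0 ^ 3 = 0 := by
    have := he.2
    unfold f2 at this
    simpa using this
  have h3 : 3 * e 0 ^ 3 + 2 * e 2 ^ 2 = 0 := by
    have h4 := congrFun h 1
    rw [tr2_tau1, tr2_g12, tr2_g20, tr2_g10, tr2_g22] at h4
    simp only [Pi.zero_apply, zero_mul, mul_zero, sub_zero] at h4
    linear_combination h4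
  have hX : e 0 = 0 := by
    have h5 : e 0 ^ 3 = 0 := by
      linear_combination (1 / 5 : ℂ) * h3 - (2 / 5 : ℂ) * h2
    exact pow_eq_zero_iff (by norm_num) |>.1 h5
  have hZ : e 2 = 0 := by
    have h5 : e 2 ^ 2 = 0 := by
      rw [hX] at h2
      linear_combination h2
    exact pow_eq_zero_iff (by norm_num) |>.1 h5
  have hY : e 1 = 0 := by
    have h5 : e 1 ^ 2 = 0 := by
      rw [hX] at h1
      linear_combination h1
    exact pow_eq_zero_iff (by norm_num) |>.1 h5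
  exact tr2_ext hX hY hZ

/-- the compact set of regular pairs -/
def KK (Kp : Set Par) (R : ℝ) : Set (Pt × Par) :=
  {z | ∃ s₁ ∈ Kp, ∃ l : ℝ, 0 ≤ l ∧ l ≤ 1 ∧ z.2 = Dp l s₁ ∧ z.1 ∈ Curve z.2 ∧ wN z.1 ≤ R ∧
    (l = 1 ∨ wN z.1 = R)}

theorem tr2_cf1 : Continuous (fun z : Pt × Par => f1 z.2 z.1) := by
  unfold f1
  fun_prop

theorem tr2_cf2 : Continuous (fun z : Pt × Par => f2 z.2 z.1) := by
  unfold f2
  fun_prop

theorem tr2_closed : IsClosed {z : Pt × Par | z.1 ∈ Curve z.2} :=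
  (isClosed_eq tr2_cf1 continuous_const).inter (isClosed_eq tr2_cf2 continuous_const)

theorem tr2_Dp_one (s : Par) : Dp 1 s = s := by
  funext k
  fin_cases k
  · show Dp 1 s 0 = s 0
    rw [tr2_Dp0]; simp
  · show Dp 1 s 1 = s 1
    rw [tr2_Dp1]; simp
  · show Dp 1 s 2 = s 2
    rw [tr2_Dp2]; simp
  · show Dp 1 s 3 = s 3
    rw [tr2_Dp3]; simp
  · show Dp 1 s 4 = s 4
    rw [tr2_Dp4]; simp
  · show Dp 1 s 5 = s 5
    rw [tr2_Dp5]; simp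
  · show Dp 1 s 6 = s 6
    rw [tr2_Dp6]; simp
  · show Dp 1 s 7 = s 7
    rw [tr2_Dp7]; simp

theorem tr2_Dp_zero (s : Par) : Dp 0 s = 0 := by
  funext k
  fin_cases k
  · show Dp 0 s 0 = 0
    rw [tr2_Dp0]; simp
  · show Dp 0 s 1 = 0
    rw [tr2_Dp1]; simp
  · show Dp 0 s 2 = 0
    rw [tr2_Dp2]; simp
  · show Dp 0 s 3 = 0
    rw [tr2_Dp3]; simp
  · show Dp 0 s 4 = 0
    rw [tr2_Dp4]; simp
  · show Dp 0 s 5 = 0
    rw [tr2_Dp5]; simp
  · show Dp 0 s 6 = 0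
    rw [tr2_Dp6]; simp
  · show Dp 0 s 7 = 0
    rw [tr2_Dp7]; simp

theorem isCompact_KK (Kp : Set Par) (hKp : IsCompact Kp) (R : ℝ) : IsCompact (KK Kp R) := by
  have hA : IsCompact (({e : Pt | wN e ≤ R} ×ˢ Kp) ∩ {z : Pt × Par | z.1 ∈ Curve z.2}) :=
    ((isCompact_wN R).prod hKp).inter_right tr2_closed
  have hc : Continuous (fun w : Pt × ℝ × Par => ((w.1, Dp w.2.1 w.2.2) : Pt × Par)) :=
    continuous_fst.prodMk (continuous_Dp.comp continuous_snd)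
  have hcl : IsClosed {w : Pt × ℝ × Par | wN w.1 = R ∧ w.1 ∈ Curve (Dp w.2.1 w.2.2)} :=
    (isClosed_eq (continuous_wN.comp continuous_fst) continuous_const).inter (tr2_closed.preimage hc)
  have hB0 : IsCompact (({e : Pt | wN e ≤ R} ×ˢ (Set.Icc (0 : ℝ) 1 ×ˢ Kp)) ∩
      {w : Pt × ℝ × Par | wN w.1 = R ∧ w.1 ∈ Curve (Dp w.2.1 w.2.2)}) :=
    ((isCompact_wN R).prod (isCompact_Icc.prod hKp)).inter_right hcl
  have hB := hB0.image hc
  convert hA.union hB using 1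
  ext z
  constructor
  · rintro ⟨s₁, hs₁, l, hl0, hl1, hz2, hz1, hzR, hor⟩
    rcases hor with hl | hR
    · left
      rw [hl, tr2_Dp_one] at hz2
      exact ⟨⟨hzR, by rw [hz2]; exact hs₁⟩, hz1⟩
    · right
      refine ⟨(z.1, l, s₁), ⟨⟨hzR, ⟨hl0, hl1⟩, hs₁⟩, hR, ?_⟩, ?_⟩
      · show z.1 ∈ Curve (Dp l s₁)
        rw [← hz2]
        exact hz1
      · show (z.1, Dp l s₁) = z
        rw [← hz2]
  · rintro (⟨⟨h1, h2⟩, h3⟩ | ⟨w, ⟨⟨h1, ⟨h2, h3⟩, h4⟩, h5, h6⟩, rfl⟩)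
    · exact ⟨z.2, h2, 1, zero_le_one, le_rfl, (tr2_Dp_one _).symm, h3, h1, Or.inl rfl⟩
    · exact ⟨w.2.2, h4, w.2.1, h2, h3, rfl, h6, h1, Or.inr h5⟩

theorem tau_KK (Kp : Set Par) (hsm : ∀ s ∈ Kp, SmoothC s) (R : ℝ) (hR : 0 < R) :
    ∀ z ∈ KK Kp R, tau z.2 z.1 ≠ 0 := by
  rintro ⟨e, s⟩ ⟨s₁, hs₁, l, hl0, hl1, hz2, hz1, hzR, hor⟩
  simp only at hz2 hz1 hzR hor ⊢
  rcases eq_or_lt_of_le hl0 with hl | hl
  · rw [← hl, tr2_Dp_zero] at hz2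
    rw [hz2] at hz1 ⊢
    have hR' : wN e = R := by
      rcases hor with h | h
      · rw [← hl] at h
        norm_num at h
      · exact h
    refine regular_zero e hz1 ?_
    rintro rfl
    rw [(wN_eq_zero 0).2 rfl] at hR'
    linarith
  · have hl' : l ≠ 0 := hl.ne'
    have hl'' : (l : ℂ) ≠ 0 := by exact_mod_cast hl'
    obtain ⟨e₁, he₁⟩ : ∃ e₁, e = Dl l e₁ := ⟨Dl l⁻¹ e, ((Dl_inv l hl' e).2).symm⟩
    rw [hz2, he₁] at hz1 ⊢
    have hc : e₁ ∈ Curve s₁ := by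
      refine ⟨?_, ?_⟩
      · have h1 := hz1.1
        rw [f1_scale] at h1
        exact (mul_eq_zero.1 h1).resolve_left (pow_ne_zero _ hl'')
      · have h1 := hz1.2
        rw [f2_scale] at h1
        exact (mul_eq_zero.1 h1).resolve_left (pow_ne_zero _ hl'')
    intro h
    exact hsm s₁ hs₁ e₁ hc ((tau_scale l hl' s₁ e₁).1 h)

end KZP
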