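import Pool.Agent.KZP.Defs
import Pool.Agent.KZP.TR1
import Pool.Agent.KZP.TR2

/-!
# KZP-TR3: Newton transport near a compact set of regular pairs

Proof.  Apply `unif_ift` with `Z = Pt × Par × Pt × Par` (proper metric space), `z = (e, s, e', s')`,
`V = Fin 2 → ℂ` (a real normed space of finite dimension),
`Ψ z μ = ![f1 s' (P z μ), f2 s' (P z μ)]`, `P z μ = e' + μ 0 • conj (g1 s e) + μ 1 • conj (g2 s e)`
(`conj` coordinatewise), and the compact set `{(e, s, e, s) | (e, s) ∈ K}`.  `Ψ z` is a polynomial map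
(affine map in `μ` followed by polynomials), with derivative
`Ψ' z μ ν = ![∑_k g1 s' (P z μ) k * N_k ν, ∑_k g2 s' (P z μ) k * N_k ν]`,
`N ν = ν 0 • conj (g1 s e) + ν 1 • conj (g2 s e)`, continuous in all variables.  At `z = (e,s,e,s)`,
`μ = 0`: `Ψ z 0 = 0` as `e ∈ Curve s`, and `Ψ' z 0` is the Gram matrix of `g1, g2`:
`Ψ' z 0 ν = 0` implies `⟨N ν, ·⟩`… : `g1 · N = 0` and `g2 · N = 0` give
`∑_k conj(N_k) ... `: `conj(ν 0) (g1·N) + conj(ν 1) (g2·N) = ∑_k |N_k|² = 0`, so `N = 0`, i.e.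
`conj`-linear dependence of `g1, g2`, which forces `ν = 0` because the cross product `tau s e ≠ 0`
(if `ν 0 g1' + ν 1 g2' = 0` with `g' = conj g` and `ν ≠ 0`, all `2×2` minors vanish).
The point is `P z (μ z)`; the bound `‖P - e'‖ ≤ C (‖f1 s' e'‖ + ‖f2 s' e'‖)` follows from
`‖μ z‖ ≤ C' ‖Ψ z 0‖` and the boundedness of `g1, g2` on the compact set `K`.  Finally
`‖f1 s' e'‖ + ‖f2 s' e'‖` is small when `(e', s')` is near `K` (uniform continuity), which gives `≤ η`
after decreasing `r`.  The displacement is in the span of `conj g1, conj g2` (last clause).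
-/

namespace KZP

open Metric Set Filter Topology

/-- the normal displacement -/
def tr3N (e : Pt) (s : Par) (μ : Fin 2 → ℂ) : Pt := fun k =>
  μ 0 * (starRingEnd ℂ) (g1 s e k) + μ 1 * (starRingEnd ℂ) (g2 s e k)

def tr3P (z : Pt × Par × Pt × Par) (μ : Fin 2 → ℂ) : Pt := z.2.2.1 + tr3N z.1 z.2.1 μ

def tr3Psi (z : Pt × Par × Pt × Par) (μ : Fin 2 → ℂ) : Fin 2 → ℂ :=
  ![f1 z.2.2.2 (tr3P z μ), f2 z.2.2.2 (tr3P z μ)]

theorem continuous_g1 : Continuous (fun z : Par × Pt => g1 z.1 z.2) := by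
  unfold g1
  refine continuous_pi fun k => ?_
  fin_cases k
  · simp only [Fin.zero_eta, Matrix.cons_val_zero]
    fun_prop
  · simp only [Fin.mk_one, Matrix.cons_val_one]
    fun_prop
  · simp only [Fin.reduceFinMk, Matrix.cons_val]
    fun_prop

theorem continuous_g2 : Continuous (fun z : Par × Pt => g2 z.1 z.2) := by
  unfold g2
  refine continuous_pi fun k => ?_
  fin_cases k
  · simp only [Fin.zero_eta, Matrix.cons_val_zero]
    fun_prop
  · simp only [Fin.mk_one, Matrix.cons_val_one]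
    fun_prop
  · simp only [Fin.reduceFinMk, Matrix.cons_val]
    fun_prop

theorem continuous_f1 : Continuous (fun z : Par × Pt => f1 z.1 z.2) := by
  unfold f1
  fun_prop

theorem continuous_f2 : Continuous (fun z : Par × Pt => f2 z.1 z.2) := by
  unfold f2
  fun_prop

theorem continuous_tr3N : Continuous (fun z : (Pt × Par) × (Fin 2 → ℂ) => tr3N z.1.1 z.1.2 z.2) := by
  unfold tr3N
  refine continuous_pi fun k => ?_
  have hs : Continuous (fun z : (Pt × Par) × (Fin 2 → ℂ) => (z.1.2, z.1.1)) := by fun_prop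
  have h1' := continuous_g1.comp hs
  have h2' := continuous_g2.comp hs
  have h1 := (continuous_apply k).comp h1'
  have h2 := (continuous_apply k).comp h2'
  have h3 : Continuous (fun z : (Pt × Par) × (Fin 2 → ℂ) => z.2 0) :=
    (continuous_apply 0).comp continuous_snd
  have h4 : Continuous (fun z : (Pt × Par) × (Fin 2 → ℂ) => z.2 1) :=
    (continuous_apply 1).comp continuous_snd
  exact (h3.mul (Complex.continuous_conj.comp h1)).add (h4.mul (Complex.continuous_conj.comp h2))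

theorem continuous_tr3P :
    Continuous (fun x : (Pt × Par × Pt × Par) × (Fin 2 → ℂ) => tr3P x.1 x.2) := by
  have h1 : Continuous (fun x : (Pt × Par × Pt × Par) × (Fin 2 → ℂ) => x.1.2.2.1) := by fun_prop
  have h2 : Continuous (fun x : (Pt × Par × Pt × Par) × (Fin 2 → ℂ) => ((x.1.1, x.1.2.1), x.2)) := by
    fun_prop
  have h3 : Continuous (fun x : (Pt × Par × Pt × Par) × (Fin 2 → ℂ) => tr3N x.1.1 x.1.2.1 x.2) :=
    continuous_tr3N.comp h2
  show Continuous (fun x : (Pt × Par × Pt × Par) × (Fin 2 → ℂ) => x.1.2.2.1 + tr3N x.1.1 x.1.2.1 x.2)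
  exact h1.add h3

theorem continuous_tr3Psi :
    Continuous (fun x : (Pt × Par × Pt × Par) × (Fin 2 → ℂ) => tr3Psi x.1 x.2) := by
  have h00 : Continuous (fun x : (Pt × Par × Pt × Par) × (Fin 2 → ℂ) => x.1.2.2.2) := by fun_prop
  have h0 : Continuous (fun x : (Pt × Par × Pt × Par) × (Fin 2 → ℂ) => (x.1.2.2.2, tr3P x.1 x.2)) :=
    h00.prodMk continuous_tr3P
  have h1 := continuous_f1.comp h0
  have h2 := continuous_f2.comp h0
  refine continuous_pi fun k => ?_
  fin_cases k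
  · exact h1
  · exact h2

/-- the linear displacement -/
noncomputable def tr3Nl (e : Pt) (s : Par) : (Fin 2 → ℂ) →L[ℝ] Pt :=
  LinearMap.toContinuousLinearMap
    { toFun := tr3N e s
      map_add' := by
        intro x y
        funext k
        simp only [tr3N, Pi.add_apply]
        ring
      map_smul' := by
        intro c x
        funext k
        simp only [tr3N, Pi.smul_apply, Complex.real_smul, RingHom.id_apply]
        ring }

theorem tr3Nl_apply (e : Pt) (s : Par) (μ : Fin 2 → ℂ) : tr3Nl e s μ = tr3N e s μ := rfl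

/-- the differentials of the two equations -/
noncomputable def tr3d1 (s : Par) (e : Pt) : Pt →L[ℝ] ℂ :=
  LinearMap.toContinuousLinearMap
    { toFun := fun v => ∑ k, g1 s e k * v k
      map_add' := by
        intro x y
        rw [← Finset.sum_add_distrib]
        refine Finset.sum_congr rfl fun k _ => ?_
        rw [Pi.add_apply]
        ring
      map_smul' := by
        intro c x
        rw [Finset.smul_sum]
        refine Finset.sum_congr rfl fun k _ => ?_
        simp only [Pi.smul_apply, Complex.real_smul, RingHom.id_apply]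
        ring }

noncomputable def tr3d2 (s : Par) (e : Pt) : Pt →L[ℝ] ℂ :=
  LinearMap.toContinuousLinearMap
    { toFun := fun v => ∑ k, g2 s e k * v k
      map_add' := by
        intro x y
        rw [← Finset.sum_add_distrib]
        refine Finset.sum_congr rfl fun k _ => ?_
        rw [Pi.add_apply]
        ring
      map_smul' := by
        intro c x
        rw [Finset.smul_sum]
        refine Finset.sum_congr rfl fun k _ => ?_
        simp only [Pi.smul_apply, Complex.real_smul, RingHom.id_apply]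
        ring }

theorem hasFDerivAt_f1 (s : Par) (e : Pt) : HasFDerivAt (f1 s) (tr3d1 s e) e := by
  have h : ∀ k, HasFDerivAt (fun e : Pt => e k) (ContinuousLinearMap.proj (R := ℝ) k : Pt →L[ℝ] ℂ) e :=
    fun k => (ContinuousLinearMap.proj (R := ℝ) k : Pt →L[ℝ] ℂ).hasFDerivAt
  have h1 := (((h 1).pow 2).sub ((h 0).mul (h 2))).sub_const (s 6)
  refine (h1.congr_fderiv ?_).congr_of_eventuallyEq (Eventually.of_forall fun x => ?_)
  · ext v
    simp [tr3d1, g1, Fin.sum_univ_three]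
    ring
  · simp [f1]

theorem hasFDerivAt_f2 (s : Par) (e : Pt) : HasFDerivAt (f2 s) (tr3d2 s e) e := by
  have h : ∀ k, HasFDerivAt (fun e : Pt => e k) (ContinuousLinearMap.proj (R := ℝ) k : Pt →L[ℝ] ℂ) e :=
    fun k => (ContinuousLinearMap.proj (R := ℝ) k : Pt →L[ℝ] ℂ).hasFDerivAt
  have h1 := ((((((((h 2).pow 2).sub ((h 0).pow 3)).sub (((h 0).mul (h 2)).const_mul (s 0))).sub
    (((h 0).mul (h 1)).const_mul (s 1))).sub (((h 0).pow 2).const_mul (s 2))).sub
    ((h 2).const_mul (s 3))).sub ((h 1).const_mul (s 4))).sub ((h 0).const_mul (s 5))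
  replace h1 := h1.sub_const (s 7)
  refine (h1.congr_fderiv ?_).congr_of_eventuallyEq (Eventually.of_forall fun x => ?_)
  · ext v
    simp [tr3d2, g2, Fin.sum_univ_three]
    ring
  · simp [f2]

/-- the derivative -/
noncomputable def tr3D (z : Pt × Par × Pt × Par) (μ : Fin 2 → ℂ) : (Fin 2 → ℂ) →L[ℝ] (Fin 2 → ℂ) :=
  ContinuousLinearMap.pi
    ![(tr3d1 z.2.2.2 (tr3P z μ)).comp (tr3Nl z.1 z.2.1), (tr3d2 z.2.2.2 (tr3P z μ)).comp (tr3Nl z.1 z.2.1)]

theorem hasFDerivAt_tr3Psi (z : Pt × Par × Pt × Par) (μ : Fin 2 → ℂ) :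
    HasFDerivAt (tr3Psi z) (tr3D z μ) μ := by
  have hP : HasFDerivAt (tr3P z) (tr3Nl z.1 z.2.1) μ := by
    unfold tr3P
    exact (tr3Nl z.1 z.2.1).hasFDerivAt.const_add z.2.2.1
  unfold tr3D
  rw [show tr3Psi z = fun μ i => (![fun μ => f1 z.2.2.2 (tr3P z μ), fun μ => f2 z.2.2.2 (tr3P z μ)] :
    Fin 2 → (Fin 2 → ℂ) → ℂ) i μ from ?_]
  · rw [hasFDerivAt_pi]
    intro i
    fin_cases i
    · exact (hasFDerivAt_f1 z.2.2.2 (tr3P z μ)).comp μ hP
    · exact (hasFDerivAt_f2 z.2.2.2 (tr3P z μ)).comp μ hP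
  · funext μ i
    fin_cases i <;> rfl

theorem continuous_tr3D :
    Continuous (fun x : (Pt × Par × Pt × Par) × (Fin 2 → ℂ) => tr3D x.1 x.2) := by
  rw [continuous_clm_apply]
  intro ν
  have hN : ∀ k, Continuous (fun x : (Pt × Par × Pt × Par) × (Fin 2 → ℂ) =>
      tr3N x.1.1 x.1.2.1 ν k) := by
    intro k
    have h2 : Continuous (fun x : (Pt × Par × Pt × Par) × (Fin 2 → ℂ) => ((x.1.1, x.1.2.1), ν)) := by
      fun_prop
    exact (continuous_apply k).comp (continuous_tr3N.comp h2)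
  have h00 : Continuous (fun x : (Pt × Par × Pt × Par) × (Fin 2 → ℂ) => x.1.2.2.2) := by fun_prop
  have h0 : Continuous (fun x : (Pt × Par × Pt × Par) × (Fin 2 → ℂ) => (x.1.2.2.2, tr3P x.1 x.2)) :=
    h00.prodMk continuous_tr3P
  refine continuous_pi fun i => ?_
  fin_cases i
  · show Continuous (fun x : (Pt × Par × Pt × Par) × (Fin 2 → ℂ) =>
      ∑ k, g1 x.1.2.2.2 (tr3P x.1 x.2) k * tr3N x.1.1 x.1.2.1 ν k)
    refine continuous_finsetSum _ fun k _ => ?_
    exact ((continuous_apply k).comp (continuous_g1.comp h0)).mul (hN k)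
  · show Continuous (fun x : (Pt × Par × Pt × Par) × (Fin 2 → ℂ) =>
      ∑ k, g2 x.1.2.2.2 (tr3P x.1 x.2) k * tr3N x.1.1 x.1.2.1 ν k)
    refine continuous_finsetSum _ fun k _ => ?_
    exact ((continuous_apply k).comp (continuous_g2.comp h0)).mul (hN k)

/-- injectivity of the Gram map -/
theorem gram_inj (s : Par) (e : Pt) (ht : tau s e ≠ 0) (ν : Fin 2 → ℂ)
    (h1 : ∑ k, g1 s e k * tr3N e s ν k = 0) (h2 : ∑ k, g2 s e k * tr3N e s ν k = 0) : ν = 0 := by
  have hN : ∀ k, tr3N e s ν k = 0 := by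
    have h3 : ∑ k, (starRingEnd ℂ) (tr3N e s ν k) * tr3N e s ν k = 0 := by
      have h4 : ∑ k, (starRingEnd ℂ) (tr3N e s ν k) * tr3N e s ν k =
          (starRingEnd ℂ) (ν 0) * ∑ k, g1 s e k * tr3N e s ν k +
          (starRingEnd ℂ) (ν 1) * ∑ k, g2 s e k * tr3N e s ν k := by
        rw [Finset.mul_sum, Finset.mul_sum, ← Finset.sum_add_distrib]
        refine Finset.sum_congr rfl fun k _ => ?_
        have h5 : (starRingEnd ℂ) (tr3N e s ν k) =
            (starRingEnd ℂ) (ν 0) * g1 s e k + (starRingEnd ℂ) (ν 1) * g2 s e k := by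
          simp only [tr3N, map_add, map_mul, Complex.conj_conj]
        rw [h5]
        ring
      rw [h4, h1, h2]
      ring
    have h6 : ∑ k, Complex.normSq (tr3N e s ν k) = 0 := by
      have h7 : ((∑ k, Complex.normSq (tr3N e s ν k) : ℝ) : ℂ) = 0 := by
        rw [← h3]
        push_cast
        refine Finset.sum_congr rfl fun k _ => ?_
        rw [Complex.normSq_eq_conj_mul_self]
      exact_mod_cast h7
    intro k
    have h8 := (Finset.sum_eq_zero_iff_of_nonneg (fun k _ => Complex.normSq_nonneg _)).1 h6 k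
      (Finset.mem_univ k)
    exact Complex.normSq_eq_zero.1 h8
  by_contra hν
  apply ht
  have hc : ∀ k, (starRingEnd ℂ) (ν 0) * g1 s e k + (starRingEnd ℂ) (ν 1) * g2 s e k = 0 := by
    intro k
    have h5 := congrArg (starRingEnd ℂ) (hN k)
    simpa only [tr3N, map_add, map_mul, Complex.conj_conj, map_zero] using h5
  set a := (starRingEnd ℂ) (ν 0) with ha
  set b := (starRingEnd ℂ) (ν 1) with hb
  have hab : a ≠ 0 ∨ b ≠ 0 := by
    by_contra hcon
    push Not at hcon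
    apply hν
    funext i
    fin_cases i
    · simpa [ha] using hcon.1
    · simpa [hb] using hcon.2
  have hm : ∀ i j, g1 s e i * g2 s e j - g1 s e j * g2 s e i = 0 := by
    intro i j
    rcases hab with h | h
    · refine (mul_eq_zero.1 (?_ : a * (g1 s e i * g2 s e j - g1 s e j * g2 s e i) = 0)).resolve_left h
      linear_combination (g2 s e j) * hc i - (g2 s e i) * hc j
    · refine (mul_eq_zero.1 (?_ : b * (g1 s e i * g2 s e j - g1 s e j * g2 s e i) = 0)).resolve_left h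
      linear_combination (g1 s e i) * hc j - (g1 s e j) * hc i
  funext k
  fin_cases k
  · exact hm 1 2
  · exact hm 2 0
  · exact hm 0 1

theorem newton (K : Set (Pt × Par)) (hK : IsCompact K) (hC : ∀ z ∈ K, z.1 ∈ Curve z.2)
    (ht : ∀ z ∈ K, tau z.2 z.1 ≠ 0) (η : ℝ) (hη : 0 < η) :
    ∃ r : ℝ, 0 < r ∧ ∃ C : ℝ, 0 < C ∧ ∃ P : Pt × Par × Pt × Par → Pt,
      ContinuousOn P {z | (z.1, z.2.1) ∈ K ∧ dist z.2.2.1 z.1 ≤ r ∧ dist z.2.2.2 z.2.1 ≤ r} ∧
      ∀ e s e' s', (e, s) ∈ K → dist e' e ≤ r → dist s' s ≤ r →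
        P (e, s, e', s') ∈ Curve s' ∧ dist (P (e, s, e', s')) e' ≤ η ∧
        dist (P (e, s, e', s')) e' ≤ C * (‖f1 s' e'‖ + ‖f2 s' e'‖) ∧
        ∃ μ : Fin 2 → ℂ, ∀ k, P (e, s, e', s') k =
          e' k + μ 0 * (starRingEnd ℂ) (g1 s e k) + μ 1 * (starRingEnd ℂ) (g2 s e k) := by
  classical
  have hcs : Continuous (fun z : Pt × Par => (z.2, z.1)) := continuous_snd.prodMk continuous_fst
  set K' : Set (Pt × Par × Pt × Par) := (fun z : Pt × Par => (z.1, z.2, z.1, z.2)) '' K with hK'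
  have hK'c : IsCompact K' := hK.image (by fun_prop)
  obtain ⟨r₁, hr₁, ρ, hρ, C', hC', μ, hμc, hμ⟩ := unif_ift tr3Psi tr3D continuous_tr3Psi
    continuous_tr3D hasFDerivAt_tr3Psi K' hK'c
    (by
      rintro z ⟨⟨e, s⟩, hz, rfl⟩
      have h1 : tr3P (e, s, e, s) 0 = e := by
        funext k
        simp [tr3P, tr3N]
      obtain ⟨h2, h3⟩ := hC (e, s) hz
      funext i
      fin_cases i
      · show f1 s (tr3P (e, s, e, s) 0) = 0
        rw [h1]
        exact h2
      · show f2 s (tr3P (e, s, e, s) 0) = 0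
        rw [h1]
        exact h3)
    (by
      rintro z ⟨⟨e, s⟩, hz, rfl⟩ ν hν
      have h1 : tr3P (e, s, e, s) 0 = e := by
        funext k
        simp [tr3P, tr3N]
      refine gram_inj s e (ht (e, s) hz) ν ?_ ?_
      · have h2 : ∑ k, g1 s (tr3P (e, s, e, s) 0) k * tr3N e s ν k = 0 := congrFun hν 0
        rwa [h1] at h2
      · have h2 : ∑ k, g2 s (tr3P (e, s, e, s) 0) k * tr3N e s ν k = 0 := congrFun hν 1
        rwa [h1] at h2)
  -- bound for the gradients
  obtain ⟨B, hB⟩ := hK.exists_bound_of_continuousOn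
    (f := fun z : Pt × Par => ‖g1 z.2 z.1‖ + ‖g2 z.2 z.1‖)
    ((continuous_g1.comp hcs).norm.add (continuous_g2.comp hcs).norm).continuousOn
  have hB' : ∀ z ∈ K, ∀ ν : Fin 2 → ℂ, ‖tr3N z.1 z.2 ν‖ ≤ |B| * ‖ν‖ := by
    intro z hz ν
    rw [pi_norm_le_iff_of_nonneg (by positivity)]
    intro k
    have h1 : ‖tr3N z.1 z.2 ν k‖ ≤ ‖ν 0‖ * ‖g1 z.2 z.1 k‖ + ‖ν 1‖ * ‖g2 z.2 z.1 k‖ := by
      unfold tr3N
      refine (norm_add_le _ _).trans ?_
      rw [norm_mul, norm_mul, RCLike.norm_conj, RCLike.norm_conj]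
    have h2 := norm_le_pi_norm ν 0
    have h3 := norm_le_pi_norm ν 1
    have h4 := norm_le_pi_norm (g1 z.2 z.1) k
    have h5 := norm_le_pi_norm (g2 z.2 z.1) k
    have h6 := hB z hz
    rw [Real.norm_of_nonneg (by positivity)] at h6
    have h7 := h6.trans (le_abs_self B)
    have h8 : ‖ν 0‖ * ‖g1 z.2 z.1 k‖ ≤ ‖ν‖ * ‖g1 z.2 z.1‖ := by gcongr
    have h9 : ‖ν 1‖ * ‖g2 z.2 z.1 k‖ ≤ ‖ν‖ * ‖g2 z.2 z.1‖ := by gcongr
    have h10 : ‖ν‖ * (‖g1 z.2 z.1‖ + ‖g2 z.2 z.1‖) ≤ ‖ν‖ * |B| := by gcongr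
    nlinarith [norm_nonneg ν]
  set C := (|B| + 1) * C' with hCdef
  have hCpos : 0 < C := by positivity
  -- the equations are small near `K`
  have hsm : Continuous (fun z : Pt × Par => ‖f1 z.2 z.1‖ + ‖f2 z.2 z.1‖) :=
    (continuous_f1.comp hcs).norm.add (continuous_f2.comp hcs).norm
  have hu := hK.uniformContinuousAt_of_continuousAt (fun z : Pt × Par => ‖f1 z.2 z.1‖ + ‖f2 z.2 z.1‖)
    (fun a _ => hsm.continuousAt) (Metric.dist_mem_uniformity (div_pos hη hCpos))
  rw [Metric.mem_uniformity_dist] at hu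
  obtain ⟨δ, hδ, hδu⟩ := hu
  have hδK : ∀ z₀ ∈ K, ∀ z : Pt × Par, dist z₀ z < δ →
      dist (‖f1 z₀.2 z₀.1‖ + ‖f2 z₀.2 z₀.1‖) (‖f1 z.2 z.1‖ + ‖f2 z.2 z.1‖) < η / C :=
    fun z₀ hz₀ z hz => hδu hz hz₀
  have hmem : ∀ z : Pt × Par × Pt × Par, (z.1, z.2.1) ∈ K → dist z.2.2.1 z.1 ≤ min r₁ (δ / 2) →
      dist z.2.2.2 z.2.1 ≤ min r₁ (δ / 2) → ∃ z₀ ∈ K', dist z z₀ ≤ r₁ := by
    rintro ⟨e, s, e', s'⟩ h1 h2 h3
    refine ⟨(e, s, e, s), ⟨(e, s), h1, rfl⟩, ?_⟩
    simp only [Prod.dist_eq, dist_self]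
    have h4 : dist e' e ≤ r₁ := h2.trans (min_le_left _ _)
    have h5 : dist s' s ≤ r₁ := h3.trans (min_le_left _ _)
    simp [h4, h5]
  refine ⟨min r₁ (δ / 2), by positivity, C, hCpos, fun z => tr3P z (μ z), ?_, ?_⟩
  · have h1 : ContinuousOn μ {z : Pt × Par × Pt × Par | (z.1, z.2.1) ∈ K ∧
        dist z.2.2.1 z.1 ≤ min r₁ (δ / 2) ∧ dist z.2.2.2 z.2.1 ≤ min r₁ (δ / 2)} :=
      hμc.mono fun z hz => hmem z hz.1 hz.2.1 hz.2.2
    exact continuous_tr3P.comp_continuousOn (continuousOn_id.prodMk h1)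
  · intro e s e' s' hes he' hs'
    obtain ⟨h1, h2, h3, -⟩ := hμ (e, s, e', s') (hmem _ hes he' hs')
    set m := μ (e, s, e', s') with hm
    have hf1 : f1 s' (tr3P (e, s, e', s') m) = 0 := congrFun h1 0
    have hf2 : f2 s' (tr3P (e, s, e', s') m) = 0 := congrFun h1 1
    have h0 : tr3P (e, s, e', s') 0 = e' := by
      funext k
      simp [tr3P, tr3N]
    have h4 : ‖tr3Psi (e, s, e', s') 0‖ ≤ ‖f1 s' e'‖ + ‖f2 s' e'‖ := by
      rw [pi_norm_le_iff_of_nonneg (by positivity)]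
      intro i
      fin_cases i
      · show ‖f1 s' (tr3P (e, s, e', s') 0)‖ ≤ _
        rw [h0]
        have := norm_nonneg (f2 s' e')
        linarith
      · show ‖f2 s' (tr3P (e, s, e', s') 0)‖ ≤ _
        rw [h0]
        have := norm_nonneg (f1 s' e')
        linarith
    have h5 : dist (tr3P (e, s, e', s') m) e' ≤ C * (‖f1 s' e'‖ + ‖f2 s' e'‖) := by
      have h6 : dist (tr3P (e, s, e', s') m) e' = ‖tr3N e s m‖ := by
        rw [dist_eq_norm]
        congr 1
        simp [tr3P]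
      rw [h6]
      have h7 := hB' (e, s) hes m
      have h8 : ‖m‖ ≤ C' * (‖f1 s' e'‖ + ‖f2 s' e'‖) :=
        h2.trans (mul_le_mul_of_nonneg_left h4 hC'.le)
      calc ‖tr3N e s m‖ ≤ |B| * ‖m‖ := h7
        _ ≤ (|B| + 1) * (C' * (‖f1 s' e'‖ + ‖f2 s' e'‖)) := by
          have h9 : 0 ≤ C' * (‖f1 s' e'‖ + ‖f2 s' e'‖) := by positivity
          have h10 : |B| * ‖m‖ ≤ |B| * (C' * (‖f1 s' e'‖ + ‖f2 s' e'‖)) :=
            mul_le_mul_of_nonneg_left h8 (abs_nonneg B)
          nlinarith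
        _ = C * (‖f1 s' e'‖ + ‖f2 s' e'‖) := by rw [hCdef]; ring
    refine ⟨⟨hf1, hf2⟩, h5.trans ?_, h5, m, ?_⟩
    · have h6 : dist ((e, s) : Pt × Par) (e', s') < δ := by
        rw [Prod.dist_eq]
        have h7 : dist e' e ≤ δ / 2 := he'.trans (min_le_right _ _)
        have h8 : dist s' s ≤ δ / 2 := hs'.trans (min_le_right _ _)
        rw [dist_comm] at h7 h8
        exact max_lt (by simp only; linarith) (by simp only; linarith)
      have h7 : dist (‖f1 s e‖ + ‖f2 s e‖) (‖f1 s' e'‖ + ‖f2 s' e'‖) < η / C :=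
        hδK (e, s) hes (e', s') h6
      obtain ⟨h8, h9⟩ := hC (e, s) hes
      have h8' : f1 s e = 0 := h8
      have h9' : f2 s e = 0 := h9
      rw [h8', h9', norm_zero, add_zero, dist_comm, Real.dist_eq, sub_zero,
        abs_of_nonneg (by positivity), lt_div_iff₀ hCpos] at h7
      linarith
    · intro k
      simp only [tr3P, tr3N, Pi.add_apply]
      ring

end KZP
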