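import Pool.Agent.KZP.Defs
import Pool.Agent.KZP.TR3

/-!
# KZP-L1: local behaviour near the marked points

Let `Bs ⊆ XS` be compact.

(1) `Curve` near `ρ = b.2 i`, `b = (s, ρ.)`: let `d = c - ρ`, `c ∈ Curve s`.  As `f1 s, f2 s` are
polynomials vanishing at `ρ` and `c`: `‖g1 s ρ · d‖ ≤ M ‖d‖²`, `‖g2 s ρ · d‖ ≤ M ‖d‖²` for `‖d‖ ≤ 1`
(`M` uniform on the compact set; `f1` is quadratic: `f1 (ρ+d) = f1 ρ + g1·d + (d₁² - d₀ d₂)`;
`f2 (ρ+d) = f2 ρ + g2·d + quadratic and cubic terms in d` with coefficients bounded on compact sets).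
With `τ = tau s ρ = g1 × g2 ≠ 0` decompose `d = t τ + N`, `t = kap b i c / |τ|²` (`|τ|² = ∑ |τ_k|²`,
`kap = ⟨τ, d⟩`), `N ⟂ τ` (`∑ conj τ_k N_k = 0`).  The linear map
`v ↦ (g1·v, g2·v, ∑ conj τ_k v_k)` is injective on `ℂ³` (if `g1·v = g2·v = 0` then `v` is a multiple
of `g1 × g2 = τ`, and `⟨τ, τ⟩ ≠ 0`), so by compactness `‖v‖ ≤ C (‖g1·v‖ + ‖g2·v‖ + ‖⟨τ,v⟩‖)`, and for
`v = N`: `g1·N = g1·d` (`g1·τ = 0`), hence `‖N‖ ≤ 2 C M ‖d‖²`.
(2) `kap ≠ 0`: if `kap b i c = 0` then `d = N`, `‖d‖ ≤ 2CM‖d‖²`, so `d = 0` or `‖d‖ ≥ 1/(2CM)`.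
(3) Let moreover `nu b = b`.  Then `s 1 = 0`, `s 4 = 0`, `ρ 1 = 0`, and `c 1 = d 1 = t τ_1 + N_1` with
`τ_1 = Gf b i ≠ 0` (hypothesis `hG`; the set of fixed `b ∈ Bs` is compact, so `‖Gf b i‖ ≥ c₀ > 0`
there).  So `c 1 * conj (kap * G) = t |τ|²̄ …`: `kap = t |τ|²`, `c 1 = t G + N_1`, hence
`c 1 * conj (kap * G) = |τ|² |t|² |G|² + N_1 conj(t) |τ|² conj(G)`, whose real part is
`≥ |τ|² |t| |G| (|t| |G| - ‖N‖) > 0` if `‖N‖ < |t| |G|`; since `‖d‖ ≤ |t| ‖τ‖ + ‖N‖` and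
`‖N‖ ≤ 2CM‖d‖²` this holds for `0 < ‖d‖ < δ`.
-/

namespace KZP

open Metric Set Filter Topology

theorem continuous_tau : Continuous (fun z : Par × Pt => tau z.1 z.2) := by
  have h1 : ∀ k, Continuous (fun z : Par × Pt => g1 z.1 z.2 k) :=
    fun k => (continuous_apply k).comp continuous_g1
  have h2 : ∀ k, Continuous (fun z : Par × Pt => g2 z.1 z.2 k) :=
    fun k => (continuous_apply k).comp continuous_g2
  have e0 := ((h1 1).mul (h2 2)).sub ((h1 2).mul (h2 1))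
  have e1 := ((h1 2).mul (h2 0)).sub ((h1 0).mul (h2 2))
  have e2 := ((h1 0).mul (h2 1)).sub ((h1 1).mul (h2 0))
  refine continuous_pi fun k => ?_
  fin_cases k
  · exact e0
  · exact e1
  · exact e2

/-- the bilinear product with a fixed vector -/
noncomputable def dotL (a : Pt) : Pt →L[ℝ] ℂ :=
  LinearMap.toContinuousLinearMap
    { toFun := fun v => ∑ k, a k * v k
      map_add' := by
        intro x y
        rw [← Finset.sum_add_distrib]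
        refine Finset.sum_congr rfl fun k _ => ?_
        rw [Pi.add_apply]
        ring
      map_smul' := by
        intro c x
        rw [Finset.smul_sum]
        refine Finset.sum_congr rfl fun k _ => ?_
        simp only [Pi.smul_apply, Complex.real_smul, RingHom.id_apply]
        ring }

theorem dotL_apply (a v : Pt) : dotL a v = ∑ k, a k * v k := rfl

/-- the conjugate vector -/
noncomputable def cjV (a : Pt) : Pt := fun k => (starRingEnd ℂ) (a k)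

noncomputable def frameL (z : Par × Pt) : Pt →L[ℝ] Pt :=
  ContinuousLinearMap.pi ![dotL (g1 z.1 z.2), dotL (g2 z.1 z.2), dotL (cjV (tau z.1 z.2))]

theorem frameL_0 (z : Par × Pt) (v : Pt) : frameL z v 0 = ∑ k, g1 z.1 z.2 k * v k := rfl
theorem frameL_1 (z : Par × Pt) (v : Pt) : frameL z v 1 = ∑ k, g2 z.1 z.2 k * v k := rfl
theorem frameL_2 (z : Par × Pt) (v : Pt) :
    frameL z v 2 = ∑ k, (starRingEnd ℂ) (tau z.1 z.2 k) * v k := rfl

theorem continuous_frameL : Continuous frameL := by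
  rw [continuous_clm_apply]
  intro v
  refine continuous_pi fun i => ?_
  have h1 : Continuous (fun z : Par × Pt => ∑ k, g1 z.1 z.2 k * v k) :=
    continuous_finsetSum _ fun k _ => ((continuous_apply k).comp continuous_g1).mul continuous_const
  have h2 : Continuous (fun z : Par × Pt => ∑ k, g2 z.1 z.2 k * v k) :=
    continuous_finsetSum _ fun k _ => ((continuous_apply k).comp continuous_g2).mul continuous_const
  have h3 : Continuous (fun z : Par × Pt => ∑ k, (starRingEnd ℂ) (tau z.1 z.2 k) * v k) :=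
    continuous_finsetSum _ fun k _ =>
      (Complex.continuous_conj.comp ((continuous_apply k).comp continuous_tau)).mul continuous_const
  fin_cases i
  · exact h1
  · exact h2
  · exact h3

theorem frameL_inj (z : Par × Pt) (ht : tau z.1 z.2 ≠ 0) (v : Pt) (hv : frameL z v = 0) : v = 0 := by
  have h0 : ∑ k, g1 z.1 z.2 k * v k = 0 := congrFun hv 0
  have h1 : ∑ k, g2 z.1 z.2 k * v k = 0 := congrFun hv 1
  have h2 : ∑ k, (starRingEnd ℂ) (tau z.1 z.2 k) * v k = 0 := congrFun hv 2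
  rw [Fin.sum_univ_three] at h0 h1 h2
  obtain ⟨s, e⟩ := z
  simp only at h0 h1 h2 ht
  set a0 := g1 s e 0
  set a1 := g1 s e 1
  set a2 := g1 s e 2
  set b0 := g2 s e 0
  set b1 := g2 s e 1
  set b2 := g2 s e 2
  have t0 : tau s e 0 = a1 * b2 - a2 * b1 := rfl
  have t1 : tau s e 1 = a2 * b0 - a0 * b2 := rfl
  have t2 : tau s e 2 = a0 * b1 - a1 * b0 := rfl
  -- `v` is proportional to `tau`
  have c01 : v 0 * tau s e 1 = v 1 * tau s e 0 := by
    rw [t0, t1]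
    linear_combination a2 * h1 - b2 * h0
  have c12 : v 1 * tau s e 2 = v 2 * tau s e 1 := by
    rw [t1, t2]
    linear_combination a0 * h1 - b0 * h0
  have c20 : v 2 * tau s e 0 = v 0 * tau s e 2 := by
    rw [t0, t2]
    linear_combination a1 * h1 - b1 * h0
  set x0 := tau s e 0
  set x1 := tau s e 1
  set x2 := tau s e 2
  have hT : (starRingEnd ℂ) x0 * x0 + (starRingEnd ℂ) x1 * x1 + (starRingEnd ℂ) x2 * x2 ≠ 0 := by
    intro h
    apply ht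
    rw [← Complex.normSq_eq_conj_mul_self, ← Complex.normSq_eq_conj_mul_self,
      ← Complex.normSq_eq_conj_mul_self] at h
    have h' : Complex.normSq x0 + Complex.normSq x1 + Complex.normSq x2 = 0 := by exact_mod_cast h
    have n0 := Complex.normSq_nonneg x0
    have n1 := Complex.normSq_nonneg x1
    have n2 := Complex.normSq_nonneg x2
    have z0 : x0 = 0 := Complex.normSq_eq_zero.1 (by linarith)
    have z1 : x1 = 0 := Complex.normSq_eq_zero.1 (by linarith)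
    have z2 : x2 = 0 := Complex.normSq_eq_zero.1 (by linarith)
    funext k
    fin_cases k
    · exact z0
    · exact z1
    · exact z2
  have r0 : v 0 * ((starRingEnd ℂ) x0 * x0 + (starRingEnd ℂ) x1 * x1 + (starRingEnd ℂ) x2 * x2) = 0 := by
    linear_combination x0 * h2 + (starRingEnd ℂ) x1 * c01 - (starRingEnd ℂ) x2 * c20
  have r1 : v 1 * ((starRingEnd ℂ) x0 * x0 + (starRingEnd ℂ) x1 * x1 + (starRingEnd ℂ) x2 * x2) = 0 := by
    linear_combination x1 * h2 - (starRingEnd ℂ) x0 * c01 + (starRingEnd ℂ) x2 * c12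
  have r2 : v 2 * ((starRingEnd ℂ) x0 * x0 + (starRingEnd ℂ) x1 * x1 + (starRingEnd ℂ) x2 * x2) = 0 := by
    linear_combination x2 * h2 + (starRingEnd ℂ) x0 * c20 - (starRingEnd ℂ) x1 * c12
  funext k
  fin_cases k
  · exact (mul_eq_zero.1 r0).resolve_right hT
  · exact (mul_eq_zero.1 r1).resolve_right hT
  · exact (mul_eq_zero.1 r2).resolve_right hT

/-- Taylor estimate for the two equations -/
theorem taylor_g (K : Set (Par × Pt)) (hK : IsCompact K) (hC : ∀ z ∈ K, z.2 ∈ Curve z.1) :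
    ∃ M : ℝ, 0 < M ∧ ∀ z ∈ K, ∀ c ∈ Curve z.1, ‖c - z.2‖ ≤ 1 →
      ‖∑ k, g1 z.1 z.2 k * (c - z.2) k‖ ≤ M * ‖c - z.2‖ ^ 2 ∧
      ‖∑ k, g2 z.1 z.2 k * (c - z.2) k‖ ≤ M * ‖c - z.2‖ ^ 2 := by
  obtain ⟨B, hB⟩ := hK.exists_bound_of_continuousOn (f := fun z : Par × Pt => z) continuousOn_id
  refine ⟨3 + 6 * |B|, by positivity, ?_⟩
  rintro ⟨s, e⟩ hz c hc hd
  simp only at hc hd ⊢
  have hBz := (hB (s, e) hz).trans (le_abs_self B)
  have hs : ∀ k, ‖s k‖ ≤ |B| := fun k =>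
    (norm_le_pi_norm s k).trans ((norm_fst_le ((s, e) : Par × Pt)).trans hBz)
  have he : ∀ k, ‖e k‖ ≤ |B| := fun k =>
    (norm_le_pi_norm e k).trans ((norm_snd_le ((s, e) : Par × Pt)).trans hBz)
  obtain ⟨he1, he2⟩ := hC (s, e) hz
  obtain ⟨hc1, hc2⟩ := hc
  set d : Pt := c - e with hddef
  have hcd : ∀ k, c k = e k + d k := by
    intro k
    simp [hddef]
  have hdk : ∀ k, ‖d k‖ ≤ ‖d‖ := fun k => norm_le_pi_norm d k
  have hd0 := norm_nonneg d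
  have hBn := abs_nonneg B
  have key1 : ∑ k, g1 s e k * d k = d 0 * d 2 - d 1 * d 1 := by
    have h1 : f1 s e = 0 := he1
    have h2 : f1 s c = 0 := hc1
    simp only [f1, hcd] at h1 h2
    rw [Fin.sum_univ_three]
    show (- e 2) * d 0 + (2 * e 1) * d 1 + (- e 0) * d 2 = _
    linear_combination h2 - h1
  have key2 : ∑ k, g2 s e k * d k =
      - (d 2 * d 2) + 3 * e 0 * (d 0 * d 0) + d 0 * (d 0 * d 0) + s 0 * (d 0 * d 2) + s 1 * (d 0 * d 1)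
        + s 2 * (d 0 * d 0) := by
    have h1 : f2 s e = 0 := he2
    have h2 : f2 s c = 0 := hc2
    simp only [f2, hcd] at h1 h2
    rw [Fin.sum_univ_three]
    show (- (3 * e 0 ^ 2) - s 0 * e 2 - s 1 * e 1 - 2 * s 2 * e 0 - s 5) * d 0
      + (- (s 1 * e 0) - s 4) * d 1 + (2 * e 2 - s 0 * e 0 - s 3) * d 2 = _
    linear_combination h2 - h1
  have hp : ∀ i j, ‖d i * d j‖ ≤ ‖d‖ ^ 2 := by
    intro i j
    rw [norm_mul, sq]
    exact mul_le_mul (hdk i) (hdk j) (norm_nonneg _) hd0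
  have hsq : 0 ≤ ‖d‖ ^ 2 := sq_nonneg _
  constructor
  · rw [key1]
    refine (norm_sub_le _ _).trans ?_
    have h1 := hp 0 2
    have h2 := hp 1 1
    nlinarith
  · rw [key2]
    have h1 : ‖- (d 2 * d 2)‖ ≤ ‖d‖ ^ 2 := by
      rw [norm_neg]
      exact hp 2 2
    have h2 : ‖3 * e 0 * (d 0 * d 0)‖ ≤ 3 * |B| * ‖d‖ ^ 2 := by
      rw [norm_mul, norm_mul]
      have h3 : ‖(3 : ℂ)‖ = 3 := by norm_num
      rw [h3]
      have := he 0
      have := hp 0 0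
      gcongr
    have h3 : ‖d 0 * (d 0 * d 0)‖ ≤ ‖d‖ ^ 2 := by
      rw [norm_mul]
      have h4 := hp 0 0
      have h5 : ‖d 0‖ ≤ 1 := (hdk 0).trans hd
      calc ‖d 0‖ * ‖d 0 * d 0‖ ≤ 1 * ‖d‖ ^ 2 := by gcongr
        _ = ‖d‖ ^ 2 := one_mul _
    have h4 : ∀ a i j, ‖s a * (d i * d j)‖ ≤ |B| * ‖d‖ ^ 2 := by
      intro a i j
      rw [norm_mul]
      exact mul_le_mul (hs a) (hp i j) (norm_nonneg _) hBn
    have a1 := h4 0 0 2
    have a2 := h4 1 0 1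
    have a3 := h4 2 0 0
    have t1 := norm_add_le (- (d 2 * d 2) + 3 * e 0 * (d 0 * d 0) + d 0 * (d 0 * d 0)
      + s 0 * (d 0 * d 2) + s 1 * (d 0 * d 1)) (s 2 * (d 0 * d 0))
    have t2 := norm_add_le (- (d 2 * d 2) + 3 * e 0 * (d 0 * d 0) + d 0 * (d 0 * d 0)
      + s 0 * (d 0 * d 2)) (s 1 * (d 0 * d 1))
    have t3 := norm_add_le (- (d 2 * d 2) + 3 * e 0 * (d 0 * d 0) + d 0 * (d 0 * d 0))
      (s 0 * (d 0 * d 2))
    have t4 := norm_add_le (- (d 2 * d 2) + 3 * e 0 * (d 0 * d 0)) (d 0 * (d 0 * d 0))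
    have t5 := norm_add_le (- (d 2 * d 2)) (3 * e 0 * (d 0 * d 0))
    nlinarith

theorem kap_ne_pairs (K : Set (Par × Pt)) (hK : IsCompact K) (hC : ∀ z ∈ K, z.2 ∈ Curve z.1)
    (ht : ∀ z ∈ K, tau z.1 z.2 ≠ 0) :
    ∃ δ : ℝ, 0 < δ ∧ ∀ z ∈ K, ∀ c ∈ Curve z.1, 0 < ‖c - z.2‖ → ‖c - z.2‖ < δ →
      ∑ k, (starRingEnd ℂ) (tau z.1 z.2 k) * (c - z.2) k ≠ 0 := by
  obtain ⟨M, hM, hMt⟩ := taylor_g K hK hC
  obtain ⟨c₀, hc₀, hlow⟩ := lower_bound frameL continuous_frameL K hK fun z hz v hv =>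
    frameL_inj z (ht z hz) v hv
  refine ⟨min 1 (c₀ / M), by positivity, ?_⟩
  intro z hz c hc hpos hlt h0
  have hd1 : ‖c - z.2‖ < 1 := hlt.trans_le (min_le_left _ _)
  have hd2 : ‖c - z.2‖ < c₀ / M := hlt.trans_le (min_le_right _ _)
  obtain ⟨e1, e2⟩ := hMt z hz c hc hd1.le
  have h1 := hlow z hz (c - z.2)
  have h2 : ‖frameL z (c - z.2)‖ ≤ M * ‖c - z.2‖ ^ 2 := by
    rw [pi_norm_le_iff_of_nonneg (by positivity)]
    intro k
    fin_cases k
    · exact e1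
    · exact e2
    · show ‖∑ k, (starRingEnd ℂ) (tau z.1 z.2 k) * (c - z.2) k‖ ≤ _
      rw [h0, norm_zero]
      positivity
  rw [lt_div_iff₀ hM] at hd2
  have h3 := h1.trans h2
  nlinarith

theorem re_pos_pairs (K : Set (Par × Pt)) (hK : IsCompact K) (hC : ∀ z ∈ K, z.2 ∈ Curve z.1)
    (hY : ∀ z ∈ K, z.2 1 = 0) (hG : ∀ z ∈ K, tau z.1 z.2 1 ≠ 0) :
    ∃ δ : ℝ, 0 < δ ∧ ∀ z ∈ K, ∀ c ∈ Curve z.1, 0 < ‖c - z.2‖ → ‖c - z.2‖ < δ →
      0 < (c 1 * (starRingEnd ℂ) ((∑ k, (starRingEnd ℂ) (tau z.1 z.2 k) * (c - z.2) k) *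
        tau z.1 z.2 1)).re := by
  have ht : ∀ z ∈ K, tau z.1 z.2 ≠ 0 := fun z hz h => hG z hz (by rw [h]; rfl)
  obtain ⟨M, hM, hMt⟩ := taylor_g K hK hC
  obtain ⟨c₀, hc₀, hlow⟩ := lower_bound frameL continuous_frameL K hK fun z hz v hv =>
    frameL_inj z (ht z hz) v hv
  obtain ⟨B, hB⟩ := hK.exists_bound_of_continuousOn continuous_tau.continuousOn
  obtain ⟨γ, hγ, hγG⟩ := hK.exists_forall_le' (f := fun z : Par × Pt => ‖tau z.1 z.2 1‖)
    (((continuous_apply 1).comp continuous_tau).norm.continuousOn) (a := 0)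
    (fun z hz => norm_pos_iff.2 (hG z hz))
  set E := |B| + 1 with hE
  have hEp : 0 < E := by positivity
  -- conditions: ‖d‖ ≤ 1, (M / c₀) ‖d‖ ≤ 1/2, (M / c₀) ‖d‖ < γ / (2 E)
  refine ⟨min 1 (min (c₀ / (2 * M)) (c₀ * γ / (2 * E * M))), by positivity, ?_⟩
  intro z hz c hc hpos hlt
  have hd1 : ‖c - z.2‖ < 1 := hlt.trans_le (min_le_left _ _)
  have hd2 : ‖c - z.2‖ < c₀ / (2 * M) := hlt.trans_le ((min_le_right _ _).trans (min_le_left _ _))
  have hd3 : ‖c - z.2‖ < c₀ * γ / (2 * E * M) :=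
    hlt.trans_le ((min_le_right _ _).trans (min_le_right _ _))
  rw [lt_div_iff₀ (by positivity)] at hd2 hd3
  obtain ⟨e1, e2⟩ := hMt z hz c hc hd1.le
  set d : Pt := c - z.2 with hd
  set τ : Pt := tau z.1 z.2 with hτ
  set T : ℝ := ∑ k, Complex.normSq (τ k) with hT
  have hTpos : 0 < T := by
    refine Finset.sum_pos' (fun k _ => Complex.normSq_nonneg _) ⟨1, Finset.mem_univ _, ?_⟩
    exact Complex.normSq_pos.2 (hG z hz)
  have hTC : (T : ℂ) ≠ 0 := by exact_mod_cast hTpos.ne'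
  set κ : ℂ := ∑ k, (starRingEnd ℂ) (τ k) * d k with hκ
  set t : ℂ := κ / T with ht'
  have hκt : κ = t * T := by
    rw [ht']
    field_simp
  set N : Pt := d - fun k => t * τ k with hN
  have hNk : ∀ k, N k = d k - t * τ k := fun k => rfl
  have hτsum : ∑ k, (starRingEnd ℂ) (τ k) * τ k = (T : ℂ) := by
    rw [hT]
    push_cast
    refine Finset.sum_congr rfl fun k _ => ?_
    rw [Complex.normSq_eq_conj_mul_self]
  have g1τ : ∑ k, g1 z.1 z.2 k * τ k = 0 := by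
    rw [Fin.sum_univ_three]
    show g1 z.1 z.2 0 * (g1 z.1 z.2 1 * g2 z.1 z.2 2 - g1 z.1 z.2 2 * g2 z.1 z.2 1)
      + g1 z.1 z.2 1 * (g1 z.1 z.2 2 * g2 z.1 z.2 0 - g1 z.1 z.2 0 * g2 z.1 z.2 2)
      + g1 z.1 z.2 2 * (g1 z.1 z.2 0 * g2 z.1 z.2 1 - g1 z.1 z.2 1 * g2 z.1 z.2 0) = 0
    ring
  have g2τ : ∑ k, g2 z.1 z.2 k * τ k = 0 := by
    rw [Fin.sum_univ_three]
    show g2 z.1 z.2 0 * (g1 z.1 z.2 1 * g2 z.1 z.2 2 - g1 z.1 z.2 2 * g2 z.1 z.2 1)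
      + g2 z.1 z.2 1 * (g1 z.1 z.2 2 * g2 z.1 z.2 0 - g1 z.1 z.2 0 * g2 z.1 z.2 2)
      + g2 z.1 z.2 2 * (g1 z.1 z.2 0 * g2 z.1 z.2 1 - g1 z.1 z.2 1 * g2 z.1 z.2 0) = 0
    ring
  have hNlow : c₀ * ‖N‖ ≤ M * ‖d‖ ^ 2 := by
    refine (hlow z hz N).trans ?_
    rw [pi_norm_le_iff_of_nonneg (by positivity)]
    have split : ∀ a : Pt, ∑ k, a k * N k = ∑ k, a k * d k - t * ∑ k, a k * τ k := by
      intro a
      rw [Finset.mul_sum, ← Finset.sum_sub_distrib]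
      refine Finset.sum_congr rfl fun k _ => ?_
      rw [hNk]
      ring
    intro k
    fin_cases k
    · show ‖∑ k, g1 z.1 z.2 k * N k‖ ≤ _
      rw [split, g1τ, mul_zero, sub_zero]
      exact e1
    · show ‖∑ k, g2 z.1 z.2 k * N k‖ ≤ _
      rw [split, g2τ, mul_zero, sub_zero]
      exact e2
    · show ‖∑ k, (cjV τ) k * N k‖ ≤ _
      rw [split]
      have h1 : ∑ k, (cjV τ) k * d k = κ := rfl
      have h2 : ∑ k, (cjV τ) k * τ k = (T : ℂ) := hτsum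
      rw [h1, h2, hκt, sub_self, norm_zero]
      positivity
  have hdN : ‖d‖ ≤ ‖t‖ * E + ‖N‖ := by
    rw [pi_norm_le_iff_of_nonneg (by positivity)]
    intro k
    have h1 : d k = t * τ k + N k := by
      rw [hNk]
      ring
    rw [h1]
    refine (norm_add_le _ _).trans ?_
    rw [norm_mul]
    have h2 : ‖τ k‖ ≤ E := by
      have h3 := (norm_le_pi_norm τ k).trans ((hB z hz).trans (le_abs_self B))
      linarith
    have h3 := norm_le_pi_norm N k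
    have h4 : ‖t‖ * ‖τ k‖ ≤ ‖t‖ * E := by gcongr
    linarith
  -- the main inequality
  have hG1 : γ ≤ ‖τ 1‖ := hγG z hz
  have hNt : ‖N‖ < ‖t‖ * ‖τ 1‖ := by
    -- c₀ ‖N‖ ≤ M ‖d‖² and ‖d‖ * (2 M) < c₀, ‖d‖ * (2 E M) < c₀ γ
    have h1 : ‖d‖ / 2 ≤ ‖t‖ * E := by
      have h2 : c₀ * ‖N‖ ≤ c₀ * (‖d‖ / 2) := by nlinarith
      have h3 := le_of_mul_le_mul_left h2 hc₀
      linarith
    have h4 : c₀ * ‖N‖ * (2 * E) < c₀ * γ * ‖d‖ := by
      have h5 : c₀ * ‖N‖ * (2 * E) ≤ M * ‖d‖ ^ 2 * (2 * E) := by gcongr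
      have h6 : M * ‖d‖ ^ 2 * (2 * E) = ‖d‖ * (2 * E * M) * ‖d‖ := by ring
      have h7 : ‖d‖ * (2 * E * M) * ‖d‖ < c₀ * γ * ‖d‖ := by gcongr
      linarith
    have h8 : c₀ * γ * ‖d‖ ≤ c₀ * γ * (2 * (‖t‖ * E)) := by
      have : ‖d‖ ≤ 2 * (‖t‖ * E) := by linarith
      gcongr
    have h9 : c₀ * (2 * E) * ‖N‖ < c₀ * (2 * E) * (‖t‖ * γ) := by
      calc c₀ * (2 * E) * ‖N‖ = c₀ * ‖N‖ * (2 * E) := by ring
        _ < c₀ * γ * ‖d‖ := h4
        _ ≤ c₀ * γ * (2 * (‖t‖ * E)) := h8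
        _ = c₀ * (2 * E) * (‖t‖ * γ) := by ring
    have h10 := lt_of_mul_lt_mul_left h9 (by positivity)
    have h11 : ‖t‖ * γ ≤ ‖t‖ * ‖τ 1‖ := by gcongr
    linarith
  have htG : 0 < ‖t‖ * ‖τ 1‖ := (norm_nonneg N).trans_lt hNt
  have hc1 : c 1 = t * τ 1 + N 1 := by
    rw [hNk]
    have : d 1 = c 1 := by
      rw [hd, Pi.sub_apply, hY z hz, sub_zero]
    rw [this]
    ring
  have hexp : c 1 * (starRingEnd ℂ) (κ * τ 1) =
      (T : ℂ) * (((‖t * τ 1‖ ^ 2 : ℝ) : ℂ) + N 1 * (starRingEnd ℂ) (t * τ 1)) := by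
    have h1 : ((‖t * τ 1‖ ^ 2 : ℝ) : ℂ) = (t * τ 1) * (starRingEnd ℂ) (t * τ 1) := by
      rw [Complex.mul_conj, Complex.normSq_eq_norm_sq]
    rw [h1, hc1, hκt]
    simp only [map_mul, Complex.conj_ofReal]
    ring
  rw [hexp, Complex.re_ofReal_mul, Complex.add_re, Complex.ofReal_re]
  refine mul_pos hTpos ?_
  have h1 : |(N 1 * (starRingEnd ℂ) (t * τ 1)).re| ≤ ‖N‖ * ‖t * τ 1‖ := by
    refine (Complex.abs_re_le_norm _).trans ?_
    rw [norm_mul, RCLike.norm_conj]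
    have := norm_le_pi_norm N 1
    gcongr
  have h2 := neg_le_of_abs_le h1
  have h3 : ‖t * τ 1‖ = ‖t‖ * ‖τ 1‖ := norm_mul _ _
  rw [h3] at h2 ⊢
  nlinarith

/-- pairs (parameter, marked point) -/
def prs (Bs : Set Tot) : Set (Par × Pt) := ⋃ i : Fin 5, (fun b : Tot => (b.1, b.2 i)) '' Bs

theorem isCompact_prs (Bs : Set Tot) (hBs : IsCompact Bs) : IsCompact (prs Bs) := by
  refine isCompact_iUnion fun i => hBs.image ?_
  exact continuous_fst.prodMk ((continuous_apply i).comp continuous_snd)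

theorem kap_ne (Bs : Set Tot) (hBs : IsCompact Bs) (hsub : Bs ⊆ XS) :
    ∃ δ : ℝ, 0 < δ ∧ ∀ b ∈ Bs, ∀ i, ∀ c ∈ Curve b.1, 0 < dist c (b.2 i) → dist c (b.2 i) < δ →
      kap b i c ≠ 0 := by
  obtain ⟨δ, hδ, h⟩ := kap_ne_pairs (prs Bs) (isCompact_prs Bs hBs)
    (by
      rintro z ⟨_, ⟨i, rfl⟩, b, hb, rfl⟩
      exact (hsub hb).2.1 i)
    (by
      rintro z ⟨_, ⟨i, rfl⟩, b, hb, rfl⟩
      exact (hsub hb).1 _ ((hsub hb).2.1 i))
  refine ⟨δ, hδ, fun b hb i c hc h1 h2 => ?_⟩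
  rw [dist_eq_norm] at h1 h2
  exact h (b.1, b.2 i) (Set.mem_iUnion.2 ⟨i, b, hb, rfl⟩) c hc h1 h2

theorem re_pos (Bs : Set Tot) (hBs : IsCompact Bs) (hsub : Bs ⊆ XS)
    (hG : ∀ b ∈ XS, nu b = b → ∀ i, Gf b i ≠ 0) :
    ∃ δ : ℝ, 0 < δ ∧ ∀ b ∈ Bs, nu b = b → ∀ i, ∀ c ∈ Curve b.1,
      0 < dist c (b.2 i) → dist c (b.2 i) < δ →
      0 < (c 1 * (starRingEnd ℂ) (kap b i c * Gf b i)).re := by
  have hnu : Continuous nu := by
    have h0 : ∀ k, Continuous (fun q : Tot => q.1 k) := fun k => (continuous_apply k).comp continuous_fst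
    have h1 : ∀ i k, Continuous (fun q : Tot => q.2 i k) := fun i k =>
      (continuous_apply k).comp ((continuous_apply i).comp continuous_snd)
    refine Continuous.prodMk (continuous_pi fun k => ?_)
      (continuous_pi fun i => continuous_pi fun k => ?_)
    · fin_cases k
      · exact h0 0
      · exact (h0 1).neg
      · exact h0 2
      · exact h0 3
      · exact (h0 4).neg
      · exact h0 5
      · exact h0 6
      · exact h0 7
    · fin_cases k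
      · exact h1 i 0
      · exact (h1 i 1).neg
      · exact h1 i 2
  have hcl : IsClosed {b : Tot | nu b = b} := isClosed_eq hnu continuous_id
  have hBf : IsCompact (Bs ∩ {b | nu b = b}) := hBs.inter_right hcl
  obtain ⟨δ, hδ, h⟩ := re_pos_pairs (prs (Bs ∩ {b | nu b = b})) (isCompact_prs _ hBf)
    (by
      rintro z ⟨_, ⟨i, rfl⟩, b, hb, rfl⟩
      exact (hsub hb.1).2.1 i)
    (by
      rintro z ⟨_, ⟨i, rfl⟩, b, hb, rfl⟩
      have h1 : nu b = b := hb.2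
      have h2 : sw (b.2 i) = b.2 i := congrFun (congrArg Prod.snd h1) i
      have h3 : - (b.2 i 1) = b.2 i 1 := congrFun h2 1
      show b.2 i 1 = 0
      linear_combination (-(1 : ℂ) / 2) * h3)
    (by
      rintro z ⟨_, ⟨i, rfl⟩, b, hb, rfl⟩
      exact hG b (hsub hb.1) hb.2 i)
  refine ⟨δ, hδ, fun b hb hnb i c hc h1 h2 => ?_⟩
  rw [dist_eq_norm] at h1 h2
  exact h (b.1, b.2 i) (Set.mem_iUnion.2 ⟨i, b, ⟨hb, hnb⟩, rfl⟩) c hc h1 h2

end KZP
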