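import Pool.Agent.KZP.Defs

/-!
# KZP-L2: continuous arguments

* `lift_convex`: a continuous nowhere zero function on a compact convex set has a continuous
  argument.  Proof: fix `x0 ∈ DD` (if `DD` is empty nothing to do).  `Circle.exp`/`Complex.exp` is a
  covering map (`Complex.isCoveringMap_exp` or `Circle.isCoveringMap_exp`); lift the homotopy
  `(t, x) ↦ φ (x0 + t (x - x0))`, `t ∈ I`, `x ∈ DD` (subtype), starting with the constant `log (φ x0)`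
  (`IsCoveringMap.liftHomotopy`), take `t = 1` and the imaginary part.  (Extend to `E → ℝ` by `0`
  outside `DD`; `continuousOn_iff_continuous_restrict`.)  No compactness is needed.
* `lift_family`: let `Φ` be continuous and nowhere zero on `Q × [t₀, t₁]`.  Lift the homotopy
  `(t, x) ↦ Φ (x, t₀ + t (t₁ - t₀)) / Φ (x, t₀)`, `x ∈ Q` (subtype), which is `1` at `t = 0`, starting
  with `0`; take the imaginary part at `t = 1`.
-/

open Complex

namespace KZP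

theorem l2_exp (w : ℂ) : cexp w = ‖cexp w‖ * cexp (w.im * I) := by
  rw [Complex.norm_exp, Complex.ofReal_exp, ← Complex.exp_add, Complex.re_add_im]

theorem l2_lift {A : Type*} [TopologicalSpace A] (h : unitInterval × A → ℂ) (hc : Continuous h)
    (hn : ∀ z, h z ≠ 0) (f : A → ℂ) (hf : Continuous f) (h0 : ∀ a, h (0, a) = cexp (f a)) :
    ∃ L : A → ℂ, Continuous L ∧ ∀ a, cexp (L a) = h (1, a) := by
  have cov := Complex.isCoveringMap_exp
  let H : C(unitInterval × A, {z : ℂ // z ≠ 0}) := ⟨fun z => ⟨h z, hn z⟩, hc.subtype_mk hn⟩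
  let F : C(A, ℂ) := ⟨f, hf⟩
  have H0 : ∀ a, H (0, a) = (fun z : ℂ ↦ (⟨_, z.exp_ne_zero⟩ : {z : ℂ // z ≠ 0})) (F a) :=
    fun a => Subtype.ext (h0 a)
  refine ⟨fun a => cov.liftHomotopy H F H0 (1, a), ?_, ?_⟩
  · exact (cov.liftHomotopy H F H0).continuous.comp (Continuous.prodMk_right 1)
  · intro a
    have h1 := congrFun (cov.liftHomotopy_lifts H F H0) (1, a)
    exact congrArg Subtype.val h1

theorem lift_convex {E : Type*} [NormedAddCommGroup E] [NormedSpace ℝ E] (DD : Set E)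
    (hcv : Convex ℝ DD) (φ : E → ℂ) (hφ : ContinuousOn φ DD) (h0 : ∀ x ∈ DD, φ x ≠ 0) :
    ∃ ψ : E → ℝ, ContinuousOn ψ DD ∧ ∀ x ∈ DD, φ x = ‖φ x‖ * cexp (ψ x * I) := by
  rcases DD.eq_empty_or_nonempty with hD | ⟨x0, hx0⟩
  · subst hD
    exact ⟨fun _ => 0, continuousOn_const, fun x hx => absurd hx (Set.notMem_empty x)⟩
  have hmem : ∀ z : unitInterval × DD, x0 + (z.1 : ℝ) • ((z.2 : E) - x0) ∈ DD := fun z =>
    hcv.add_smul_sub_mem hx0 z.2.2 z.1.2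
  have hpc : Continuous (fun z : unitInterval × DD => x0 + (z.1 : ℝ) • ((z.2 : E) - x0)) := by
    fun_prop
  have hc : Continuous (fun z : unitInterval × DD => φ (x0 + (z.1 : ℝ) • ((z.2 : E) - x0))) :=
    hφ.comp_continuous hpc hmem
  obtain ⟨L, hLc, hL⟩ := l2_lift (fun z : unitInterval × DD => φ (x0 + (z.1 : ℝ) • ((z.2 : E) - x0))) hc
    (fun z => h0 _ (hmem z)) (fun _ => Complex.log (φ x0)) continuous_const (by
      intro a
      rw [Complex.exp_log (h0 x0 hx0)]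
      simp)
  classical
  obtain ⟨ψ, hψ⟩ : ∃ ψ : E → ℝ, ∀ x (h : x ∈ DD), ψ x = (L ⟨x, h⟩).im :=
    ⟨fun x => if h : x ∈ DD then (L ⟨x, h⟩).im else 0, fun x h => dif_pos h⟩
  refine ⟨ψ, ?_, ?_⟩
  · rw [continuousOn_iff_continuous_domRestrict]
    have e1 : Set.domRestrict DD ψ = fun x : DD => (L x).im := by
      funext x
      exact hψ x.1 x.2
    rw [e1]
    exact Complex.continuous_im.comp hLc
  · intro x hx
    have h1 := hL ⟨x, hx⟩
    have h2 : φ x = cexp (L ⟨x, hx⟩) := by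
      rw [h1]
      simp
    rw [hψ x hx, h2]
    exact l2_exp _

theorem lift_family {E : Type*} [TopologicalSpace E] (Q : Set E) (t₀ t₁ : ℝ) (ht : t₀ ≤ t₁)
    (Φ : E × ℝ → ℂ) (hΦ : ContinuousOn Φ (Q ×ˢ Set.Icc t₀ t₁))
    (h0 : ∀ x ∈ Q, ∀ t ∈ Set.Icc t₀ t₁, Φ (x, t) ≠ 0) :
    ∃ D : E → ℝ, ContinuousOn D Q ∧
      ∀ x ∈ Q, Φ (x, t₁) * ‖Φ (x, t₀)‖ = Φ (x, t₀) * ‖Φ (x, t₁)‖ * cexp (D x * I) := by
  have hmem : ∀ z : unitInterval × Q, ((z.2 : E), t₀ + (z.1 : ℝ) * (t₁ - t₀)) ∈ Q ×ˢ Set.Icc t₀ t₁ := by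
    intro z
    refine ⟨z.2.2, ?_, ?_⟩
    · show t₀ ≤ t₀ + (z.1 : ℝ) * (t₁ - t₀)
      have := mul_nonneg z.1.2.1 (sub_nonneg.2 ht)
      linarith
    · show t₀ + (z.1 : ℝ) * (t₁ - t₀) ≤ t₁
      have := mul_le_mul_of_nonneg_right z.1.2.2 (sub_nonneg.2 ht)
      linarith
  have hmem0 : ∀ z : unitInterval × Q, ((z.2 : E), t₀) ∈ Q ×ˢ Set.Icc t₀ t₁ := fun z =>
    ⟨z.2.2, le_rfl, ht⟩
  have hc1 : Continuous (fun z : unitInterval × Q => Φ ((z.2 : E), t₀ + (z.1 : ℝ) * (t₁ - t₀))) :=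
    hΦ.comp_continuous (by fun_prop) hmem
  have hc0 : Continuous (fun z : unitInterval × Q => Φ ((z.2 : E), t₀)) :=
    hΦ.comp_continuous (by fun_prop) hmem0
  have hn0 : ∀ z : unitInterval × Q, Φ ((z.2 : E), t₀) ≠ 0 := fun z => h0 _ z.2.2 _ ⟨le_rfl, ht⟩
  obtain ⟨L, hLc, hL⟩ := l2_lift
    (fun z : unitInterval × Q => Φ ((z.2 : E), t₀ + (z.1 : ℝ) * (t₁ - t₀)) / Φ ((z.2 : E), t₀))
    (hc1.div hc0 hn0) (fun z => div_ne_zero (h0 _ z.2.2 _ (hmem z).2) (hn0 z)) (fun _ => 0) continuous_const (by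
      intro a
      have e1 : t₀ + (((0 : unitInterval) : ℝ)) * (t₁ - t₀) = t₀ := by simp
      show Φ ((a : E), t₀ + (((0 : unitInterval) : ℝ)) * (t₁ - t₀)) / Φ ((a : E), t₀) = cexp 0
      rw [e1, div_self (hn0 (0, a)), Complex.exp_zero])
  classical
  obtain ⟨ψ, hψ⟩ : ∃ ψ : E → ℝ, ∀ x (h : x ∈ Q), ψ x = (L ⟨x, h⟩).im :=
    ⟨fun x => if h : x ∈ Q then (L ⟨x, h⟩).im else 0, fun x h => dif_pos h⟩
  refine ⟨ψ, ?_, ?_⟩
  · rw [continuousOn_iff_continuous_domRestrict]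
    have e1 : Set.domRestrict Q ψ = fun x : Q => (L x).im := by
      funext x
      exact hψ x.1 x.2
    rw [e1]
    exact Complex.continuous_im.comp hLc
  · intro x hx
    have h1 := hL ⟨x, hx⟩
    have e1 : t₀ + (((1 : unitInterval) : ℝ)) * (t₁ - t₀) = t₁ := by simp
    have h2 : cexp (L ⟨x, hx⟩) = Φ (x, t₁) / Φ (x, t₀) := by
      rw [h1]
      show Φ (x, t₀ + (((1 : unitInterval) : ℝ)) * (t₁ - t₀)) / Φ (x, t₀) = _
      rw [e1]
    have hne : Φ (x, t₀) ≠ 0 := h0 x hx t₀ ⟨le_rfl, ht⟩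
    have h3 : Φ (x, t₁) = Φ (x, t₀) * cexp (L ⟨x, hx⟩) := by
      rw [h2]
      field_simp
    rw [hψ x hx]
    have h4 := l2_exp (L ⟨x, hx⟩)
    rw [h3, norm_mul]
    push_cast
    calc Φ (x, t₀) * cexp (L ⟨x, hx⟩) * ‖Φ (x, t₀)‖
        = Φ (x, t₀) * ‖Φ (x, t₀)‖ * cexp (L ⟨x, hx⟩) := by ring
      _ = Φ (x, t₀) * ‖Φ (x, t₀)‖ * (‖cexp (L ⟨x, hx⟩)‖ * cexp ((L ⟨x, hx⟩).im * I)) := by rw [← h4]
      _ = _ := by ring

end KZP
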