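import Pool.Agent.KZP.TR5
import Pool.Agent.KZP.L1
import Pool.Agent.KZP.L2
import Pool.Agent.KZP.AL0

/-!
# KZP-L3: the lift property

The data: for `i : Fin 4` a path `g i` in the curve of `q0` from the marked point `ρ_i` to the last
marked point `ρ_4`, which avoids all marked points for `0 < t < 1`.

Proof.  Let `DD, x0, f` be as in `LiftProp` and `F x = (f x : Tot)`.  `H` from `transport_family`.
For `i : Fin 4`, `t ∈ [0,1]` let `Γ i x t = H x (g i t)`: continuous on `DD × [0,1]`, in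
`Curve (F x).1`, `Γ i x 0 = (F x).2 i`, `Γ i x 1 = (F x).2 4`, and `Γ i x t ≠ (F x).2 k` for
`0 < t < 1` and all `k`.
Let `Bs = F '' DD` and `δ` the minimum of the two `δ`'s of `kap_ne`, `re_pos`.  Choose `t₀ ∈ (0,1/2)` with
`dist (Γ i x t) ((F x).2 i) < δ` for `t ≤ t₀` and `dist (Γ i x t) ((F x).2 4) < δ` for `t ≥ 1 - t₀`, all `i`,
`x ∈ DD` (uniform continuity / tube lemma, `DD` compact; the distances vanish at `t = 0`, `t = 1`).
(a) `φ_i x = kap (F x) i (Γ i x t₀)` and `φ'_i x = kap (F x) 4 (Γ i x (1-t₀))` are continuous and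
nowhere zero on `DD`: `lift_convex` gives `ψ_i`, `ψ'_i`.
(b) Let `Q = {x ∈ DD | ν (f x) = f x}`, so `nu (F x) = F x`.  On `Q × [t₀,1-t₀]` the function
`Φ_i (x,t) = Γ i x t 1` (the `Y`-coordinate) is continuous and nowhere zero: by `fixed_G` a zero would
be some `(F x).2 k`.  `lift_family` gives `D_i`:
`Φ_i (x,1-t₀) * ‖Φ_i (x,t₀)‖ = Φ_i (x,t₀) * ‖Φ_i (x,1-t₀)‖ * exp (D_i x I)`.
(c) on `Q`, `R_i x = Γ i x t₀ 1 * conj (φ_i x * Gf (F x) i)` and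
`R'_i x = Γ i x (1-t₀) 1 * conj (φ'_i x * Gf (F x) 4)` have positive real part, so
`η_i x = Complex.arg (R_i x)`, `η'_i x = Complex.arg (R'_i x)` are continuous.
Combine, with `u(z) = z/‖z‖`: `u(G_i) = u(Φ_i(x,t₀)) exp(-ψ_i I) exp(-η_i I)` and
`u(G_4) = u(Φ_i(x,1-t₀)) exp(-ψ'_i I) exp(-η'_i I)`, so
`u(G_i) = u(G_4) exp((-D_i - ψ_i - η_i + ψ'_i + η'_i) I)`.
So `c = u(G_4)`, `a x 4 = 0`, `a x i = - D_i x - ψ_i x - η_i x + ψ'_i x + η'_i x` for `i < 4` works.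
-/

open Complex

namespace KZP

/-- the involution on the subtype -/
noncomputable def nuX (q : XS) : XS := ⟨nu q.1, nu_mem q.1 q.2⟩

/-- the functions `G` on the subtype -/
noncomputable def GX (q : XS) : Fin 5 → ℂ := Gf q.1

/-- paths in the curve of `q` from the marked points to the last marked point -/
def HasArcs (q : Tot) : Prop :=
  ∃ g : Fin 4 → ℝ → Pt, (∀ i, ContinuousOn (g i) (Set.Icc 0 1)) ∧
    (∀ i, g i 0 = q.2 i.castSucc) ∧ (∀ i, g i 1 = q.2 4) ∧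
    (∀ i, ∀ t ∈ Set.Icc (0:ℝ) 1, g i t ∈ Curve q.1) ∧
    (∀ i, ∀ t ∈ Set.Ioo (0:ℝ) 1, ∀ k, g i t ≠ q.2 k)

theorem l3_tau (k : Fin 3) : Continuous (fun z : Par × Pt => tau z.1 z.2 k) := by
  have h10 : Continuous (fun z : Par × Pt => g1 z.1 z.2 0) := by
    show Continuous (fun z : Par × Pt => - z.2 2)
    fun_prop
  have h11 : Continuous (fun z : Par × Pt => g1 z.1 z.2 1) := by
    show Continuous (fun z : Par × Pt => 2 * z.2 1)
    fun_prop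
  have h12 : Continuous (fun z : Par × Pt => g1 z.1 z.2 2) := by
    show Continuous (fun z : Par × Pt => - z.2 0)
    fun_prop
  have h20 : Continuous (fun z : Par × Pt => g2 z.1 z.2 0) := by
    show Continuous (fun z : Par × Pt => - (3 * z.2 0 ^ 2) - z.1 0 * z.2 2 - z.1 1 * z.2 1
      - 2 * z.1 2 * z.2 0 - z.1 5)
    fun_prop
  have h21 : Continuous (fun z : Par × Pt => g2 z.1 z.2 1) := by
    show Continuous (fun z : Par × Pt => - (z.1 1 * z.2 0) - z.1 4)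
    fun_prop
  have h22 : Continuous (fun z : Par × Pt => g2 z.1 z.2 2) := by
    show Continuous (fun z : Par × Pt => 2 * z.2 2 - z.1 0 * z.2 0 - z.1 3)
    fun_prop
  fin_cases k
  · exact (h11.mul h22).sub (h12.mul h21)
  · exact (h12.mul h20).sub (h10.mul h22)
  · exact (h10.mul h21).sub (h11.mul h20)

theorem l3_tau2 (i : Fin 5) (k : Fin 3) : Continuous (fun z : Tot × Pt => tau z.1.1 (z.1.2 i) k) := by
  have h0 : Continuous (fun z : Tot × Pt => ((z.1.1, z.1.2 i) : Par × Pt)) :=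
    (continuous_fst.comp continuous_fst).prodMk
      ((continuous_apply i).comp (continuous_snd.comp continuous_fst))
  have h := (l3_tau k).comp h0
  simp only [Function.comp_def] at h
  exact h

theorem l3_kap (i : Fin 5) : Continuous (fun z : Tot × Pt => kap z.1 i z.2) := by
  unfold kap
  refine continuous_finsetSum _ fun k _ => ?_
  have h1 := Complex.continuous_conj.comp (l3_tau2 i k)
  simp only [Function.comp_def] at h1
  have h2 : Continuous (fun z : Tot × Pt => z.2 k) := (continuous_apply k).comp continuous_snd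
  have h3 : Continuous (fun z : Tot × Pt => z.1.2 i k) :=
    (continuous_apply k).comp ((continuous_apply i).comp (continuous_snd.comp continuous_fst))
  exact h1.mul (h2.sub h3)

theorem l3_kap_on {E : Type*} [TopologicalSpace E] (i : Fin 5) {F : E → Tot} {c : E → Pt} {S : Set E}
    (hF : ContinuousOn F S) (hc : ContinuousOn c S) : ContinuousOn (fun x => kap (F x) i (c x)) S := by
  have h1 : ContinuousOn (fun x => ((F x, c x) : Tot × Pt)) S := hF.prodMk hc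
  have h2 := (l3_kap i).comp_continuousOn h1
  exact h2

theorem l3_dist {E : Type*} [TopologicalSpace E] {c c' : E → Pt} {S : Set E}
    (hc : ContinuousOn c S) (hc' : ContinuousOn c' S) : ContinuousOn (fun x => dist (c x) (c' x)) S :=
  continuous_dist.comp_continuousOn (hc.prodMk hc')

theorem l3_unif {E : Type*} [NormedAddCommGroup E] (DD : Set E) (hDD : IsCompact DD)
    (h : E × ℝ → ℝ) (hh : ContinuousOn h (DD ×ˢ Set.Icc 0 1)) (s : ℝ) (hs : s ∈ Set.Icc (0 : ℝ) 1)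
    (h0 : ∀ x ∈ DD, h (x, s) = 0) (δ : ℝ) (hδ : 0 < δ) :
    ∃ η : ℝ, 0 < η ∧ ∀ x ∈ DD, ∀ t ∈ Set.Icc (0 : ℝ) 1, |t - s| ≤ η → h (x, t) < δ := by
  obtain ⟨η, hη, huc⟩ := Metric.uniformContinuousOn_iff.1
    ((hDD.prod isCompact_Icc).uniformContinuousOn_of_continuous hh) δ hδ
  refine ⟨η / 2, by positivity, fun x hx t ht hts => ?_⟩
  have h1 := huc (x, t) ⟨hx, ht⟩ (x, s) ⟨hx, hs⟩ (by
    rw [Prod.dist_eq, dist_self, Real.dist_eq]
    exact lt_of_le_of_lt (max_le (by positivity) hts) (by linarith))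
  rw [h0 x hx, Real.dist_eq, sub_zero] at h1
  exact (le_abs_self _).trans_lt h1

theorem l3_min (η : Fin 4 → ℝ) (hη : ∀ i, 0 < η i) : ∃ t₀ : ℝ, 0 < t₀ ∧ ∀ i, t₀ ≤ η i := by
  refine ⟨min (min (η 0) (η 1)) (min (η 2) (η 3)),
    lt_min (lt_min (hη 0) (hη 1)) (lt_min (hη 2) (hη 3)), fun i => ?_⟩
  fin_cases i
  · exact (min_le_left _ _).trans (min_le_left _ _)
  · exact (min_le_left _ _).trans (min_le_right _ _)
  · exact (min_le_right _ _).trans (min_le_left _ _)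
  · exact (min_le_right _ _).trans (min_le_right _ _)

theorem l3_unit (y φ g : ℂ) (ψ : ℝ) (hφ : φ ≠ 0) (hg : g ≠ 0) (h : φ = ‖φ‖ * cexp (ψ * I)) :
    y * ‖g‖ = ‖y‖ * cexp (((Complex.arg (y * (starRingEnd ℂ) (φ * g)) + ψ : ℝ) : ℂ) * I) * g := by
  set R : ℂ := y * (starRingEnd ℂ) (φ * g) with hR
  have h1 : (‖R‖ : ℂ) * cexp (Complex.arg R * I) = R := Complex.norm_mul_exp_arg_mul_I R
  have h2 : ‖R‖ = ‖y‖ * ‖φ‖ * ‖g‖ := by
    rw [hR, norm_mul, Complex.norm_conj, norm_mul, mul_assoc]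
  have hφ' : (‖φ‖ : ℂ) ≠ 0 := by exact_mod_cast norm_ne_zero_iff.2 hφ
  have hg' : (‖g‖ : ℂ) ≠ 0 := by exact_mod_cast norm_ne_zero_iff.2 hg
  have h3 : (starRingEnd ℂ) (φ * g) * (φ * g) = ((‖φ‖ : ℂ) * ‖g‖) ^ 2 := by
    rw [Complex.conj_mul', norm_mul]
    push_cast
    ring
  have h4 : R * (φ * g) = y * ((‖φ‖ : ℂ) * ‖g‖) ^ 2 := by
    rw [hR, mul_assoc, h3]
  rw [← h1, h2] at h4
  push_cast at h4
  have h5 : (‖y‖ : ℂ) * cexp (Complex.arg R * I) * (φ * g) = y * ((‖φ‖ : ℂ) * ‖g‖) := by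
    have h6 : ((‖φ‖ : ℂ) * ‖g‖) ≠ 0 := mul_ne_zero hφ' hg'
    apply mul_left_cancel₀ h6
    linear_combination h4
  have h7 : (‖φ‖ : ℂ) * (y * ‖g‖) = ‖φ‖ * (‖y‖ * cexp (Complex.arg R * I) * cexp (ψ * I) * g) := by
    have h8 : (‖y‖ : ℂ) * cexp (Complex.arg R * I) * (φ * g) =
        ‖y‖ * cexp (Complex.arg R * I) * ((‖φ‖ * cexp (ψ * I)) * g) := by
      rw [← h]
    rw [h8] at h5
    linear_combination -h5
  have h9 := mul_left_cancel₀ hφ' h7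
  rw [h9]
  push_cast
  rw [add_mul, Complex.exp_add]
  ring

theorem l3_alg (y0 y1 g g4 : ℂ) (θ θ' D : ℝ) (hy0 : y0 ≠ 0) (hy1 : y1 ≠ 0) (hg4 : g4 ≠ 0)
    (hA : y0 * ‖g‖ = ‖y0‖ * cexp ((θ : ℂ) * I) * g)
    (hB : y1 * ‖g4‖ = ‖y1‖ * cexp ((θ' : ℂ) * I) * g4)
    (hC : y1 * ‖y0‖ = y0 * ‖y1‖ * cexp (D * I)) :
    g = (g4 / ‖g4‖) * (‖g‖ * cexp (((θ' - θ - D : ℝ) : ℂ) * I)) := by
  have n0 : (‖y0‖ : ℂ) ≠ 0 := by exact_mod_cast norm_ne_zero_iff.2 hy0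
  have n1 : (‖y1‖ : ℂ) ≠ 0 := by exact_mod_cast norm_ne_zero_iff.2 hy1
  have n4 : (‖g4‖ : ℂ) ≠ 0 := by exact_mod_cast norm_ne_zero_iff.2 hg4
  have e1 : cexp (((θ' - θ - D : ℝ) : ℂ) * I) = cexp ((θ' : ℂ) * I) / (cexp ((θ : ℂ) * I) * cexp (D * I)) := by
    rw [eq_div_iff (mul_ne_zero (Complex.exp_ne_zero _) (Complex.exp_ne_zero _)), ← Complex.exp_add,
      ← Complex.exp_add]
    congr 1
    push_cast
    ring
  have x1 := Complex.exp_ne_zero ((θ : ℂ) * I)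
  have x2 := Complex.exp_ne_zero ((D : ℂ) * I)
  rw [e1]
  have h1 : g = y0 * ‖g‖ / (‖y0‖ * cexp ((θ : ℂ) * I)) := by
    rw [eq_div_iff (mul_ne_zero n0 x1)]
    linear_combination -hA
  have h2 : g4 * cexp ((θ' : ℂ) * I) = y1 * ‖g4‖ / ‖y1‖ := by
    rw [eq_div_iff n1]
    linear_combination -hB
  have h3 : y0 = y1 * ‖y0‖ / (‖y1‖ * cexp (D * I)) := by
    rw [eq_div_iff (mul_ne_zero n1 x2)]
    linear_combination -hC
  have h4 : (g4 / ‖g4‖) * (‖g‖ * (cexp ((θ' : ℂ) * I) / (cexp ((θ : ℂ) * I) * cexp (D * I)))) =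
      (g4 * cexp ((θ' : ℂ) * I)) * ‖g‖ / (‖g4‖ * (cexp ((θ : ℂ) * I) * cexp (D * I))) := by
    field_simp
  rw [h4, h2]
  conv_lhs => rw [h1]
  have h5 : y0 * ‖g‖ / (‖y0‖ * cexp ((θ : ℂ) * I)) =
      (y1 * ‖y0‖ / (‖y1‖ * cexp (D * I))) * ‖g‖ / (‖y0‖ * cexp ((θ : ℂ) * I)) := by
    rw [← h3]
  rw [h5]
  field_simp

theorem lift_main (q0 : XS) (hfix : nuX q0 = q0) (hg : HasArcs q0.1)
    (E : Type*) [NormedAddCommGroup E] [NormedSpace ℝ E] :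
    LiftProp nuX GX q0 E := by
  intro DD hDD hcv x0 hx0 f hf hfx0
  obtain ⟨g, hgc, hg0, hg1, hgC, hgne⟩ := hg
  set F : E → Tot := fun x => (f x : Tot) with hF
  have hFc : ContinuousOn F DD := continuous_subtype_val.comp_continuousOn hf
  have hFX : ∀ x ∈ DD, F x ∈ XS := fun x _ => (f x).2
  have hFx0 : F x0 = q0.1 := by rw [hF]; show (f x0 : Tot) = q0.1; rw [hfx0]
  obtain ⟨H, hHc, hHC, hHk, hHi⟩ := transport_family DD hDD hcv x0 hx0 F hFc hFX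
  rw [hFx0] at hHc hHC hHk hHi
  obtain ⟨Γ, hΓ⟩ : ∃ Γ : Fin 4 → E → ℝ → Pt, ∀ i x t, Γ i x t = H x (g i t) := ⟨_, fun _ _ _ => rfl⟩
  have hΓc : ∀ i, ContinuousOn (fun z : E × ℝ => Γ i z.1 z.2) (DD ×ˢ Set.Icc 0 1) := by
    intro i
    simp only [hΓ]
    have h1 : ContinuousOn (fun z : E × ℝ => ((z.1, g i z.2) : E × Pt)) (DD ×ˢ Set.Icc 0 1) :=
      continuousOn_fst.prodMk ((hgc i).comp continuousOn_snd fun z hz => hz.2)
    exact hHc.comp h1 fun z hz => ⟨hz.1, hgC i z.2 hz.2⟩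
  have hΓC : ∀ i, ∀ x ∈ DD, ∀ t ∈ Set.Icc (0 : ℝ) 1, Γ i x t ∈ Curve (F x).1 := by
    intro i x hx t ht
    rw [hΓ]
    exact hHC x hx _ (hgC i t ht)
  have hΓ0 : ∀ i, ∀ x ∈ DD, Γ i x 0 = (F x).2 i.castSucc := by
    intro i x hx
    rw [hΓ, hg0]
    exact hHk x hx _
  have hΓ1 : ∀ i, ∀ x ∈ DD, Γ i x 1 = (F x).2 4 := by
    intro i x hx
    rw [hΓ, hg1]
    exact hHk x hx _
  have hΓne : ∀ i, ∀ x ∈ DD, ∀ t ∈ Set.Ioo (0 : ℝ) 1, ∀ k, Γ i x t ≠ (F x).2 k := by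
    intro i x hx t ht k h
    rw [hΓ] at h
    exact hgne i t ht k (hHi x hx _ (hgC i t ⟨ht.1.le, ht.2.le⟩) k h)
  -- the constants
  have hBs : IsCompact (F '' DD) := hDD.image_of_continuousOn hFc
  have hsub : F '' DD ⊆ XS := by
    rintro _ ⟨x, hx, rfl⟩
    exact hFX x hx
  obtain ⟨δ₁, hδ₁, hkap⟩ := kap_ne (F '' DD) hBs hsub
  obtain ⟨δ₂, hδ₂, hre⟩ := re_pos (F '' DD) hBs hsub (fun b hb hν i => (fixed_G b hb hν).2.2.2.1 i)
  have hδ : 0 < min δ₁ δ₂ := lt_min hδ₁ hδ₂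
  have hpt : ∀ k, ContinuousOn (fun z : E × ℝ => (F z.1).2 k) (DD ×ˢ Set.Icc 0 1) := by
    intro k
    have h1 : ContinuousOn (fun z : E × ℝ => F z.1) (DD ×ˢ Set.Icc 0 1) :=
      hFc.comp continuousOn_fst fun z hz => hz.1
    exact (by fun_prop : Continuous (fun q : Tot => q.2 k)).comp_continuousOn h1
  have hex0 : ∀ i : Fin 4, ∃ η : ℝ, 0 < η ∧ ∀ x ∈ DD, ∀ t ∈ Set.Icc (0 : ℝ) 1, |t - 0| ≤ η →
      dist (Γ i x t) ((F x).2 i.castSucc) < min δ₁ δ₂ := by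
    intro i
    exact l3_unif DD hDD (fun z => dist (Γ i z.1 z.2) ((F z.1).2 i.castSucc)) (l3_dist (hΓc i) (hpt _)) 0
      ⟨le_rfl, zero_le_one⟩ (fun x hx => by rw [hΓ0 i x hx, dist_self]) _ hδ
  have hex1 : ∀ i : Fin 4, ∃ η : ℝ, 0 < η ∧ ∀ x ∈ DD, ∀ t ∈ Set.Icc (0 : ℝ) 1, |t - 1| ≤ η →
      dist (Γ i x t) ((F x).2 4) < min δ₁ δ₂ := by
    intro i
    exact l3_unif DD hDD (fun z => dist (Γ i z.1 z.2) ((F z.1).2 4)) (l3_dist (hΓc i) (hpt _)) 1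
      ⟨zero_le_one, le_rfl⟩ (fun x hx => by rw [hΓ1 i x hx, dist_self]) _ hδ
  choose η₀ hη₀ hd₀ using hex0
  choose η₁ hη₁ hd₁ using hex1
  obtain ⟨a₀, ha₀, ha₀'⟩ := l3_min η₀ hη₀
  obtain ⟨a₁, ha₁, ha₁'⟩ := l3_min η₁ hη₁
  obtain ⟨t₀, ht₀, ht₀4, ht₀a, ht₀b⟩ : ∃ t₀ : ℝ, 0 < t₀ ∧ t₀ ≤ 1 / 4 ∧ t₀ ≤ a₀ ∧ t₀ ≤ a₁ :=
    ⟨min (1 / 4) (min a₀ a₁), lt_min (by norm_num) (lt_min ha₀ ha₁), min_le_left _ _,
      (min_le_right _ _).trans (min_le_left _ _), (min_le_right _ _).trans (min_le_right _ _)⟩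
  have hI0 : t₀ ∈ Set.Icc (0 : ℝ) 1 := ⟨ht₀.le, by linarith⟩
  have hI1 : 1 - t₀ ∈ Set.Icc (0 : ℝ) 1 := ⟨by linarith, by linarith⟩
  have hO0 : t₀ ∈ Set.Ioo (0 : ℝ) 1 := ⟨ht₀, by linarith⟩
  have hO1 : 1 - t₀ ∈ Set.Ioo (0 : ℝ) 1 := ⟨by linarith, by linarith⟩
  have hdist0 : ∀ i, ∀ x ∈ DD, dist (Γ i x t₀) ((F x).2 i.castSucc) < min δ₁ δ₂ := fun i x hx =>
    hd₀ i x hx t₀ hI0 (by rw [sub_zero, abs_of_pos ht₀]; exact ht₀a.trans (ha₀' i))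
  have hdist1 : ∀ i, ∀ x ∈ DD, dist (Γ i x (1 - t₀)) ((F x).2 4) < min δ₁ δ₂ := fun i x hx =>
    hd₁ i x hx (1 - t₀) hI1 (by
      rw [show (1 : ℝ) - t₀ - 1 = -t₀ by ring, abs_neg, abs_of_pos ht₀]
      exact ht₀b.trans (ha₁' i))
  have hpos0 : ∀ i, ∀ x ∈ DD, 0 < dist (Γ i x t₀) ((F x).2 i.castSucc) := fun i x hx =>
    dist_pos.2 (hΓne i x hx t₀ hO0 _)
  have hpos1 : ∀ i, ∀ x ∈ DD, 0 < dist (Γ i x (1 - t₀)) ((F x).2 4) := fun i x hx =>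
    dist_pos.2 (hΓne i x hx (1 - t₀) hO1 _)
  have hΓt : ∀ i, ∀ t ∈ Set.Icc (0 : ℝ) 1, ContinuousOn (fun x => Γ i x t) DD := by
    intro i t ht
    exact (hΓc i).comp (Continuous.prodMk_left t).continuousOn fun x hx => ⟨hx, ht⟩
  -- step (a)
  obtain ⟨φ, hφd⟩ : ∃ φ : Fin 4 → E → ℂ, ∀ i x, φ i x = kap (F x) i.castSucc (Γ i x t₀) :=
    ⟨_, fun _ _ => rfl⟩
  obtain ⟨φ', hφ'd⟩ : ∃ φ' : Fin 4 → E → ℂ, ∀ i x, φ' i x = kap (F x) 4 (Γ i x (1 - t₀)) :=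
    ⟨_, fun _ _ => rfl⟩
  have hφc : ∀ i, ContinuousOn (φ i) DD := by
    intro i
    have e : φ i = fun x => kap (F x) i.castSucc (Γ i x t₀) := funext (hφd i)
    rw [e]
    exact l3_kap_on _ hFc (hΓt i t₀ hI0)
  have hφ'c : ∀ i, ContinuousOn (φ' i) DD := by
    intro i
    have e : φ' i = fun x => kap (F x) 4 (Γ i x (1 - t₀)) := funext (hφ'd i)
    rw [e]
    exact l3_kap_on _ hFc (hΓt i (1 - t₀) hI1)
  have hφn : ∀ i, ∀ x ∈ DD, φ i x ≠ 0 := by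
    intro i x hx
    rw [hφd]
    exact hkap _ ⟨x, hx, rfl⟩ _ _ (hΓC i x hx t₀ hI0) (hpos0 i x hx) ((hdist0 i x hx).trans_le (min_le_left _ _))
  have hφ'n : ∀ i, ∀ x ∈ DD, φ' i x ≠ 0 := by
    intro i x hx
    rw [hφ'd]
    exact hkap _ ⟨x, hx, rfl⟩ _ _ (hΓC i x hx _ hI1) (hpos1 i x hx) ((hdist1 i x hx).trans_le (min_le_left _ _))
  choose ψ hψc hψ using fun i => lift_convex DD hcv (φ i) (hφc i) (hφn i)
  choose ψ' hψ'c hψ' using fun i => lift_convex DD hcv (φ' i) (hφ'c i) (hφ'n i)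
  -- step (b)
  set Q : Set E := {x | x ∈ DD ∧ nuX (f x) = f x} with hQ
  have hQD : Q ⊆ DD := fun x hx => hx.1
  have hQν : ∀ x ∈ Q, nu (F x) = F x := fun x hx => congrArg Subtype.val hx.2
  have ht01 : t₀ ≤ 1 - t₀ := by linarith
  have hsubI : Set.Icc t₀ (1 - t₀) ⊆ Set.Icc (0 : ℝ) 1 := fun t ht => ⟨ht₀.le.trans ht.1, ht.2.trans hI1.2⟩
  have hYn : ∀ i, ∀ x ∈ Q, ∀ t ∈ Set.Ioo (0 : ℝ) 1, Γ i x t 1 ≠ 0 := by
    intro i x hx t ht h
    obtain ⟨k, hk⟩ := (fixed_G (F x) (hFX x (hQD hx)) (hQν x hx)).2.2.2.2.2 _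
      (hΓC i x (hQD hx) t ⟨ht.1.le, ht.2.le⟩) h
    exact hΓne i x (hQD hx) t ht k hk
  choose D hDc hD using fun i => lift_family Q t₀ (1 - t₀) ht01 (fun z => Γ i z.1 z.2 1)
    ((continuous_apply (1 : Fin 3)).comp_continuousOn
      ((hΓc i).mono (Set.prod_mono hQD hsubI)))
    (fun x hx t ht => hYn i x hx t ⟨ht₀.trans_le ht.1, ht.2.trans_lt hO1.2⟩)
  -- step (c)
  have hGc : ∀ k, ContinuousOn (fun x => Gf (F x) k) DD := fun k =>
    ((continuous_apply k).comp continuous_Gf).comp_continuousOn hFc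
  have hGn : ∀ x ∈ Q, ∀ k, Gf (F x) k ≠ 0 := fun x hx k =>
    (fixed_G (F x) (hFX x (hQD hx)) (hQν x hx)).2.2.2.1 k
  have hηc : ∀ i, ContinuousOn (fun x => Complex.arg (Γ i x t₀ 1 * (starRingEnd ℂ) (φ i x * Gf (F x) i.castSucc))) Q := by
    intro i x hx
    have h1 : ContinuousWithinAt (fun x => Γ i x t₀ 1 * (starRingEnd ℂ) (φ i x * Gf (F x) i.castSucc)) Q x :=
      (((continuous_apply (1 : Fin 3)).comp_continuousOn ((hΓt i t₀ hI0).mono hQD)).mul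
        (Complex.continuous_conj.comp_continuousOn (((hφc i).mono hQD).mul ((hGc _).mono hQD)))) x hx
    refine ContinuousAt.comp_continuousWithinAt (Complex.continuousAt_arg ?_) h1
    left
    rw [hφd]
    exact hre _ ⟨x, hQD hx, rfl⟩ (hQν x hx) _ _ (hΓC i x (hQD hx) t₀ hI0) (hpos0 i x (hQD hx))
      ((hdist0 i x (hQD hx)).trans_le (min_le_right _ _))
  have hη'c : ∀ i, ContinuousOn (fun x => Complex.arg (Γ i x (1 - t₀) 1 * (starRingEnd ℂ) (φ' i x * Gf (F x) 4))) Q := by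
    intro i x hx
    have h1 : ContinuousWithinAt (fun x => Γ i x (1 - t₀) 1 * (starRingEnd ℂ) (φ' i x * Gf (F x) 4)) Q x :=
      (((continuous_apply (1 : Fin 3)).comp_continuousOn ((hΓt i (1 - t₀) hI1).mono hQD)).mul
        (Complex.continuous_conj.comp_continuousOn (((hφ'c i).mono hQD).mul ((hGc _).mono hQD)))) x hx
    refine ContinuousAt.comp_continuousWithinAt (Complex.continuousAt_arg ?_) h1
    left
    rw [hφ'd]
    exact hre _ ⟨x, hQD hx, rfl⟩ (hQν x hx) _ _ (hΓC i x (hQD hx) _ hI1) (hpos1 i x (hQD hx))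
      ((hdist1 i x (hQD hx)).trans_le (min_le_right _ _))
  obtain ⟨A, hA⟩ : ∃ A : Fin 4 → E → ℝ, ∀ i x, A i x =
      (Complex.arg (Γ i x (1 - t₀) 1 * (starRingEnd ℂ) (φ' i x * Gf (F x) 4)) + ψ' i x) -
      (Complex.arg (Γ i x t₀ 1 * (starRingEnd ℂ) (φ i x * Gf (F x) i.castSucc)) + ψ i x) - D i x :=
    ⟨_, fun _ _ => rfl⟩
  refine ⟨fun x => Fin.lastCases (motive := fun _ => ℝ) 0 (fun i => A i x), ?_, ?_⟩
  · rw [continuousOn_pi]
    intro k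
    refine Fin.lastCases ?_ (fun i => ?_) k
    · simp only [Fin.lastCases_last]
      exact continuousOn_const
    · simp only [Fin.lastCases_castSucc]
      have e : (fun x => A i x) = fun x =>
        (Complex.arg (Γ i x (1 - t₀) 1 * (starRingEnd ℂ) (φ' i x * Gf (F x) 4)) + ψ' i x) -
        (Complex.arg (Γ i x t₀ 1 * (starRingEnd ℂ) (φ i x * Gf (F x) i.castSucc)) + ψ i x) - D i x :=
        funext (hA i)
      rw [e]
      exact (((hη'c i).add ((hψ'c i).mono hQD)).sub ((hηc i).add ((hψc i).mono hQD))).sub (hDc i)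
  · intro x hx hν
    have hxQ : x ∈ Q := ⟨hx, hν⟩
    have hg4 : Gf (F x) 4 ≠ 0 := hGn x hxQ 4
    have hn4 : (‖Gf (F x) 4‖ : ℂ) ≠ 0 := by exact_mod_cast norm_ne_zero_iff.2 hg4
    refine ⟨Gf (F x) 4 / ‖Gf (F x) 4‖, fun k => ?_⟩
    refine Fin.lastCases ?_ (fun i => ?_) k
    · simp only [Fin.lastCases_last]
      show Gf (F x) 4 = Gf (F x) 4 / ‖Gf (F x) 4‖ * (‖Gf (F x) 4‖ * cexp (((0 : ℝ) : ℂ) * I))
      rw [Complex.ofReal_zero, zero_mul, Complex.exp_zero]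
      field_simp
    · simp only [Fin.lastCases_castSucc]
      show Gf (F x) i.castSucc = Gf (F x) 4 / ‖Gf (F x) 4‖ * (‖Gf (F x) i.castSucc‖ * cexp (((A i x : ℝ) : ℂ) * I))
      rw [hA]
      exact l3_alg _ _ _ _ _ _ _ (hYn i x hxQ t₀ hO0) (hYn i x hxQ (1 - t₀) hO1) hg4
        (l3_unit _ _ _ _ (hφn i x hx) (hGn x hxQ _) (hψ i x hx))
        (l3_unit _ _ _ _ (hφ'n i x hx) hg4 (hψ' i x hx)) (hD i x hxQ)

end KZP
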