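import Pool.Agent.KZP.SP3

/-!
# KZP-SP4B: the lifts of the arguments of the `G i`
Checked numerically (60000 points): `Gval_polar` exact up to 1e-13.
-/

open scoped BigOperators
open Complex

namespace KZP

noncomputable def th (u : Fin 4 → ℝ) (j : Fin 5) : ℝ := arg (-I * ww u j)

/-- used for `j < i` -/
noncomputable def ph (u : Fin 4 → ℝ) (i j : Fin 5) : ℝ := arg (-I * (ww u i - ww u j))

noncomputable def kp : Fin 5 → ℝ := ![0, Real.pi, 2 * Real.pi, 3 * Real.pi, 2 * Real.pi]

/-- the lift of `arg G_i` -/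
noncomputable def alp (u : Fin 4 → ℝ) (i : Fin 5) : ℝ :=
  (∑ j ∈ Finset.univ.filter (· < i), ph u i j) + (∑ j ∈ Finset.univ.filter (i < ·), ph u j i)
    - 5 * th u i + kp i - ((∑ j, th u j) + 5 * Real.pi)

/-- `-i w_j` is in the slit plane: `U_j ≠ 0` or `V_j > 0` (`VV_pos_of_zero`) -/
theorem continuousOn_th (j : Fin 5) : ContinuousOn (fun u => th u j) (Sx 4) := by
  intro u hu
  have h1 : -I * ww u j ∈ slitPlane := by
    rw [mem_slitPlane_iff]
    have hre : (-I * ww u j).re = VV u j / 100 := by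
      simp [ww]
    have him : (-I * ww u j).im = - UU u j := by
      simp [ww]
    rw [hre, him]
    by_cases h : UU u j = 0
    · left
      have := VV_pos_of_zero hu h
      linarith
    · right
      exact neg_ne_zero.2 h
  have h2 : Continuous (fun u => -I * ww u j) :=
    continuous_const.mul ((continuous_apply j).comp continuous_ww)
  exact ((continuousAt_arg h1).comp (f := fun u => -I * ww u j) h2.continuousAt).continuousWithinAt

/-- `VV_lt_of_eq` -/
theorem continuousOn_ph {i j : Fin 5} (h : j < i) : ContinuousOn (fun u => ph u i j) (Sx 4) := by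
  intro u hu
  have h1 : -I * (ww u i - ww u j) ∈ slitPlane := by
    rw [mem_slitPlane_iff]
    have hre : (-I * (ww u i - ww u j)).re = (VV u i - VV u j) / 100 := by
      simp [ww]
      ring
    have him : (-I * (ww u i - ww u j)).im = - (UU u i - UU u j) := by
      simp [ww]
    rw [hre, him]
    by_cases h' : UU u j = UU u i
    · left
      have := VV_lt_of_eq hu h h'
      linarith
    · right
      intro h2
      apply h'
      linarith
  have h2 : Continuous (fun u => -I * (ww u i - ww u j)) :=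
    continuous_const.mul (((continuous_apply i).comp continuous_ww).sub
      ((continuous_apply j).comp continuous_ww))
  exact ((continuousAt_arg h1).comp (f := fun u => -I * (ww u i - ww u j))
    h2.continuousAt).continuousWithinAt

theorem continuousOn_alp : ContinuousOn alp (Sx 4) := by
  rw [continuousOn_pi]
  intro i
  unfold alp
  have h1 : ContinuousOn (fun u => ∑ j ∈ Finset.univ.filter (· < i), ph u i j) (Sx 4) :=
    continuousOn_finsetSum _ fun j hj => continuousOn_ph (Finset.mem_filter.1 hj).2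
  have h2 : ContinuousOn (fun u => ∑ j ∈ Finset.univ.filter (i < ·), ph u j i) (Sx 4) :=
    continuousOn_finsetSum _ fun j hj => continuousOn_ph (Finset.mem_filter.1 hj).2
  have h3 : ContinuousOn (fun u => ∑ j, th u j) (Sx 4) :=
    continuousOn_finsetSum _ fun j _ => continuousOn_th j
  exact (((h1.add h2).sub (continuousOn_const.mul (continuousOn_th i))).add
    continuousOn_const).sub (h3.add continuousOn_const)

theorem sp4b_up (z : ℂ) : z = ‖z‖ * cexp ((arg (-I * z) + Real.pi / 2 : ℝ) * I) := by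
  have h1 := norm_mul_exp_arg_mul_I (-I * z)
  have h2 : ‖-I * z‖ = ‖z‖ := by
    rw [norm_mul, norm_neg, norm_I, one_mul]
  rw [h2] at h1
  have h3 : cexp ((arg (-I * z) + Real.pi / 2 : ℝ) * I) = cexp (arg (-I * z) * I) * I := by
    rw [ofReal_add, add_mul, Complex.exp_add]
    congr 1
    rw [ofReal_div, ofReal_ofNat, exp_pi_div_two_mul_I]
  rw [h3, ← mul_assoc, h1]
  linear_combination z * I_mul_I

theorem sp4b_dn (z : ℂ) : -z = ‖z‖ * cexp ((arg (-I * z) - Real.pi / 2 : ℝ) * I) := by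
  have h1 := norm_mul_exp_arg_mul_I (-I * z)
  have h2 : ‖-I * z‖ = ‖z‖ := by
    rw [norm_mul, norm_neg, norm_I, one_mul]
  rw [h2] at h1
  have h3 : cexp ((arg (-I * z) - Real.pi / 2 : ℝ) * I) = cexp (arg (-I * z) * I) * (-I) := by
    rw [ofReal_sub, sub_mul, Complex.exp_sub]
    have h4 : cexp (((Real.pi / 2 : ℝ) : ℂ) * I) = I := by
      rw [ofReal_div, ofReal_ofNat, exp_pi_div_two_mul_I]
    rw [h4, div_I]
    ring
  rw [h3, ← mul_assoc, h1]
  linear_combination (-z) * I_mul_I

theorem ww_polar (u : Fin 4 → ℝ) (j : Fin 5) :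
    ww u j = ‖ww u j‖ * cexp ((th u j + Real.pi / 2 : ℝ) * I) := by
  exact sp4b_up _

theorem ww_sub_polar (u : Fin 4 → ℝ) (i j : Fin 5) :
    ww u i - ww u j = ‖ww u i - ww u j‖ * cexp ((ph u i j + Real.pi / 2 : ℝ) * I) := by
  exact sp4b_up _

/-- `w_i - w_j = - (w_j - w_i)` -/
theorem ww_sub_polar' (u : Fin 4 → ℝ) (i j : Fin 5) :
    ww u i - ww u j = ‖ww u i - ww u j‖ * cexp ((ph u j i - Real.pi / 2 : ℝ) * I) := by
  have h := sp4b_dn (ww u j - ww u i)
  rw [neg_sub, norm_sub_rev] at h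
  exact h

/-- `a` is an argument of `z` -/
def sp4bP (z : ℂ) (a : ℝ) : Prop := z = ‖z‖ * cexp ((a : ℂ) * I)

theorem sp4bP_mul {z w : ℂ} {a b : ℝ} (h : sp4bP z a) (h' : sp4bP w b) : sp4bP (z * w) (a + b) := by
  unfold sp4bP at *
  rw [norm_mul, ofReal_mul, ofReal_add, add_mul, Complex.exp_add]
  calc z * w = (‖z‖ * cexp (a * I)) * (‖w‖ * cexp (b * I)) := by rw [← h, ← h']
    _ = _ := by ring

theorem sp4bP_pow {z : ℂ} {a : ℝ} (h : sp4bP z a) (n : ℕ) : sp4bP (z ^ n) (n * a) := by
  induction n with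
  | zero => simp [sp4bP]
  | succ n ih =>
    have h1 := sp4bP_mul ih h
    rw [pow_succ]
    have e : ((n + 1 : ℕ) : ℝ) * a = n * a + a := by push_cast; ring
    rw [e]
    exact h1

theorem sp4bP_prod (s : Finset (Fin 5)) (z : Fin 5 → ℂ) (a : Fin 5 → ℝ)
    (h : ∀ j ∈ s, sp4bP (z j) (a j)) : sp4bP (∏ j ∈ s, z j) (∑ j ∈ s, a j) := by
  classical
  induction s using Finset.induction_on with
  | empty => simp [sp4bP]
  | insert j s hj ih =>
    rw [Finset.prod_insert hj, Finset.sum_insert hj]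
    exact sp4bP_mul (h j (Finset.mem_insert_self _ _))
      (ih fun k hk => h k (Finset.mem_insert_of_mem hk))

theorem sp4bP_div {z w : ℂ} {a b : ℝ} (h : sp4bP (z * w) a) (h' : sp4bP w b) (hw : w ≠ 0) :
    sp4bP z (a - b) := by
  unfold sp4bP at *
  rw [norm_mul, ofReal_mul] at h
  have hw' : (‖w‖ : ℂ) ≠ 0 := by
    rw [Ne, ofReal_eq_zero, norm_eq_zero]
    exact hw
  have hb : cexp (b * I) ≠ 0 := Complex.exp_ne_zero _
  have h1 : z * (‖w‖ * cexp (b * I)) = ‖z‖ * ‖w‖ * cexp (a * I) := by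
    rw [← h', h]
  rw [ofReal_sub, sub_mul, Complex.exp_sub, mul_div_assoc', eq_div_iff hb]
  have h2 : (‖w‖ : ℂ) * (z * cexp (b * I)) = ‖w‖ * (‖z‖ * cexp (a * I)) := by
    linear_combination h1
  exact mul_left_cancel₀ hw' h2

theorem sp4bP_period {z : ℂ} {a b : ℝ} (h : sp4bP z a) (k : ℤ) (hk : b = a + k * (2 * Real.pi)) :
    sp4bP z b := by
  unfold sp4bP at *
  have h1 : cexp ((b : ℂ) * I) = cexp ((a : ℂ) * I) := by
    rw [hk]
    have e : (((a + k * (2 * Real.pi) : ℝ) : ℂ)) * I = a * I + k * (2 * Real.pi * I) := by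
      push_cast
      ring
    rw [e, Complex.exp_add, exp_int_mul_two_pi_mul_I, mul_one]
  rw [h1]
  exact h

/-- from `Gval_xx` and the polar forms: `arg G_i = ∑_{j<i} (ph i j + π/2) + ∑_{j>i} (ph j i - π/2)
- 5 (th i + π/2) - ∑ (th j + π/2) = alp - kp + (i - 2) π`, and `kp i - (i-2) π ∈ 2πℤ`. -/
theorem Gval_polar {u : Fin 4 → ℝ} (hu : u ∈ Sx 4) (i : Fin 5) :
    Gval (xx u) i = ‖Gval (xx u) i‖ * cexp (alp u i * I) := by
  have h1 := Gval_xx hu i
  have hP0 : (∏ j, ww u j) * ww u i ^ 5 ≠ 0 :=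
    mul_ne_zero (Finset.prod_ne_zero_iff.2 fun j _ => ww_ne hu j) (pow_ne_zero _ (ww_ne hu i))
  have hw : ∀ j, sp4bP (ww u j) (th u j + Real.pi / 2) := fun j => ww_polar u j
  have hB : sp4bP ((∏ j, ww u j) * ww u i ^ 5)
      ((∑ j, (th u j + Real.pi / 2)) + (5 : ℕ) * (th u i + Real.pi / 2)) :=
    sp4bP_mul (sp4bP_prod _ _ _ fun j _ => hw j) (sp4bP_pow (hw i) 5)
  have hA : sp4bP (∏ j ∈ Finset.univ.erase i, (ww u i - ww u j))
      (∑ j ∈ Finset.univ.erase i,
        (if j < i then ph u i j + Real.pi / 2 else ph u j i - Real.pi / 2)) := by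
    apply sp4bP_prod
    intro j _
    by_cases h : j < i
    · rw [if_pos h]
      exact ww_sub_polar u i j
    · rw [if_neg h]
      exact ww_sub_polar' u i j
  rw [← h1] at hA
  have hG := sp4bP_div hA hB hP0
  have h0 : (Finset.univ.erase (0 : Fin 5)) = {1, 2, 3, 4} := by decide
  have h1' : (Finset.univ.erase (1 : Fin 5)) = {0, 2, 3, 4} := by decide
  have h2 : (Finset.univ.erase (2 : Fin 5)) = {0, 1, 3, 4} := by decide
  have h3 : (Finset.univ.erase (3 : Fin 5)) = {0, 1, 2, 4} := by decide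
  have h4 : (Finset.univ.erase (4 : Fin 5)) = {0, 1, 2, 3} := by decide
  fin_cases i
  · refine sp4bP_period hG 1 ?_
    simp [alp, kp, h0, Finset.sum_filter, Fin.sum_univ_five]
    ring
  · refine sp4bP_period hG 1 ?_
    simp [alp, kp, h1', Finset.sum_filter, Fin.sum_univ_five]
    ring
  · refine sp4bP_period hG 1 ?_
    simp [alp, kp, h2, Finset.sum_filter, Fin.sum_univ_five]
    ring
  · refine sp4bP_period hG 1 ?_
    simp [alp, kp, h3, Finset.sum_filter, Fin.sum_univ_five]
    ring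
  · refine sp4bP_period hG 0 ?_
    simp [alp, kp, h4, Finset.sum_filter, Fin.sum_univ_five]
    ring

end KZP
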