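import Pool.Agent.KZP.SP4A
import Pool.Agent.KZP.SP4B

/-!
# KZP-SP4C: the direction condition
(min of `alp i - alp j` over 60000 random points: 3.137)
-/

open scoped BigOperators
open Complex

namespace KZP

private theorem sp4c_VV (u : Fin 4 → ℝ) (i l : Fin 5) :
    VV u i - VV u l = (epsi i - epsi l) * mm u - (|UU u i| - |UU u l|) := by
  unfold VV
  ring

/-- `arg_right` with `η = 1/100`: `w_i - w_l = (U_i - U_l) + i (V_i - V_l)/100` and, as `l < i`,
`V_i - V_l ≥ - | |U_i| - |U_l| | ≥ - (U_i - U_l)` -/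
theorem ph_bd_pos {u : Fin 4 → ℝ} (hu : u ∈ Sx 4) {i l : Fin 5} (h : l < i) (hU : UU u l ≤ UU u i) :
    - (Real.pi / 2) - 1 / 50 ≤ ph u i l ∧ ph u i l ≤ 0 := by
  have hm := mm_pos hu
  have he := epsi_lt h
  have hne : ww u i - ww u l ≠ 0 := sub_ne_zero.2 fun e => h.ne' (ww_inj hu e)
  have h1 : (ww u i - ww u l).re = UU u i - UU u l := rfl
  have h2 : (ww u i - ww u l).im = VV u i / 100 - VV u l / 100 := rfl
  have h3 := sp4c_VV u i l
  have h4 : 0 ≤ (epsi i - epsi l) * mm u := mul_nonneg (by linarith) hm.le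
  have h5 := abs_sub_abs_le_abs_sub (UU u i) (UU u l)
  have h6 : |UU u i - UU u l| = UU u i - UU u l := abs_of_nonneg (by linarith)
  have h7 := arg_right (1 / 100) (by norm_num) (by norm_num) (ww u i - ww u l) hne
    (by rw [h1]; linarith) (by rw [h1, h2]; linarith)
  unfold ph
  exact ⟨by linarith [h7.1], h7.2⟩

theorem ph_bd_neg {u : Fin 4 → ℝ} (hu : u ∈ Sx 4) {i l : Fin 5} (h : l < i) (hU : UU u i ≤ UU u l) :
    0 ≤ ph u i l ∧ ph u i l ≤ Real.pi / 2 + 1 / 50 := by
  have hm := mm_pos hu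
  have he := epsi_lt h
  have hne : ww u i - ww u l ≠ 0 := sub_ne_zero.2 fun e => h.ne' (ww_inj hu e)
  have h1 : (ww u i - ww u l).re = UU u i - UU u l := rfl
  have h2 : (ww u i - ww u l).im = VV u i / 100 - VV u l / 100 := rfl
  have h3 := sp4c_VV u i l
  have h4 : 0 ≤ (epsi i - epsi l) * mm u := mul_nonneg (by linarith) hm.le
  have h5 := abs_sub_abs_le_abs_sub (UU u i) (UU u l)
  have h6 : |UU u i - UU u l| = -(UU u i - UU u l) := abs_of_nonpos (by linarith)
  have h7 := arg_left (1 / 100) (by norm_num) (by norm_num) (ww u i - ww u l) hne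
    (by rw [h1]; linarith) (by rw [h1, h2]; linarith)
  unfold ph
  exact ⟨h7.1, by linarith [h7.2]⟩

private theorem sp4c_sum {u : Fin 4 → ℝ} {c : ℝ} (h : ∀ j, |UU u j| ≤ c - UU u j) :
    mm u ≤ c := by
  have h1 : ∑ j, |UU u j| ≤ ∑ j : Fin 5, (c - UU u j) := Finset.sum_le_sum fun j _ => h j
  rw [Finset.sum_sub_distrib, UU_sum, Finset.sum_const, Finset.card_univ, Fintype.card_fin,
    nsmul_eq_mul] at h1
  unfold mm
  push_cast at h1
  linarith

private theorem sp4c_sum' {u : Fin 4 → ℝ} {c : ℝ} (h : ∀ j, |UU u j| ≤ c + UU u j) :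
    mm u ≤ c := by
  have h1 : ∑ j, |UU u j| ≤ ∑ j : Fin 5, (c + UU u j) := Finset.sum_le_sum fun j _ => h j
  rw [Finset.sum_add_distrib, UU_sum, Finset.sum_const, Finset.card_univ, Fintype.card_fin,
    nsmul_eq_mul] at h1
  unfold mm
  push_cast at h1
  linarith

/-- `U_i > 0` and `mm ≤ 8/5 U_i` (`∑ |U| = 2 ∑_{U>0} U ≤ 8 U_i`), so
`V_i ≤ (7/5) (8/5) U_i - U_i ≤ 2 U_i`; `arg_low` with `η = 1/50` -/
theorem th_max {u : Fin 4 → ℝ} (hu : u ∈ Sx 4) {i : Fin 5} (hU : ∀ j, UU u j ≤ UU u i) :
    th u i ≤ - (Real.pi / 2) + 1 / 25 := by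
  have hm := mm_pos hu
  have hb : mm u ≤ 2 * UU u i := by
    refine sp4c_sum fun j => ?_
    have h1 := hU j
    rcases abs_cases (UU u j) with ⟨h2, h3⟩ | ⟨h2, h3⟩
    · rw [h2]; linarith
    · rw [h2]
      -- here `UU u i ≥ 0` since the sum is zero
      have h4 : 0 ≤ UU u i := by
        by_contra hc
        push Not at hc
        have h5 : ∑ j, UU u j < ∑ _j : Fin 5, (0 : ℝ) :=
          Finset.sum_lt_sum_of_nonempty Finset.univ_nonempty fun k _ => lt_of_le_of_lt (hU k) hc
        rw [UU_sum, Finset.sum_const_zero] at h5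
        exact lt_irrefl _ h5
      linarith
  have hpos : 0 < UU u i := by linarith
  have he := epsi_bd i
  have h1 : (ww u i).re = UU u i := rfl
  have h2 : (ww u i).im = VV u i / 100 := rfl
  have h3 : VV u i ≤ 2 * UU u i := by
    unfold VV
    rw [abs_of_pos hpos]
    have h4 : (1 + epsi i) * mm u ≤ (7 / 5) * mm u :=
      mul_le_mul_of_nonneg_right (by linarith) hm.le
    linarith
  have h7 := arg_low (1 / 50) (by norm_num) (by norm_num) (ww u i)
    (by rw [h1]; exact hpos) (by rw [h1, h2]; linarith)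
  unfold th
  linarith

theorem th_min {u : Fin 4 → ℝ} (hu : u ∈ Sx 4) {i : Fin 5} (hU : ∀ j, UU u i ≤ UU u j) :
    Real.pi / 2 - 1 / 25 ≤ th u i := by
  have hm := mm_pos hu
  have hb : mm u ≤ -(2 * UU u i) := by
    refine sp4c_sum' fun j => ?_
    have h1 := hU j
    rcases abs_cases (UU u j) with ⟨h2, h3⟩ | ⟨h2, h3⟩
    · rw [h2]
      have h4 : UU u i ≤ 0 := by
        by_contra hc
        push Not at hc
        have h5 : ∑ _j : Fin 5, (0 : ℝ) < ∑ j, UU u j :=
          Finset.sum_lt_sum_of_nonempty Finset.univ_nonempty fun k _ => lt_of_lt_of_le hc (hU k)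
        rw [UU_sum, Finset.sum_const_zero] at h5
        exact lt_irrefl _ h5
      linarith
    · rw [h2]; linarith
  have hneg : UU u i < 0 := by linarith
  have he := epsi_bd i
  have h1 : (ww u i).re = UU u i := rfl
  have h2 : (ww u i).im = VV u i / 100 := rfl
  have h3 : VV u i ≤ -(2 * UU u i) := by
    unfold VV
    rw [abs_of_neg hneg]
    have h4 : (1 + epsi i) * mm u ≤ (7 / 5) * mm u :=
      mul_le_mul_of_nonneg_right (by linarith) hm.le
    linarith
  have h7 := arg_high (1 / 50) (by norm_num) (by norm_num) (ww u i)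
    (by rw [h1]; exact hneg) (by rw [h1, h2]; linarith)
  unfold th
  linarith

/-- the symmetric form of the terms `ph` -/
private noncomputable def sp4cq (u : Fin 4 → ℝ) (i l : Fin 5) : ℝ :=
  (if l < i then ph u i l else 0) + (if i < l then ph u l i else 0)

private theorem sp4cq_symm (u : Fin 4 → ℝ) (i l : Fin 5) : sp4cq u i l = sp4cq u l i := by
  unfold sp4cq
  rw [add_comm]

private theorem sp4cq_self (u : Fin 4 → ℝ) (i : Fin 5) : sp4cq u i i = 0 := by
  unfold sp4cq
  rw [if_neg (lt_irrefl i), add_zero]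

private theorem sp4c_alp (u : Fin 4 → ℝ) (i : Fin 5) : alp u i =
    (∑ l, sp4cq u i l) - 5 * th u i + kp i - ((∑ j, th u j) + 5 * Real.pi) := by
  unfold alp sp4cq
  rw [Finset.sum_add_distrib, Finset.sum_filter, Finset.sum_filter]

private theorem sp4c_cnt (i j : Fin 5) (hij : i ≠ j) (Q c : ℝ) :
    ∑ l : Fin 5, (if l = i then -Q else if l = j then Q else
      -((if l < i then c else 0) + (if l < j then c else 0))) =
      -((((i : ℕ) : ℝ) + ((j : ℕ) : ℝ) - 1) * c) := by
  rw [Fin.sum_univ_five]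
  fin_cases i <;> fin_cases j <;> first | exact absurd rfl hij | (simp; try ring)

private theorem sp4c_num (i j : Fin 5) (hij : i ≠ j) :
    0 < 5 * Real.pi - 2 / 5 + kp i - kp j -
      (((i : ℕ) : ℝ) + ((j : ℕ) : ℝ) - 1) * (Real.pi / 2 + 1 / 50) := by
  have hpi := Real.pi_gt_three
  fin_cases i <;> fin_cases j <;>
    first | exact absurd rfl hij | (simp [kp]; try linarith)

/-- for `i` maximal, `j` minimal, `i ≠ j`: the term `ph` of the pair `{i, j}` occurs in both sums and
cancels; the remaining `i + j - 1` terms (`ph u i l`, `l < i`, `l ≠ j`, and `- ph u j l`, `l < j`,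
`l ≠ i`) are `≥ - π/2 - 1/50`, the terms `ph u l i`, `l > i`, and `- ph u l j`, `l > j`, are `≥ 0`, and
`5 (th j - th i) ≥ 5 π - 2/5`.  So
`alp i - alp j ≥ 5 π + kp i - kp j - (i + j - 1) (π/2 + 1/50) - 2/5 ≥ π - 1` in the 20 cases. -/
theorem alp_pos {u : Fin 4 → ℝ} (hu : u ∈ Sx 4) {i j : Fin 5} (hij : i ≠ j)
    (hi : ∀ l, UU u l ≤ UU u i) (hj : ∀ l, UU u j ≤ UU u l) : 0 < alp u i - alp u j := by
  have h1 := th_max hu hi
  have h2 := th_min hu hj
  set c : ℝ := Real.pi / 2 + 1 / 50 with hc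
  have hl : ∀ l : Fin 5, (if l = i then -sp4cq u i j else if l = j then sp4cq u i j else
      -((if l < i then c else 0) + (if l < j then c else 0))) ≤ sp4cq u i l - sp4cq u j l := by
    intro l
    by_cases e1 : l = i
    · rw [if_pos e1, e1, sp4cq_self, sp4cq_symm u j i, zero_sub]
    · rw [if_neg e1]
      by_cases e2 : l = j
      · rw [if_pos e2, e2, sp4cq_self, sub_zero]
      · rw [if_neg e2]
        have b1 : -(if l < i then c else 0) ≤ sp4cq u i l := by
          unfold sp4cq
          by_cases c1 : l < i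
          · rw [if_pos c1, if_pos c1, if_neg (not_lt.2 c1.le), add_zero]
            have := (ph_bd_pos hu c1 (hi l)).1
            rw [hc]
            linarith
          · have c2 : i < l := lt_of_le_of_ne (not_lt.1 c1) (Ne.symm e1)
            rw [if_neg c1, if_neg c1, if_pos c2, zero_add, neg_zero]
            exact (ph_bd_neg hu c2 (hi l)).1
        have b2 : sp4cq u j l ≤ (if l < j then c else 0) := by
          unfold sp4cq
          by_cases c1 : l < j
          · rw [if_pos c1, if_pos c1, if_neg (not_lt.2 c1.le), add_zero]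
            have := (ph_bd_neg hu c1 (hj l)).2
            rw [hc]
            linarith
          · have c2 : j < l := lt_of_le_of_ne (not_lt.1 c1) (Ne.symm e2)
            rw [if_neg c1, if_neg c1, if_pos c2, zero_add]
            exact (ph_bd_pos hu c2 (hj l)).2
        linarith
  have h3 := Finset.sum_le_sum fun l (_ : l ∈ (Finset.univ : Finset (Fin 5))) => hl l
  rw [sp4c_cnt i j hij, Finset.sum_sub_distrib] at h3
  have h4 := sp4c_num i j hij
  rw [← hc] at h4
  rw [sp4c_alp u i, sp4c_alp u j]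
  linarith

/-- if `alp i - alp 4 = - t u_i = - t (U_i - U_4)` for all `i`, then for `i` maximal and `j` minimal
`alp i - alp j = - t (U_i - U_j) ≤ 0`.  (`i ≠ j` possible since `mm > 0`, `∑ U = 0`.) -/
theorem direction {u : Fin 4 → ℝ} (hu : u ∈ Sx 4) (t : ℝ) (ht : 0 ≤ t) :
    (fun i : Fin 4 => alp u i.castSucc - alp u (Fin.last 4)) ≠ -t • u := by
  intro heq
  have hall : ∀ i : Fin 5, alp u i - alp u (Fin.last 4) = -t * (UU u i - UU u 4) := by
    intro i
    refine Fin.lastCases ?_ (fun k => ?_) i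
    · have : (Fin.last 4 : Fin 5) = 4 := rfl
      rw [this]; ring
    · have h1 := congrFun heq k
      simp only [Pi.smul_apply, smul_eq_mul] at h1
      rw [UU_castSucc]
      exact h1
  obtain ⟨i, hi⟩ := Finite.exists_max (UU u)
  obtain ⟨j, hj⟩ := Finite.exists_min (UU u)
  have hij : i ≠ j := by
    rintro rfl
    have hconst : ∀ k, UU u k = UU u i := fun k => le_antisymm (hi k) (hj k)
    have h1 := UU_sum u
    rw [Finset.sum_congr rfl fun k _ => hconst k, Finset.sum_const, Finset.card_univ,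
      Fintype.card_fin, nsmul_eq_mul] at h1
    have h2 : UU u i = 0 := by
      push_cast at h1
      linarith
    have h3 := mm_pos hu
    unfold mm at h3
    rw [Finset.sum_congr rfl fun k _ => by rw [hconst k, h2, abs_zero],
      Finset.sum_const_zero, zero_div] at h3
    exact lt_irrefl _ h3
  have h1 := alp_pos hu hij hi hj
  have h2 := hall i
  have h3 := hall j
  have h4 : alp u i - alp u j = -t * (UU u i - UU u j) := by linarith
  rw [h4] at h1
  have h5 := hi j
  have h6 : 0 ≤ t * (UU u i - UU u j) := mul_nonneg ht (by linarith)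
  linarith

end KZP
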