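import Mathlib

/-!
# KZP-SP5A: a continuous square root along a path; a small root of a cubic

`exists_sqrt`: let `U = {x | g x ≠ 0}` (open in `ℝ`).  For every set `C : Set ℝ` choose (if it exists)
a function `F C : ℝ → ℂ`, continuous on `C`, with `(F C x)² = g x` for all `x`; put
`s x = F (connectedComponentIn U x) x` for `x ∈ U`, `0` otherwise.  For `x ∈ U` the set
`C = connectedComponentIn U x` is open, preconnected, hence convex and simply connected, and
`0 ∉ g '' C`: `Complex.exists_continuousOn_pow_eq` (Mathlib, `Analysis/Complex/BranchLogRoot`), and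
`connectedComponentIn U y = C` for `y ∈ C`, so `s = F C` near `x`.  At zeros of `g` use `‖s‖² = ‖g‖`.
-/

namespace KZP

theorem exists_sqrt (g : ℝ → ℂ) (hg : Continuous g) : ∃ s : ℝ → ℂ, Continuous s ∧ ∀ x, s x ^ 2 = g x := by
  classical
  set U : Set ℝ := {x | g x ≠ 0} with hU
  have hUo : IsOpen U := isOpen_ne_fun hg continuous_const
  have hex : ∀ x ∈ U, ∃ f : ℝ → ℂ, ContinuousOn f (connectedComponentIn U x) ∧ ∀ y, f y ^ 2 = g y := by
    intro x hx
    have hpre : IsPreconnected (connectedComponentIn U x) := isPreconnected_connectedComponentIn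
    have hconv : Convex ℝ (connectedComponentIn U x) := hpre.ordConnected.convex
    have hne : (connectedComponentIn U x).Nonempty := ⟨x, mem_connectedComponentIn hx⟩
    have hctr : ContractibleSpace (connectedComponentIn U x) := hconv.contractibleSpace hne
    have hsc : IsSimplyConnected (connectedComponentIn U x) :=
      (inferInstance : SimplyConnectedSpace (connectedComponentIn U x))
    refine Complex.exists_continuousOn_pow_eq hsc hUo.connectedComponentIn hg.continuousOn ?_
      two_ne_zero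
    rintro ⟨y, hy, hy0⟩
    exact connectedComponentIn_subset U x hy hy0
  set F : Set ℝ → ℝ → ℂ := fun C => if h : ∃ f : ℝ → ℂ, ContinuousOn f C ∧ ∀ y, f y ^ 2 = g y then
    h.choose else fun _ => 0 with hF
  have hFs : ∀ x ∈ U, ContinuousOn (F (connectedComponentIn U x)) (connectedComponentIn U x) ∧
      ∀ y, F (connectedComponentIn U x) y ^ 2 = g y := by
    intro x hx
    simp only [hF]
    rw [dif_pos (hex x hx)]
    exact (hex x hx).choose_spec
  set s : ℝ → ℂ := fun x => if x ∈ U then F (connectedComponentIn U x) x else 0 with hs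
  have hs2 : ∀ x, s x ^ 2 = g x := by
    intro x
    by_cases hx : x ∈ U
    · simp only [hs]
      rw [if_pos hx]
      exact (hFs x hx).2 x
    · simp only [hs]
      rw [if_neg hx]
      have : g x = 0 := by
        by_contra h
        exact hx h
      rw [this]; ring
  refine ⟨s, ?_, hs2⟩
  rw [continuous_iff_continuousAt]
  intro x
  by_cases hx : x ∈ U
  · have hCo : IsOpen (connectedComponentIn U x) := hUo.connectedComponentIn
    have hxC : x ∈ connectedComponentIn U x := mem_connectedComponentIn hx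
    have h1 : ContinuousAt (F (connectedComponentIn U x)) x :=
      (hFs x hx).1.continuousAt (hCo.mem_nhds hxC)
    refine h1.congr ?_
    filter_upwards [hCo.mem_nhds hxC] with y hy
    have hyU : y ∈ U := connectedComponentIn_subset U x hy
    simp only [hs]
    rw [if_pos hyU, connectedComponentIn_eq hy]
  · have hgx : g x = 0 := by
      by_contra h
      exact hx h
    have hsx : s x = 0 := by
      simp only [hs]
      rw [if_neg hx]
    have hnorm : ∀ y, ‖s y‖ = Real.sqrt ‖g y‖ := by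
      intro y
      rw [← hs2 y, norm_pow, Real.sqrt_sq (norm_nonneg _)]
    show Filter.Tendsto s (nhds x) (nhds (s x))
    rw [hsx]
    rw [tendsto_zero_iff_norm_tendsto_zero]
    have h2 : Continuous fun y => Real.sqrt ‖g y‖ := Real.continuous_sqrt.comp hg.norm
    have h3 := h2.tendsto x
    simp only [hgx, norm_zero, Real.sqrt_zero] at h3
    refine h3.congr fun y => ?_
    rw [hnorm y]

/-- the product of the three roots is `-c` -/
theorem small_root (a b c : ℂ) (ε : ℝ) (hε : 0 < ε) (hc : ‖c‖ < ε ^ 3) :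
    ∃ z : ℂ, z ^ 3 + a * z ^ 2 + b * z + c = 0 ∧ ‖z‖ < ε := by
  obtain ⟨z1, hz1⟩ : ∃ z : ℂ, z ^ 3 + a * z ^ 2 + b * z + c = 0 := by
    have hdeg : (Polynomial.C (1 : ℂ) * Polynomial.X ^ 3 + Polynomial.C a * Polynomial.X ^ 2 +
        Polynomial.C b * Polynomial.X + Polynomial.C c).degree ≠ 0 := by
      rw [Polynomial.degree_cubic one_ne_zero]
      decide
    obtain ⟨z, hz⟩ := IsAlgClosed.exists_root _ hdeg
    refine ⟨z, ?_⟩
    have h1 : Polynomial.eval z (Polynomial.C (1 : ℂ) * Polynomial.X ^ 3 +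
      Polynomial.C a * Polynomial.X ^ 2 + Polynomial.C b * Polynomial.X + Polynomial.C c) = 0 := hz
    simp only [Polynomial.eval_add, Polynomial.eval_mul, Polynomial.eval_C, Polynomial.eval_pow,
      Polynomial.eval_X, one_mul] at h1
    exact h1
  obtain ⟨s, hs⟩ : ∃ s : ℂ, s ^ 2 = (a + z1) ^ 2 - 4 * (z1 ^ 2 + a * z1 + b) :=
    IsAlgClosed.exists_pow_nat_eq _ (by norm_num)
  obtain ⟨z2, hz2⟩ : ∃ z2 : ℂ, z2 = (-(a + z1) + s) / 2 := ⟨_, rfl⟩
  obtain ⟨z3, hz3⟩ : ∃ z3 : ℂ, z3 = -(a + z1) - z2 := ⟨_, rfl⟩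
  have hq2 : z2 ^ 2 + (a + z1) * z2 + (z1 ^ 2 + a * z1 + b) = 0 := by
    rw [hz2]; linear_combination hs / 4
  have hq3 : z3 ^ 2 + (a + z1) * z3 + (z1 ^ 2 + a * z1 + b) = 0 := by
    rw [hz3]; linear_combination hq2
  have hr2 : z2 ^ 3 + a * z2 ^ 2 + b * z2 + c = 0 := by
    linear_combination (z2 - z1) * hq2 + hz1
  have hr3 : z3 ^ 3 + a * z3 ^ 2 + b * z3 + c = 0 := by
    linear_combination (z3 - z1) * hq3 + hz1
  have hprod : z1 * z2 * z3 = -c := by
    rw [hz3]
    linear_combination (-z1) * hq2 + hz1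
  by_contra hcon
  push Not at hcon
  have h1 := hcon z1 hz1
  have h2 := hcon z2 hr2
  have h3 := hcon z3 hr3
  have h4 : ‖z1‖ * ‖z2‖ * ‖z3‖ = ‖c‖ := by
    rw [← norm_mul, ← norm_mul, hprod, norm_neg]
  have h5 : ε ^ 3 ≤ ‖z1‖ * ‖z2‖ * ‖z3‖ := by
    calc ε ^ 3 = ε * ε * ε := by ring
      _ ≤ ‖z1‖ * ‖z2‖ * ‖z3‖ := by gcongr
  linarith

end KZP
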