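import Pool.Agent.KZP.SP0
import Pool.Agent.KZP.SP5A
import Pool.Agent.KZP.L3

/-!
# KZP-SP5C: arcs for small `l`
-/

open scoped BigOperators
open Complex

namespace KZP

/-- there is `ε > 0` such that for `‖z‖ < ε` no point of the segment from `x_i²` to `z` is one of the
`x_k²`, except the starting point (`k = i`) -/
theorem seg_avoid {x : Fin 5 → ℂ} (hx : x ∈ Adm)
    (hr : ∀ i k, i ≠ k → ∀ r : ℝ, 0 ≤ r → x k ^ 2 ≠ r * x i ^ 2) :
    ∃ ε : ℝ, 0 < ε ∧ ∀ z : ℂ, ‖z‖ < ε → ∀ i k : Fin 5, ∀ t : ℝ, 0 < t → t ≤ 1 →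
      (1 - t : ℂ) * x i ^ 2 + t * z ≠ x k ^ 2 := by
  have key : ∀ i k : Fin 5, ∀ᶠ z in nhds (0 : ℂ), ∀ t : ℝ, 0 < t → t ≤ 1 →
      (1 - t : ℂ) * x i ^ 2 + t * z ≠ x k ^ 2 := by
    intro i k
    rw [Metric.eventually_nhds_iff]
    by_cases hik : i = k
    · subst hik
      have h0 : x i ^ 2 ≠ 0 := pow_ne_zero 2 (hx.2.1 i)
      refine ⟨‖x i ^ 2‖, norm_pos_iff.2 h0, fun z hz t ht _ he => ?_⟩
      rw [dist_zero_right] at hz
      have h1 : (t : ℂ) * (z - x i ^ 2) = 0 := by linear_combination he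
      have ht' : (t : ℂ) ≠ 0 := by exact_mod_cast ht.ne'
      have h2 := (mul_eq_zero.1 h1).resolve_left ht'
      rw [sub_eq_zero.1 h2] at hz
      exact lt_irrefl _ hz
    · obtain ⟨s0, hs0, hmin⟩ := isCompact_Icc.exists_isMinOn (s := Set.Icc (0 : ℝ) 1)
        ⟨0, by simp⟩ (f := fun s : ℝ => ‖x k ^ 2 - s * x i ^ 2‖) (by fun_prop)
      have hpos : 0 < ‖x k ^ 2 - (s0 : ℂ) * x i ^ 2‖ :=
        norm_pos_iff.2 (sub_ne_zero.2 (hr i k hik s0 hs0.1))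
      refine ⟨_, hpos, fun z hz t ht ht1 he => ?_⟩
      rw [dist_zero_right] at hz
      have h1 := isMinOn_iff.1 hmin (1 - t) ⟨by linarith, by linarith⟩
      have h2 : x k ^ 2 - ((1 - t : ℝ) : ℂ) * x i ^ 2 = t * z := by
        push_cast
        linear_combination -he
      rw [h2, norm_mul, Complex.norm_real, Real.norm_of_nonneg ht.le] at h1
      have h3 : t * ‖z‖ ≤ ‖z‖ := mul_le_of_le_one_left (norm_nonneg _) ht1
      linarith
  have hall : ∀ᶠ z in nhds (0 : ℂ), ∀ i k : Fin 5, ∀ t : ℝ, 0 < t → t ≤ 1 →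
      (1 - t : ℂ) * x i ^ 2 + t * z ≠ x k ^ 2 := by
    rw [Filter.eventually_all]
    intro i
    rw [Filter.eventually_all]
    exact key i
  obtain ⟨ε, hε, h⟩ := Metric.eventually_nhds_iff.1 hall
  exact ⟨ε, hε, fun z hz => h (by rw [dist_zero_right]; exact hz)⟩

/-- the discriminant `D` -/
noncomputable def sp5c_D (x : Fin 5 → ℂ) (l a : ℂ) : ℂ :=
  l ^ 2 * (a + be x) ^ 2 / 4 + a ^ 3 - l * (al x * a ^ 2 + ga x * a + de x)

theorem sp5c_curve (x : Fin 5 → ℂ) (l a R : ℂ) (h : R ^ 2 = sp5c_D x l a) :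
    (-l * (a + be x) / 2 + R) ^ 2 - a ^ 3 + l * hh x a (-l * (a + be x) / 2 + R) = 0 := by
  unfold sp5c_D at h
  unfold hh
  linear_combination h

theorem sp5c_zero {x : Fin 5 → ℂ} (hx : x ∈ Adm) (i : Fin 5) :
    hh x (x i ^ 2) (x i ^ 3) = 0 := by
  rw [hh_cusp x hx.1 (x i)]
  fin_cases i <;> simp

theorem sp5c_R {x : Fin 5 → ℂ} (hx : x ∈ Adm) (l : ℂ) (i : Fin 5) :
    (x i ^ 3 + l * (x i ^ 2 + be x) / 2) ^ 2 = sp5c_D x l (x i ^ 2) := by
  have h := sp5c_zero hx i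
  unfold hh at h
  unfold sp5c_D
  linear_combination l * h

theorem sp5c_path {x : Fin 5 → ℂ} (hx : x ∈ Adm) (l z : ℂ) (hz : sp5c_D x l z = 0)
    (hav : ∀ i k : Fin 5, ∀ t : ℝ, 0 < t → t ≤ 1 → (1 - t : ℂ) * x i ^ 2 + t * z ≠ x k ^ 2)
    (i j : Fin 5) : ∃ g : ℝ → Pt, Continuous g ∧ g 0 = sPt x i ∧ g 1 = sPt x j ∧
      (∀ t, g t ∈ Curve (sPar l x)) ∧ ∀ t ∈ Set.Ioo (0:ℝ) 1, ∀ k, g t ≠ sPt x k := by
  obtain ⟨a, ha⟩ : ∃ a : ℝ → ℂ, ∀ t, a t = z + ((max (1 - 2 * t) 0 : ℝ) : ℂ) * (x i ^ 2 - z) +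
      ((max (2 * t - 1) 0 : ℝ) : ℂ) * (x j ^ 2 - z) := ⟨_, fun _ => rfl⟩
  have hac : Continuous a := by
    have e : a = fun t => z + ((max (1 - 2 * t) 0 : ℝ) : ℂ) * (x i ^ 2 - z) +
      ((max (2 * t - 1) 0 : ℝ) : ℂ) * (x j ^ 2 - z) := funext ha
    rw [e]
    fun_prop
  have ha0 : a 0 = x i ^ 2 := by
    rw [ha, max_eq_left (by norm_num), max_eq_right (by norm_num)]
    push_cast
    ring
  have ha1 : a 1 = x j ^ 2 := by
    rw [ha, max_eq_right (by norm_num), max_eq_left (by norm_num)]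
    push_cast
    ring
  have hah : a (1 / 2) = z := by
    rw [ha, max_eq_right (by norm_num), max_eq_right (by norm_num)]
    push_cast
    ring
  have hDc : Continuous fun t => sp5c_D x l (a t) := by
    unfold sp5c_D
    fun_prop
  obtain ⟨S, hSc, hS⟩ := exists_sqrt _ hDc
  have hSh : S (1 / 2) = 0 := by
    have h := hS (1 / 2)
    rw [hah, hz] at h
    exact pow_eq_zero_iff two_ne_zero |>.1 h
  have hsign : ∀ (k : Fin 5) (t : ℝ), a t = x k ^ 2 → ∃ e : ℂ, e ^ 2 = 1 ∧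
      e * S t = x k ^ 3 + l * (x k ^ 2 + be x) / 2 := by
    intro k t hk
    have h := hS t
    rw [hk, ← sp5c_R hx l k] at h
    rcases sq_eq_sq_iff_eq_or_eq_neg.1 h with h' | h'
    · exact ⟨1, by ring, by rw [h']; ring⟩
    · exact ⟨-1, by ring, by rw [h']; ring⟩
  obtain ⟨e0, he0, he0'⟩ := hsign i 0 ha0
  obtain ⟨e1, he1, he1'⟩ := hsign j 1 ha1
  obtain ⟨R, hR⟩ : ∃ R : ℝ → ℂ, ∀ t, R t = if t ≤ 1 / 2 then e0 * S t else e1 * S t :=
    ⟨_, fun _ => rfl⟩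
  have hRc : Continuous R := by
    have e : R = fun t => if t ≤ 1 / 2 then e0 * S t else e1 * S t := funext hR
    rw [e]
    refine Continuous.if_le (by fun_prop) (by fun_prop) continuous_id continuous_const ?_
    intro t ht
    rw [ht, hSh, mul_zero, mul_zero]
  have hR2 : ∀ t, R t ^ 2 = sp5c_D x l (a t) := by
    intro t
    rw [hR]
    split_ifs
    · rw [mul_pow, he0, one_mul, hS]
    · rw [mul_pow, he1, one_mul, hS]
  have hR0 : R 0 = x i ^ 3 + l * (x i ^ 2 + be x) / 2 := by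
    rw [hR, if_pos (by norm_num), he0']
  have hR1 : R 1 = x j ^ 3 + l * (x j ^ 2 + be x) / 2 := by
    rw [hR, if_neg (by norm_num), he1']
  obtain ⟨Z, hZ⟩ : ∃ Z : ℝ → ℂ, ∀ t, Z t = -l * (a t + be x) / 2 + R t := ⟨_, fun _ => rfl⟩
  have hZc : Continuous Z := by
    have e : Z = fun t => -l * (a t + be x) / 2 + R t := funext hZ
    rw [e]
    fun_prop
  have hZ0 : Z 0 = x i ^ 3 := by
    rw [hZ, ha0, hR0]
    ring
  have hZ1 : Z 1 = x j ^ 3 := by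
    rw [hZ, ha1, hR1]
    ring
  have hHc : Continuous fun t => hh x (a t) (Z t) := by
    unfold hh
    fun_prop
  obtain ⟨Y, hYc, hY⟩ := exists_sqrt _ hHc
  have hY0 : Y 0 = 0 := by
    have h := hY 0
    rw [ha0, hZ0, sp5c_zero hx i] at h
    exact pow_eq_zero_iff two_ne_zero |>.1 h
  have hY1 : Y 1 = 0 := by
    have h := hY 1
    rw [ha1, hZ1, sp5c_zero hx j] at h
    exact pow_eq_zero_iff two_ne_zero |>.1 h
  refine ⟨fun t => ![a t + be x, Y t, Z t + al x * a t + ka x], ?_, ?_, ?_, ?_, ?_⟩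
  · refine continuous_pi fun k => ?_
    fin_cases k <;> simp <;> fun_prop
  · show ![a 0 + be x, Y 0, Z 0 + al x * a 0 + ka x] = sPt x i
    rw [ha0, hY0, hZ0]
    rfl
  · show ![a 1 + be x, Y 1, Z 1 + al x * a 1 + ka x] = sPt x j
    rw [ha1, hY1, hZ1]
    rfl
  · intro t
    constructor
    · show f1 (sPar l x) ![a t + be x, Y t, Z t + al x * a t + ka x] = 0
      rw [f1_new, hY, sub_self]
    · show f2 (sPar l x) ![a t + be x, Y t, Z t + al x * a t + ka x] = 0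
      rw [f2_new, hZ]
      exact sp5c_curve x l (a t) (R t) (hR2 t)
  · intro t ht k he
    have h1 : a t + be x = x k ^ 2 + be x := congrFun he 0
    have h2 : a t = x k ^ 2 := add_right_cancel h1
    rcases le_total t (1 / 2) with h | h
    · refine hav i k (2 * t) (by linarith [ht.1]) (by linarith) ?_
      rw [← h2, ha, max_eq_left (by linarith), max_eq_right (by linarith)]
      push_cast
      ring
    · refine hav j k (2 - 2 * t) (by linarith [ht.2]) (by linarith) ?_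
      rw [← h2, ha, max_eq_right (by linarith), max_eq_left (by linarith)]
      push_cast
      ring

/-- Proof.  Let `D X₀ = l² (X₀+β)²/4 + X₀³ - l (α X₀² + γ X₀ + δ)` (monic cubic, constant term
`l² β²/4 - l δ → 0`), `z` a root with `‖z‖ < ε` (`small_root`, `seg_avoid`), for `l ≤ l1`.  For `i : Fin 4`
let `X₀ t = (1 - 2t) x_i² + 2t z` for `t ≤ 1/2`, `(2 - 2t) z + (2t - 1) x_4²` for `t ≥ 1/2` (continuous on
`ℝ`), `S` a continuous square root of `D ∘ X₀` (`exists_sqrt`); `S(1/2) = 0`; with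
`R_i = x_i³ + l (x_i² + β)/2` one has `R_i² = D (x_i²)` (because `hh x (x_i²) (x_i³) = 0`), so
`S 0 = ± R_i`, `S 1 = ± R_4`: let `R = ± S` on `t ≤ 1/2` and `± S` on `t ≥ 1/2`, with the signs such that
`R 0 = R_i`, `R 1 = R_4`; continuous.  `Z₀ t = - l (X₀ t + β)/2 + R t`, so
`Z₀² - X₀³ + l hh x X₀ Z₀ = R² - D = 0`.  `Y` a continuous square root of `hh x (X₀ t) (Z₀ t)`.
`g i t = ![X₀ + β, Y, Z₀ + α X₀ + κ]`: on the curve by `f1_new`, `f2_new`; `g i 0 = sPt x i` (as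
`Y 0 ^ 2 = hh x (x_i²) (x_i³) = 0`), `g i 1 = sPt x 4`; for `0 < t < 1` the first coordinate is not
`x_k² + β` (`seg_avoid` for `i` with parameter `2t`, or for `4` with parameter `2 - 2t`). -/
theorem arcs_small {x : Fin 5 → ℂ} (hx : x ∈ Adm)
    (hr : ∀ i k, i ≠ k → ∀ r : ℝ, 0 ≤ r → x k ^ 2 ≠ r * x i ^ 2) :
    ∃ l1 : ℝ, 0 < l1 ∧ ∀ l : ℝ, 0 < l → l ≤ l1 → HasArcs (sPar l x, sPt x) := by
  obtain ⟨ε, hε, hav⟩ := seg_avoid hx hr
  have hK : 0 < ‖be x‖ ^ 2 / 4 + ‖de x‖ + 1 := by positivity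
  refine ⟨min 1 (ε ^ 3 / (2 * (‖be x‖ ^ 2 / 4 + ‖de x‖ + 1))), by positivity, fun l hl hl1 => ?_⟩
  have hl2 : l ≤ 1 := hl1.trans (min_le_left _ _)
  have hl3 : l * (2 * (‖be x‖ ^ 2 / 4 + ‖de x‖ + 1)) ≤ ε ^ 3 := by
    have := hl1.trans (min_le_right _ _)
    rwa [le_div_iff₀ (by positivity)] at this
  have hε3 : 0 < ε ^ 3 := by positivity
  have hc : ‖(l : ℂ) ^ 2 * be x ^ 2 / 4 - l * de x‖ < ε ^ 3 := by
    have h1 : ‖(l : ℂ) ^ 2 * be x ^ 2 / 4 - l * de x‖ ≤ l ^ 2 * ‖be x‖ ^ 2 / 4 + l * ‖de x‖ := by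
      refine (norm_sub_le _ _).trans (le_of_eq ?_)
      rw [norm_div, norm_mul, norm_mul, norm_pow, norm_pow, Complex.norm_real,
        Real.norm_of_nonneg hl.le]
      norm_num
    have h2 : l ^ 2 * ‖be x‖ ^ 2 / 4 ≤ l * (‖be x‖ ^ 2 / 4) := by
      have h3 : l ^ 2 ≤ l := by nlinarith
      have h4 : 0 ≤ ‖be x‖ ^ 2 / 4 := by positivity
      nlinarith
    nlinarith
  obtain ⟨z, hz, hzε⟩ := small_root ((l : ℂ) ^ 2 / 4 - l * al x)
    ((l : ℂ) ^ 2 * be x / 2 - l * ga x) ((l : ℂ) ^ 2 * be x ^ 2 / 4 - l * de x) ε hε hc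
  have hD : sp5c_D x l z = 0 := by
    unfold sp5c_D
    linear_combination hz
  have hpath := fun i : Fin 4 => sp5c_path hx l z hD (hav z hzε) i.castSucc 4
  choose g hg using hpath
  exact ⟨g, fun i => (hg i).1.continuousOn, fun i => (hg i).2.1, fun i => (hg i).2.2.1,
    fun i t _ => (hg i).2.2.2.1 t, fun i => (hg i).2.2.2.2⟩

end KZP
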