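import Pool.Agent.KZP.SP2
import Pool.Agent.KZP.SP4C
import Pool.Agent.KZP.SP5C

/-!
# KZP-SPH: the sphere block (assembly)
-/

open Complex

namespace KZP

theorem sphere_main :
    ∃ s : (Fin 4 → ℝ) → XS, ContinuousOn s (Sx 4) ∧ (∀ u ∈ Sx 4, nuX (s u) = s u) ∧
    ∃ α : (Fin 4 → ℝ) → Fin (4 + 1) → ℝ, ContinuousOn α (Sx 4) ∧
      (∀ u ∈ Sx 4, ∀ i, GX (s u) i = ‖GX (s u) i‖ * cexp (α u i * I)) ∧
      (∀ u ∈ Sx 4, ∀ t : ℝ, 0 ≤ t →
        (fun i : Fin 4 => α u i.castSucc - α u (Fin.last 4)) ≠ -t • u) ∧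
    ∃ u0 ∈ Sx 4, HasArcs (s u0).1 := by
  classical
  obtain ⟨l0, hl0, hs0⟩ := smooth_small (xx '' Sx 4) isCompact_image_xx (by
    rintro _ ⟨u, hu, rfl⟩; exact xx_Adm hu)
  obtain ⟨l1, hl1, hs1⟩ := arcs_small (xx_Adm ub_mem) (fun i k h r hr => ub_ratio h r hr)
  set l := min l0 l1 with hl
  have hlp : 0 < l := lt_min hl0 hl1
  have hmem : ∀ u ∈ Sx 4, ((sPar l (xx u), sPt (xx u)) : Tot) ∈ XS := fun u hu =>
    ⟨hs0 l hlp (min_le_left _ _) _ ⟨u, hu, rfl⟩, fun i => sPt_mem l (xx_Adm hu) i,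
      sPt_inj (xx_Adm hu)⟩
  let s : (Fin 4 → ℝ) → XS := fun u =>
    if hu : u ∈ Sx 4 then ⟨(sPar l (xx u), sPt (xx u)), hmem u hu⟩
    else ⟨(sPar l (xx ub), sPt (xx ub)), hmem ub ub_mem⟩
  have hsv : ∀ u ∈ Sx 4, (s u).1 = (sPar l (xx u), sPt (xx u)) := fun u hu => by
    simp only [s, dif_pos hu]
  refine ⟨s, ?_, ?_, alp, continuousOn_alp, ?_, ?_, ub, ub_mem, ?_⟩
  · rw [Topology.IsInducing.subtypeVal.continuousOn_iff]
    have : ContinuousOn (fun u : Fin 4 → ℝ => ((sPar l (xx u), sPt (xx u)) : Tot)) (Sx 4) := by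
      refine ContinuousOn.prodMk ?_ ?_
      · exact (continuous_sPar.comp (Continuous.prodMk continuous_const continuous_id)).comp_continuousOn
          continuousOn_xx
      · exact continuous_sPt.comp_continuousOn continuousOn_xx
    exact this.congr fun u hu => hsv u hu
  · intro u hu
    apply Subtype.ext
    show nu (s u).1 = (s u).1
    rw [hsv u hu, nu_new]
  · intro u hu i
    have : GX (s u) i = Gval (xx u) i := by
      show Gf (s u).1 i = _
      rw [hsv u hu]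
      exact Gf_new l (xx_Adm hu) i
    rw [this]
    exact Gval_polar hu i
  · intro u hu t ht
    exact direction hu t ht
  · rw [hsv ub ub_mem]
    exact hs1 l hlp (min_le_right _ _)

end KZP
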