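import Pool.Agent.KZP.TOP
import Pool.Agent.KZP.SPH

open Complex

namespace KZP

theorem main : ∃ k : ℕ, 3 ≤ k ∧ k ≤ 18 ∧ ∃ x : XS, Nontrivial (HomotopyGroup (Fin k) XS x) := by
  by_contra hcon
  have hπ : ∀ j : ℕ, 4 - 1 ≤ j → j ≤ 4 + 14 → ∀ x : XS, Subsingleton (HomotopyGroup (Fin j) XS x) := by
    intro j h1 h2 x
    rw [← not_nontrivial_iff_subsingleton]
    intro h
    exact hcon ⟨j, by omega, by omega, x, h⟩
  obtain ⟨s, hs, hsν, α, hα, hαG, hdir, u0, hu0, hg⟩ := sphere_main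
  have hνc : Continuous nuX :=
    (isometry_nu.continuous.comp continuous_subtype_val).subtype_mk _
  refine top nuX hνc (fun x => Subtype.ext (nu_nu x.1)) 4 14 (by norm_num) (by norm_num)
    (fun q : XS => betaR q.1) (continuous_betaR.comp continuous_subtype_val)
    (fun x => betaR_nu x.1) (fun x h => Subtype.ext (betaR_zero x.1 h))
    GX (continuous_Gf.comp continuous_subtype_val)
    (fun x h i => (fixed_G x.1 x.2 (congrArg Subtype.val h)).2.2.2.1 i)
    (fun x h => (fixed_G x.1 x.2 (congrArg Subtype.val h)).2.2.2.2.1)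
    s hs hsν α hα hαG hdir u0 hu0
    (lift_main (s u0) (hsν u0 hu0) hg _) hπ

end KZP
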