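import Mathlib

/-!
# KZP-NC: a space with a nontrivial higher homotopy group is not covered by `Y × ℂˣ`, `Y` contractible

Used for the orbifold `[X/ℂˣ]`: its orbifold universal cover `Y` gives the principal `ℂˣ`-bundle
`P = X ×_{[X/ℂˣ]} Y → Y` and the covering map `P → X`; if `Y` is contractible then `P = Y × ℂˣ`.

Proof.  Suppose `x = p e`, `e = (y, c)`.
(a) `lift_cube`: a map `f` of the cube to the base of a covering with `f = p e` on the boundary lifts
to a map of the cube which is `e` on the boundary (dimension at least two).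
(b) Applied to `p` and to `exp : ℂ → ℂ \ 0` this gives `F : cube → Y × ℂ`, constant on the boundary, with
`f = P ∘ F`, `P (y, w) = p (y, exp w)`.
(c) `contractible_null`: `F` is homotopic to a constant map relative to the boundary, as `Y × ℂ` is
contractible.
-/

open unitInterval

namespace KZP

theorem lift_cube {E X : Type*} [TopologicalSpace E] [TopologicalSpace X] {p : E → X}
    (hp : IsCoveringMap p) (k : ℕ) (hk : 2 ≤ k) (f : C(Fin k → I, X)) (e : E)
    (hf : ∀ z ∈ Cube.boundary (Fin k), f z = p e) :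
    ∃ F : C(Fin k → I, E), (∀ z, p (F z) = f z) ∧ ∀ z ∈ Cube.boundary (Fin k), F z = e := by
  have h0b : (fun _ => 0 : Fin k → I) ∈ Cube.boundary (Fin k) := ⟨⟨0, by omega⟩, Or.inl rfl⟩
  let sc : C(I × (Fin k → I), Fin k → I) := ⟨fun x i => x.1 * x.2 i, by fun_prop⟩
  let H : C(I × (Fin k → I), X) := f.comp sc
  have H_0 : ∀ a, H (0, a) = p (ContinuousMap.const (Fin k → I) e a) := by
    intro a
    show f (fun i => 0 * a i) = p e
    rw [← hf _ h0b]
    congr 1
    funext i
    exact zero_mul _
  let L := hp.liftHomotopy H (ContinuousMap.const _ e) H_0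
  have hL : ∀ x, p (L x) = H x := fun x => congrFun (hp.liftHomotopy_lifts H _ H_0) x
  have hL0 : ∀ a, L (0, a) = e := fun a => hp.liftHomotopy_zero H _ H_0 a
  let F : C(Fin k → I, E) := L.comp ⟨fun z => (1, z), by fun_prop⟩
  have hF : ∀ z, p (F z) = f z := by
    intro z
    show p (L (1, z)) = f z
    rw [hL]
    show f (fun i => 1 * z i) = f z
    congr 1
    funext i
    exact one_mul _
  have hF0 : F (fun _ => 0) = e := by
    have h1 : L (1, fun _ => 0) = L (0, fun _ => 0) := by
      refine hp.const_of_comp (g := fun t : I => L (t, fun _ => 0)) (by fun_prop) ?_ 1 0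
      intro t t'
      rw [hL, hL]
      show f (fun i => t * 0) = f (fun i => t' * 0)
      simp only [mul_zero]
    show L (1, fun _ => 0) = e
    rw [h1, hL0]
  have hpath : ∀ γ : C(I, Fin k → I), (∀ t, γ t ∈ Cube.boundary (Fin k)) → F (γ 1) = F (γ 0) := by
    intro γ hγ
    refine hp.const_of_comp (g := fun t : I => F (γ t)) (by fun_prop) ?_ 1 0
    intro t t'
    rw [hF, hF, hf _ (hγ t), hf _ (hγ t')]
  refine ⟨F, hF, ?_⟩
  rintro z ⟨i, hi | hi⟩
  · have h1 := hpath ⟨fun t j => t * z j, by fun_prop⟩ (fun t => ⟨i, Or.inl (by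
      show t * z i = 0
      rw [hi, mul_zero])⟩)
    have h2 : (fun j => 1 * z j : Fin k → I) = z := by
      funext j
      exact one_mul _
    have h3 : (fun j => 0 * z j : Fin k → I) = fun _ => 0 := by
      funext j
      exact zero_mul _
    simp only [ContinuousMap.coe_mk, h2, h3] at h1
    rw [h1, hF0]
  · classical
    have h1 := hpath ⟨fun t j => if j = i then 1 else t * z j, by
      refine continuous_pi fun j => ?_
      split_ifs
      · exact continuous_const
      · fun_prop⟩ (fun t => ⟨i, Or.inr (by simp)⟩)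
    obtain ⟨j, hj⟩ : ∃ j : Fin k, j ≠ i := by
      by_cases h : (i : ℕ) = 0
      · exact ⟨⟨1, by omega⟩, fun hh => by rw [← hh] at h; simp at h⟩
      · exact ⟨⟨0, by omega⟩, fun hh => h (by rw [← hh])⟩
    have h2 := hpath ⟨fun t j => if j = i then t else 0, by
      refine continuous_pi fun j => ?_
      split_ifs
      · fun_prop
      · exact continuous_const⟩ (fun t => ⟨j, Or.inl (by simp [hj])⟩)
    have h3 : (fun j => if j = i then 1 else 1 * z j : Fin k → I) = z := by
      funext j
      by_cases h : j = i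
      · rw [if_pos h, h, hi]
      · rw [if_neg h, one_mul]
    have h4 : (fun j => if j = i then 1 else 0 * z j : Fin k → I) =
        fun j => if j = i then 1 else 0 := by
      funext j
      rw [zero_mul]
    have h5 : (fun j => if j = i then 0 else 0 : Fin k → I) = fun _ => 0 := by
      funext j
      simp
    simp only [ContinuousMap.coe_mk, h3, h4, h5] at h1 h2
    rw [h1, h2, hF0]

theorem mk_rel {A W : Type*} [TopologicalSpace A] [TopologicalSpace W] {f₀ f₁ : C(A, W)} {S : Set A}
    (H : C(I × A, W)) (h0 : ∀ a, H (0, a) = f₀ a) (h1 : ∀ a, H (1, a) = f₁ a)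
    (hS : ∀ t, ∀ a ∈ S, H (t, a) = f₀ a) : f₀.HomotopicRel f₁ S :=
  ⟨{ toContinuousMap := H
     map_zero_left := h0
     map_one_left := h1
     prop' := fun t a ha => hS t a ha }⟩

/-- clamping to the unit interval -/
noncomputable def clI (x : ℝ) : I := Set.projIcc 0 1 zero_le_one x

theorem continuous_clI : Continuous clI := continuous_projIcc (h := zero_le_one)

theorem clI_zero {x : ℝ} (h : x ≤ 0) : clI x = 0 := Set.projIcc_of_le_left _ h

theorem clI_one {x : ℝ} (h : 1 ≤ x) : clI x = 1 := Set.projIcc_of_right_le _ h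

theorem clI_coe (x : I) : clI x = x := Set.projIcc_val _ x

theorem contractible_null {W : Type*} [TopologicalSpace W] [ContractibleSpace W] {k : ℕ}
    (F : C(Fin k → I, W)) (w : W) (hF : ∀ z ∈ Cube.boundary (Fin k), F z = w) :
    F.HomotopicRel (ContinuousMap.const _ w) (Cube.boundary (Fin k)) := by
  obtain ⟨y₀, ⟨h⟩⟩ := id_nullhomotopic W
  -- the stretching map
  let S : C(I × (Fin k → I), Fin k → I) :=
    ⟨fun x i => clI ((1 + (x.1 : ℝ)) * (x.2 i : ℝ) - (x.1 : ℝ) / 2), by
      refine continuous_pi fun i => continuous_clI.comp ?_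
      fun_prop⟩
  have hS0 : ∀ z, S (0, z) = z := by
    intro z
    funext i
    show clI ((1 + ((0 : I) : ℝ)) * (z i : ℝ) - ((0 : I) : ℝ) / 2) = z i
    simp [clI_coe]
  have hSb : ∀ t, ∀ z ∈ Cube.boundary (Fin k), S (t, z) ∈ Cube.boundary (Fin k) := by
    rintro t z ⟨i, hi | hi⟩
    · refine ⟨i, Or.inl ?_⟩
      show clI ((1 + (t : ℝ)) * (z i : ℝ) - (t : ℝ) / 2) = 0
      refine clI_zero ?_
      rw [hi]
      have := t.2.1
      simp only [Set.Icc.coe_zero, mul_zero, zero_sub]
      linarith
    · refine ⟨i, Or.inr ?_⟩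
      show clI ((1 + (t : ℝ)) * (z i : ℝ) - (t : ℝ) / 2) = 1
      refine clI_one ?_
      rw [hi]
      have := t.2.1
      simp only [Set.Icc.coe_one, mul_one]
      linarith
  let E : C(Fin k → I, Fin k → I) := S.comp ⟨fun z => (1, z), by fun_prop⟩
  have hEb : ∀ z ∈ Cube.boundary (Fin k), E z ∈ Cube.boundary (Fin k) := fun z hz => hSb 1 z hz
  -- the collar function
  have hrc : Continuous (fun z : Fin k → I =>
      ∏ i, clI (4 * (z i : ℝ)) * clI (4 * (1 - (z i : ℝ)))) := by
    refine continuous_finsetProd _ fun i _ => ?_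
    have e1 : Continuous fun z : Fin k → I => 4 * (z i : ℝ) := by fun_prop
    have e2 : Continuous fun z : Fin k → I => 4 * (1 - (z i : ℝ)) := by fun_prop
    exact (continuous_clI.comp e1).mul (continuous_clI.comp e2)
  let r : C(Fin k → I, I) := ⟨fun z => ∏ i, clI (4 * (z i : ℝ)) * clI (4 * (1 - (z i : ℝ))), hrc⟩
  have hrb : ∀ z ∈ Cube.boundary (Fin k), r z = 0 := by
    intro z hz
    show ∏ i, clI (4 * (z i : ℝ)) * clI (4 * (1 - (z i : ℝ))) = 0
    rcases hz with ⟨i, hi | hi⟩
    · refine Finset.prod_eq_zero (Finset.mem_univ i) ?_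
      rw [hi, clI_zero (x := 4 * ((0 : I) : ℝ)) (by simp), zero_mul]
    · refine Finset.prod_eq_zero (Finset.mem_univ i) ?_
      rw [hi, clI_zero (x := 4 * (1 - ((1 : I) : ℝ))) (by simp), mul_zero]
  have hr1 : ∀ z, E z ∈ Cube.boundary (Fin k) ∨ r z = 1 := by
    intro z
    by_cases hz : ∀ i, 1 ≤ 4 * (z i : ℝ) ∧ 1 ≤ 4 * (1 - (z i : ℝ))
    · right
      show ∏ i, clI (4 * (z i : ℝ)) * clI (4 * (1 - (z i : ℝ))) = 1
      refine Finset.prod_eq_one fun i _ => ?_
      rw [clI_one (hz i).1, clI_one (hz i).2, one_mul]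
    · left
      push Not at hz
      obtain ⟨i, hi⟩ := hz
      by_cases h1 : 1 ≤ 4 * (z i : ℝ)
      · have h2 := hi h1
        refine ⟨i, Or.inr ?_⟩
        show clI ((1 + ((1 : I) : ℝ)) * (z i : ℝ) - ((1 : I) : ℝ) / 2) = 1
        refine clI_one ?_
        simp only [Set.Icc.coe_one]
        linarith
      · refine ⟨i, Or.inl ?_⟩
        show clI ((1 + ((1 : I) : ℝ)) * (z i : ℝ) - ((1 : I) : ℝ) / 2) = 0
        refine clI_zero ?_
        simp only [Set.Icc.coe_one]
        linarith
  let G : C(Fin k → I, W) := ⟨fun z => h (r z, w), by fun_prop⟩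
  have hh0 : ∀ y, h (0, y) = y := fun y => h.apply_zero y
  have hh1 : ∀ y, h (1, y) = y₀ := fun y => h.apply_one y
  have s1 : F.HomotopicRel (F.comp E) (Cube.boundary (Fin k)) := by
    refine mk_rel (F.comp S) ?_ ?_ ?_
    · intro z
      show F (S (0, z)) = F z
      rw [hS0]
    · intro z
      rfl
    · intro t z hz
      show F (S (t, z)) = F z
      rw [hF _ (hSb t z hz), hF z hz]
  have s2 : (F.comp E).HomotopicRel G (Cube.boundary (Fin k)) := by
    refine mk_rel ⟨fun x => h (x.1 * r x.2, F (E x.2)), by fun_prop⟩ ?_ ?_ ?_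
    · intro z
      show h (0 * r z, F (E z)) = F (E z)
      rw [zero_mul, hh0]
    · intro z
      show h (1 * r z, F (E z)) = h (r z, w)
      rw [one_mul]
      rcases hr1 z with h1 | h1
      · rw [hF _ h1]
      · rw [h1, hh1, hh1]
    · intro t z hz
      show h (t * r z, F (E z)) = F (E z)
      rw [hrb z hz, mul_zero, hh0]
  have s3 : G.HomotopicRel (ContinuousMap.const _ w) (Cube.boundary (Fin k)) := by
    refine mk_rel ⟨fun x => h (σ x.1 * r x.2, w), by fun_prop⟩ ?_ ?_ ?_
    · intro z
      show h (σ 0 * r z, w) = h (r z, w)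
      rw [unitInterval.symm_zero, one_mul]
    · intro z
      show h (σ 1 * r z, w) = w
      rw [unitInterval.symm_one, zero_mul, hh0]
    · intro t z hz
      show h (σ t * r z, w) = h (r z, w)
      rw [hrb z hz, mul_zero]
  exact (s1.trans s2).trans s3

theorem no_cover {X : Type*} [TopologicalSpace X] (x : X) (k : ℕ) (hk : 2 ≤ k)
    (h : Nontrivial (HomotopyGroup (Fin k) X x)) {Y : Type*} [TopologicalSpace Y]
    [ContractibleSpace Y] (p : Y × ℂˣ → X) (hp : IsCoveringMap p) : x ∉ Set.range p := by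
  rintro ⟨⟨y, c⟩, rfl⟩
  -- the map `Y × ℂ → X`
  let ex : C(ℂ, ℂˣ) := ⟨fun w => (unitsHomeomorphNeZero (G₀ := ℂ)).symm ⟨Complex.exp w, w.exp_ne_zero⟩,
    (unitsHomeomorphNeZero (G₀ := ℂ)).symm.continuous.comp
      (Complex.continuous_exp.subtype_mk _)⟩
  let P : C(Y × ℂ, X) := ⟨fun v => p (v.1, ex v.2), by
    have := hp.continuous
    fun_prop⟩
  obtain ⟨w, hw⟩ : ∃ w : ℂ, Complex.exp w = (c : ℂ) :=
    ⟨Complex.log c, Complex.exp_log c.ne_zero⟩
  have hex : ∀ (w : ℂ) (c : ℂˣ), Complex.exp w = (c : ℂ) → ex w = c := by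
    intro w c hw
    apply (unitsHomeomorphNeZero (G₀ := ℂ)).injective
    show (unitsHomeomorphNeZero (G₀ := ℂ)) ((unitsHomeomorphNeZero (G₀ := ℂ)).symm
      ⟨Complex.exp w, w.exp_ne_zero⟩) = _
    rw [Homeomorph.apply_symm_apply]
    exact Subtype.ext hw
  have key : ∀ f : GenLoop (Fin k) X (p (y, c)), GenLoop.Homotopic f GenLoop.const := by
    intro f
    obtain ⟨F', hF', hF'b⟩ := lift_cube hp k hk f.1 (y, c) (fun z hz => f.2 z hz)
    -- lift the second component
    let f2 : C(Fin k → I, {z : ℂ // z ≠ 0}) :=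
      ⟨fun z => unitsHomeomorphNeZero (F' z).2, by fun_prop⟩
    obtain ⟨g, hg, hgb⟩ := lift_cube Complex.isCoveringMap_exp k hk f2 w (by
      intro z hz
      show unitsHomeomorphNeZero (F' z).2 = _
      rw [hF'b z hz]
      exact Subtype.ext hw.symm)
    let F : C(Fin k → I, Y × ℂ) := ⟨fun z => ((F' z).1, g z), by fun_prop⟩
    have hFb : ∀ z ∈ Cube.boundary (Fin k), F z = (y, w) := by
      intro z hz
      show ((F' z).1, g z) = (y, w)
      rw [hF'b z hz, hgb z hz]
    have h1 := contractible_null F (y, w) hFb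
    have h2 := h1.comp_continuousMap P
    have h3 : P.comp F = f.1 := by
      ext z
      show p ((F' z).1, ex (g z)) = f.1 z
      rw [← hF' z]
      congr 1
      have h4 : ex (g z) = (F' z).2 := by
        apply hex
        have h5 := congrArg Subtype.val (hg z)
        exact h5
      rw [h4]
    have h4 : P.comp (ContinuousMap.const (Fin k → I) (y, w)) = (GenLoop.const : GenLoop (Fin k) X (p (y, c))).1 := by
      ext z
      show p (y, ex w) = p (y, c)
      rw [hex w c hw]
    rw [h3, h4] at h2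
    exact h2
  have hsub : Subsingleton (HomotopyGroup (Fin k) X (p (y, c))) := by
    refine ⟨fun a b => ?_⟩
    induction a using Quotient.inductionOn
    induction b using Quotient.inductionOn
    rename_i a b
    exact Quotient.sound ((key a).trans (key b).symm)
  exact not_subsingleton_iff_nontrivial.2 h hsub

end KZP
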