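import Pool.Agent.KZP.XDefs

/-!
# KZP: the objects: pointed curves with five further points, given by their functions
-/

set_option autoImplicit false

open Module

namespace KZP

/-- A pole order function on a `ℂ`-algebra `V`: `V` is thought of as the ring of regular functions on
a curve minus one point `P`, and `ord f` is the order of the pole of `f` at `P`. -/
structure PoleOrder (V : Type*) [CommRing V] [Algebra ℂ V] where
  /-- the pole order (`0` for `f = 0`) -/
  ord : V → ℕ
  ord_zero : ord 0 = 0
  ord_mul : ∀ f g, f ≠ 0 → g ≠ 0 → ord (f * g) = ord f + ord g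
  ord_add : ∀ f g, ord (f + g) ≤ max (ord f) (ord g)
  /-- only the constants have no pole -/
  ord_eq_zero : ∀ f, ord f = 0 → ∃ c : ℂ, f = algebraMap ℂ V c
  /-- two functions with the same pole order have proportional leading terms -/
  lead : ∀ f g, f ≠ 0 → g ≠ 0 → ord f = ord g → ∃ c : ℂ, f = c • g ∨ ord (f - c • g) < ord g

namespace PoleOrder

variable {V : Type*} [CommRing V] [Algebra ℂ V] (P : PoleOrder V)

theorem ord_smul_le (c : ℂ) (f : V) : P.ord (c • f) ≤ P.ord f := by
  rcases subsingleton_or_nontrivial V with hV | hV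
  · rw [Subsingleton.elim (c • f) f]
  by_cases hf : f = 0
  · rw [hf, smul_zero]
  by_cases hc : c = 0
  · rw [hc, zero_smul, P.ord_zero]; exact Nat.zero_le _
  have hinj := (algebraMap ℂ V).injective
  have h1 : algebraMap ℂ V c ≠ 0 := (map_ne_zero_iff _ hinj).2 hc
  have h2 : algebraMap ℂ V c⁻¹ ≠ 0 := (map_ne_zero_iff _ hinj).2 (inv_ne_zero hc)
  have h3 := P.ord_mul _ _ h1 h2
  rw [← map_mul, mul_inv_cancel₀ hc, map_one] at h3
  have h4 := P.ord_mul 1 1 one_ne_zero one_ne_zero
  rw [mul_one] at h4
  rw [Algebra.smul_def, P.ord_mul _ _ h1 hf]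
  omega

/-- The space `L(nP)` of the functions with pole order at most `n`. -/
def L (n : ℕ) : Submodule ℂ V where
  carrier := {f | P.ord f ≤ n}
  add_mem' := fun {f g} hf hg => (P.ord_add f g).trans (max_le hf hg)
  zero_mem' := by show P.ord 0 ≤ n; rw [P.ord_zero]; exact Nat.zero_le _
  smul_mem' := fun c f hf => (P.ord_smul_le c f).trans hf

/-- The pointed curve `(C, P)` has genus `g` (Riemann-Roch for `L(nP)` with `n` large), the divisor
`(2g-2)P` is canonical (that is, `dim L((2g-2)P) = g`) and the theta characteristic `(g-1)P` is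
odd. -/
structure IsOddStratum (g : ℕ) : Prop where
  genus : ∃ N, ∀ n ≥ N, finrank ℂ (P.L n) + g = n + 1
  canonical : finrank ℂ (P.L (2 * g - 2)) = g
  odd : Odd (finrank ℂ (P.L (g - 1)))

end PoleOrder

/-- A point of the moduli space `M_4(7,1,1,1,1,1)^odd`: a smooth projective curve `C` of genus `4`
with a point `P` such that `6P` is a canonical divisor and `3P` is an odd theta characteristic, and
five further distinct labelled points. The curve is given by the ring `R` of the regular functions on
`C ∖ P` and by the pole order at `P`. -/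
structure Obj where
  /-- the ring of the regular functions on `C ∖ P` -/
  R : Type
  [commRing : CommRing R]
  [dedekind : IsDedekindDomain R]
  [algebra : Algebra ℂ R]
  /-- the pole order at `P` -/
  pole : PoleOrder R
  stratum : pole.IsOddStratum 4
  /-- the five labelled points of `C ∖ P` -/
  pt : Fin 5 → (R →ₐ[ℂ] ℂ)
  pt_injective : Function.Injective pt

attribute [instance] Obj.commRing Obj.dedekind Obj.algebra

/-- The isomorphisms of the objects. -/
structure Obj.Iso (A A' : Obj) where
  /-- the isomorphism of the rings -/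
  equiv : A.R ≃ₐ[ℂ] A'.R
  ord_equiv : ∀ f, A'.pole.ord (equiv f) = A.pole.ord f
  pt_equiv : ∀ i f, A'.pt i (equiv f) = A.pt i f

/-- The two equations, for elements `X, Y, Z` of a `B`-algebra and parameters `s` in `B`. -/
def Eqs {B V : Type} [CommRing B] [CommRing V] [Algebra B V] (s : Fin 8 → B) (X Y Z : V) : Prop :=
  Y ^ 2 = X * Z + algebraMap B V (s 6) ∧
    Z ^ 2 = X ^ 3 + algebraMap B V (s 0) * (X * Z) + algebraMap B V (s 1) * (X * Y)
      + algebraMap B V (s 2) * X ^ 2 + algebraMap B V (s 3) * Z + algebraMap B V (s 4) * Y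
      + algebraMap B V (s 5) * X + algebraMap B V (s 7)

/-- `X 0, X 1, X 2` are functions on `C ∖ P` with poles of order `4, 5, 6` at `P`, which satisfy the
equations of the curve `C_s`, `s = q.1.1`, and have the values `q.1.2 j` at the five points. -/
structure Obj.Coords (A : Obj) (q : XS) (X : Fin 3 → A.R) : Prop where
  ord_X : ∀ i : Fin 3, A.pole.ord (X i) = 4 + (i : ℕ)
  eqs : Eqs q.1.1 (X 0) (X 1) (X 2)
  pt_X : ∀ (j : Fin 5) (i : Fin 3), A.pt j (X i) = q.1.2 j i

/-- the weights of the parameters -/
def wts : Fin 8 → ℕ := ![2, 3, 4, 6, 7, 8, 10, 12]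

/-- The action of `ℂˣ` on the parameters and the points. -/
def act (u : ℂˣ) (q : Tot) : Tot :=
  (fun i => (u : ℂ) ^ wts i * q.1 i, fun j i => (u : ℂ) ^ (4 + (i : ℕ)) * q.2 j i)

end KZP
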