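import Pool.Agent.KZP.Defs
import Pool.Agent.KZB.PBU

/-!
# KZP-PBU (helper85): a mixed Poincare-Miranda / Borsuk-Ulam theorem
-/

namespace KZP

theorem mem_Del_iff {p n : ℕ} (x : (Fin p → ℝ) × (Fin (n + 1) → ℝ)) :
    x ∈ KZB.Del p n ↔ x.1 ∈ Bx p ∧ x.2 ∈ Sx (n + 1) := by
  unfold KZB.Del
  simp only [Set.mem_ofPred_eq, mem_closedBall_zero_iff, mem_sphere_zero_iff_norm]
  rw [pi_norm_le_iff_of_nonneg zero_le_one]
  simp [Real.norm_eq_abs]

theorem Sx_abs {p : ℕ} {u : Fin p → ℝ} (h : u ∈ Sx p) : ‖u‖ = 1 := by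
  simpa using h

theorem pbu_pos (p n : ℕ) (hp : 0 < p) (A : (Fin p → ℝ) × (Fin (n + 1) → ℝ) → (Fin p → ℝ))
    (B : (Fin p → ℝ) × (Fin (n + 1) → ℝ) → (Fin n → ℝ))
    (hA : ContinuousOn A (Bx p ×ˢ Sx (n + 1))) (hB : ContinuousOn B (Bx p ×ˢ Sx (n + 1)))
    (hAe : ∀ u ∈ Bx p, ∀ v ∈ Sx (n + 1), A (u, -v) = A (u, v))
    (hBo : ∀ u ∈ Bx p, ∀ v ∈ Sx (n + 1), B (u, -v) = - B (u, v))
    (hbd : ∀ u ∈ Sx p, ∀ v ∈ Sx (n + 1), ∀ t : ℝ, 0 ≤ t → A (u, v) ≠ -t • u) :
    ∃ u ∈ Bx p, ∃ v ∈ Sx (n + 1), A (u, v) = 0 ∧ B (u, v) = 0 := by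
  -- the collar
  set c : (Fin p → ℝ) → (Fin p → ℝ) := fun u => (max 1 (2 * ‖u‖))⁻¹ • ((2 : ℝ) • u) with hc
  set l : (Fin p → ℝ) → ℝ := fun u => max 0 (2 * ‖u‖ - 1) with hl
  have hcc : Continuous c := by
    have e1 : Continuous (fun u : Fin p → ℝ => (max 1 (2 * ‖u‖))⁻¹) := by
      apply Continuous.inv₀
      · exact continuous_const.max (continuous_const.mul continuous_norm)
      · intro u; exact (lt_of_lt_of_le one_pos (le_max_left _ _)).ne'
    have e2 : Continuous (fun u : Fin p → ℝ => (2 : ℝ) • u) := continuous_const_smul (2 : ℝ)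
    exact e1.smul e2
  have hlc : Continuous l := continuous_const.max ((continuous_const.mul continuous_norm).sub continuous_const)
  have hcB : ∀ u, c u ∈ Bx p := by
    intro u
    rw [mem_closedBall_zero_iff, hc]
    simp only
    rw [norm_smul, norm_smul, norm_inv, Real.norm_of_nonneg (le_trans zero_le_one (le_max_left _ _)),
      Real.norm_of_nonneg (by norm_num : (0 : ℝ) ≤ 2)]
    rw [inv_mul_le_iff₀ (lt_of_lt_of_le one_pos (le_max_left _ _)), mul_one]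
    exact le_max_right _ _
  have hcS : ∀ u, 1 / 2 ≤ ‖u‖ → c u = ‖u‖⁻¹ • u := by
    intro u hu
    have h2 : max 1 (2 * ‖u‖) = 2 * ‖u‖ := max_eq_right (by linarith)
    have hne : ‖u‖ ≠ 0 := by intro h; rw [h] at hu; norm_num at hu
    rw [hc]; simp only; rw [h2, smul_smul]
    congr 1; field_simp
  have hcn : ∀ u, 1 / 2 ≤ ‖u‖ → ‖c u‖ = 1 := by
    intro u hu
    have hne : ‖u‖ ≠ 0 := by intro h; rw [h] at hu; norm_num at hu
    rw [hcS u hu, norm_smul, norm_inv, norm_norm, inv_mul_cancel₀ hne]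
  set A' : (Fin p → ℝ) × (Fin (n + 1) → ℝ) → Fin p → ℝ :=
    fun x => (1 - l x.1) • A (c x.1, x.2) + l x.1 • c x.1 with hA'
  set B' : (Fin p → ℝ) × (Fin (n + 1) → ℝ) → Fin n → ℝ :=
    fun x => (1 - l x.1) • B (c x.1, x.2) with hB'
  have hmap : Continuous (fun x : (Fin p → ℝ) × (Fin (n + 1) → ℝ) => (c x.1, x.2)) :=
    (hcc.comp continuous_fst).prodMk continuous_snd
  have hmaps : Set.MapsTo (fun x : (Fin p → ℝ) × (Fin (n + 1) → ℝ) => (c x.1, x.2)) (KZB.Del p n)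
      (Bx p ×ˢ Sx (n + 1)) := by
    intro x hx
    exact ⟨hcB _, ((mem_Del_iff x).1 hx).2⟩
  have hl1 : Continuous (fun x : (Fin p → ℝ) × (Fin (n + 1) → ℝ) => l x.1) := hlc.comp continuous_fst
  have hA'c : ContinuousOn A' (KZB.Del p n) := by
    apply ContinuousOn.add
    · exact (continuousOn_const.sub hl1.continuousOn).smul (hA.comp hmap.continuousOn hmaps)
    · exact hl1.continuousOn.smul (hcc.comp continuous_fst).continuousOn
  have hB'c : ContinuousOn B' (KZB.Del p n) :=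
    (continuousOn_const.sub hl1.continuousOn).smul (hB.comp hmap.continuousOn hmaps)
  have hbdry : ∀ x ∈ KZB.Del p n, ‖x.1‖ = 1 → A' x = x.1 := by
    intro x _ hx1
    have h1 : l x.1 = 1 := by rw [hl]; simp only; rw [hx1]; norm_num
    rw [hA']; simp only
    rw [h1, sub_self, zero_smul, zero_add, one_smul, hcS x.1 (by rw [hx1]; norm_num), hx1, inv_one, one_smul]
  have hnorm : ∀ x ∈ KZB.Del p n, ∀ i, |x.1 i| = 1 → ‖x.1‖ = 1 := by
    intro x hx i hi
    apply le_antisymm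
    · have := ((mem_Del_iff x).1 hx).1
      simpa using this
    · rw [← hi]; exact norm_le_pi_norm x.1 i
  obtain ⟨x, hx, hx1, hx2⟩ := KZB.pbu hp A' B' hA'c hB'c
    (by
      intro x hx
      have hx' := (mem_Del_iff x).1 hx
      rw [hA']; simp only
      rw [hAe _ (hcB _) _ hx'.2])
    (by
      intro x hx
      have hx' := (mem_Del_iff x).1 hx
      rw [hB']; simp only
      rw [hBo _ (hcB _) _ hx'.2, smul_neg])
    (by
      intro x hx i hi
      rw [hbdry x hx (hnorm x hx i (by rw [hi]; simp)), hi]; exact one_pos)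
    (by
      intro x hx i hi
      rw [hbdry x hx (hnorm x hx i (by rw [hi]; simp)), hi]; norm_num)
  have hx' := (mem_Del_iff x).1 hx
  have hxn : ‖x.1‖ ≤ 1 := by simpa using hx'.1
  by_cases hl0 : 2 * ‖x.1‖ - 1 ≤ 0
  · have h0 : l x.1 = 0 := by rw [hl]; exact max_eq_left hl0
    refine ⟨c x.1, hcB _, x.2, hx'.2, ?_, ?_⟩
    · rw [hA'] at hx1; simp only at hx1
      rwa [h0, sub_zero, one_smul, zero_smul, add_zero] at hx1
    · rw [hB'] at hx2; simp only at hx2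
      rwa [h0, sub_zero, one_smul] at hx2
  · exfalso
    push Not at hl0
    have h0 : l x.1 = 2 * ‖x.1‖ - 1 := by rw [hl]; exact max_eq_right hl0.le
    have hlpos : 0 < l x.1 := by rw [h0]; exact hl0
    have hl1' : l x.1 ≤ 1 := by rw [h0]; linarith
    have hn := hcn x.1 (by linarith)
    rw [hA'] at hx1; simp only at hx1
    rcases lt_or_eq_of_le hl1' with hlt | heq
    · have h1 : (0 : ℝ) < 1 - l x.1 := by linarith
      refine hbd (c x.1) (by simpa using hn) x.2 hx'.2 ((1 - l x.1)⁻¹ * l x.1) (by positivity) ?_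
      have h2 : (1 - l x.1) • A (c x.1, x.2) = - (l x.1 • c x.1) := eq_neg_of_add_eq_zero_left hx1
      have h3 : (1 - l x.1)⁻¹ • ((1 - l x.1) • A (c x.1, x.2)) =
          (1 - l x.1)⁻¹ • (- (l x.1 • c x.1)) := by rw [h2]
      rw [smul_smul, inv_mul_cancel₀ h1.ne', one_smul] at h3
      rw [h3, smul_neg, smul_smul, neg_smul]
    · rw [heq, sub_self, zero_smul, zero_add, one_smul] at hx1
      rw [hx1, norm_zero] at hn
      exact zero_ne_one hn

theorem pbu (p n : ℕ) (A : (Fin p → ℝ) × (Fin (n + 1) → ℝ) → (Fin p → ℝ))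
    (B : (Fin p → ℝ) × (Fin (n + 1) → ℝ) → (Fin n → ℝ))
    (hA : ContinuousOn A (Bx p ×ˢ Sx (n + 1))) (hB : ContinuousOn B (Bx p ×ˢ Sx (n + 1)))
    (hAe : ∀ u ∈ Bx p, ∀ v ∈ Sx (n + 1), A (u, -v) = A (u, v))
    (hBo : ∀ u ∈ Bx p, ∀ v ∈ Sx (n + 1), B (u, -v) = - B (u, v))
    (hbd : ∀ u ∈ Sx p, ∀ v ∈ Sx (n + 1), ∀ t : ℝ, 0 ≤ t → A (u, v) ≠ -t • u) :
    ∃ u ∈ Bx p, ∃ v ∈ Sx (n + 1), A (u, v) = 0 ∧ B (u, v) = 0 := by
  rcases Nat.eq_zero_or_pos p with hp | hp
  · subst hp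
    -- add one dummy coordinate
    have h0 : (0 : Fin 0 → ℝ) ∈ Bx 0 := by simp
    obtain ⟨u, hu, v, hv, h1, h2⟩ := pbu_pos 1 n one_pos (fun x => x.1) (fun x => B (0, x.2))
      continuous_fst.continuousOn
      (hB.comp (continuous_const.prodMk continuous_snd).continuousOn
        (fun x hx => ⟨h0, hx.2⟩))
      (fun u _ v _ => rfl) (fun u _ v hv => hBo 0 h0 v hv)
      (by
        intro u hu v hv t ht h
        have h1 : ‖u‖ = 1 := Sx_abs hu
        have h2 : (1 + t) • u = 0 := by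
          rw [add_smul, one_smul]
          simp only at h
          nth_rewrite 1 [h]
          rw [neg_smul, neg_add_cancel]
        rcases smul_eq_zero.1 h2 with h3 | h3
        · linarith
        · rw [h3, norm_zero] at h1; exact zero_ne_one h1)
    exact ⟨0, h0, v, hv, Subsingleton.elim _ _, h2⟩
  · exact pbu_pos p n hp A B hA hB hAe hBo hbd

end KZP
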