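import Pool.Agent.KZP.Defs

/-!
# KZP-SP0: the family over the sphere, definitions

`x : Fin 5 → ℂ` with fourth elementary symmetric function `0`.  With `X₀ = X - β`,
`Z₀ = Z - α X - ... ` the curve with the parameters `sPar l x` is
`Y² = h`, `Z₀² - X₀³ + l h = 0`, `h = X₀ Z₀ + α X₀² + β Z₀ + γ X₀ + δ`
(`X = X₀ + β`, `Z = Z₀ + α X₀ + κ`); for `X₀ = t²`, `Z₀ = t³` one has `h = ∏ (t - x_i)`.
-/

open scoped BigOperators
open Complex

namespace KZP

/-- elementary symmetric functions -/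
def E1 (x : Fin 5 → ℂ) : ℂ := x 0 + x 1 + x 2 + x 3 + x 4
def E2 (x : Fin 5 → ℂ) : ℂ :=
  x 0 * x 1 + x 0 * x 2 + x 0 * x 3 + x 0 * x 4 + x 1 * x 2 + x 1 * x 3 + x 1 * x 4
    + x 2 * x 3 + x 2 * x 4 + x 3 * x 4
def E3 (x : Fin 5 → ℂ) : ℂ :=
  x 0 * x 1 * x 2 + x 0 * x 1 * x 3 + x 0 * x 1 * x 4 + x 0 * x 2 * x 3 + x 0 * x 2 * x 4
    + x 0 * x 3 * x 4 + x 1 * x 2 * x 3 + x 1 * x 2 * x 4 + x 1 * x 3 * x 4 + x 2 * x 3 * x 4
def E4 (x : Fin 5 → ℂ) : ℂ :=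
  x 1 * x 2 * x 3 * x 4 + x 0 * x 2 * x 3 * x 4 + x 0 * x 1 * x 3 * x 4 + x 0 * x 1 * x 2 * x 4
    + x 0 * x 1 * x 2 * x 3
def E5 (x : Fin 5 → ℂ) : ℂ := x 0 * x 1 * x 2 * x 3 * x 4

def al (x : Fin 5 → ℂ) : ℂ := - E1 x
def be (x : Fin 5 → ℂ) : ℂ := E2 x
def ga (x : Fin 5 → ℂ) : ℂ := - E3 x
def de (x : Fin 5 → ℂ) : ℂ := - E5 x
def ka (x : Fin 5 → ℂ) : ℂ := ga x - al x * be x
def qq (x : Fin 5 → ℂ) : ℂ := al x * be x - ka x

/-- the parameters -/
def sPar (l : ℂ) (x : Fin 5 → ℂ) : Par :=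
  ![2 * al x - l, 0, -(al x ^ 2 + 3 * be x), -2 * qq x, 0, 3 * be x ^ 2 + 2 * al x * qq x,
    de x - be x * ka x, -(be x) ^ 3 - qq x ^ 2 - l * (de x - be x * ka x)]

/-- the five points -/
def sPt (x : Fin 5 → ℂ) (i : Fin 5) : Pt := ![x i ^ 2 + be x, 0, x i ^ 3 + al x * x i ^ 2 + ka x]

/-- admissible `x` -/
def Adm : Set (Fin 5 → ℂ) := {x | E4 x = 0 ∧ (∀ i, x i ≠ 0) ∧ Function.Injective x}

/-- the values of `G` -/
def Gval (x : Fin 5 → ℂ) (i : Fin 5) : ℂ := x i ^ 2 * ∏ j ∈ Finset.univ.erase i, (x i - x j)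

/-- `h` in the coordinates `X₀, Z₀` -/
def hh (x : Fin 5 → ℂ) (a b : ℂ) : ℂ := a * b + al x * a ^ 2 + be x * b + ga x * a + de x

/-- `f1` in the new coordinates -/
theorem f1_new (l : ℂ) (x : Fin 5 → ℂ) (a y b : ℂ) :
    f1 (sPar l x) ![a + be x, y, b + al x * a + ka x] = y ^ 2 - hh x a b := by
  simp [f1, sPar, hh, ka]; ring

/-- `f2` in the new coordinates -/
theorem f2_new (l : ℂ) (x : Fin 5 → ℂ) (a y b : ℂ) :
    f2 (sPar l x) ![a + be x, y, b + al x * a + ka x] = b ^ 2 - a ^ 3 + l * hh x a b := by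
  simp [f2, sPar, hh, ka, qq]; ring

theorem hh_cusp (x : Fin 5 → ℂ) (h : E4 x = 0) (t : ℂ) :
    hh x (t ^ 2) (t ^ 3) = (t - x 0) * (t - x 1) * (t - x 2) * (t - x 3) * (t - x 4) := by
  have : (t - x 0) * (t - x 1) * (t - x 2) * (t - x 3) * (t - x 4)
      = hh x (t ^ 2) (t ^ 3) + E4 x * t := by
    simp only [hh, al, be, ga, de, E1, E2, E3, E4, E5]; ring
  rw [this, h]; ring

theorem sPt_mem (l : ℂ) {x : Fin 5 → ℂ} (h : x ∈ Adm) (i : Fin 5) : sPt x i ∈ Curve (sPar l x) := by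
  have hc := hh_cusp x h.1 (x i)
  have h0 : hh x (x i ^ 2) (x i ^ 3) = 0 := by
    rw [hc]; fin_cases i <;> simp
  constructor
  · rw [sPt, f1_new, h0]; ring
  · rw [sPt, f2_new, h0]; ring

theorem sPt_inj {x : Fin 5 → ℂ} (h : x ∈ Adm) : Function.Injective (sPt x) := by
  intro i j hij
  have h0 : x i ^ 2 + be x = x j ^ 2 + be x := congrFun hij 0
  have h2 : x i ^ 3 + al x * x i ^ 2 + ka x = x j ^ 3 + al x * x j ^ 2 + ka x := congrFun hij 2
  have e2 : x i ^ 2 = x j ^ 2 := add_right_cancel h0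
  have e3 : x i ^ 3 = x j ^ 3 := by rw [e2] at h2; linear_combination h2
  apply h.2.2
  have : x j ^ 2 * (x i - x j) = 0 := by
    have : x j ^ 2 * x i = x j ^ 3 := by rw [← e2, ← e3]; ring
    linear_combination this
  rcases mul_eq_zero.1 this with h' | h'
  · exact absurd (pow_eq_zero_iff (two_ne_zero) |>.1 h') (h.2.1 j)
  · exact sub_eq_zero.1 h'

theorem Gf_new (l : ℂ) {x : Fin 5 → ℂ} (h : x ∈ Adm) (i : Fin 5) :
    Gf (sPar l x, sPt x) i = Gval x i := by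
  have h4 : E4 x = 0 := h.1
  have key : ∀ a b : ℂ, tau (sPar l x) ![a + be x, 0, b + al x * a + ka x] 1
      = (b + 2 * al x * a + ga x) * (2 * b) + (a + be x) * (3 * a ^ 2) := by
    intro a b
    simp [tau, g1, g2, sPar, ka, qq]; ring
  show tau (sPar l x) (sPt x i) 1 = Gval x i
  rw [sPt, key]
  have e : ∀ t : ℂ, (t ^ 3 + 2 * al x * t ^ 2 + ga x) * (2 * t ^ 3) + (t ^ 2 + be x) * (3 * (t ^ 2) ^ 2)
      = t ^ 2 * ((t - x 1) * (t - x 2) * (t - x 3) * (t - x 4) + (t - x 0) * (t - x 2) * (t - x 3) * (t - x 4)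
        + (t - x 0) * (t - x 1) * (t - x 3) * (t - x 4) + (t - x 0) * (t - x 1) * (t - x 2) * (t - x 4)
        + (t - x 0) * (t - x 1) * (t - x 2) * (t - x 3)) - t ^ 2 * E4 x := by
    intro t
    simp only [hh, al, be, ga, de, E1, E2, E3, E4, E5]; ring
  rw [e, h4, Gval]
  fin_cases i
  · have : (Finset.univ.erase (0 : Fin 5)) = {1, 2, 3, 4} := by decide
    simp [this]; left; ring
  · have : (Finset.univ.erase (1 : Fin 5)) = {0, 2, 3, 4} := by decide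
    simp [this]; left; ring
  · have : (Finset.univ.erase (2 : Fin 5)) = {0, 1, 3, 4} := by decide
    simp [this]; left; ring
  · have : (Finset.univ.erase (3 : Fin 5)) = {0, 1, 2, 4} := by decide
    simp [this]; left; ring
  · have : (Finset.univ.erase (4 : Fin 5)) = {0, 1, 2, 3} := by decide
    simp [this]; left; ring

theorem nu_new (l : ℂ) (x : Fin 5 → ℂ) : nu (sPar l x, sPt x) = (sPar l x, sPt x) := by
  refine Prod.ext ?_ ?_
  · funext k
    fin_cases k <;> simp [nu, swp, sPar]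
  · funext i k
    fin_cases k <;> simp [nu, sw, sPt]

theorem continuous_sPar : Continuous (fun p : ℂ × (Fin 5 → ℂ) => sPar p.1 p.2) := by
  refine continuous_pi fun k => ?_
  fin_cases k <;> simp [sPar, al, be, ga, de, ka, qq, E1, E2, E3, E4, E5] <;> fun_prop

theorem continuous_sPt : Continuous (fun x : Fin 5 → ℂ => sPt x) := by
  refine continuous_pi fun i => continuous_pi fun k => ?_
  fin_cases k <;> simp [sPt, al, be, ga, de, ka, qq, E1, E2, E3, E4, E5] <;> fun_prop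

theorem Gval_ne {x : Fin 5 → ℂ} (h : x ∈ Adm) (i : Fin 5) : Gval x i ≠ 0 := by
  refine mul_ne_zero (pow_ne_zero _ (h.2.1 i)) (Finset.prod_ne_zero_iff.2 fun j hj => ?_)
  rw [sub_ne_zero]
  exact fun e => (Finset.ne_of_mem_erase hj) (h.2.2 e.symm)

end KZP
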