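import Pool.Agent.KZP.SP0

open scoped BigOperators
open Complex

namespace KZP

theorem crit_bound (M c : ℝ) (hM : 1 ≤ M) (hc : 0 < c) : ∃ l0 : ℝ, 0 < l0 ∧ ∀ l : ℝ, 0 < l → l ≤ l0 →
    ∀ α β γ δ a b : ℂ, ‖α‖ ≤ M → ‖β‖ ≤ M → ‖γ‖ ≤ M → c ≤ ‖δ‖ →
    2 * b = - l * (a + β) → 3 * a ^ 2 = l * (b + 2 * α * a + γ) →
    b ^ 2 - a ^ 3 + l * (a * b + α * a ^ 2 + β * b + γ * a + δ) ≠ 0 := by
  have hM0 : 0 < M := by linarith
  have hcm : 0 < min c 1 := lt_min hc one_pos
  refine ⟨min 1 ((min c 1 / (100 * M ^ 2)) ^ 2), lt_min one_pos (by positivity), ?_⟩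
  intro l hl hle α β γ δ a b hα hβ hγ hδ h1 h2 h3
  have hl1 : l ≤ 1 := hle.trans (min_le_left _ _)
  have hl2 : l ≤ (min c 1 / (100 * M ^ 2)) ^ 2 := hle.trans (min_le_right _ _)
  -- the weighted Euler identity
  have hE : a * b + 2 * α * a ^ 2 + 4 * γ * a + 3 * β * b + 6 * δ = 0 := by
    have hlc : (l : ℂ) ≠ 0 := by exact_mod_cast hl.ne'
    have : (l : ℂ) * (a * b + 2 * α * a ^ 2 + 4 * γ * a + 3 * β * b + 6 * δ) = 0 := by
      linear_combination 6 * h3 - 3 * b * h1 + 2 * a * h2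
    exact (mul_eq_zero.1 this).resolve_left hlc
  set A := ‖a‖ with hA
  set Bb := ‖b‖ with hB
  have hA0 : 0 ≤ A := norm_nonneg _
  have hB0 : 0 ≤ Bb := norm_nonneg _
  have hnb : 2 * Bb ≤ l * (A + M) := by
    have : ‖(2 : ℂ) * b‖ = ‖(- l : ℂ) * (a + β)‖ := by rw [h1]
    rw [norm_mul, norm_mul, norm_neg, Complex.norm_real, Real.norm_eq_abs, abs_of_pos hl] at this
    simp only [Complex.norm_ofNat] at this
    rw [this]
    have := norm_add_le a β
    gcongr
    linarith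
  have hna : 3 * A ^ 2 ≤ l * (Bb + 2 * M * A + M) := by
    have : ‖(3 : ℂ) * a ^ 2‖ = ‖(l : ℂ) * (b + 2 * α * a + γ)‖ := by rw [h2]
    rw [norm_mul, norm_mul, norm_pow, Complex.norm_real, Real.norm_eq_abs, abs_of_pos hl] at this
    simp only [Complex.norm_ofNat] at this
    rw [this]
    have e1 : ‖b + 2 * α * a + γ‖ ≤ Bb + 2 * M * A + M := by
      have e2 : ‖2 * α * a‖ ≤ 2 * M * A := by
        rw [norm_mul, norm_mul]
        simp only [Complex.norm_ofNat]
        gcongr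
      have := norm_add₃_le (a := b) (b := 2 * α * a) (c := γ)
      linarith
    gcongr
  have hA2 : A ^ 2 ≤ 3 * M ^ 2 * l := by
    nlinarith [sq_nonneg (A - 3 * M), mul_nonneg hl.le (sq_nonneg (A - 3 * M)), mul_nonneg hl.le hA0, mul_nonneg (sub_nonneg.2 hl1) (sq_nonneg A), mul_nonneg hl.le (sub_nonneg.2 hM)]
  -- t = sqrt l
  obtain ⟨t, ht0, ht⟩ : ∃ t : ℝ, 0 < t ∧ t ^ 2 = l := ⟨Real.sqrt l, Real.sqrt_pos.2 hl, Real.sq_sqrt hl.le⟩
  have ht1 : t ≤ 1 := by
    by_contra h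
    push Not at h
    nlinarith
  have hq : 0 < min c 1 / (100 * M ^ 2) := by positivity
  have ht2 : t ≤ min c 1 / (100 * M ^ 2) := by
    rw [← ht] at hl2
    exact (sq_le_sq₀ ht0.le hq.le).1 hl2
  have ht3 : M ^ 2 * t * 100 ≤ min c 1 := by
    rw [le_div_iff₀ (by positivity)] at ht2
    linarith
  have hm1 : min c 1 ≤ 1 := min_le_right _ _
  have hmc : min c 1 ≤ c := min_le_left _ _
  have hMt : M * t * 100 ≤ 1 := by
    have : M * t ≤ M ^ 2 * t := by nlinarith [mul_nonneg hM0.le ht0.le]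
    linarith
  have hA3 : A ≤ 2 * M * t := by
    have : A ^ 2 ≤ (2 * M * t) ^ 2 := by rw [← ht] at hA2; nlinarith [sq_nonneg (M * t)]
    exact (sq_le_sq₀ hA0 (by positivity)).1 this
  have hB3 : Bb ≤ 2 * M * t ^ 2 := by
    rw [← ht] at hnb
    have : A ≤ 2 * M := by nlinarith
    nlinarith [sq_nonneg t, mul_nonneg (sq_nonneg t) hM0.le]
  have hfin : 6 * c ≤ A * Bb + 2 * M * A ^ 2 + 4 * M * A + 3 * M * Bb := by
    have e0 : (6 : ℂ) * δ = -(a * b + 2 * α * a ^ 2 + 4 * γ * a + 3 * β * b) := by linear_combination hE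
    have e1 : 6 * ‖δ‖ = ‖a * b + 2 * α * a ^ 2 + 4 * γ * a + 3 * β * b‖ := by
      have := congrArg norm e0
      rw [norm_mul, norm_neg] at this
      simpa using this
    have e2 : ‖a * b + 2 * α * a ^ 2 + 4 * γ * a + 3 * β * b‖
        ≤ ‖a * b‖ + ‖2 * α * a ^ 2‖ + ‖4 * γ * a‖ + ‖3 * β * b‖ := by
      have := norm_add_le (a * b + 2 * α * a ^ 2 + 4 * γ * a) (3 * β * b)
      have := norm_add_le (a * b + 2 * α * a ^ 2) (4 * γ * a)
      have := norm_add_le (a * b) (2 * α * a ^ 2)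
      linarith
    have e3 : ‖a * b‖ = A * Bb := norm_mul _ _
    have e4 : ‖2 * α * a ^ 2‖ ≤ 2 * M * A ^ 2 := by
      rw [norm_mul, norm_mul, norm_pow]
      simp only [Complex.norm_ofNat]
      gcongr
    have e5 : ‖4 * γ * a‖ ≤ 4 * M * A := by
      rw [norm_mul, norm_mul]
      simp only [Complex.norm_ofNat]
      gcongr
    have e6 : ‖3 * β * b‖ ≤ 3 * M * Bb := by
      rw [norm_mul, norm_mul]
      simp only [Complex.norm_ofNat]
      gcongr
    linarith
  have g1 : A * Bb ≤ (2 * M * t) * (2 * M * t ^ 2) := mul_le_mul hA3 hB3 hB0 (by positivity)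
  have g2 : A ^ 2 ≤ (2 * M * t) ^ 2 := by gcongr
  have g3 : 4 * M * A ≤ 4 * M * (2 * M * t) := by gcongr
  have g4 : 3 * M * Bb ≤ 3 * M * (2 * M * t ^ 2) := by gcongr
  have g5 : 2 * M * A ^ 2 ≤ 2 * M * (2 * M * t) ^ 2 := by gcongr
  have p : 0 ≤ M ^ 2 * t := by positivity
  have k1 : (2 * M * t) * (2 * M * t ^ 2) ≤ 4 * (M ^ 2 * t) := by
    have : t ^ 2 ≤ 1 := by nlinarith
    nlinarith
  have k2 : 2 * M * (2 * M * t) ^ 2 ≤ 8 * (M ^ 2 * t) := by
    have : 2 * M * (2 * M * t) ^ 2 = 8 * (M ^ 2 * t) * (M * t) := by ring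
    rw [this]
    nlinarith
  have k4 : 3 * M * (2 * M * t ^ 2) ≤ 6 * (M ^ 2 * t) := by
    have : 3 * M * (2 * M * t ^ 2) = 6 * (M ^ 2 * t) * t := by ring
    rw [this]
    nlinarith
  nlinarith

theorem smooth_small (K : Set (Fin 5 → ℂ)) (hK : IsCompact K) (hA : K ⊆ Adm) :
    ∃ l0 : ℝ, 0 < l0 ∧ ∀ l : ℝ, 0 < l → l ≤ l0 → ∀ x ∈ K, SmoothC (sPar l x) := by
  -- bounds
  have hcα : Continuous al := by unfold al E1; fun_prop
  have hcβ : Continuous be := by unfold be E2; fun_prop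
  have hcγ : Continuous ga := by unfold ga E3; fun_prop
  have hcδ : Continuous de := by unfold de E5; fun_prop
  obtain ⟨M1, hM1⟩ := hK.exists_bound_of_continuousOn hcα.continuousOn
  obtain ⟨M2, hM2⟩ := hK.exists_bound_of_continuousOn hcβ.continuousOn
  obtain ⟨M3, hM3⟩ := hK.exists_bound_of_continuousOn hcγ.continuousOn
  have hδ0 : ∀ x ∈ K, de x ≠ 0 := by
    intro x hx
    have := (hA hx).2.1
    simp only [de, E5, neg_ne_zero]
    exact mul_ne_zero (mul_ne_zero (mul_ne_zero (mul_ne_zero (this 0) (this 1)) (this 2)) (this 3)) (this 4)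
  obtain ⟨c, hc, hcb⟩ : ∃ c : ℝ, 0 < c ∧ ∀ x ∈ K, c ≤ ‖de x‖ := by
    rcases K.eq_empty_or_nonempty with h | h
    · exact ⟨1, one_pos, fun x hx => by simp [h] at hx⟩
    · obtain ⟨x0, hx0, hmin⟩ := hK.exists_isMinOn h (f := fun x => ‖de x‖) hcδ.norm.continuousOn
      exact ⟨‖de x0‖, norm_pos_iff.2 (hδ0 x0 hx0), fun x hx => hmin hx⟩
  set M := max 1 (max M1 (max M2 M3)) with hMdef
  obtain ⟨l0, hl0, hcrit⟩ := crit_bound M c (le_max_left _ _) hc
  refine ⟨l0, hl0, fun l hl hle x hx e he htau => ?_⟩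
  have hx' := hA hx
  have hα : ‖al x‖ ≤ M := (hM1 x hx).trans ((le_max_left _ _).trans (le_max_right _ _))
  have hβ : ‖be x‖ ≤ M := (hM2 x hx).trans ((le_max_left _ _).trans ((le_max_right _ _).trans (le_max_right _ _)))
  have hγ : ‖ga x‖ ≤ M := (hM3 x hx).trans ((le_max_right _ _).trans ((le_max_right _ _).trans (le_max_right _ _)))
  -- new coordinates
  obtain ⟨a, ha⟩ : ∃ a, a = e 0 - be x := ⟨_, rfl⟩
  obtain ⟨b, hb⟩ : ∃ b, b = e 2 - al x * a - ka x := ⟨_, rfl⟩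
  have hee : e = ![a + be x, e 1, b + al x * a + ka x] := by
    funext k
    fin_cases k
    · show e 0 = a + be x
      rw [ha]; ring
    · rfl
    · show e 2 = b + al x * a + ka x
      rw [hb]; ring
  have hf1 : e 1 ^ 2 - hh x a b = 0 := by
    have := he.1
    rw [hee, f1_new] at this
    exact this
  have hf2 : b ^ 2 - a ^ 3 + l * hh x a b = 0 := by
    have := he.2
    rw [hee, f2_new] at this
    exact this
  by_cases hY : e 1 = 0
  · -- Y = 0
    have hh0 : hh x a b = 0 := by rw [hY] at hf1; linear_combination -hf1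
    have hab : b ^ 2 = a ^ 3 := by rw [hh0] at hf2; linear_combination hf2
    obtain ⟨t, hta, htb⟩ : ∃ t : ℂ, a = t ^ 2 ∧ b = t ^ 3 := by
      by_cases ha0 : a = 0
      · refine ⟨0, by simp [ha0], ?_⟩
        rw [ha0] at hab
        have : b = 0 := by simpa using hab
        simp [this]
      · refine ⟨b / a, ?_, ?_⟩
        · field_simp
          linear_combination -hab
        · field_simp
          linear_combination -b * hab
    rw [hta, htb, hh_cusp x hx'.1] at hh0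
    obtain ⟨i, hi⟩ : ∃ i, t = x i := by
      rcases mul_eq_zero.1 hh0 with h | h
      · rcases mul_eq_zero.1 h with h | h
        · rcases mul_eq_zero.1 h with h | h
          · rcases mul_eq_zero.1 h with h | h
            · exact ⟨0, sub_eq_zero.1 h⟩
            · exact ⟨1, sub_eq_zero.1 h⟩
          · exact ⟨2, sub_eq_zero.1 h⟩
        · exact ⟨3, sub_eq_zero.1 h⟩
      · exact ⟨4, sub_eq_zero.1 h⟩
    have hei : e = sPt x i := by
      rw [hee, hY, hta, htb, hi]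
      rfl
    have : tau (sPar l x) (sPt x i) 1 = 0 := by rw [← hei, htau]; rfl
    exact Gval_ne hx' i ((Gf_new l hx' i).symm.trans this)
  · -- Y ≠ 0
    have t0 : tau (sPar l x) e 0 = 0 := by rw [htau]; rfl
    have t2 : tau (sPar l x) e 2 = 0 := by rw [htau]; rfl
    have e2 : 2 * e 2 - (2 * al x - l) * e 0 + 2 * qq x = 0 := by
      simp [tau, g1, g2, sPar] at t0
      rcases t0 with h | h
      · exact absurd h hY
      · linear_combination h
    have e0 : -(3 * e 0 ^ 2) - (2 * al x - l) * e 2 + 2 * (al x ^ 2 + 3 * be x) * e 0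
        - (3 * be x ^ 2 + 2 * al x * qq x) = 0 := by
      simp [tau, g1, g2, sPar] at t2
      rcases t2 with h | h
      · exact absurd h hY
      · linear_combination h
    have E0 : e 0 = a + be x := by rw [ha]; ring
    have E2 : e 2 = b + al x * a + ka x := by rw [hb]; ring
    rw [E0, E2] at e2 e0
    have r1 : 2 * b = - l * (a + be x) := by
      simp only [qq] at e2
      linear_combination e2
    have r2 : 3 * a ^ 2 = l * (b + 2 * al x * a + ga x) := by
      simp only [qq, ka] at e0 e2 ⊢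
      linear_combination (-1 : ℂ) * e0 - (al x) * e2
    refine hcrit l hl hle (al x) (be x) (ga x) (de x) a b hα hβ hγ (hcb x hx) r1 r2 ?_
    simpa [hh] using hf2

end KZP
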