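import Pool.Agent.KZP.SP0

/-!
# KZP-SP3: the map `u ↦ w u`, `x u = 1 / w u`
-/

open scoped BigOperators
open Complex

namespace KZP

/-- `U_j`, `j < 5`: `U_i - U_4 = u_i` for `i < 4`, sum `0` -/
noncomputable def UU (u : Fin 4 → ℝ) (i : Fin 5) : ℝ :=
  (![u 0, u 1, u 2, u 3, 0] : Fin 5 → ℝ) i - (u 0 + u 1 + u 2 + u 3) / 5

/-- mean absolute value -/
noncomputable def mm (u : Fin 4 → ℝ) : ℝ := (∑ i, |UU u i|) / 5

noncomputable def epsi : Fin 5 → ℝ := ![-2/5, -1/5, 0, 1/5, 2/5]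

/-- imaginary part (times 100) -/
noncomputable def VV (u : Fin 4 → ℝ) (i : Fin 5) : ℝ := (1 + epsi i) * mm u - |UU u i|

noncomputable def ww (u : Fin 4 → ℝ) (i : Fin 5) : ℂ := ⟨UU u i, VV u i / 100⟩

noncomputable def xx (u : Fin 4 → ℝ) (i : Fin 5) : ℂ := (ww u i)⁻¹

theorem SP3_UU0 (u : Fin 4 → ℝ) : UU u 0 = u 0 - (u 0 + u 1 + u 2 + u 3) / 5 := rfl
theorem SP3_UU1 (u : Fin 4 → ℝ) : UU u 1 = u 1 - (u 0 + u 1 + u 2 + u 3) / 5 := rfl
theorem SP3_UU2 (u : Fin 4 → ℝ) : UU u 2 = u 2 - (u 0 + u 1 + u 2 + u 3) / 5 := rfl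
theorem SP3_UU3 (u : Fin 4 → ℝ) : UU u 3 = u 3 - (u 0 + u 1 + u 2 + u 3) / 5 := rfl
theorem SP3_UU4 (u : Fin 4 → ℝ) : UU u 4 = 0 - (u 0 + u 1 + u 2 + u 3) / 5 := rfl

theorem SP3_sum5 {R : Type} [AddCommMonoid R] (f : Fin 5 → R) :
    ∑ i, f i = f 0 + f 1 + f 2 + f 3 + f 4 := by
  rw [Fin.sum_univ_five]

theorem SP3_epsi (i : Fin 5) : epsi i = ((i : ℕ) : ℝ) / 5 - 2 / 5 := by
  fin_cases i <;> norm_num [epsi]

theorem UU_castSucc (u : Fin 4 → ℝ) (i : Fin 4) : UU u i.castSucc - UU u 4 = u i := by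
  rw [SP3_UU4]
  fin_cases i
  · change UU u 0 - _ = u 0
    rw [SP3_UU0]
    ring
  · change UU u 1 - _ = u 1
    rw [SP3_UU1]
    ring
  · change UU u 2 - _ = u 2
    rw [SP3_UU2]
    ring
  · change UU u 3 - _ = u 3
    rw [SP3_UU3]
    ring

theorem UU_sum (u : Fin 4 → ℝ) : ∑ i, UU u i = 0 := by
  rw [SP3_sum5, SP3_UU0, SP3_UU1, SP3_UU2, SP3_UU3, SP3_UU4]
  ring

/-- if the mean were `0`, all `U_i` would be `0`, hence `u = 0`; but `‖u‖ = 1` (sup norm) -/
theorem mm_pos {u : Fin 4 → ℝ} (hu : u ∈ Sx 4) : 0 < mm u := by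
  have h0 : 0 ≤ ∑ i, |UU u i| := Finset.sum_nonneg fun i _ => abs_nonneg _
  unfold mm
  rcases h0.lt_or_eq with h1 | h1
  · exact div_pos h1 (by norm_num)
  · exfalso
    have h2 : ∀ i, UU u i = 0 := by
      intro i
      have h3 := (Finset.sum_eq_zero_iff_of_nonneg fun i _ => abs_nonneg (UU u i)).1 h1.symm i
        (Finset.mem_univ i)
      exact abs_eq_zero.1 h3
    have h3 : u = 0 := by
      funext i
      have h4 := UU_castSucc u i
      rw [h2, h2, sub_zero] at h4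
      exact h4.symm
    have h5 : ‖u‖ = 1 := mem_sphere_zero_iff_norm.1 hu
    rw [h3, norm_zero] at h5
    exact zero_ne_one h5

theorem epsi_lt {i j : Fin 5} (h : i < j) : epsi i + 1/5 ≤ epsi j := by
  rw [SP3_epsi, SP3_epsi]
  have h1 : (i : ℕ) + 1 ≤ (j : ℕ) := h
  have h2 : ((i : ℕ) : ℝ) + 1 ≤ ((j : ℕ) : ℝ) := by exact_mod_cast h1
  linarith

theorem epsi_bd (i : Fin 5) : -(2/5) ≤ epsi i ∧ epsi i ≤ 2/5 := by
  rw [SP3_epsi]
  have h1 : (i : ℕ) ≤ 4 := by have := i.isLt; omega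
  have h2 : ((i : ℕ) : ℝ) ≤ 4 := by exact_mod_cast h1
  have h3 : (0 : ℝ) ≤ ((i : ℕ) : ℝ) := Nat.cast_nonneg _
  constructor <;> linarith

theorem VV_sum (u : Fin 4 → ℝ) : ∑ i, VV u i = 0 := by
  have h1 : ∑ i, |UU u i| = 5 * mm u := by
    unfold mm
    ring
  have h2 : ∑ i : Fin 5, (1 + epsi i) = 5 := by
    rw [SP3_sum5, SP3_epsi, SP3_epsi, SP3_epsi, SP3_epsi, SP3_epsi]
    norm_num
  unfold VV
  rw [Finset.sum_sub_distrib, ← Finset.sum_mul, h1, h2]
  ring

theorem continuous_UU : Continuous UU := by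
  refine continuous_pi fun i => ?_
  have h0 : ∀ j : Fin 4, Continuous fun u : Fin 4 → ℝ => u j := fun j => continuous_apply j
  have h1 : Continuous fun u : Fin 4 → ℝ => (u 0 + u 1 + u 2 + u 3) / 5 :=
    ((((h0 0).add (h0 1)).add (h0 2)).add (h0 3)).div_const 5
  fin_cases i
  · exact (h0 0).sub h1
  · exact (h0 1).sub h1
  · exact (h0 2).sub h1
  · exact (h0 3).sub h1
  · exact continuous_const.sub h1

theorem continuous_ww : Continuous ww := by
  have hU : ∀ i, Continuous fun u : Fin 4 → ℝ => UU u i := fun i =>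
    (continuous_apply i).comp continuous_UU
  have hm : Continuous mm := by
    unfold mm
    exact (continuous_finsetSum _ fun i _ => (hU i).abs).div_const 5
  refine continuous_pi fun i => ?_
  have hV : Continuous fun u : Fin 4 → ℝ => VV u i := by
    unfold VV
    exact (continuous_const.mul hm).sub (hU i).abs
  have e : (fun u : Fin 4 → ℝ => ww u i) = fun u => ((UU u i : ℝ) : ℂ) + ((VV u i / 100 : ℝ) : ℂ) * I := by
    funext u
    exact Complex.mk_eq_add_mul_I _ _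
  rw [e]
  exact (continuous_ofReal.comp (hU i)).add ((continuous_ofReal.comp (hV.div_const 100)).mul continuous_const)

/-- if `U_i = 0` the imaginary part is positive -/
theorem VV_pos_of_zero {u : Fin 4 → ℝ} (hu : u ∈ Sx 4) {i : Fin 5} (h : UU u i = 0) : 0 < VV u i := by
  unfold VV
  rw [h, abs_zero, sub_zero]
  exact mul_pos (by linarith [(epsi_bd i).1]) (mm_pos hu)

/-- if `U_i = U_j`, `i < j`, then `V_i < V_j` -/
theorem VV_lt_of_eq {u : Fin 4 → ℝ} (hu : u ∈ Sx 4) {i j : Fin 5} (hij : i < j)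
    (h : UU u i = UU u j) : VV u i < VV u j := by
  unfold VV
  rw [h]
  have h1 := mm_pos hu
  have h2 := epsi_lt hij
  have h3 : (1 + epsi i) * mm u < (1 + epsi j) * mm u :=
    mul_lt_mul_of_pos_right (by linarith) h1
  linarith

theorem ww_ne {u : Fin 4 → ℝ} (hu : u ∈ Sx 4) (i : Fin 5) : ww u i ≠ 0 := by
  intro h
  have h1 : UU u i = 0 := congrArg Complex.re h
  have h2 : VV u i / 100 = 0 := congrArg Complex.im h
  have h3 := VV_pos_of_zero hu h1
  linarith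

theorem ww_inj {u : Fin 4 → ℝ} (hu : u ∈ Sx 4) : Function.Injective (ww u) := by
  intro i j hij
  by_contra hne
  have h1 : UU u i = UU u j := congrArg Complex.re hij
  have h2 : VV u i / 100 = VV u j / 100 := congrArg Complex.im hij
  rcases lt_or_gt_of_ne hne with h | h
  · have := VV_lt_of_eq hu h h1
    linarith
  · have := VV_lt_of_eq hu h h1.symm
    linarith

theorem ww_sum (u : Fin 4 → ℝ) : ww u 0 + ww u 1 + ww u 2 + ww u 3 + ww u 4 = 0 := by
  have h1 := UU_sum u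
  have h2 := VV_sum u
  rw [SP3_sum5] at h1 h2
  apply Complex.ext
  · change UU u 0 + UU u 1 + UU u 2 + UU u 3 + UU u 4 = 0
    exact h1
  · change VV u 0 / 100 + VV u 1 / 100 + VV u 2 / 100 + VV u 3 / 100 + VV u 4 / 100 = 0
    linarith

/-- `E4 x = (∏ x) (∑ 1/x)` -/
theorem xx_Adm {u : Fin 4 → ℝ} (hu : u ∈ Sx 4) : xx u ∈ Adm := by
  have h : ∀ i, xx u i * ww u i = 1 := fun i => inv_mul_cancel₀ (ww_ne hu i)
  refine ⟨?_, fun i => inv_ne_zero (ww_ne hu i), ?_⟩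
  · have hs := ww_sum u
    have h0 := h 0
    have h1 := h 1
    have h2 := h 2
    have h3 := h 3
    have h4 := h 4
    unfold E4
    linear_combination (xx u 0 * xx u 1 * xx u 2 * xx u 3 * xx u 4) * hs -
      (xx u 1 * xx u 2 * xx u 3 * xx u 4) * h0 - (xx u 0 * xx u 2 * xx u 3 * xx u 4) * h1 -
      (xx u 0 * xx u 1 * xx u 3 * xx u 4) * h2 - (xx u 0 * xx u 1 * xx u 2 * xx u 4) * h3 -
      (xx u 0 * xx u 1 * xx u 2 * xx u 3) * h4
  · intro i j hij
    exact ww_inj hu (inv_injective hij)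

theorem continuousOn_xx : ContinuousOn xx (Sx 4) := by
  refine continuousOn_pi.2 fun i => ?_
  have h : ContinuousOn (fun u : Fin 4 → ℝ => ww u i) (Sx 4) :=
    ((continuous_apply i).comp continuous_ww).continuousOn
  exact h.inv₀ fun u hu => ww_ne hu i

theorem isCompact_image_xx : IsCompact (xx '' Sx 4) := by
  exact (isCompact_sphere 0 1).image_of_continuousOn continuousOn_xx

/-- `G` in terms of `w` -/
theorem Gval_xx {u : Fin 4 → ℝ} (hu : u ∈ Sx 4) (i : Fin 5) :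
    Gval (xx u) i * ((∏ j, ww u j) * ww u i ^ 5) = ∏ j ∈ Finset.univ.erase i, (ww u i - ww u j) := by
  have h : ∀ i, xx u i * ww u i = 1 := fun i => inv_mul_cancel₀ (ww_ne hu i)
  have hi := h i
  have e1 : ∏ j, ww u j = ww u i * ∏ j ∈ Finset.univ.erase i, ww u j :=
    (Finset.mul_prod_erase Finset.univ (fun j => ww u j) (Finset.mem_univ i)).symm
  have hcard : (Finset.univ.erase i).card = 4 := by
    rw [Finset.card_erase_of_mem (Finset.mem_univ i), Finset.card_univ, Fintype.card_fin]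
  have e2 : ∏ _j ∈ Finset.univ.erase i, ww u i = ww u i ^ 4 := by
    rw [Finset.prod_const, hcard]
  have e3 : ∏ j ∈ Finset.univ.erase i, ((xx u i - xx u j) * (ww u j * ww u i)) =
      ∏ j ∈ Finset.univ.erase i, (ww u i - ww u j) := by
    have e4 : ∀ j ∈ Finset.univ.erase i, (xx u i - xx u j) * (ww u j * ww u i) =
        (-1) * (ww u i - ww u j) := by
      intro j _
      have hj := h j
      linear_combination ww u j * hi - ww u i * hj
    rw [Finset.prod_congr rfl e4, Finset.prod_mul_distrib, Finset.prod_const, hcard]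
    ring
  rw [← e3, Finset.prod_mul_distrib, Finset.prod_mul_distrib, e2, e1]
  unfold Gval
  generalize ∏ j ∈ Finset.univ.erase i, (xx u i - xx u j) = a
  generalize ∏ j ∈ Finset.univ.erase i, ww u j = b
  linear_combination (a * b * ww u i ^ 4) * (xx u i * ww u i + 1) * hi

/-- the base point `(1,0,0,0)` -/
noncomputable def ub : Fin 4 → ℝ := ![1, 0, 0, 0]

theorem ub_mem : ub ∈ Sx 4 := by
  rw [mem_sphere_zero_iff_norm]
  apply le_antisymm
  · rw [pi_norm_le_iff_of_nonneg zero_le_one]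
    intro i
    fin_cases i <;> simp [ub]
  · have h := norm_le_pi_norm ub 0
    have e : ‖ub 0‖ = 1 := by simp [ub]
    rw [e] at h
    exact h

theorem SP3_fin5 (i : Fin 5) : i = 0 ∨ i = 1 ∨ i = 2 ∨ i = 3 ∨ i = 4 := by
  revert i
  decide

theorem SP3_b0 : ub 0 = 1 := rfl
theorem SP3_b1 : ub 1 = 0 := rfl
theorem SP3_b2 : ub 2 = 0 := rfl
theorem SP3_b3 : ub 3 = 0 := rfl

theorem SP3_U0 : UU ub 0 = 4 / 5 := by
  rw [SP3_UU0]
  rw [SP3_b0, SP3_b1, SP3_b2, SP3_b3]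
  norm_num
theorem SP3_U1 : UU ub 1 = -1 / 5 := by
  rw [SP3_UU1]
  rw [SP3_b0, SP3_b1, SP3_b2, SP3_b3]
  norm_num
theorem SP3_U2 : UU ub 2 = -1 / 5 := by
  rw [SP3_UU2]
  rw [SP3_b0, SP3_b1, SP3_b2, SP3_b3]
  norm_num
theorem SP3_U3 : UU ub 3 = -1 / 5 := by
  rw [SP3_UU3]
  rw [SP3_b0, SP3_b1, SP3_b2, SP3_b3]
  norm_num
theorem SP3_U4 : UU ub 4 = -1 / 5 := by
  rw [SP3_UU4]
  rw [SP3_b0, SP3_b1, SP3_b2, SP3_b3]
  norm_num
theorem SP3_m : mm ub = 8 / 25 := by
  unfold mm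
  rw [SP3_sum5, SP3_U0, SP3_U1, SP3_U2, SP3_U3, SP3_U4]
  norm_num [abs_of_pos, abs_of_neg]
theorem SP3_V0 : VV ub 0 = -76 / 125 := by
  unfold VV
  rw [SP3_m, SP3_U0, SP3_epsi, abs_of_pos (by norm_num)]
  norm_num
theorem SP3_V1 : VV ub 1 = 7 / 125 := by
  unfold VV
  rw [SP3_m, SP3_U1, SP3_epsi, abs_of_neg (by norm_num)]
  norm_num
theorem SP3_V2 : VV ub 2 = 15 / 125 := by
  unfold VV
  rw [SP3_m, SP3_U2, SP3_epsi, abs_of_neg (by norm_num)]
  norm_num
theorem SP3_V3 : VV ub 3 = 23 / 125 := by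
  unfold VV
  rw [SP3_m, SP3_U3, SP3_epsi, abs_of_neg (by norm_num)]
  norm_num
theorem SP3_V4 : VV ub 4 = 31 / 125 := by
  unfold VV
  rw [SP3_m, SP3_U4, SP3_epsi, abs_of_neg (by norm_num)]
  norm_num

/-- `U = (4/5, -1/5, -1/5, -1/5, -1/5)`, `mm = 8/25`,
`V = (-76/125, 7/125, 15/125, 23/125, 31/125)`: the ratios `V/U` are pairwise different -/
theorem ub_cross {i k : Fin 5} (h : i ≠ k) : UU ub i * VV ub k - UU ub k * VV ub i ≠ 0 := by
  rcases SP3_fin5 i with rfl | rfl | rfl | rfl | rfl <;>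
  rcases SP3_fin5 k with rfl | rfl | rfl | rfl | rfl <;>
  first
  | exact absurd rfl h
  | (simp only [SP3_V0, SP3_V1, SP3_V2, SP3_V3, SP3_V4, SP3_U0, SP3_U1, SP3_U2, SP3_U3, SP3_U4]
     norm_num)

theorem ub_ratio {i k : Fin 5} (h : i ≠ k) (r : ℝ) (hr : 0 ≤ r) : xx ub k ^ 2 ≠ r * xx ub i ^ 2 := by
  intro e
  have hi : xx ub i * ww ub i = 1 := inv_mul_cancel₀ (ww_ne ub_mem i)
  have hk : xx ub k * ww ub k = 1 := inv_mul_cancel₀ (ww_ne ub_mem k)
  have hs : ((Real.sqrt r : ℝ) : ℂ) ^ 2 = (r : ℂ) := by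
    rw [← Complex.ofReal_pow, Real.sq_sqrt hr]
  have e1 : ww ub i ^ 2 = (((Real.sqrt r : ℝ) : ℂ) * ww ub k) ^ 2 := by
    rw [mul_pow, hs]
    have hi2 : xx ub i ^ 2 * ww ub i ^ 2 = 1 := by rw [← mul_pow, hi, one_pow]
    have hk2 : xx ub k ^ 2 * ww ub k ^ 2 = 1 := by rw [← mul_pow, hk, one_pow]
    linear_combination (-ww ub i ^ 2) * hk2 + (ww ub i ^ 2 * ww ub k ^ 2) * e + ((r : ℂ) * ww ub k ^ 2) * hi2
  have hc := ub_cross h
  rcases sq_eq_sq_iff_eq_or_eq_neg.1 e1 with e2 | e2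
  · have h1 : UU ub i = Real.sqrt r * UU ub k := by
      have := congrArg Complex.re e2
      rw [Complex.re_ofReal_mul] at this
      exact this
    have h2 : VV ub i / 100 = Real.sqrt r * (VV ub k / 100) := by
      have := congrArg Complex.im e2
      rw [Complex.im_ofReal_mul] at this
      exact this
    apply hc
    have h3 : VV ub i = Real.sqrt r * VV ub k := by linarith
    rw [h1, h3]
    ring
  · have h1 : UU ub i = -(Real.sqrt r * UU ub k) := by
      have := congrArg Complex.re e2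
      rw [Complex.neg_re, Complex.re_ofReal_mul] at this
      exact this
    have h2 : VV ub i / 100 = -(Real.sqrt r * (VV ub k / 100)) := by
      have := congrArg Complex.im e2
      rw [Complex.neg_im, Complex.im_ofReal_mul] at this
      exact this
    apply hc
    have h3 : VV ub i = -(Real.sqrt r * VV ub k) := by linarith
    rw [h1, h3]
    ring

end KZP
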