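import Pool.Agent.KZP.Defs

/-!
# KZP-SP4A: bounds for arguments
`z = a + i b`; `-i z = b - i a`.
-/

open scoped BigOperators
open Complex

namespace KZP

theorem SP4A_arcsin {η : ℝ} (hη : 0 ≤ η) (hη1 : η ≤ 1/2) : Real.arcsin η ≤ 2 * η := by
  have hpi := Real.pi_gt_three
  have hpi4 := Real.pi_lt_four
  rw [Real.arcsin_le_iff_le_sin ⟨by linarith, by linarith⟩ ⟨by linarith, by linarith⟩]
  have h1 := Real.mul_le_sin (x := 2 * η) (by linarith) (by linarith)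
  refine le_trans ?_ h1
  rw [div_mul_eq_mul_div, le_div_iff₀ Real.pi_pos]
  nlinarith

theorem SP4A_argI {z : ℂ} (h : 0 < z.re) : arg (-I * z) = arg z - Real.pi / 2 := by
  have hz : z ≠ 0 := by
    rintro rfl
    simp at h
  have h1 := abs_lt.1 (Complex.abs_arg_lt_pi_div_two_iff.2 (Or.inl h))
  have hpi := Real.pi_pos
  rw [Complex.arg_mul (neg_ne_zero.2 I_ne_zero) hz, Complex.arg_neg_I]
  · ring
  · rw [Complex.arg_neg_I]
    exact ⟨by linarith, by linarith⟩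

theorem SP4A_low {η : ℝ} (hη : 0 ≤ η) (hη1 : η ≤ 1/2) {z : ℂ} (h : 0 < z.re)
    (h1 : z.im ≤ η * z.re) : arg z ≤ 2 * η := by
  have hz : z ≠ 0 := by
    rintro rfl
    simp at h
  have hn : 0 < ‖z‖ := norm_pos_iff.2 hz
  rw [Complex.arg_of_re_nonneg h.le]
  refine le_trans (Real.monotone_arcsin ?_) (SP4A_arcsin hη hη1)
  rw [div_le_iff₀ hn]
  have h2 := Complex.re_le_norm z
  exact h1.trans (mul_le_mul_of_nonneg_left h2 hη)

theorem SP4A_high {η : ℝ} (hη : 0 ≤ η) (hη1 : η ≤ 1/2) {z : ℂ} (h : 0 < z.re)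
    (h1 : - (η * z.re) ≤ z.im) : - (2 * η) ≤ arg z := by
  have hz : z ≠ 0 := by
    rintro rfl
    simp at h
  have hn : 0 < ‖z‖ := norm_pos_iff.2 hz
  rw [Complex.arg_of_re_nonneg h.le]
  refine le_trans (neg_le_neg (SP4A_arcsin hη hη1)) ?_
  rw [← Real.arcsin_neg]
  refine Real.monotone_arcsin ?_
  rw [le_div_iff₀ hn]
  have h2 := mul_le_mul_of_nonneg_left (Complex.re_le_norm z) hη
  linarith

/-- mirror image -/
theorem SP4A_mirror (z : ℂ) : -I * (-(starRingEnd ℂ) z) = (starRingEnd ℂ) (-I * z) := by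
  simp

theorem SP4A_conj {w : ℂ} (h : arg ((starRingEnd ℂ) w) ≤ 0) : arg ((starRingEnd ℂ) w) = - arg w := by
  rw [Complex.arg_conj] at h ⊢
  split_ifs at h ⊢ with h1
  · have := Real.pi_pos
    linarith
  · rfl

/-- `a ≥ 0`, `b ≥ - η a`: then `-i z` has argument in `[-π/2 - 2η, 0]`
(`arg (-i z) = arg z - π/2`, `arg z = arcsin (b/‖z‖) ≥ arcsin (-η) ≥ - 2 η`). -/
theorem arg_right (η : ℝ) (hη : 0 ≤ η) (hη1 : η ≤ 1/2) (z : ℂ) (hz : z ≠ 0) (h0 : 0 ≤ z.re)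
    (h1 : - (η * z.re) ≤ z.im) :
    - (Real.pi / 2) - 2 * η ≤ arg (-I * z) ∧ arg (-I * z) ≤ 0 := by
  have hpi := Real.pi_pos
  rcases h0.lt_or_eq with h | h
  · rw [SP4A_argI h]
    have h2 := SP4A_high hη hη1 h h1
    have h3 := abs_lt.1 (Complex.abs_arg_lt_pi_div_two_iff.2 (Or.inl h))
    exact ⟨by linarith, by linarith⟩
  · have h2 : arg (-I * z) = 0 := by
      rw [Complex.arg_eq_zero_iff]
      rw [← h, mul_zero, neg_zero] at h1
      constructor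
      · simpa using h1
      · simpa using h.symm
    rw [h2]
    exact ⟨by linarith, le_refl _⟩

/-- mirror image: `a ≤ 0`, `b ≥ η a`. -/
theorem arg_left (η : ℝ) (hη : 0 ≤ η) (hη1 : η ≤ 1/2) (z : ℂ) (hz : z ≠ 0) (h0 : z.re ≤ 0)
    (h1 : η * z.re ≤ z.im) :
    0 ≤ arg (-I * z) ∧ arg (-I * z) ≤ Real.pi / 2 + 2 * η := by
  have h2 := arg_right η hη hη1 (-(starRingEnd ℂ) z) (by simpa using hz) (by simpa using h0)
    (by simpa using h1)
  rw [SP4A_mirror] at h2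
  rw [SP4A_conj h2.2] at h2
  exact ⟨by linarith, by linarith⟩

/-- `a > 0`, `b ≤ η a`: `arg (-i z) ≤ -π/2 + 2 η` -/
theorem arg_low (η : ℝ) (hη : 0 ≤ η) (hη1 : η ≤ 1/2) (z : ℂ) (h0 : 0 < z.re)
    (h1 : z.im ≤ η * z.re) : arg (-I * z) ≤ - (Real.pi / 2) + 2 * η := by
  rw [SP4A_argI h0]
  have := SP4A_low hη hη1 h0 h1
  linarith

/-- `a < 0`, `b ≤ - η a`: `π/2 - 2 η ≤ arg (-i z)` -/
theorem arg_high (η : ℝ) (hη : 0 ≤ η) (hη1 : η ≤ 1/2) (z : ℂ) (h0 : z.re < 0)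
    (h1 : z.im ≤ - (η * z.re)) : Real.pi / 2 - 2 * η ≤ arg (-I * z) := by
  have hpi := Real.pi_gt_three
  have h2 := arg_low η hη hη1 (-(starRingEnd ℂ) z) (by simpa using h0) (by simpa using h1)
  rw [SP4A_mirror] at h2
  rw [SP4A_conj (by linarith)] at h2
  linarith

end KZP
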