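import Pool.Agent.KZP.PBU
import Pool.Agent.KZP.EXT

/-!
# KZP-TOP: the topological theorem

Proof.  `f` from `ext_main` (`ν` continuous).  `DD = Bx p ×ˢ Bx (n+1)` is compact and convex,
`x0 = (u0, 0) ∈ DD` (`u0 ∈ Sx p`), `f x0 = s u0`.  `a` from `hlift`.  Let
`Q = {x ∈ Bx p ×ˢ Sx (n+1) | β (f x) = 0}`, a closed (compact) set, and `fl (u,v) = (u,-v)`; `Q` is
`fl`-invariant (`β (f (u,-v)) = β (ν (f (u,v))) = - β (f (u,v))`).  On `Q`, `ν (f x) = f x` and
`f (fl x) = ν (f x) = f x`.  For `x ∈ Q` and `i : Fin p` let `D x i = a x i.castSucc - a x (last p)`;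
continuous on `Q`, `exp (D x i * I) = (G i/‖G i‖)/(G last/‖G last‖)` at `f x`  (*)  (all `G i ≠ 0`, so
`c ≠ 0`).  By (*) `exp (D (fl x) i I) = exp (D x i I)`.
* On `W = Sx p ×ˢ Sx (n+1)` (contained in `Q`: `f (u,v) = s u`, `ν (s u) = s u`, so
  `β (s u) = - β (s u)`), a product of connected sets if `2 ≤ p`, `1 ≤ n` (spheres of the sup norm in
  dimension `≥ 2`: `isPreconnected_sphere`/`isConnected_sphere` with `1 < Module.rank`): the function
  `x = (u,v) ↦ D x i - (α u i.castSucc - α u last)` has `exp (· I) = 1`, so it is a constant `κ i`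
  (`const_of_exp`), `exp (κ i I) = 1`.  In particular `D (fl x) = D x` on `W`.
* `A0 x := if D (fl x) = D x then D x - κ else fun _ => 1` on `Q`.  It is even.  It is nonzero: if
  `D x = κ` then all `G i/‖G i‖` at `f x` are equal to some `ζ`, `|ζ| = 1`, and
  `∑ (G i)⁻¹ = ζ⁻¹ ∑ ‖G i‖⁻¹ ≠ 0`, contradicting `hsum`.  It is continuous on `Q`: `D (fl x) - D x` is
  continuous with values in `2π ℤ` in every coordinate, so `{x ∈ Q | D (fl x) = D x}` is open and closed
  in `Q`.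
* Tietze: extend `A0` from the closed set `Q` to a continuous `Ã` on the whole space (`ℝ^p`-valued,
  coordinatewise or by the instance `TietzeExtension`), `A x = (1/2) • (Ã x + Ã (fl x))`, even, equal
  to `A0` on `Q`; `B x = β (f x)`, odd.  `(A, B)` has no zero on `Bx p ×ˢ Sx (n+1)`.  For `u ∈ Sx p`,
  `A (u,v) = A0 (u,v) = D (u,v) - κ = α u · - α u last`, never `-t • u` by `hdir`.  Contradiction to `pbu`.
-/

open Complex Topology
open scoped BigOperators

namespace KZP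

/-- a continuous real function on a preconnected set whose values differ by elements of `2π ℤ` is
constant -/
theorem const_of_exp {P : Type*} [TopologicalSpace P] (S : Set P) (hS : IsPreconnected S)
    (D : P → ℝ) (hD : ContinuousOn D S)
    (hE : ∀ t ∈ S, ∀ t' ∈ S, cexp (D t * I) = cexp (D t' * I)) :
    ∀ t ∈ S, ∀ t' ∈ S, D t = D t' := by
  intro t ht t' ht'
  have hpre : IsPreconnected (D '' S) := hS.image D hD
  by_contra hne
  -- wlog D t < D t'
  have key : ∀ x ∈ S, ∀ y ∈ S, D x < D y → False := by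
    intro x hx y hy hxy
    have h1 : Set.Icc (D x) (D y) ⊆ D '' S :=
      hpre.Icc_subset (Set.mem_image_of_mem D hx) (Set.mem_image_of_mem D hy)
    have hpi := Real.pi_pos
    set m := min (D y) (D x + Real.pi) with hm
    have hm1 : D x < m := lt_min hxy (by linarith)
    have hm2 : m ≤ D y := min_le_left _ _
    have hm3 : m ≤ D x + Real.pi := min_le_right _ _
    obtain ⟨z, hz, hzm⟩ := h1 ⟨hm1.le, hm2⟩
    have h2 := hE z hz x hx
    rw [Complex.exp_eq_exp_iff_exists_int] at h2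
    obtain ⟨k, hk⟩ := h2
    have h3 : D z = D x + k * (2 * Real.pi) := by
      have h4 : ((D z : ℝ) : ℂ) * I = ((D x + k * (2 * Real.pi) : ℝ) : ℂ) * I := by
        rw [hk]
        push_cast
        ring
      exact_mod_cast mul_right_cancel₀ Complex.I_ne_zero h4
    rw [hzm] at h3
    have h5 : (0 : ℝ) < k * (2 * Real.pi) := by linarith
    have h6 : (k : ℝ) * (2 * Real.pi) ≤ Real.pi := by linarith
    have h7 : (0 : ℝ) < k := by
      by_contra h
      push Not at h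
      nlinarith
    have h8 : (1 : ℤ) ≤ k := by exact_mod_cast h7
    have h9 : (1 : ℝ) ≤ k := by exact_mod_cast h8
    nlinarith
  rcases lt_or_gt_of_ne hne with h | h
  · exact key t ht t' ht' h
  · exact key t' ht' t ht h

/-- difference of two real lifts of the same phase -/
theorem exp_mul_I_eq {x y : ℝ} (h : cexp (x * I) = cexp (y * I)) :
    ∃ k : ℤ, x = y + k * (2 * Real.pi) := by
  rw [Complex.exp_eq_exp_iff_exists_int] at h
  obtain ⟨k, hk⟩ := h
  refine ⟨k, ?_⟩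
  have h4 : ((x : ℝ) : ℂ) * I = ((y + k * (2 * Real.pi) : ℝ) : ℂ) * I := by
    rw [hk]
    push_cast
    ring
  exact_mod_cast mul_right_cancel₀ Complex.I_ne_zero h4

theorem exp_mul_I_close {x y : ℝ} (h : cexp (x * I) = cexp (y * I)) (hxy : |x - y| < 1) : x = y := by
  obtain ⟨k, hk⟩ := exp_mul_I_eq h
  have hpi := Real.pi_gt_three
  have h1 : |(k : ℝ) * (2 * Real.pi)| < 1 := by
    have : x - y = k * (2 * Real.pi) := by linarith
    rwa [this] at hxy
  have h2 : k = 0 := by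
    by_contra h0
    have h3 : (1 : ℤ) ≤ |k| := Int.one_le_abs h0
    have h4 : (1 : ℝ) ≤ |(k : ℝ)| := by exact_mod_cast h3
    rw [abs_mul, abs_of_pos (by linarith : (0 : ℝ) < 2 * Real.pi)] at h1
    nlinarith
  rw [h2] at hk
  simpa using hk

/-- Part of a closed set where two lifts agree, and an even extension. -/
theorem even_ext {Y : Type*} [TopologicalSpace Y] [NormalSpace Y] (p : ℕ) (hp : 0 < p) (Q : Set Y)
    (hQ : IsClosed Q) (D : Y → Fin p → ℝ) (hD : ContinuousOn D Q)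
    (r : Y → Y) (hr : Continuous r) (hrr : ∀ x, r (r x) = x) (hrQ : ∀ x ∈ Q, r x ∈ Q)
    (har : ∀ j, ∀ x ∈ Q, cexp (D (r x) j * I) = cexp (D x j * I)) (κ : Fin p → ℝ)
    (hne : ∀ x ∈ Q, D x ≠ κ) :
    ∃ A : Y → Fin p → ℝ, Continuous A ∧ (∀ x, A (r x) = A x) ∧ (∀ x ∈ Q, A x ≠ 0) ∧
      ∀ x ∈ Q, D (r x) = D x → A x = D x - κ := by
  classical
  have : Nonempty (Fin p) := ⟨⟨0, hp⟩⟩
  -- the two pieces
  have hDr : ContinuousOn (fun x => D (r x)) Q := hD.comp hr.continuousOn hrQ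
  have hdist : ContinuousOn (fun x => ‖D (r x) - D x‖) Q := (hDr.sub hD).norm
  set Q0 : Set Y := Q ∩ (fun x => ‖D (r x) - D x‖) ⁻¹' Set.Iic 0 with hQ0
  set Q1 : Set Y := Q ∩ (fun x => ‖D (r x) - D x‖) ⁻¹' Set.Ici 1 with hQ1
  have hQ0c : IsClosed Q0 := hdist.preimage_isClosed_of_isClosed hQ isClosed_Iic
  have hQ1c : IsClosed Q1 := hdist.preimage_isClosed_of_isClosed hQ isClosed_Ici
  have hmem0 : ∀ x, x ∈ Q0 ↔ x ∈ Q ∧ D (r x) = D x := by
    intro x
    simp only [hQ0, Set.mem_inter_iff, Set.mem_preimage, Set.mem_Iic, norm_le_zero_iff, sub_eq_zero]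
  have hcov : ∀ x ∈ Q, x ∈ Q0 ∨ x ∈ Q1 := by
    intro x hx
    by_cases h : D (r x) = D x
    · exact Or.inl ((hmem0 x).2 ⟨hx, h⟩)
    · right
      refine ⟨hx, ?_⟩
      by_contra h1
      simp only [Set.mem_preimage, Set.mem_Ici, not_le] at h1
      apply h
      funext j
      refine exp_mul_I_close (har j x hx) ?_
      have h2 := norm_le_pi_norm (D (r x) - D x) j
      rw [Pi.sub_apply, Real.norm_eq_abs] at h2
      exact h2.trans_lt h1
  have hdisj : ∀ x, x ∈ Q0 → x ∈ Q1 → False := by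
    intro x h0 h1
    have h2 : ‖D (r x) - D x‖ ≤ 0 := h0.2
    have h3 : 1 ≤ ‖D (r x) - D x‖ := h1.2
    linarith
  let A0 : Y → Fin p → ℝ := fun x => if x ∈ Q0 then D x - κ else fun _ => 1
  have hA0 : ContinuousOn A0 Q := by
    have hU : Q = Q0 ∪ Q1 := by
      ext x
      constructor
      · exact hcov x
      · rintro (h | h)
        · exact h.1
        · exact h.1
    rw [hU]
    refine ContinuousOn.union_of_isClosed ?_ ?_ hQ0c hQ1c
    · have h1 : ContinuousOn (fun x => D x - κ) Q0 :=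
        (hD.mono fun x hx => hx.1).sub continuousOn_const
      refine h1.congr fun x hx => ?_
      simp [A0, hx]
    · have h1 : ContinuousOn (fun _ : Y => (fun _ : Fin p => (1 : ℝ))) Q1 := continuousOn_const
      refine h1.congr fun x hx => ?_
      have h2 : x ∉ Q0 := fun h => hdisj x h hx
      simp [A0, h2]
  obtain ⟨g, hg⟩ := ContinuousMap.exists_restrict_eq (Y := Fin p → ℝ) hQ
    ⟨Q.domRestrict A0, continuousOn_iff_continuous_domRestrict.1 hA0⟩
  have hgQ : ∀ x ∈ Q, g x = A0 x := by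
    intro x hx
    exact congrArg (fun F : C(Q, Fin p → ℝ) => F ⟨x, hx⟩) hg
  have hA0r : ∀ x ∈ Q, A0 (r x) = A0 x := by
    intro x hx
    by_cases h : x ∈ Q0
    · have h1 := ((hmem0 x).1 h).2
      have h2 : r x ∈ Q0 := (hmem0 _).2 ⟨hrQ x hx, by rw [hrr, h1]⟩
      simp [A0, h, h2, h1]
    · have h2 : r x ∉ Q0 := by
        intro h3
        have h4 := ((hmem0 _).1 h3).2
        rw [hrr] at h4
        exact h ((hmem0 x).2 ⟨hx, h4.symm⟩)
      simp [A0, h, h2]
  have hAQ : ∀ x ∈ Q, (1 / 2 : ℝ) • (g x + g (r x)) = A0 x := by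
    intro x hx
    rw [hgQ x hx, hgQ _ (hrQ x hx), hA0r x hx, ← two_smul ℝ, smul_smul]
    norm_num
  refine ⟨fun x => (1 / 2 : ℝ) • (g x + g (r x)), ?_, ?_, ?_, ?_⟩
  · have h1 : Continuous fun x => g (r x) := g.continuous.comp hr
    have h2 : Continuous fun x => g x + g (r x) := g.continuous.add h1
    exact h2.const_smul (1 / 2 : ℝ)
  · intro x
    simp only [hrr]
    rw [add_comm]
  · intro x hx h0
    replace h0 : (1 / 2 : ℝ) • (g x + g (r x)) = 0 := h0
    rw [hAQ x hx] at h0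
    by_cases h : x ∈ Q0
    · simp only [A0, h, if_true] at h0
      exact hne x hx (sub_eq_zero.1 h0)
    · simp only [A0, h, if_false] at h0
      have := congrFun h0 ⟨0, hp⟩
      simp at this
  · intro x hx h
    show (1 / 2 : ℝ) • (g x + g (r x)) = D x - κ
    rw [hAQ x hx]
    simp [A0, (hmem0 x).2 ⟨hx, h⟩]

/-- if all phases agree, the sum of the inverses is nonzero -/
theorem sum_inv_ne (p : ℕ) (g : Fin (p + 1) → ℂ) (hg : ∀ i, g i ≠ 0) (c : ℂ) (a : Fin (p + 1) → ℝ)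
    (h : ∀ i, g i = c * (‖g i‖ * cexp (a i * I)))
    (he : ∀ i : Fin p, cexp ((a i.castSucc - a (Fin.last p) : ℝ) * I) = 1) :
    ∑ i, (g i)⁻¹ ≠ 0 := by
  have h1 : ∀ i, cexp (a i * I) = cexp (a (Fin.last p) * I) := by
    intro i
    refine Fin.lastCases rfl (fun j => ?_) i
    have h2 := he j
    have h3 : ((a j.castSucc : ℝ) : ℂ) * I = ((a j.castSucc - a (Fin.last p) : ℝ) : ℂ) * I +
        (a (Fin.last p) : ℂ) * I := by
      push_cast
      ring
    rw [h3, Complex.exp_add, h2, one_mul]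
  have hc : c * cexp (a (Fin.last p) * I) ≠ 0 := by
    intro h0
    apply hg (Fin.last p)
    rw [h (Fin.last p)]
    have : c * (‖g (Fin.last p)‖ * cexp (a (Fin.last p) * I)) =
        (c * cexp (a (Fin.last p) * I)) * ‖g (Fin.last p)‖ := by ring
    rw [this, h0, zero_mul]
  have h4 : ∀ i, (g i)⁻¹ = (c * cexp (a (Fin.last p) * I))⁻¹ * ((‖g i‖⁻¹ : ℝ) : ℂ) := by
    intro i
    conv_lhs => rw [h i, h1 i]
    push_cast
    rw [← mul_inv]
    congr 1
    ring
  rw [Finset.sum_congr rfl fun i _ => h4 i, ← Finset.mul_sum, ← Complex.ofReal_sum]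
  refine mul_ne_zero (inv_ne_zero hc) ?_
  have h5 : 0 < ∑ i, ‖g i‖⁻¹ :=
    Finset.sum_pos (fun i _ => inv_pos.2 (norm_pos_iff.2 (hg i))) ⟨Fin.last p, Finset.mem_univ _⟩
  exact_mod_cast h5.ne'

theorem isPreconnected_Sx (n : ℕ) (hn : 2 ≤ n) : IsPreconnected (Sx n) := by
  refine isPreconnected_sphere ?_ 0 1
  rw [rank_fun', Fintype.card_fin]
  exact_mod_cast hn

theorem top {X : Type*} [TopologicalSpace X] (ν : X → X) (hν : Continuous ν)
    (hνν : ∀ x, ν (ν x) = x)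
    (p n : ℕ) (hp : 2 ≤ p) (hn : 1 ≤ n) (β : X → Fin n → ℝ) (hβ : Continuous β)
    (hβν : ∀ x, β (ν x) = - β x) (hβ0 : ∀ x, β x = 0 → ν x = x)
    (G : X → Fin (p + 1) → ℂ) (hGc : Continuous G) (hG0 : ∀ x, ν x = x → ∀ i, G x i ≠ 0)
    (hsum : ∀ x, ν x = x → ∑ i, (G x i)⁻¹ = 0)
    (s : (Fin p → ℝ) → X) (hs : ContinuousOn s (Sx p)) (hsν : ∀ u ∈ Sx p, ν (s u) = s u)
    (α : (Fin p → ℝ) → Fin (p + 1) → ℝ) (hα : ContinuousOn α (Sx p))
    (hαG : ∀ u ∈ Sx p, ∀ i, G (s u) i = ‖G (s u) i‖ * cexp (α u i * I))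
    (hdir : ∀ u ∈ Sx p, ∀ t : ℝ, 0 ≤ t →
      (fun i : Fin p => α u i.castSucc - α u (Fin.last p)) ≠ -t • u)
    (u0 : Fin p → ℝ) (hu0 : u0 ∈ Sx p)
    (hlift : LiftProp ν G (s u0) ((Fin p → ℝ) × (Fin (n + 1) → ℝ)))
    (hπ : ∀ j : ℕ, p - 1 ≤ j → j ≤ p + n → ∀ x : X, Subsingleton (HomotopyGroup (Fin j) X x)) :
    False := by
  obtain ⟨f, hf, hfs, hfν⟩ := ext_main ν hν hνν p n hp hπ s hs hsν
  have h0B : (0 : Fin (n + 1) → ℝ) ∈ Bx (n + 1) := by simp
  have hSB : ∀ u ∈ Sx p, u ∈ Bx p := fun u hu => Metric.sphere_subset_closedBall hu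
  have hSB' : ∀ v ∈ Sx (n + 1), v ∈ Bx (n + 1) := fun u hu => Metric.sphere_subset_closedBall hu
  obtain ⟨a, ha, haG⟩ := hlift (Bx p ×ˢ Bx (n + 1))
    ((isCompact_closedBall 0 1).prod (isCompact_closedBall 0 1))
    ((convex_closedBall 0 1).prod (convex_closedBall 0 1)) (u0, 0) ⟨hSB u0 hu0, h0B⟩ f hf
    (hfs u0 hu0 0 h0B)
  set Q : Set ((Fin p → ℝ) × (Fin (n + 1) → ℝ)) := {x | x ∈ Bx p ×ˢ Sx (n + 1) ∧ β (f x) = 0}
    with hQdef
  have hfS : ContinuousOn f (Bx p ×ˢ Sx (n + 1)) :=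
    hf.mono fun x hx => ⟨hx.1, hSB' _ hx.2⟩
  have hcl : IsClosed (Bx p ×ˢ Sx (n + 1)) := Metric.isClosed_closedBall.prod Metric.isClosed_sphere
  have hQ : IsClosed Q := by
    have h1 : IsClosed ((Bx p ×ˢ Sx (n + 1)) ∩ (fun x => β (f x)) ⁻¹' {0}) :=
      (hβ.comp_continuousOn hfS).preimage_isClosed_of_isClosed hcl isClosed_singleton
    exact h1
  let fl : (Fin p → ℝ) × (Fin (n + 1) → ℝ) → (Fin p → ℝ) × (Fin (n + 1) → ℝ) :=
    fun x => (x.1, -x.2)
  have hfl : Continuous fl := continuous_fst.prodMk continuous_snd.neg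
  have hflfl : ∀ x, fl (fl x) = x := by
    rintro ⟨u, v⟩
    simp [fl]
  have hflQ : ∀ x ∈ Q, fl x ∈ Q := by
    rintro ⟨u, v⟩ ⟨⟨h1, h2⟩, h3⟩
    refine ⟨⟨h1, by simpa [fl] using h2⟩, ?_⟩
    show β (f (u, -v)) = 0
    rw [hfν u h1 v h2, hβν, h3, neg_zero]
  have hfix : ∀ x ∈ Q, ν (f x) = f x := fun x hx => hβ0 _ hx.2
  have hffl : ∀ x ∈ Q, f (fl x) = f x := by
    rintro ⟨u, v⟩ hx
    show f (u, -v) = f (u, v)
    rw [hfν u hx.1.1 v hx.1.2]
    exact hfix _ hx
  let D : (Fin p → ℝ) × (Fin (n + 1) → ℝ) → Fin p → ℝ := fun x i =>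
    a x i.castSucc - a x (Fin.last p)
  have haQ : ContinuousOn a Q := ha.mono fun x hx => ⟨⟨hx.1.1, hSB' _ hx.1.2⟩, hfix x hx⟩
  have hD : ContinuousOn D Q := by
    rw [continuousOn_pi]
    intro i
    exact ((continuous_apply _).comp_continuousOn haQ).sub
      ((continuous_apply _).comp_continuousOn haQ)
  have haG' : ∀ x ∈ Q, ∃ c : ℂ, ∀ i, G (f x) i = c * (‖G (f x) i‖ * cexp (a x i * I)) :=
    fun x hx => haG x ⟨hx.1.1, hSB' _ hx.1.2⟩ (hfix x hx)
  -- comparison of phases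
  have hcomp : ∀ (g : Fin (p + 1) → ℂ) (_ : ∀ i, g i ≠ 0) (c c' : ℂ) (b b' : Fin (p + 1) → ℝ)
      (_ : ∀ i, g i = c * (‖g i‖ * cexp (b i * I))) (_ : ∀ i, g i = c' * (‖g i‖ * cexp (b' i * I)))
      (i : Fin p), cexp ((b i.castSucc - b (Fin.last p) : ℝ) * I) =
        cexp ((b' i.castSucc - b' (Fin.last p) : ℝ) * I) := by
    intro g hg c c' b b' hb hb' i
    have hn : ∀ j, (‖g j‖ : ℂ) ≠ 0 := by
      intro j
      simpa using hg j
    have hc : c ≠ 0 := by
      rintro rfl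
      exact hg (Fin.last p) (by rw [hb (Fin.last p), zero_mul])
    have hc' : c' ≠ 0 := by
      rintro rfl
      exact hg (Fin.last p) (by rw [hb' (Fin.last p), zero_mul])
    have h1 : ∀ j, c * cexp (b j * I) = c' * cexp (b' j * I) := by
      intro j
      have h2 := (hb j).symm.trans (hb' j)
      have h3 : (‖g j‖ : ℂ) * (c * cexp (b j * I)) = (‖g j‖ : ℂ) * (c' * cexp (b' j * I)) := by
        linear_combination h2
      exact mul_left_cancel₀ (hn j) h3
    have h4 : cexp (b (Fin.last p) * I) ≠ 0 := Complex.exp_ne_zero _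
    have h5 : cexp (b' (Fin.last p) * I) ≠ 0 := Complex.exp_ne_zero _
    have h6 : cexp ((b i.castSucc - b (Fin.last p) : ℝ) * I) =
        cexp (b i.castSucc * I) / cexp (b (Fin.last p) * I) := by
      rw [← Complex.exp_sub]
      congr 1
      push_cast
      ring
    have h7 : cexp ((b' i.castSucc - b' (Fin.last p) : ℝ) * I) =
        cexp (b' i.castSucc * I) / cexp (b' (Fin.last p) * I) := by
      rw [← Complex.exp_sub]
      congr 1
      push_cast
      ring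
    rw [h6, h7, div_eq_div_iff h4 h5]
    have h8 := h1 i.castSucc
    have h9 := h1 (Fin.last p)
    have h10 : c * (cexp (b i.castSucc * I) * cexp (b' (Fin.last p) * I)) =
        c * (cexp (b' i.castSucc * I) * cexp (b (Fin.last p) * I)) := by
      have e1 : c * (cexp (b i.castSucc * I) * cexp (b' (Fin.last p) * I)) =
          (c * cexp (b i.castSucc * I)) * cexp (b' (Fin.last p) * I) := by ring
      have e2 : c * (cexp (b' i.castSucc * I) * cexp (b (Fin.last p) * I)) =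
          (c * cexp (b (Fin.last p) * I)) * cexp (b' i.castSucc * I) := by ring
      rw [e1, e2, h8, h9]
      ring
    exact mul_left_cancel₀ hc h10
  have har : ∀ j, ∀ x ∈ Q, cexp (D (fl x) j * I) = cexp (D x j * I) := by
    intro j x hx
    obtain ⟨c, hc⟩ := haG' x hx
    obtain ⟨c', hc'⟩ := haG' (fl x) (hflQ x hx)
    rw [hffl x hx] at hc'
    exact hcomp (G (f x)) (hG0 _ (hfix x hx)) c' c (a (fl x)) (a x) hc' hc j
  -- the boundary
  have hβs : ∀ u ∈ Sx p, β (s u) = 0 := by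
    intro u hu
    have h1 := hβν (s u)
    rw [hsν u hu] at h1
    funext i
    have h2 := congrFun h1 i
    rw [Pi.neg_apply] at h2
    show β (s u) i = 0
    linarith
  have hWQ : ∀ u ∈ Sx p, ∀ v ∈ Sx (n + 1), (u, v) ∈ Q := by
    intro u hu v hv
    refine ⟨⟨hSB u hu, hv⟩, ?_⟩
    rw [hfs u hu v (hSB' v hv)]
    exact hβs u hu
  have hW : IsPreconnected (Sx p ×ˢ Sx (n + 1)) :=
    (isPreconnected_Sx p hp).prod (isPreconnected_Sx (n + 1) (by omega))
  have hbase : ∀ i : Fin p, ∀ u ∈ Sx p, ∀ v ∈ Sx (n + 1),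
      cexp ((D (u, v) i - (α u i.castSucc - α u (Fin.last p)) : ℝ) * I) = 1 := by
    intro i u hu v hv
    obtain ⟨c, hc⟩ := haG' (u, v) (hWQ u hu v hv)
    rw [hfs u hu v (hSB' v hv)] at hc
    have h1 := hcomp (G (s u)) (hG0 _ (hsν u hu)) c 1 (a (u, v)) (α u) hc
      (fun i => by rw [one_mul]; exact hαG u hu i) i
    have h2 : ((D (u, v) i - (α u i.castSucc - α u (Fin.last p)) : ℝ) : ℂ) * I =
        ((D (u, v) i : ℝ) : ℂ) * I - ((α u i.castSucc - α u (Fin.last p) : ℝ) : ℂ) * I := by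
      push_cast
      ring
    rw [h2, Complex.exp_sub, h1, div_self (Complex.exp_ne_zero _)]
  have hv0 : ∃ v0 : Fin (n + 1) → ℝ, v0 ∈ Sx (n + 1) := by
    refine ⟨fun _ => 1, ?_⟩
    simp [pi_norm_const]
  obtain ⟨v0, hv0⟩ := hv0
  let κ : Fin p → ℝ := fun i => D (u0, v0) i - (α u0 i.castSucc - α u0 (Fin.last p))
  have hκ : ∀ i : Fin p, ∀ u ∈ Sx p, ∀ v ∈ Sx (n + 1),
      D (u, v) i - (α u i.castSucc - α u (Fin.last p)) = κ i := by
    intro i u hu v hv
    have h1 : ContinuousOn (fun x : (Fin p → ℝ) × (Fin (n + 1) → ℝ) =>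
        D x i - (α x.1 i.castSucc - α x.1 (Fin.last p))) (Sx p ×ˢ Sx (n + 1)) := by
      have h2 : ContinuousOn (fun x : (Fin p → ℝ) × (Fin (n + 1) → ℝ) => D x i)
          (Sx p ×ˢ Sx (n + 1)) := by
        refine ((continuous_apply i).comp_continuousOn hD).mono ?_
        rintro ⟨u, v⟩ ⟨h3, h4⟩
        exact hWQ u h3 v h4
      have h3 : ContinuousOn (fun x : (Fin p → ℝ) × (Fin (n + 1) → ℝ) => α x.1)
          (Sx p ×ˢ Sx (n + 1)) := hα.comp continuous_fst.continuousOn fun x hx => hx.1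
      exact h2.sub (((continuous_apply _).comp_continuousOn h3).sub
        ((continuous_apply _).comp_continuousOn h3))
    refine const_of_exp (Sx p ×ˢ Sx (n + 1)) hW _ h1 ?_ (u, v) ⟨hu, hv⟩ (u0, v0) ⟨hu0, hv0⟩
    rintro ⟨u1, v1⟩ ⟨h5, h6⟩ ⟨u2, v2⟩ ⟨h7, h8⟩
    rw [hbase i u1 h5 v1 h6, hbase i u2 h7 v2 h8]
  have hκe : ∀ i, cexp (κ i * I) = 1 := fun i => hbase i u0 hu0 v0 hv0
  have hne : ∀ x ∈ Q, D x ≠ κ := by
    intro x hx h
    obtain ⟨c, hc⟩ := haG' x hx
    refine sum_inv_ne p (G (f x)) (hG0 _ (hfix x hx)) c (a x) hc ?_ (hsum _ (hfix x hx))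
    intro i
    have h1 : (a x i.castSucc - a x (Fin.last p) : ℝ) = κ i := by
      rw [← h]
    rw [h1]
    exact hκe i
  obtain ⟨A, hA, hAfl, hA0, hAD⟩ := even_ext p (by omega) Q hQ D hD fl hfl hflfl hflQ har κ hne
  obtain ⟨u, hu, v, hv, h1, h2⟩ := pbu p n A (fun x => β (f x)) hA.continuousOn
    (hβ.comp_continuousOn hfS) (fun u _ v _ => hAfl (u, v))
    (fun u hu v hv => by
      show β (f (u, -v)) = - β (f (u, v))
      rw [hfν u hu v hv, hβν])
    (fun u hu v hv t ht h => by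
      refine hdir u hu t ht ?_
      rw [← h, hAD (u, v) (hWQ u hu v hv) ?_]
      · funext i
        have h3 := hκ i u hu v hv
        show _ = D (u, v) i - κ i
        linarith
      · funext i
        have hv' : -v ∈ Sx (n + 1) := by simpa using hv
        have h3 := hκ i u hu v hv
        have h4 := hκ i u hu (-v) hv'
        show D (u, -v) i = D (u, v) i
        linarith)
  exact hA0 (u, v) ⟨⟨hu, hv⟩, h2⟩ h1

end KZP
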