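import Pool.Agent.KZP.TR4a

/-!
# KZP-TR4: the local transport
-/

namespace KZP

open Metric

/-- constants for the family over a compact set -/
theorem consts (Bs : Set Tot) (hBs : IsCompact Bs) (hsub : Bs ⊆ XS) :
    ∃ R : ℝ, 0 < R ∧ (∀ b ∈ Bs, ∀ k, wN (b.2 k) ≤ R / 2) ∧
      ∃ r1 : ℝ, 0 < r1 ∧ (∀ b ∈ Bs, ∀ k e, dist e (b.2 k) ≤ r1 → wN e < R) ∧
        (∀ b ∈ Bs, ∀ i j, i ≠ j → 3 * r1 ≤ dist (b.2 i) (b.2 j)) := by
  -- bound for the weighted norm of the marked points
  have hcw : ∀ k, ContinuousOn (fun b : Tot => wN (b.2 k)) Bs := fun k =>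
    (continuous_wN.comp ((continuous_apply k).comp continuous_snd)).continuousOn
  have hR : ∃ R : ℝ, 0 < R ∧ ∀ b ∈ Bs, ∀ k, wN (b.2 k) ≤ R / 2 := by
    have : ∀ k : Fin 5, ∃ C : ℝ, ∀ b ∈ Bs, ‖wN (b.2 k)‖ ≤ C := fun k =>
      hBs.exists_bound_of_continuousOn (hcw k)
    choose C hC using this
    refine ⟨2 * (1 + ∑ k, |C k|), by positivity, fun b hb k => ?_⟩
    have h1 := hC k b hb
    rw [Real.norm_eq_abs] at h1
    have h2 : |C k| ≤ ∑ k, |C k| := Finset.single_le_sum (f := fun k => |C k|) (fun _ _ => abs_nonneg _) (Finset.mem_univ k)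
    have h3 := le_abs_self (wN (b.2 k))
    have h4 := le_abs_self (C k)
    linarith
  obtain ⟨R, hR0, hR1⟩ := hR
  refine ⟨R, hR0, hR1, ?_⟩
  -- the compact set of marked points
  have hP : IsCompact (⋃ k : Fin 5, (fun b : Tot => b.2 k) '' Bs) := by
    apply isCompact_iUnion
    intro k
    exact hBs.image_of_continuousOn ((continuous_apply k).comp continuous_snd).continuousOn
  have hopen : IsOpen {e : Pt | wN e < R} := isOpen_lt continuous_wN continuous_const
  have hsubs : (⋃ k : Fin 5, (fun b : Tot => b.2 k) '' Bs) ⊆ {e : Pt | wN e < R} := by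
    intro e he
    rw [Set.mem_iUnion] at he
    obtain ⟨k, b, hb, rfl⟩ := he
    have := hR1 b hb k
    change wN (b.2 k) < R
    linarith
  obtain ⟨δ1, hδ1, hδ1'⟩ := hP.exists_cthickening_subset_open hopen hsubs
  -- separation
  have hsep : ∃ δ2 : ℝ, 0 < δ2 ∧ ∀ b ∈ Bs, ∀ i j, i ≠ j → δ2 ≤ dist (b.2 i) (b.2 j) := by
    have : ∀ i j : Fin 5, ∃ δ : ℝ, 0 < δ ∧ (i ≠ j → ∀ b ∈ Bs, δ ≤ dist (b.2 i) (b.2 j)) := by
      intro i j
      by_cases hij : i = j
      · exact ⟨1, one_pos, fun h => absurd hij h⟩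
      · have hc : ContinuousOn (fun b : Tot => dist (b.2 i) (b.2 j)) Bs := by
          apply Continuous.continuousOn
          exact ((continuous_apply i).comp continuous_snd).dist ((continuous_apply j).comp continuous_snd)
        obtain ⟨a, ha, ha'⟩ := hBs.exists_forall_le' (a := (0 : ℝ)) hc
          (fun b hb => dist_pos.2 (fun h => hij ((hsub hb).2.2 h)))
        exact ⟨a, ha, fun _ b hb => ha' b hb⟩
    choose δ hδ hδ' using this
    have hne : (Finset.univ : Finset (Fin 5 × Fin 5)).Nonempty := Finset.univ_nonempty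
    refine ⟨(Finset.univ : Finset (Fin 5 × Fin 5)).inf' hne (fun p => δ p.1 p.2), ?_, ?_⟩
    · rw [Finset.lt_inf'_iff]; intro p _; exact hδ p.1 p.2
    · intro b hb i j hij
      exact (Finset.inf'_le (fun p : Fin 5 × Fin 5 => δ p.1 p.2) (Finset.mem_univ (i, j))).trans (hδ' i j hij b hb)
  obtain ⟨δ2, hδ2, hδ2'⟩ := hsep
  refine ⟨min δ1 (δ2 / 3), lt_min hδ1 (by positivity), ?_, ?_⟩
  · intro b hb k e he
    apply hδ1'
    apply Metric.mem_cthickening_of_dist_le e (b.2 k) _ _ _ (he.trans (min_le_left _ _))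
    rw [Set.mem_iUnion]
    exact ⟨k, b, hb, rfl⟩
  · intro b hb i j hij
    have := hδ2' b hb i j hij
    have h2 := min_le_right δ1 (δ2 / 3)
    linarith

/-- uniqueness in the normal direction, uniformly over the compact set -/
theorem star_lemma (Bs : Set Tot) (hBs : IsCompact Bs) (hsub : Bs ⊆ XS) (R : ℝ) (hR : 0 < R) :
    ∃ r2 : ℝ, 0 < r2 ∧ ∀ b ∈ Bs, ∀ k, ∀ e ∈ Curve b.1, wN e ≤ R → dist e (b.2 k) ≤ r2 →
      (∃ μ : Fin 2 → ℂ, ∀ j, b.2 k j - e j =
        μ 0 * (starRingEnd ℂ) (g1 b.1 e j) + μ 1 * (starRingEnd ℂ) (g2 b.1 e j)) → e = b.2 k := by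
  have hKp : IsCompact (Prod.fst '' Bs) := hBs.image continuous_fst
  have hsm : ∀ s ∈ Prod.fst '' Bs, SmoothC s := by
    rintro s ⟨b, hb, rfl⟩; exact (hsub hb).1
  have hK := isCompact_KK (Prod.fst '' Bs) hKp R
  have htau := tau_KK (Prod.fst '' Bs) hsm R hR
  obtain ⟨t0, ht0, ht0'⟩ := hK.exists_forall_le' (a := (0 : ℝ)) cont_tau_a.norm.continuousOn
    (fun z hz => norm_pos_iff.2 (htau z hz))
  obtain ⟨B1, hB1⟩ := hK.exists_bound_of_continuousOn cont_g1_a.continuousOn
  obtain ⟨B2, hB2⟩ := hK.exists_bound_of_continuousOn cont_g2_a.continuousOn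
  obtain ⟨B3, hB3⟩ := hK.exists_bound_of_continuousOn (f := fun z : Pt × Par => z.1) continuous_fst.continuousOn
  obtain ⟨B4, hB4⟩ := hK.exists_bound_of_continuousOn (f := fun z : Pt × Par => z.2) continuous_snd.continuousOn
  obtain ⟨B, hB⟩ : ∃ B : ℝ, B = |B1| + |B2| + |B3| + |B4| := ⟨_, rfl⟩
  have hBn : 0 ≤ B := by rw [hB]; positivity
  have hb1 : B1 ≤ B := by rw [hB]; have := le_abs_self B1; have := abs_nonneg B2; have := abs_nonneg B3; have := abs_nonneg B4; linarith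
  have hb2 : B2 ≤ B := by rw [hB]; have := le_abs_self B2; have := abs_nonneg B1; have := abs_nonneg B3; have := abs_nonneg B4; linarith
  have hb3 : B3 ≤ B := by rw [hB]; have := le_abs_self B3; have := abs_nonneg B1; have := abs_nonneg B2; have := abs_nonneg B4; linarith
  have hb4 : B4 ≤ B := by rw [hB]; have := le_abs_self B4; have := abs_nonneg B1; have := abs_nonneg B2; have := abs_nonneg B3; linarith
  obtain ⟨D, hD⟩ : ∃ D : ℝ, D = 2 * B * (4 + 6 * B) + 1 := ⟨_, rfl⟩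
  have hDpos : 0 < D := by rw [hD]; positivity
  refine ⟨min 1 (t0 / (2 * D)), lt_min one_pos (by positivity), ?_⟩
  intro b hb k e he hwe hdist ⟨μ, hμ⟩
  have hz : (e, b.1) ∈ KK (Prod.fst '' Bs) R :=
    ⟨b.1, ⟨b, hb, rfl⟩, 1, zero_le_one, le_rfl, (Dp_one _).symm, he, hwe, Or.inl rfl⟩
  have hd : ‖b.2 k - e‖ = dist e (b.2 k) := by rw [dist_comm, dist_eq_norm]
  refine normal_unique b.1 e (b.2 k) B t0 hBn ht0 (ht0' (e, b.1) hz) ((hB1 (e, b.1) hz).trans hb1)
    ((hB2 (e, b.1) hz).trans hb2) ((hB4 (e, b.1) hz).trans hb4) ((hB3 (e, b.1) hz).trans hb3) he ((hsub hb).2.1 k) ?_ ?_ μ hμ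
  · rw [hd]; exact hdist.trans (min_le_left _ _)
  · rw [hd]
    have h1 : dist e (b.2 k) ≤ t0 / (2 * D) := hdist.trans (min_le_right _ _)
    have h2 : (2 * B * (4 + 6 * B)) ≤ D := by rw [hD]; linarith
    have h3 : 0 ≤ 2 * B * (4 + 6 * B) := by positivity
    have h4 : dist e (b.2 k) * (2 * B * (4 + 6 * B)) ≤ (t0 / (2 * D)) * D :=
      mul_le_mul h1 h2 h3 (by positivity)
    have h5 : (t0 / (2 * D)) * D = t0 / 2 := by field_simp
    linarith

/-- the cut-off function -/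
noncomputable def chi (r2 : ℝ) (c e : Pt) : ℝ := max 0 (min 1 (2 - 2 * dist e c / r2))

theorem chi_one {r2 : ℝ} (hr : 0 < r2) {c e : Pt} (h : dist e c ≤ r2 / 2) : chi r2 c e = 1 := by
  unfold chi
  have : 1 ≤ 2 - 2 * dist e c / r2 := by
    have : 2 * dist e c / r2 ≤ 1 := by rw [div_le_one hr]; linarith
    linarith
  rw [min_eq_left this, max_eq_right zero_le_one]

theorem chi_zero {r2 : ℝ} (hr : 0 < r2) {c e : Pt} (h : r2 ≤ dist e c) : chi r2 c e = 0 := by
  unfold chi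
  have : 2 - 2 * dist e c / r2 ≤ 0 := by
    have : 2 ≤ 2 * dist e c / r2 := by rw [le_div_iff₀ hr]; linarith
    linarith
  rw [max_eq_left (min_le_of_right_le this)]

theorem chi_nonneg (r2 : ℝ) (c e : Pt) : 0 ≤ chi r2 c e := le_max_left _ _

theorem chi_le (r2 : ℝ) (c e : Pt) : chi r2 c e ≤ 1 := max_le zero_le_one (min_le_left _ _)

theorem chi_cont (r2 : ℝ) : Continuous (fun z : Pt × Pt => chi r2 z.1 z.2) := by
  unfold chi
  fun_prop

theorem chi_cont' {X : Type*} [TopologicalSpace X] (r2 : ℝ) (c e : X → Pt) (hc : Continuous c)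
    (he : Continuous e) : Continuous (fun x => chi r2 (c x) (e x)) := by
  unfold chi
  fun_prop

/-- the scaling factor -/
noncomputable def lsc (R : ℝ) (e : Pt) : ℝ := R / max R (wN e)

theorem lsc_pos {R : ℝ} (hR : 0 < R) (e : Pt) : 0 < lsc R e :=
  div_pos hR (lt_of_lt_of_le hR (le_max_left _ _))

theorem lsc_le {R : ℝ} (hR : 0 < R) (e : Pt) : lsc R e ≤ 1 :=
  (div_le_one (lt_of_lt_of_le hR (le_max_left _ _))).2 (le_max_left _ _)

theorem lsc_one {R : ℝ} (hR : 0 < R) {e : Pt} (h : wN e ≤ R) : lsc R e = 1 := by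
  unfold lsc; rw [max_eq_left h, div_self hR.ne']

theorem lsc_wN {R : ℝ} (hR : 0 < R) {e : Pt} (h : R ≤ wN e) : lsc R e * wN e = R := by
  unfold lsc; rw [max_eq_right h, div_mul_cancel₀]; exact (lt_of_lt_of_le hR h).ne'

theorem lsc_cont {R : ℝ} (hR : 0 < R) : Continuous (lsc R) := by
  unfold lsc
  refine continuous_const.div (continuous_const.max continuous_wN) (fun e => ?_)
  exact (lt_of_lt_of_le hR (le_max_left _ _)).ne'

/-- first guess -/
noncomputable def guess (R r2 : ℝ) (b b' : Tot) (e : Pt) : Pt :=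
  Dl (lsc R e) e + ∑ k, chi r2 (b.2 k) e • (b'.2 k - b.2 k)

theorem guess_dist (R r2 : ℝ) (b b' : Tot) (e : Pt) :
    dist (guess R r2 b b' e) (Dl (lsc R e) e) ≤ 5 * dist b b' := by
  unfold guess
  rw [dist_eq_norm, add_sub_cancel_left]
  refine (norm_sum_le _ _).trans ?_
  have h : ∀ k ∈ (Finset.univ : Finset (Fin 5)), ‖chi r2 (b.2 k) e • (b'.2 k - b.2 k)‖ ≤ dist b b' := by
    intro k _
    rw [norm_smul, Real.norm_of_nonneg (chi_nonneg _ _ _)]
    have h1 : ‖b'.2 k - b.2 k‖ ≤ dist b b' := by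
      rw [← dist_eq_norm, dist_comm]
      exact (dist_le_pi_dist b.2 b'.2 k).trans (by rw [Prod.dist_eq]; exact le_max_right _ _)
    calc chi r2 (b.2 k) e * ‖b'.2 k - b.2 k‖ ≤ 1 * dist b b' :=
          mul_le_mul (chi_le _ _ _) h1 (norm_nonneg _) zero_le_one
      _ = dist b b' := one_mul _
  refine (Finset.sum_le_sum h).trans ?_
  simp

theorem curve_scale {l : ℝ} (hl : l ≠ 0) (s : Par) (e : Pt) :
    Dl l e ∈ Curve (Dp l s) ↔ e ∈ Curve s := by
  have hlc : (l : ℂ) ≠ 0 := by exact_mod_cast hl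
  unfold Curve
  simp only [Set.mem_ofPred_eq, f1_scale, f2_scale]
  constructor
  · rintro ⟨h1, h2⟩
    exact ⟨(mul_eq_zero.1 h1).resolve_left (pow_ne_zero _ hlc),
      (mul_eq_zero.1 h2).resolve_left (pow_ne_zero _ hlc)⟩
  · rintro ⟨h1, h2⟩; rw [h1, h2]; simp

theorem Dl_cont {X : Type*} [TopologicalSpace X] (l : X → ℝ) (e : X → Pt) (hl : Continuous l)
    (he : Continuous e) : Continuous (fun x => Dl (l x) (e x)) := by
  have h := continuous_Dl.comp (hl.prodMk he)
  exact h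

theorem Dl_contOn {X : Type*} [TopologicalSpace X] (S : Set X) (l : X → ℝ) (e : X → Pt)
    (hl : ContinuousOn l S) (he : ContinuousOn e S) : ContinuousOn (fun x => Dl (l x) (e x)) S := by
  have h := continuous_Dl.comp_continuousOn (hl.prodMk he)
  exact h

theorem Dp_cont {X : Type*} [TopologicalSpace X] (l : X → ℝ) (e : X → Par) (hl : Continuous l)
    (he : Continuous e) : Continuous (fun x => Dp (l x) (e x)) := by
  have h := continuous_Dp.comp (hl.prodMk he)
  exact h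

theorem P_contOn {X : Type*} [TopologicalSpace X] (S : Set X) (P : Pt × Par × Pt × Par → Pt)
    (D : Set (Pt × Par × Pt × Par)) (hP : ContinuousOn P D) (a : X → Pt) (b : X → Par) (c : X → Pt)
    (d : X → Par) (ha : Continuous a) (hb : Continuous b) (hc : Continuous c) (hd : Continuous d)
    (hm : ∀ x ∈ S, (a x, b x, c x, d x) ∈ D) : ContinuousOn (fun x => P (a x, b x, c x, d x)) S :=
  hP.comp (ha.prodMk (hb.prodMk (hc.prodMk hd))).continuousOn hm

theorem lsc_cont' {X : Type*} [TopologicalSpace X] {R : ℝ} (hR : 0 < R) (e : X → Pt)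
    (he : Continuous e) : Continuous (fun x => lsc R (e x)) := (lsc_cont hR).comp he

theorem guess_cont {X : Type*} [TopologicalSpace X] {R : ℝ} (hR : 0 < R) (r2 : ℝ) (b b' : X → Tot)
    (e : X → Pt) (hb : Continuous b) (hb' : Continuous b') (he : Continuous e) :
    Continuous (fun x => guess R r2 (b x) (b' x) (e x)) := by
  have h0 : Continuous (fun x => Dl (lsc R (e x)) (e x)) :=
    Dl_cont (fun x => lsc R (e x)) e (lsc_cont' hR e he) he
  unfold guess
  refine Continuous.fun_add h0 (continuous_finsetSum _ (fun k _ => ?_))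
  have e1 : Continuous (fun x => (b x).2 k) := (continuous_apply k).comp (continuous_snd.comp hb)
  have e2 : Continuous (fun x => (b' x).2 k) := (continuous_apply k).comp (continuous_snd.comp hb')
  have e3 : Continuous (fun x => chi r2 ((b x).2 k) (e x)) := chi_cont' r2 _ _ e1 he
  have e4 : Continuous (fun x => (b' x).2 k - (b x).2 k) := e2.sub e1
  exact Continuous.fun_smul e3 e4

theorem transport_step (Bs : Set Tot) (hBs : IsCompact Bs) (hsub : Bs ⊆ XS) :
    ∃ ε : ℝ, 0 < ε ∧ ∃ T : Tot → Tot → Pt → Pt,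
      ContinuousOn (fun z : Tot × Tot × Pt => T z.1 z.2.1 z.2.2)
        {z | z.1 ∈ Bs ∧ z.2.1 ∈ Bs ∧ dist z.1 z.2.1 ≤ ε ∧ z.2.2 ∈ Curve z.1.1} ∧
      ∀ b ∈ Bs, ∀ b' ∈ Bs, dist b b' ≤ ε →
        (∀ e ∈ Curve b.1, T b b' e ∈ Curve b'.1) ∧ (∀ k, T b b' (b.2 k) = b'.2 k) ∧
        (∀ e ∈ Curve b.1, ∀ k, T b b' e = b'.2 k → e = b.2 k) := by
  obtain ⟨R, hR, hR1, r1, hr1, hr1', hr1''⟩ := consts Bs hBs hsub
  obtain ⟨r0, hr0, hstar⟩ := star_lemma Bs hBs hsub R hR
  obtain ⟨r2, hr2, hr20, hr21⟩ : ∃ r2 : ℝ, 0 < r2 ∧ r2 ≤ r0 ∧ r2 ≤ r1 :=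
    ⟨min r0 r1, lt_min hr0 hr1, min_le_left _ _, min_le_right _ _⟩
  have hKp : IsCompact (Prod.fst '' Bs) := hBs.image continuous_fst
  have hsm : ∀ s ∈ Prod.fst '' Bs, SmoothC s := by
    rintro s ⟨b, hb, rfl⟩; exact (hsub hb).1
  have hK := isCompact_KK (Prod.fst '' Bs) hKp R
  have htau := tau_KK (Prod.fst '' Bs) hsm R hR
  -- points near wN = R
  have hcomp : IsCompact {e : Pt | wN e = R} := by
    refine (isCompact_wN R).of_isClosed_subset (isClosed_eq continuous_wN continuous_const) ?_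
    intro e he; exact le_of_eq he
  have hopen : IsOpen {e : Pt | R / 2 < wN e} := isOpen_lt continuous_const continuous_wN
  obtain ⟨η0, hη0, hη0'⟩ := hcomp.exists_cthickening_subset_open hopen
    (fun e he => by change R / 2 < wN e; rw [show wN e = R from he]; linarith)
  obtain ⟨η, hη, hη1, hη2⟩ : ∃ η : ℝ, 0 < η ∧ η ≤ η0 ∧ η ≤ r2 / 8 :=
    ⟨min η0 (r2 / 8), lt_min hη0 (by positivity), min_le_left _ _, min_le_right _ _⟩
  obtain ⟨r, hr, C, hC, P, hPc, hP⟩ := newton (KK (Prod.fst '' Bs) R) hK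
    (by rintro z ⟨s1, _, l, _, _, _, hz, _⟩; exact hz) htau η hη
  obtain ⟨ε, hε, hε1, hε2⟩ : ∃ ε : ℝ, 0 < ε ∧ ε ≤ r / 8 ∧ ε ≤ r2 / 64 :=
    ⟨min (r / 8) (r2 / 64), lt_min (by positivity) (by positivity), min_le_left _ _, min_le_right _ _⟩
  obtain ⟨T, hT⟩ : ∃ T : Tot → Tot → Pt → Pt, ∀ b b' e, T b b' e =
    Dl (lsc R e)⁻¹ (P (Dl (lsc R e) e, Dp (lsc R e) b.1, guess R r2 b b' e, Dp (lsc R e) b'.1)) :=
    ⟨fun b b' e => Dl (lsc R e)⁻¹ (P (Dl (lsc R e) e, Dp (lsc R e) b.1, guess R r2 b b' e, Dp (lsc R e) b'.1)),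
      fun _ _ _ => rfl⟩
  -- membership in the compact set
  have hmem : ∀ b ∈ Bs, ∀ e ∈ Curve b.1, (Dl (lsc R e) e, Dp (lsc R e) b.1) ∈ KK (Prod.fst '' Bs) R := by
    intro b hb e he
    refine ⟨b.1, ⟨b, hb, rfl⟩, lsc R e, (lsc_pos hR e).le, lsc_le hR e, rfl,
      (curve_scale (lsc_pos hR e).ne' _ _).2 he, ?_, ?_⟩
    · simp only
      rw [wN_scale _ (lsc_pos hR e).le]
      rcases le_total (wN e) R with h | h
      · rw [lsc_one hR h, one_mul]; exact h
      · rw [lsc_wN hR h]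
    · rcases le_total (wN e) R with h | h
      · left; exact lsc_one hR h
      · right; simp only; rw [wN_scale _ (lsc_pos hR e).le, lsc_wN hR h]
  have hdom : ∀ b b' : Tot, dist b b' ≤ ε → ∀ e : Pt,
      dist (guess R r2 b b' e) (Dl (lsc R e) e) ≤ r ∧ dist (Dp (lsc R e) b'.1) (Dp (lsc R e) b.1) ≤ r := by
    intro b b' hbb e
    constructor
    · refine (guess_dist R r2 b b' e).trans ?_
      linarith
    · refine (dist_Dp _ (lsc_pos hR e).le (lsc_le hR e) _ _).trans ?_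
      have : dist b'.1 b.1 ≤ dist b b' := by
        rw [dist_comm b b', Prod.dist_eq]; exact le_max_left _ _
      linarith
  refine ⟨ε, hε, T, ?_, ?_⟩
  · -- continuity
    have hl : Continuous (fun z : Tot × Tot × Pt => lsc R z.2.2) :=
      (lsc_cont hR).comp (continuous_snd.comp continuous_snd)
    have hli : Continuous (fun z : Tot × Tot × Pt => (lsc R z.2.2)⁻¹) :=
      hl.inv₀ (fun z => (lsc_pos hR _).ne')
    have p1 : Continuous (fun z : Tot × Tot × Pt => z.2.2) := continuous_snd.comp continuous_snd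
    have p2 : Continuous (fun z : Tot × Tot × Pt => z.1.1) := continuous_fst.comp continuous_fst
    have p3 : Continuous (fun z : Tot × Tot × Pt => z.2.1.1) :=
      continuous_fst.comp (continuous_fst.comp continuous_snd)
    have c1 := Dl_cont (fun z : Tot × Tot × Pt => lsc R z.2.2) (fun z => z.2.2) hl p1
    have c2 := Dp_cont (fun z : Tot × Tot × Pt => lsc R z.2.2) (fun z => z.1.1) hl p2
    have c3 := Dp_cont (fun z : Tot × Tot × Pt => lsc R z.2.2) (fun z => z.2.1.1) hl p3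
    have c4 := guess_cont hR r2 (fun z : Tot × Tot × Pt => z.1) (fun z => z.2.1) (fun z => z.2.2)
      continuous_fst (continuous_fst.comp continuous_snd) p1
    have c5 := P_contOn {z : Tot × Tot × Pt | z.1 ∈ Bs ∧ z.2.1 ∈ Bs ∧ dist z.1 z.2.1 ≤ ε ∧ z.2.2 ∈ Curve z.1.1}
      P _ hPc _ _ _ _ c1 c2 c4 c3
      (fun z hz => ⟨hmem z.1 hz.1 z.2.2 hz.2.2.2, hdom z.1 z.2.1 hz.2.2.1 z.2.2⟩)
    refine (Dl_contOn _ (fun z : Tot × Tot × Pt => (lsc R z.2.2)⁻¹) _ hli.continuousOn c5).congr ?_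
    intro z _
    exact hT _ _ _
  · intro b hb b' hb' hbb
    have hbase : ∀ e ∈ Curve b.1,
        P (Dl (lsc R e) e, Dp (lsc R e) b.1, guess R r2 b b' e, Dp (lsc R e) b'.1) ∈ Curve (Dp (lsc R e) b'.1) ∧
        dist (P (Dl (lsc R e) e, Dp (lsc R e) b.1, guess R r2 b b' e, Dp (lsc R e) b'.1)) (guess R r2 b b' e) ≤ η ∧
        dist (P (Dl (lsc R e) e, Dp (lsc R e) b.1, guess R r2 b b' e, Dp (lsc R e) b'.1)) (guess R r2 b b' e) ≤
          C * (‖f1 (Dp (lsc R e) b'.1) (guess R r2 b b' e)‖ + ‖f2 (Dp (lsc R e) b'.1) (guess R r2 b b' e)‖) ∧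
        ∃ μ : Fin 2 → ℂ, ∀ k, P (Dl (lsc R e) e, Dp (lsc R e) b.1, guess R r2 b b' e, Dp (lsc R e) b'.1) k =
          guess R r2 b b' e k + μ 0 * (starRingEnd ℂ) (g1 (Dp (lsc R e) b.1) (Dl (lsc R e) e) k) +
            μ 1 * (starRingEnd ℂ) (g2 (Dp (lsc R e) b.1) (Dl (lsc R e) e) k) := by
      intro e he
      exact hP _ _ _ _ (hmem b hb e he) (hdom b b' hbb e).1 (hdom b b' hbb e).2
    have hbd : ∀ k, dist (b'.2 k) (b.2 k) ≤ ε := by
      intro k
      rw [dist_comm]
      exact ((dist_le_pi_dist b.2 b'.2 k).trans (by rw [Prod.dist_eq]; exact le_max_right _ _)).trans hbb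
    -- the guess near a marked point
    have hguess : ∀ e, wN e ≤ R → ∀ k, dist e (b.2 k) ≤ r2 / 2 →
        guess R r2 b b' e = e + (b'.2 k - b.2 k) := by
      intro e hwe k hk
      unfold guess
      rw [lsc_one hR hwe, Dl_one]
      congr 1
      rw [Finset.sum_eq_single k]
      · rw [chi_one hr2 hk, one_smul]
      · intro j _ hjk
        have h1 := hr1'' b hb j k hjk
        have h2 := dist_triangle_left (b.2 j) (b.2 k) e
        rw [chi_zero hr2, zero_smul]
        linarith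
      · intro h; exact absurd (Finset.mem_univ k) h
    refine ⟨?_, ?_, ?_⟩
    · intro e he
      rw [← curve_scale (lsc_pos hR e).ne']
      rw [hT, (Dl_inv _ (lsc_pos hR e).ne' _).2]
      exact (hbase e he).1
    · intro k
      have hck : b.2 k ∈ Curve b.1 := (hsub hb).2.1 k
      have hwk : wN (b.2 k) ≤ R := (hR1 b hb k).trans (by linarith)
      have hg := hguess (b.2 k) hwk k (by rw [dist_self]; positivity)
      have hg' : guess R r2 b b' (b.2 k) = b'.2 k := by rw [hg]; abel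
      obtain ⟨_, _, h3, _⟩ := hbase (b.2 k) hck
      rw [hT]
      rw [lsc_one hR hwk] at h3 ⊢
      rw [hg'] at h3 ⊢
      rw [Dp_one b'.1] at h3 ⊢
      have hcc : b'.2 k ∈ Curve b'.1 := (hsub hb').2.1 k
      rw [hcc.1, hcc.2, norm_zero, add_zero, mul_zero] at h3
      rw [inv_one, Dl_one]
      exact dist_le_zero.1 h3
    · intro e he k hTk
      obtain ⟨h1, h2, h3, μ, hμ⟩ := hbase e he
      have hwe : wN e ≤ R := by
        by_contra hgt
        push Not at hgt
        have hchi : ∀ j, chi r2 (b.2 j) e = 0 := by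
          intro j
          apply chi_zero hr2
          by_contra hlt
          push Not at hlt
          have := hr1' b hb j e (hlt.le.trans hr21)
          linarith
        have hg : guess R r2 b b' e = Dl (lsc R e) e := by
          unfold guess
          rw [Finset.sum_eq_zero (fun j _ => by rw [hchi j, zero_smul]), add_zero]
        rw [hg] at h2
        have hwl : wN (Dl (lsc R e) e) = R := by rw [wN_scale _ (lsc_pos hR e).le, lsc_wN hR hgt.le]
        have hw2 : R / 2 < wN (P (Dl (lsc R e) e, Dp (lsc R e) b.1, Dl (lsc R e) e, Dp (lsc R e) b'.1)) := by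
          apply hη0'
          exact Metric.mem_cthickening_of_dist_le _ (Dl (lsc R e) e) _ _ hwl (h2.trans hη1)
        have hw3 : wN (T b b' e) = (lsc R e)⁻¹ *
            wN (P (Dl (lsc R e) e, Dp (lsc R e) b.1, Dl (lsc R e) e, Dp (lsc R e) b'.1)) := by
          rw [hT, wN_scale _ (inv_nonneg.2 (lsc_pos hR e).le), hg]
        have hw4 : 1 ≤ (lsc R e)⁻¹ := (one_le_inv₀ (lsc_pos hR e)).2 (lsc_le hR e)
        have hw5 := hR1 b' hb' k
        rw [← hTk, hw3] at hw5
        have hw6 : wN (P (Dl (lsc R e) e, Dp (lsc R e) b.1, Dl (lsc R e) e, Dp (lsc R e) b'.1)) ≤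
            (lsc R e)⁻¹ * wN (P (Dl (lsc R e) e, Dp (lsc R e) b.1, Dl (lsc R e) e, Dp (lsc R e) b'.1)) :=
          le_mul_of_one_le_left (wN_nonneg _) hw4
        linarith
      have hTe : T b b' e = P (Dl (lsc R e) e, Dp (lsc R e) b.1, guess R r2 b b' e, Dp (lsc R e) b'.1) := by
        rw [hT, lsc_one hR hwe, inv_one, Dl_one]
      rw [hTe] at hTk
      rw [hTk] at h2 hμ
      have hdl : Dl (lsc R e) e = e := by rw [lsc_one hR hwe, Dl_one]
      have hdp : Dp (lsc R e) b.1 = b.1 := by rw [lsc_one hR hwe, Dp_one]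
      rw [hdl, hdp] at hμ
      have hgd := guess_dist R r2 b b' e
      rw [hdl] at hgd
      have hclose : dist e (b.2 k) ≤ r2 / 2 := by
        have t1 := dist_triangle e (guess R r2 b b' e) (b.2 k)
        have t2 := dist_triangle (guess R r2 b b' e) (b'.2 k) (b.2 k)
        have t3 := hbd k
        rw [dist_comm] at hgd
        rw [dist_comm] at h2
        linarith
      have hg := hguess e hwe k hclose
      rw [hg] at hμ
      refine hstar b hb k e he hwe (hclose.trans (by linarith)) ⟨μ, fun j => ?_⟩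
      have := hμ j
      simp only [Pi.add_apply, Pi.sub_apply] at this
      linear_combination this

end KZP
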