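import Pool.Agent.KZP.TR3

/-!
# KZP-TR4a: auxiliary lemmas for the local transport
-/

namespace KZP

theorem Dl_one (e : Pt) : Dl 1 e = e := by
  funext i; fin_cases i <;> simp [Dl]

theorem Dp_one (s : Par) : Dp 1 s = s := by
  funext i; fin_cases i <;> simp [Dp]

theorem taylor1 (s : Par) (e d : Pt) :
    f1 s (e + d) = f1 s e + ∑ j, g1 s e j * d j + (d 1 ^ 2 - d 0 * d 2) := by
  simp only [f1, g1, Fin.sum_univ_three, Pi.add_apply, Matrix.cons_val_zero, Matrix.cons_val_one,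
    Matrix.cons_val_two, Matrix.head_cons, Matrix.tail_cons]
  ring

theorem taylor2 (s : Par) (e d : Pt) :
    f2 s (e + d) = f2 s e + ∑ j, g2 s e j * d j +
      (d 2 ^ 2 - 3 * e 0 * d 0 ^ 2 - d 0 ^ 3 - s 0 * (d 0 * d 2) - s 1 * (d 0 * d 1) - s 2 * d 0 ^ 2) := by
  simp only [f2, g2, Fin.sum_univ_three, Pi.add_apply, Matrix.cons_val_zero, Matrix.cons_val_one,
    Matrix.cons_val_two, Matrix.head_cons, Matrix.tail_cons]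
  ring

theorem cont_tau_a : Continuous (fun z : Pt × Par => tau z.2 z.1) := by
  rw [continuous_pi_iff]
  intro i
  fin_cases i <;> simp [tau, g1, g2] <;> fun_prop

theorem cont_g1_a : Continuous (fun z : Pt × Par => g1 z.2 z.1) := by
  rw [continuous_pi_iff]
  intro i
  fin_cases i <;> simp [g1] <;> fun_prop

theorem cont_g2_a : Continuous (fun z : Pt × Par => g2 z.2 z.1) := by
  rw [continuous_pi_iff]
  intro i
  fin_cases i <;> simp [g2] <;> fun_prop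

theorem tau0 (s : Par) (e : Pt) : tau s e 0 = g1 s e 1 * g2 s e 2 - g1 s e 2 * g2 s e 1 := rfl
theorem tau1 (s : Par) (e : Pt) : tau s e 1 = g1 s e 2 * g2 s e 0 - g1 s e 0 * g2 s e 2 := rfl
theorem tau2 (s : Par) (e : Pt) : tau s e 2 = g1 s e 0 * g2 s e 1 - g1 s e 1 * g2 s e 0 := rfl

/-- if `d` is a combination of the conjugate gradients then the coefficients are bounded -/
theorem mu_bound (s : Par) (e d : Pt) (B t0 : ℝ) (hB : 0 ≤ B) (ht0 : 0 < t0) (ht : t0 ≤ ‖tau s e‖)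
    (h1 : ‖g1 s e‖ ≤ B) (h2 : ‖g2 s e‖ ≤ B) (μ : Fin 2 → ℂ)
    (hμ : ∀ k, d k = μ 0 * (starRingEnd ℂ) (g1 s e k) + μ 1 * (starRingEnd ℂ) (g2 s e k)) :
    ‖μ 0‖ * t0 ≤ 2 * ‖d‖ * B ∧ ‖μ 1‖ * t0 ≤ 2 * ‖d‖ * B := by
  obtain ⟨i, hi⟩ : ∃ i, t0 ≤ ‖tau s e i‖ := by
    by_contra hcon
    push Not at hcon
    have := (pi_norm_lt_iff ht0).2 hcon
    linarith
  have hd : ∀ k, ‖d k‖ ≤ ‖d‖ := fun k => norm_le_pi_norm d k
  have hg1 : ∀ k, ‖g1 s e k‖ ≤ B := fun k => (norm_le_pi_norm _ k).trans h1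
  have hg2 : ∀ k, ‖g2 s e k‖ ≤ B := fun k => (norm_le_pi_norm _ k).trans h2
  have key : ∀ (a b a' b' : ℂ) (x x' : ℂ), ‖a‖ ≤ ‖d‖ → ‖a'‖ ≤ ‖d‖ → ‖b‖ ≤ B → ‖b'‖ ≤ B →
      t0 ≤ ‖x'‖ → x * (starRingEnd ℂ) x' = a * (starRingEnd ℂ) b - a' * (starRingEnd ℂ) b' →
      ‖x‖ * t0 ≤ 2 * ‖d‖ * B := by
    intro a b a' b' x x' ha ha' hb hb' hx h
    have e1 : ‖x‖ * ‖x'‖ = ‖a * (starRingEnd ℂ) b - a' * (starRingEnd ℂ) b'‖ := by
      rw [← h, norm_mul, RCLike.norm_conj]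
    have e2 : ‖a * (starRingEnd ℂ) b - a' * (starRingEnd ℂ) b'‖ ≤ ‖a‖ * ‖b‖ + ‖a'‖ * ‖b'‖ := by
      refine (norm_sub_le _ _).trans ?_
      rw [norm_mul, norm_mul, RCLike.norm_conj, RCLike.norm_conj]
    have e3 : ‖a‖ * ‖b‖ ≤ ‖d‖ * B := mul_le_mul ha hb (norm_nonneg _) (norm_nonneg _)
    have e4 : ‖a'‖ * ‖b'‖ ≤ ‖d‖ * B := mul_le_mul ha' hb' (norm_nonneg _) (norm_nonneg _)
    have e5 : ‖x‖ * t0 ≤ ‖x‖ * ‖x'‖ := mul_le_mul_of_nonneg_left hx (norm_nonneg _)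
    linarith
  constructor
  · fin_cases i
    · exact key (d 1) (g2 s e 2) (d 2) (g2 s e 1) (μ 0) (tau s e 0) (hd _) (hd _) (hg2 _) (hg2 _) hi
        (by rw [hμ 1, hμ 2]; rw [tau0]; simp only [map_sub, map_mul]; ring)
    · exact key (d 2) (g2 s e 0) (d 0) (g2 s e 2) (μ 0) (tau s e 1) (hd _) (hd _) (hg2 _) (hg2 _) hi
        (by rw [hμ 0, hμ 2]; rw [tau1]; simp only [map_sub, map_mul]; ring)
    · exact key (d 0) (g2 s e 1) (d 1) (g2 s e 0) (μ 0) (tau s e 2) (hd _) (hd _) (hg2 _) (hg2 _) hi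
        (by rw [hμ 0, hμ 1]; rw [tau2]; simp only [map_sub, map_mul]; ring)
  · fin_cases i
    · exact key (d 2) (g1 s e 1) (d 1) (g1 s e 2) (μ 1) (tau s e 0) (hd _) (hd _) (hg1 _) (hg1 _) hi
        (by rw [hμ 1, hμ 2]; rw [tau0]; simp only [map_sub, map_mul]; ring)
    · exact key (d 0) (g1 s e 2) (d 2) (g1 s e 0) (μ 1) (tau s e 1) (hd _) (hd _) (hg1 _) (hg1 _) hi
        (by rw [hμ 0, hμ 2]; rw [tau1]; simp only [map_sub, map_mul]; ring)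
    · exact key (d 1) (g1 s e 0) (d 0) (g1 s e 1) (μ 1) (tau s e 2) (hd _) (hd _) (hg1 _) (hg1 _) hi
        (by rw [hμ 0, hμ 1]; rw [tau2]; simp only [map_sub, map_mul]; ring)

theorem gram_id (s : Par) (e d : Pt) (μ : Fin 2 → ℂ)
    (hμ : ∀ k, d k = μ 0 * (starRingEnd ℂ) (g1 s e k) + μ 1 * (starRingEnd ℂ) (g2 s e k)) :
    ∑ k, (starRingEnd ℂ) (d k) * d k =
      (starRingEnd ℂ) (μ 0) * ∑ k, g1 s e k * d k + (starRingEnd ℂ) (μ 1) * ∑ k, g2 s e k * d k := by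
  rw [Finset.mul_sum, Finset.mul_sum, ← Finset.sum_add_distrib]
  refine Finset.sum_congr rfl (fun k _ => ?_)
  have : (starRingEnd ℂ) (d k) = (starRingEnd ℂ) (μ 0) * g1 s e k + (starRingEnd ℂ) (μ 1) * g2 s e k := by
    rw [hμ k]; simp
  rw [this]; ring

theorem norm_sq_le_sum (d : Pt) : ‖d‖ ^ 2 ≤ ‖∑ k, (starRingEnd ℂ) (d k) * d k‖ := by
  have e1 : ∑ k, (starRingEnd ℂ) (d k) * d k = ((∑ k, ‖d k‖ ^ 2 : ℝ) : ℂ) := by
    push_cast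
    refine Finset.sum_congr rfl (fun k _ => ?_)
    rw [Complex.conj_mul']
  rw [e1, Complex.norm_real, Real.norm_of_nonneg (Finset.sum_nonneg (fun k _ => sq_nonneg _))]
  have hS : ∀ k, ‖d k‖ ^ 2 ≤ ∑ k, ‖d k‖ ^ 2 := fun k =>
    Finset.single_le_sum (f := fun k => ‖d k‖ ^ 2) (fun k _ => sq_nonneg _) (Finset.mem_univ k)
  have hnn : 0 ≤ ∑ k, ‖d k‖ ^ 2 := Finset.sum_nonneg (fun k _ => sq_nonneg _)
  have h2 : ‖d‖ ≤ Real.sqrt (∑ k, ‖d k‖ ^ 2) := by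
    rw [pi_norm_le_iff_of_nonneg (Real.sqrt_nonneg _)]
    intro k
    exact Real.le_sqrt_of_sq_le (hS k)
  calc ‖d‖ ^ 2 ≤ (Real.sqrt (∑ k, ‖d k‖ ^ 2)) ^ 2 := pow_le_pow_left₀ (norm_nonneg _) h2 2
    _ = ∑ k, ‖d k‖ ^ 2 := Real.sq_sqrt hnn

/-- a zero of the curve near another one in the normal direction is the same zero -/
theorem normal_unique (s : Par) (e e' : Pt) (B t0 : ℝ) (hB : 0 ≤ B) (ht0 : 0 < t0)
    (ht : t0 ≤ ‖tau s e‖) (h1 : ‖g1 s e‖ ≤ B) (h2 : ‖g2 s e‖ ≤ B) (hs : ‖s‖ ≤ B) (he : ‖e‖ ≤ B)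
    (hc : e ∈ Curve s) (hc' : e' ∈ Curve s) (hn1 : ‖e' - e‖ ≤ 1)
    (hn2 : ‖e' - e‖ * (2 * B * (4 + 6 * B)) < t0) (μ : Fin 2 → ℂ)
    (hμ : ∀ k, e' k - e k = μ 0 * (starRingEnd ℂ) (g1 s e k) + μ 1 * (starRingEnd ℂ) (g2 s e k)) :
    e = e' := by
  set d : Pt := e' - e with hd
  have hμ' : ∀ k, d k = μ 0 * (starRingEnd ℂ) (g1 s e k) + μ 1 * (starRingEnd ℂ) (g2 s e k) := by
    intro k; rw [hd]; exact hμ k
  have he' : e' = e + d := by rw [hd]; abel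
  have hdk : ∀ k, ‖d k‖ ≤ ‖d‖ := fun k => norm_le_pi_norm d k
  have hsk : ∀ k, ‖s k‖ ≤ B := fun k => (norm_le_pi_norm s k).trans hs
  have hek : ∀ k, ‖e k‖ ≤ B := fun k => (norm_le_pi_norm e k).trans he
  have q1 : ∑ j, g1 s e j * d j = -(d 1 ^ 2 - d 0 * d 2) := by
    have := taylor1 s e d
    rw [← he', hc'.1, hc.1] at this
    linear_combination -this
  have q2 : ∑ j, g2 s e j * d j = -(d 2 ^ 2 - 3 * e 0 * d 0 ^ 2 - d 0 ^ 3 - s 0 * (d 0 * d 2) -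
      s 1 * (d 0 * d 1) - s 2 * d 0 ^ 2) := by
    have := taylor2 s e d
    rw [← he', hc'.2, hc.2] at this
    linear_combination -this
  have hm : ∀ i j, ‖d i * d j‖ ≤ ‖d‖ ^ 2 := by
    intro i j
    rw [norm_mul, sq]
    exact mul_le_mul (hdk i) (hdk j) (norm_nonneg _) (norm_nonneg _)
  have b1 : ‖∑ j, g1 s e j * d j‖ ≤ 2 * ‖d‖ ^ 2 := by
    rw [q1, norm_neg]
    have := norm_sub_le (d 1 ^ 2) (d 0 * d 2)
    have h3 := hm 1 1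
    have h4 := hm 0 2
    rw [← sq] at h3
    linarith
  have b2 : ‖∑ j, g2 s e j * d j‖ ≤ (2 + 6 * B) * ‖d‖ ^ 2 := by
    rw [q2, norm_neg]
    have c1 : ‖d 2 ^ 2‖ ≤ ‖d‖ ^ 2 := by have := hm 2 2; rwa [← sq] at this
    have c2 : ‖3 * e 0 * d 0 ^ 2‖ ≤ 3 * B * ‖d‖ ^ 2 := by
      have h3 := hm 0 0
      rw [← sq] at h3
      rw [norm_mul, norm_mul]
      have h4 : ‖(3 : ℂ)‖ = 3 := by norm_num
      rw [h4]
      have h5 : 3 * ‖e 0‖ ≤ 3 * B := by linarith [hek 0]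
      exact mul_le_mul h5 h3 (norm_nonneg _) (by positivity)
    have c3 : ‖d 0 ^ 3‖ ≤ ‖d‖ ^ 2 := by
      have h3 := hm 0 0
      have : d 0 ^ 3 = d 0 * (d 0 * d 0) := by ring
      rw [this, norm_mul]
      have h4 : ‖d 0‖ ≤ 1 := (hdk 0).trans hn1
      calc ‖d 0‖ * ‖d 0 * d 0‖ ≤ 1 * ‖d‖ ^ 2 := mul_le_mul h4 h3 (norm_nonneg _) zero_le_one
        _ = ‖d‖ ^ 2 := one_mul _
    have c4 : ‖s 0 * (d 0 * d 2)‖ ≤ B * ‖d‖ ^ 2 := by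
      rw [norm_mul]; exact mul_le_mul (hsk 0) (hm 0 2) (norm_nonneg _) hB
    have c5 : ‖s 1 * (d 0 * d 1)‖ ≤ B * ‖d‖ ^ 2 := by
      rw [norm_mul]; exact mul_le_mul (hsk 1) (hm 0 1) (norm_nonneg _) hB
    have c6 : ‖s 2 * d 0 ^ 2‖ ≤ B * ‖d‖ ^ 2 := by
      have h3 := hm 0 0
      rw [← sq] at h3
      rw [norm_mul]; exact mul_le_mul (hsk 2) h3 (norm_nonneg _) hB
    have t1 := norm_sub_le (d 2 ^ 2 - 3 * e 0 * d 0 ^ 2 - d 0 ^ 3 - s 0 * (d 0 * d 2) - s 1 * (d 0 * d 1)) (s 2 * d 0 ^ 2)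
    have t2 := norm_sub_le (d 2 ^ 2 - 3 * e 0 * d 0 ^ 2 - d 0 ^ 3 - s 0 * (d 0 * d 2)) (s 1 * (d 0 * d 1))
    have t3 := norm_sub_le (d 2 ^ 2 - 3 * e 0 * d 0 ^ 2 - d 0 ^ 3) (s 0 * (d 0 * d 2))
    have t4 := norm_sub_le (d 2 ^ 2 - 3 * e 0 * d 0 ^ 2) (d 0 ^ 3)
    have t5 := norm_sub_le (d 2 ^ 2) (3 * e 0 * d 0 ^ 2)
    linarith
  obtain ⟨m1, m2⟩ := mu_bound s e d B t0 hB ht0 ht h1 h2 μ hμ'
  have g := gram_id s e d μ hμ'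
  have n1 := norm_sq_le_sum d
  rw [g] at n1
  have n2 : ‖(starRingEnd ℂ) (μ 0) * ∑ k, g1 s e k * d k + (starRingEnd ℂ) (μ 1) * ∑ k, g2 s e k * d k‖ ≤
      ‖μ 0‖ * (2 * ‖d‖ ^ 2) + ‖μ 1‖ * ((2 + 6 * B) * ‖d‖ ^ 2) := by
    refine (norm_add_le _ _).trans ?_
    rw [norm_mul, norm_mul, RCLike.norm_conj, RCLike.norm_conj]
    exact add_le_add (mul_le_mul_of_nonneg_left b1 (norm_nonneg _))
      (mul_le_mul_of_nonneg_left b2 (norm_nonneg _))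
  by_contra hne
  have hdpos : 0 < ‖d‖ := by
    rw [norm_pos_iff]
    intro h
    apply hne
    rw [he', h, add_zero]
  have n3 : ‖d‖ ^ 2 ≤ (‖μ 0‖ * 2 + ‖μ 1‖ * (2 + 6 * B)) * ‖d‖ ^ 2 := by
    have := n1.trans n2
    linarith
  have n4 : 1 ≤ ‖μ 0‖ * 2 + ‖μ 1‖ * (2 + 6 * B) := by
    have hsq : 0 < ‖d‖ ^ 2 := by positivity
    by_contra hlt
    push Not at hlt
    nlinarith
  have n5 : t0 ≤ ‖μ 0‖ * t0 * 2 + ‖μ 1‖ * t0 * (2 + 6 * B) := by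
    have := mul_le_mul_of_nonneg_right n4 ht0.le
    linarith
  have n6 : ‖μ 1‖ * t0 * (2 + 6 * B) ≤ 2 * ‖d‖ * B * (2 + 6 * B) :=
    mul_le_mul_of_nonneg_right m2 (by positivity)
  have n7 : t0 ≤ ‖d‖ * (2 * B * (4 + 6 * B)) := by nlinarith
  linarith

end KZP
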