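import Pool.Agent.KZP.TR4

/-!
# KZP-TR5: transport along a compact convex family

Proof.  `Bs = f '' DD` is compact and contained in `XS`; `ε, T` from `transport_step`.  By uniform
continuity of `f` on `DD` there is `N > 0` with
`dist (f (x0 + (j/N)(x - x0))) (f (x0 + ((j+1)/N)(x - x0))) ≤ ε` for all `x ∈ DD`, `j < N`
(`DD` is bounded and convex).  Let `x_j = x0 + (j/N) • (x - x0) ∈ DD` and define recursively
`H_0 x e = e`, `H_{j+1} x e = T (f x_j) (f x_{j+1}) (H_j x e)`, `H = H_N`.  By induction on `j ≤ N`: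
`H_j x e ∈ Curve (f x_j).1`, `(x, e) ↦ H_j x e` is continuous on `DD ×ˢ Curve (f x0).1`,
`H_j x ((f x0).2 k) = (f x_j).2 k`, and `H_j x e = (f x_j).2 k → e = (f x0).2 k`.
-/

namespace KZP

theorem transport_family {E : Type*} [NormedAddCommGroup E] [NormedSpace ℝ E] (DD : Set E)
    (hDD : IsCompact DD) (hcv : Convex ℝ DD) (x0 : E) (hx0 : x0 ∈ DD) (f : E → Tot)
    (hf : ContinuousOn f DD) (hX : ∀ x ∈ DD, f x ∈ XS) :
    ∃ H : E → Pt → Pt, ContinuousOn (fun z : E × Pt => H z.1 z.2) (DD ×ˢ Curve (f x0).1) ∧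
      (∀ x ∈ DD, ∀ e ∈ Curve (f x0).1, H x e ∈ Curve (f x).1) ∧
      (∀ x ∈ DD, ∀ k, H x ((f x0).2 k) = (f x).2 k) ∧
      (∀ x ∈ DD, ∀ e ∈ Curve (f x0).1, ∀ k, H x e = (f x).2 k → e = (f x0).2 k) := by
  obtain ⟨ε, hε, T, hTc, hT⟩ := transport_step (f '' DD) (hDD.image_of_continuousOn hf)
    (by rintro _ ⟨x, hx, rfl⟩; exact hX x hx)
  obtain ⟨δ, hδ, huc⟩ := Metric.uniformContinuousOn_iff.1 (hDD.uniformContinuousOn_of_continuous hf) ε hε
  obtain ⟨D, hD⟩ := hDD.isBounded.exists_norm_le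
  obtain ⟨N, hN⟩ := exists_nat_gt ((2 * |D| + 1) / δ)
  have hNpos : (0 : ℝ) < N := lt_trans (by positivity) hN
  have hbd : ∀ x ∈ DD, ‖x - x0‖ ≤ 2 * |D| := by
    intro x hx
    have h1 := hD x hx
    have h2 := hD x0 hx0
    have h3 := norm_sub_le x x0
    have h4 := le_abs_self D
    linarith
  obtain ⟨X, hXd⟩ : ∃ X : ℕ → E → E, ∀ j x, X j x = x0 + ((j : ℝ) / N) • (x - x0) := ⟨_, fun _ _ => rfl⟩
  obtain ⟨H, hH0, hHs⟩ : ∃ H : ℕ → E → Pt → Pt, (∀ x e, H 0 x e = e) ∧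
      ∀ j x e, H (j + 1) x e = T (f (X j x)) (f (X (j + 1) x)) (H j x e) :=
    ⟨fun j => Nat.rec (motive := fun _ => E → Pt → Pt) (fun _ e => e)
      (fun j Hj x e => T (f (X j x)) (f (X (j + 1) x)) (Hj x e)) j, fun _ _ => rfl, fun _ _ _ => rfl⟩
  have hXmem : ∀ j ≤ N, ∀ x ∈ DD, X j x ∈ DD := by
    intro j hj x hx
    rw [hXd]
    refine hcv.add_smul_sub_mem hx0 hx ⟨by positivity, ?_⟩
    rw [div_le_one hNpos]
    exact_mod_cast hj
  have hXdist : ∀ j, j + 1 ≤ N → ∀ x ∈ DD, dist (f (X j x)) (f (X (j + 1) x)) ≤ ε := by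
    intro j hj x hx
    refine (huc _ (hXmem j (by omega) x hx) _ (hXmem (j + 1) hj x hx) ?_).le
    have e1 : X j x - X (j + 1) x = (-(1 / (N : ℝ))) • (x - x0) := by
      rw [hXd, hXd, add_sub_add_left_eq_sub, ← sub_smul]
      congr 1
      push_cast
      field_simp
      ring
    rw [dist_eq_norm, e1, norm_smul, norm_neg, Real.norm_of_nonneg (by positivity)]
    have h1 := hbd x hx
    rw [div_lt_iff₀ hδ] at hN
    have h2 : 1 / (N : ℝ) * ‖x - x0‖ ≤ 1 / (N : ℝ) * (2 * |D|) := mul_le_mul_of_nonneg_left h1 (by positivity)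
    refine lt_of_le_of_lt h2 ?_
    rw [one_div_mul_eq_div, div_lt_iff₀ hNpos]
    linarith
  have hXcont : ∀ j, Continuous (X j) := by
    intro j
    have e1 : X j = fun x => x0 + ((j : ℝ) / N) • (x - x0) := funext fun x => hXd j x
    rw [e1]
    fun_prop
  have hX0 : ∀ x, X 0 x = x0 := by
    intro x
    rw [hXd]
    simp
  have hXN : ∀ x, X N x = x := by
    intro x
    rw [hXd, div_self hNpos.ne', one_smul]
    abel
  have key : ∀ j ≤ N, ContinuousOn (fun z : E × Pt => H j z.1 z.2) (DD ×ˢ Curve (f x0).1) ∧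
      (∀ x ∈ DD, ∀ e ∈ Curve (f x0).1, H j x e ∈ Curve (f (X j x)).1) ∧
      (∀ x ∈ DD, ∀ k, H j x ((f x0).2 k) = (f (X j x)).2 k) ∧
      (∀ x ∈ DD, ∀ e ∈ Curve (f x0).1, ∀ k, H j x e = (f (X j x)).2 k → e = (f x0).2 k) := by
    intro j
    induction j with
    | zero =>
      intro _
      refine ⟨?_, ?_, ?_, ?_⟩
      · simp only [hH0]
        exact continuousOn_snd
      · intro x _ e he
        rw [hH0, hX0]
        exact he
      · intro x _ k
        rw [hH0, hX0]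
      · intro x _ e _ k h
        rw [hH0, hX0] at h
        exact h
    | succ j ih =>
      intro hj
      obtain ⟨ha, hb, hc, hd⟩ := ih (by omega)
      have hin : ∀ x ∈ DD, f (X j x) ∈ f '' DD := fun x hx => ⟨_, hXmem j (by omega) x hx, rfl⟩
      have hin' : ∀ x ∈ DD, f (X (j + 1) x) ∈ f '' DD := fun x hx => ⟨_, hXmem (j + 1) hj x hx, rfl⟩
      refine ⟨?_, ?_, ?_, ?_⟩
      · simp only [hHs]
        have hfc : ∀ i ≤ N, ContinuousOn (fun z : E × Pt => f (X i z.1)) (DD ×ˢ Curve (f x0).1) := by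
          intro i hi
          refine hf.comp ((hXcont i).comp continuous_fst).continuousOn ?_
          rintro ⟨x, e⟩ ⟨hx, _⟩
          exact hXmem i hi x hx
        have hcomb : ContinuousOn (fun z : E × Pt => ((f (X j z.1), f (X (j + 1) z.1), H j z.1 z.2) : Tot × Tot × Pt))
            (DD ×ˢ Curve (f x0).1) :=
          (hfc j (by omega)).prodMk ((hfc (j + 1) hj).prodMk ha)
        exact hTc.comp hcomb fun z hz => ⟨hin z.1 hz.1, hin' z.1 hz.1, hXdist j hj z.1 hz.1, hb z.1 hz.1 z.2 hz.2⟩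
      · intro x hx e he
        rw [hHs]
        exact (hT _ (hin x hx) _ (hin' x hx) (hXdist j hj x hx)).1 _ (hb x hx e he)
      · intro x hx k
        rw [hHs, hc x hx k]
        exact (hT _ (hin x hx) _ (hin' x hx) (hXdist j hj x hx)).2.1 k
      · intro x hx e he k h
        rw [hHs] at h
        exact hd x hx e he k
          ((hT _ (hin x hx) _ (hin' x hx) (hXdist j hj x hx)).2.2 _ (hb x hx e he) k h)
  obtain ⟨ha, hb, hc, hd⟩ := key N le_rfl
  simp only [hXN] at hb hc hd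
  exact ⟨H N, ha, hb, hc, hd⟩

end KZP
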