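import Pool.Agent.KZP.TailDefs

/-!
# KZP-TailA: the normal form `P₀(X) + P₁(X) Y + P₂(X) Z + P₃(X) YZ`
-/

set_option autoImplicit false

namespace KZP

variable {B R : Type} [CommRing B] [CommRing R] [Algebra B R]

/-- `P₀(X) + P₁(X) Y + P₂(X) Z + P₃(X) YZ` -/
noncomputable def val (X Y Z : R) (P : Fin 4 → Polynomial B) : R :=
  Polynomial.aeval X (P 0) + Polynomial.aeval X (P 1) * Y + Polynomial.aeval X (P 2) * Z
    + Polynomial.aeval X (P 3) * (Y * Z)

/-- the coefficient of weight `n` of `P(X) M`, `M` of weight `j` -/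
def cf (n j : ℕ) (P : Polynomial B) : B :=
  if j ≤ n ∧ (n - j) % 4 = 0 then P.coeff ((n - j) / 4) else 0

/-- the coefficient of weight `n` -/
def cfs (n : ℕ) (P : Fin 4 → Polynomial B) : B :=
  cf n 0 (P 0) + cf n 5 (P 1) + cf n 6 (P 2) + cf n 11 (P 3)

/-- all monomials have weight `≤ n` -/
def WB (n : ℕ) (P : Fin 4 → Polynomial B) : Prop :=
  (∀ a, n < 4 * a → (P 0).coeff a = 0) ∧ (∀ a, n < 4 * a + 5 → (P 1).coeff a = 0) ∧
    (∀ a, n < 4 * a + 6 → (P 2).coeff a = 0) ∧ (∀ a, n < 4 * a + 11 → (P 3).coeff a = 0)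

open PreTail

theorem polyM {T : PreTail B R} {X M : R} (hX : T.L 4 X 1) {j : ℕ} (hM : T.L j M 1) (n : ℕ)
    (P : Polynomial B) (hP : ∀ a, n < 4 * a + j → P.coeff a = 0) :
    T.L n (Polynomial.aeval X P * M) (cf n j P) := by
  have h1 : Polynomial.aeval X P * M = ∑ a ∈ P.support, P.coeff a • (X ^ a * M) := by
    rw [Polynomial.aeval_eq_sum_range, Finset.sum_mul, ← Finset.sum_subset
      (Polynomial.supp_subset_range_natDegree_succ)]
    · refine Finset.sum_congr rfl fun a _ => ?_
      rw [smul_mul_assoc]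
    · intro a _ ha
      rw [Polynomial.notMem_support_iff.1 ha, zero_smul, zero_mul]
  have h2 : cf n j P = ∑ a ∈ P.support, (if 4 * a + j = n then P.coeff a else 0) := by
    unfold cf
    split_ifs with hc
    · rw [Finset.sum_eq_single ((n - j) / 4)]
      · rw [if_pos (by omega)]
      · intro b _ hb
        rw [if_neg (by omega)]
      · intro ha
        rw [Polynomial.notMem_support_iff.1 ha, ite_self]
    · symm
      apply Finset.sum_eq_zero
      intro a _
      rw [if_neg (by omega)]
  rw [h1, h2]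
  refine L.sum _ _ _ fun a ha => ?_
  have h3 : 4 * a + j ≤ n := by
    by_contra hcon
    exact (Polynomial.mem_support_iff.1 ha) (hP a (by omega))
  have h4 : T.L (4 * a + j) (P.coeff a • (X ^ a * M)) (P.coeff a) :=
    (((hX.pow a).mul hM).smul (P.coeff a)).congr rfl (by ring)
  by_cases h5 : 4 * a + j = n
  · rw [if_pos h5, ← h5]
    exact h4
  · rw [if_neg h5]
    exact h4.upto (by omega)

/-- the coordinates have the weights `4, 5, 6` and leading coefficient `1` -/
structure XYZ (T : PreTail B R) (X Y Z : R) : Prop where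
  hX : T.L 4 X 1
  hY : T.L 5 Y 1
  hZ : T.L 6 Z 1

theorem L_val {T : PreTail B R} {X Y Z : R} (h : XYZ T X Y Z) (n : ℕ) (P : Fin 4 → Polynomial B)
    (hP : WB n P) : T.L n (val X Y Z P) (cfs n P) := by
  have h0 := polyM h.hX L.one n (P 0) hP.1
  have h1 := polyM h.hX h.hY n (P 1) hP.2.1
  have h2 := polyM h.hX h.hZ n (P 2) hP.2.2.1
  have h3 := polyM h.hX ((h.hY.mul h.hZ).congr rfl (mul_one 1)) n (P 3) hP.2.2.2
  rw [mul_one] at h0
  exact ((h0.add h1).add h2).add h3

theorem WB_step (n : ℕ) (P : Fin 4 → Polynomial B) (hP : WB (n + 1) P) (h0 : cfs (n + 1) P = 0) :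
    WB n P := by
  obtain ⟨p0, p1, p2, p3⟩ := hP
  unfold cfs cf at h0
  refine ⟨fun a ha => ?_, fun a ha => ?_, fun a ha => ?_, fun a ha => ?_⟩
  · rcases Nat.lt_or_ge (n + 1) (4 * a) with h | h
    · exact p0 a h
    · have e : n + 1 = 4 * a := by omega
      rw [if_pos (by omega), if_neg (by omega), if_neg (by omega), if_neg (by omega), add_zero,
        add_zero, add_zero] at h0
      have e2 : (n + 1 - 0) / 4 = a := by omega
      rwa [e2] at h0
  · rcases Nat.lt_or_ge (n + 1) (4 * a + 5) with h | h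
    · exact p1 a h
    · have e : n + 1 = 4 * a + 5 := by omega
      rw [if_neg (by omega), if_pos (by omega), if_neg (by omega), if_neg (by omega), add_zero,
        add_zero, zero_add] at h0
      have e2 : (n + 1 - 5) / 4 = a := by omega
      rwa [e2] at h0
  · rcases Nat.lt_or_ge (n + 1) (4 * a + 6) with h | h
    · exact p2 a h
    · have e : n + 1 = 4 * a + 6 := by omega
      rw [if_neg (by omega), if_neg (by omega), if_pos (by omega), if_neg (by omega), add_zero,
        zero_add, zero_add] at h0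
      have e2 : (n + 1 - 6) / 4 = a := by omega
      rwa [e2] at h0
  · rcases Nat.lt_or_ge (n + 1) (4 * a + 11) with h | h
    · exact p3 a h
    · have e : n + 1 = 4 * a + 11 := by omega
      rw [if_neg (by omega), if_neg (by omega), if_neg (by omega), if_pos (by omega), zero_add,
        zero_add, zero_add] at h0
      have e2 : (n + 1 - 11) / 4 = a := by omega
      rwa [e2] at h0

theorem exists_WB (P : Fin 4 → Polynomial B) : ∃ K, WB K P := by
  refine ⟨4 * ((P 0).natDegree + (P 1).natDegree + (P 2).natDegree + (P 3).natDegree) + 11,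
    fun a ha => ?_, fun a ha => ?_, fun a ha => ?_, fun a ha => ?_⟩ <;>
  · apply Polynomial.coeff_eq_zero_of_natDegree_lt
    omega

theorem WB_mono {m n : ℕ} (h : m ≤ n) {P : Fin 4 → Polynomial B} (hP : WB m P) : WB n P :=
  ⟨fun a ha => hP.1 a (by omega), fun a ha => hP.2.1 a (by omega),
    fun a ha => hP.2.2.1 a (by omega), fun a ha => hP.2.2.2 a (by omega)⟩

/-- the leading coefficients of a normal form -/
theorem L_val_iff {T : PreTail B R} {X Y Z : R} (h : XYZ T X Y Z) (n : ℕ)
    (P : Fin 4 → Polynomial B) (b : B) :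
    T.L n (val X Y Z P) b ↔ WB n P ∧ cfs n P = b := by
  constructor
  · intro hL
    have h1 : ∀ k, WB (n + k) P → WB n P := by
      intro k
      induction k with
      | zero => exact fun h => h
      | succ k ih =>
        intro hW
        apply ih
        refine WB_step (n + k) P hW ?_
        have h2 := L_val h (n + (k + 1)) P hW
        exact h2.unique (hL.upto (by omega))
    obtain ⟨K, hK⟩ := exists_WB P
    have h2 : WB n P := h1 K (WB_mono (by omega) hK)
    exact ⟨h2, (L_val h n P h2).unique hL⟩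
  · rintro ⟨h1, h2⟩
    rw [← h2]
    exact L_val h n P h1

/-- the normal form is unique -/
theorem val_eq_zero {T : PreTail B R} {X Y Z : R} (h : XYZ T X Y Z) (P : Fin 4 → Polynomial B)
    (h0 : val X Y Z P = 0) : P = 0 := by
  have h1 := (L_val_iff h 0 P 0).1 (by rw [h0]; exact L.zero 0)
  obtain ⟨⟨p0, p1, p2, p3⟩, h2⟩ := h1
  unfold cfs cf at h2
  rw [if_pos (by omega), if_neg (by omega), if_neg (by omega), if_neg (by omega), add_zero,
    add_zero, add_zero] at h2
  funext i
  fin_cases i
  · change P 0 = 0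
    ext a
    rcases Nat.eq_zero_or_pos a with ha | ha
    · rw [ha]
      exact h2
    · exact p0 a (by omega)
  · change P 1 = 0
    ext a
    exact p1 a (by omega)
  · change P 2 = 0
    ext a
    exact p2 a (by omega)
  · change P 3 = 0
    ext a
    exact p3 a (by omega)

theorem val_add (X Y Z : R) (P Q : Fin 4 → Polynomial B) :
    val X Y Z (P + Q) = val X Y Z P + val X Y Z Q := by
  unfold val
  rw [Pi.add_apply, Pi.add_apply, Pi.add_apply, Pi.add_apply, map_add, map_add, map_add, map_add]
  ring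

theorem val_neg (X Y Z : R) (P : Fin 4 → Polynomial B) : val X Y Z (-P) = - val X Y Z P := by
  unfold val
  rw [Pi.neg_apply, Pi.neg_apply, Pi.neg_apply, Pi.neg_apply, map_neg, map_neg, map_neg, map_neg]
  ring

theorem val_injective {T : PreTail B R} {X Y Z : R} (h : XYZ T X Y Z) (P Q : Fin 4 → Polynomial B)
    (h0 : val X Y Z P = val X Y Z Q) : P = Q := by
  have h1 := val_eq_zero h (P + -Q) (by rw [val_add, val_neg, h0, add_neg_cancel])
  rwa [add_neg_eq_zero] at h1

/-! ### rings where the two equations hold -/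

open Polynomial in
theorem val_mul_X (X Y Z : R) (P : Fin 4 → Polynomial B) :
    val X Y Z P * X = val X Y Z (fun i => P i * Polynomial.X) := by
  unfold val
  rw [map_mul, map_mul, map_mul, map_mul, aeval_X]
  ring

open Polynomial in
theorem val_mul_Y (s : Fin 8 → B) (X Y Z : R) (h : Eqs s X Y Z) (P : Fin 4 → Polynomial B) :
    val X Y Z P * Y = val X Y Z
      ![P 1 * C (s 6) + P 3 * (Polynomial.X * (Polynomial.X ^ 3 + C (s 2) * Polynomial.X ^ 2
          + C (s 5) * Polynomial.X + C (s 7))),
        P 0 + P 3 * (Polynomial.X * (C (s 1) * Polynomial.X + C (s 4))),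
        P 1 * Polynomial.X + P 3 * C (s 6)
          + P 3 * (Polynomial.X * (C (s 0) * Polynomial.X + C (s 3))), P 2] := by
  obtain ⟨e1, e2⟩ := h
  unfold val
  simp only [Matrix.cons_val_zero, Matrix.cons_val_one, Matrix.cons_val, map_add, map_mul, map_pow,
    aeval_X, aeval_C]
  linear_combination (aeval X (P 1) + aeval X (P 3) * Z) * e1 + (aeval X (P 3) * X) * e2

open Polynomial in
theorem val_mul_Z (s : Fin 8 → B) (X Y Z : R) (h : Eqs s X Y Z) (P : Fin 4 → Polynomial B) :
    val X Y Z P * Z = val X Y Z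
      ![P 2 * (Polynomial.X ^ 3 + C (s 2) * Polynomial.X ^ 2
          + C (s 5) * Polynomial.X + C (s 7)) + P 3 * (C (s 1) * Polynomial.X + C (s 4)) * C (s 6),
        P 2 * (C (s 1) * Polynomial.X + C (s 4)) + P 3 * (Polynomial.X ^ 3
          + C (s 2) * Polynomial.X ^ 2 + C (s 5) * Polynomial.X + C (s 7)),
        P 0 + P 2 * (C (s 0) * Polynomial.X + C (s 3))
          + P 3 * (C (s 1) * Polynomial.X + C (s 4)) * Polynomial.X,
        P 1 + P 3 * (C (s 0) * Polynomial.X + C (s 3))] := by
  obtain ⟨e1, e2⟩ := h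
  unfold val
  simp only [Matrix.cons_val_zero, Matrix.cons_val_one, Matrix.cons_val, map_add, map_mul, map_pow,
    aeval_X, aeval_C]
  linear_combination (aeval X (P 2) + aeval X (P 3) * Y) * e2 +
    (aeval X (P 3) * (algebraMap B R (s 1) * X + algebraMap B R (s 4))) * e1

/-! ### the coordinate ring -/

/-- the equations, for any algebra homomorphism which kills them -/
theorem eqs_of_hom (s : Fin 8 → B) (π : MvPolynomial (Fin 3) B →ₐ[B] R) (h1 : π (eq1 s) = 0)
    (h2 : π (eq2 s) = 0) :
    Eqs s (π (MvPolynomial.X 0)) (π (MvPolynomial.X 1)) (π (MvPolynomial.X 2)) := by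
  have hC : ∀ b : B, π (MvPolynomial.C b) = algebraMap B R b := fun b => π.commutes b
  constructor
  · unfold eq1 at h1
    simp only [map_sub, map_mul, map_pow, hC] at h1
    linear_combination h1
  · unfold eq2 at h2
    simp only [map_sub, map_mul, map_pow, hC] at h2
    linear_combination h2

theorem eqs_coord (s : Fin 8 → B) : Eqs s (coord s 0) (coord s 1) (coord s 2) := by
  have h1 : Ideal.Quotient.mkₐ B (Ideal.span {eq1 s, eq2 s}) (eq1 s) = 0 :=
    Ideal.Quotient.eq_zero_iff_mem.2 (Ideal.subset_span (by simp))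
  have h2 : Ideal.Quotient.mkₐ B (Ideal.span {eq1 s, eq2 s}) (eq2 s) = 0 :=
    Ideal.Quotient.eq_zero_iff_mem.2 (Ideal.subset_span (by simp))
  exact eqs_of_hom s _ h1 h2

theorem exists_val (s : Fin 8 → B) (f : CoordRing s) :
    ∃ P : Fin 4 → Polynomial B, f = val (coord s 0) (coord s 1) (coord s 2) P := by
  obtain ⟨p, rfl⟩ := Ideal.Quotient.mk_surjective f
  induction p using MvPolynomial.induction_on with
  | C b =>
    refine ⟨![Polynomial.C b, 0, 0, 0], ?_⟩
    unfold val
    simp only [Matrix.cons_val_zero, Matrix.cons_val_one, Matrix.cons_val, map_zero, zero_mul,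
      add_zero, Polynomial.aeval_C]
    rfl
  | add p q hp hq =>
    obtain ⟨P, hP⟩ := hp
    obtain ⟨Q, hQ⟩ := hq
    exact ⟨P + Q, by rw [map_add, hP, hQ, val_add]⟩
  | mul_X p i hp =>
    obtain ⟨P, hP⟩ := hp
    rw [map_mul, hP]
    fin_cases i
    · exact ⟨_, val_mul_X _ _ _ P⟩
    · exact ⟨_, val_mul_Y s _ _ _ (eqs_coord s) P⟩
    · exact ⟨_, val_mul_Z s _ _ _ (eqs_coord s) P⟩

/-- the homomorphism given by a solution of the equations -/
noncomputable def toR (s : Fin 8 → B) (X Y Z : R) (h : Eqs s X Y Z) : CoordRing s →ₐ[B] R :=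
  Ideal.Quotient.liftₐ (Ideal.span {eq1 s, eq2 s}) (MvPolynomial.aeval ![X, Y, Z]) (by
    have hle : Ideal.span {eq1 s, eq2 s} ≤
        RingHom.ker (MvPolynomial.aeval ![X, Y, Z] : MvPolynomial (Fin 3) B →ₐ[B] R) := by
      rw [Ideal.span_le]
      rintro f (rfl | rfl)
      · change MvPolynomial.aeval ![X, Y, Z] (eq1 s) = 0
        unfold eq1
        simp only [map_sub, map_mul, map_pow, MvPolynomial.aeval_X, MvPolynomial.aeval_C,
          Matrix.cons_val_zero, Matrix.cons_val_one, Matrix.cons_val]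
        linear_combination h.1
      · change MvPolynomial.aeval ![X, Y, Z] (eq2 s) = 0
        unfold eq2
        simp only [map_sub, map_mul, map_pow, MvPolynomial.aeval_X, MvPolynomial.aeval_C,
          Matrix.cons_val_zero, Matrix.cons_val_one, Matrix.cons_val]
        linear_combination h.2
    exact fun a ha => hle ha)

theorem toR_coord (s : Fin 8 → B) (X Y Z : R) (h : Eqs s X Y Z) (i : Fin 3) :
    toR s X Y Z h (coord s i) = ![X, Y, Z] i := by
  change MvPolynomial.aeval ![X, Y, Z] (MvPolynomial.X i : MvPolynomial (Fin 3) B) = _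
  rw [MvPolynomial.aeval_X]

theorem map_val {R' : Type} [CommRing R'] [Algebra B R'] (φ : R →ₐ[B] R') (X Y Z : R)
    (P : Fin 4 → Polynomial B) : φ (val X Y Z P) = val (φ X) (φ Y) (φ Z) P := by
  unfold val
  simp only [map_add, map_mul, Polynomial.aeval_algHom_apply]

theorem toR_val (s : Fin 8 → B) (X Y Z : R) (h : Eqs s X Y Z) (P : Fin 4 → Polynomial B) :
    toR s X Y Z h (val (coord s 0) (coord s 1) (coord s 2) P) = val X Y Z P := by
  rw [map_val, toR_coord, toR_coord, toR_coord]
  rfl

end KZP
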