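import Pool.Agent.KZP.TailA

/-!
# KZP-TailB: expansions at infinity; the coordinate rings are tails
-/

set_option autoImplicit false

namespace KZP

open PreTail

/-- Laurent series -/
def LS (B : Type) [CommRing B] : Type := HahnSeries ℤ B

noncomputable instance (B : Type) [CommRing B] : CommRing (LS B) :=
  inferInstanceAs (CommRing (HahnSeries ℤ B))

noncomputable instance (B : Type) [CommRing B] : Algebra B (LS B) :=
  (HahnSeries.C : B →+* HahnSeries ℤ B).toAlgebra

section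

variable {B : Type} [CommRing B]

/-- the underlying Laurent series -/
def LS.toH (f : LS B) : HahnSeries ℤ B := f

theorem LS.toH_mul (f g : LS B) : LS.toH (f * g) = LS.toH f * LS.toH g := rfl

theorem LS.toH_one : LS.toH (1 : LS B) = 1 := rfl

theorem LS.toH_smul (c : B) (f : LS B) : LS.toH (c • f) = HahnSeries.C c * LS.toH f := by
  rw [Algebra.smul_def]
  rfl

theorem LS.toH_injective {f g : LS B} (h : LS.toH f = LS.toH g) : f = g := h

/-- the coefficients -/
def LS.co (f : LS B) (k : ℤ) : B := (LS.toH f).coeff k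

theorem LS.co_zero (k : ℤ) : LS.co (0 : LS B) k = 0 := rfl

theorem LS.co_add (f g : LS B) (k : ℤ) : LS.co (f + g) k = LS.co f k + LS.co g k := rfl

theorem LS.co_smul (c : B) (f : LS B) (k : ℤ) : LS.co (c • f) k = c * LS.co f k := by
  unfold LS.co
  rw [LS.toH_smul, HahnSeries.C_mul_eq_smul, HahnSeries.coeff_smul, smul_eq_mul]

theorem LS.co_one (k : ℤ) : LS.co (1 : LS B) k = if k = 0 then 1 else 0 := by
  unfold LS.co
  rw [LS.toH_one, HahnSeries.coeff_one]
  split_ifs <;> rfl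

theorem LS.mul_aux (f g : LS B) (m n : ℕ) (hf : ∀ k : ℤ, k < -m → LS.co f k = 0)
    (hg : ∀ k : ℤ, k < -n → LS.co g k = 0) :
    (∀ k : ℤ, k < -((m + n : ℕ) : ℤ) → LS.co (f * g) k = 0) ∧
      LS.co (f * g) (-((m + n : ℕ) : ℤ)) = LS.co f (-m) * LS.co g (-n) := by
  unfold LS.co at hf hg ⊢
  rw [LS.toH_mul]
  constructor
  · intro k hk
    rw [HahnSeries.coeff_mul]
    apply Finset.sum_eq_zero
    rintro ⟨i, j⟩ hij
    have h2 : i + j = k := (Finset.mem_antidiagonal.1 hij).2.2
    push_cast at hk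
    rcases lt_or_ge i (-(m : ℤ)) with h | h
    · rw [hf i h, zero_mul]
    · rw [hg j (by omega), mul_zero]
  · rw [HahnSeries.coeff_mul, Finset.sum_eq_single ((-(m : ℤ), -(n : ℤ)) : ℤ × ℤ)]
    · rintro ⟨i, j⟩ hij hne
      have h2 : i + j = -((m + n : ℕ) : ℤ) := (Finset.mem_antidiagonal.1 hij).2.2
      push_cast at h2
      rcases lt_trichotomy i (-(m : ℤ)) with h | h | h
      · rw [hf i h, zero_mul]
      · exfalso
        apply hne
        rw [h]
        congr 1
        omega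
      · rw [hg j (by omega), mul_zero]
    · intro hnot
      by_contra hne
      apply hnot
      rw [Finset.mem_antidiagonal]
      refine ⟨?_, ?_, ?_⟩
      · rw [HahnSeries.mem_support]
        exact left_ne_zero_of_mul hne
      · rw [HahnSeries.mem_support]
        exact right_ne_zero_of_mul hne
      · push_cast
        ring

variable (B) in
/-- the filtration of the Laurent series by the order of the pole -/
noncomputable def lsPre : PreTail B (LS B) where
  F n :=
    { carrier := {f | ∀ k : ℤ, k < -(n : ℤ) → LS.co f k = 0}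
      add_mem' := by
        intro f g hf hg k hk
        rw [LS.co_add, hf k hk, hg k hk, add_zero]
      zero_mem' := fun k _ => LS.co_zero k
      smul_mem' := by
        intro c f hf k hk
        rw [LS.co_smul, hf k hk, mul_zero] }
  lc n :=
    { toFun := fun f => LS.co f.1 (-(n : ℤ))
      map_add' := fun f g => LS.co_add f.1 g.1 _
      map_smul' := fun c f => LS.co_smul c f.1 _ }
  le_succ n := by
    intro f hf k hk
    refine hf k ?_
    push_cast at hk
    omega
  one_mem := by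
    intro k hk
    rw [LS.co_one, if_neg]
    push_cast at hk
    omega
  lc_one := by
    change LS.co (1 : LS B) (-((0 : ℕ) : ℤ)) = 1
    rw [LS.co_one, if_pos (by norm_num)]
  mul_mem m n f g hf hg := (LS.mul_aux f g m n hf hg).1
  lc_mul m n f g := (LS.mul_aux f.1 g.1 m n f.2 g.2).2
  lc_succ n f := by
    change LS.co f.1 (-((n + 1 : ℕ) : ℤ)) = 0 ↔ ∀ k : ℤ, k < -(n : ℤ) → LS.co f.1 k = 0
    constructor
    · intro h k hk
      rcases lt_or_ge k (-((n + 1 : ℕ) : ℤ)) with h1 | h1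
      · exact f.2 k h1
      · have h2 : k = -((n + 1 : ℕ) : ℤ) := by
          push_cast at h1 ⊢
          omega
        rw [h2]
        exact h
    · intro h
      apply h
      push_cast
      omega

theorem lsPre_L (n : ℕ) (f : LS B) (b : B) :
    (lsPre B).L n f b ↔ (∀ k : ℤ, k < -(n : ℤ) → LS.co f k = 0) ∧ LS.co f (-(n : ℤ)) = b :=
  ⟨fun ⟨h, h2⟩ => ⟨h, h2⟩, fun ⟨h, h2⟩ => ⟨h, h2⟩⟩

/-- power series as Laurent series -/
noncomputable def LS.ps : PowerSeries B →+* LS B := HahnSeries.ofPowerSeries ℤ B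

theorem LS.co_ps (g : PowerSeries B) (k : ℤ) :
    LS.co (LS.ps g) k = if k < 0 then 0 else PowerSeries.coeff k.natAbs g :=
  PowerSeries.coeff_coe g k

theorem L_ps (g : PowerSeries B) : (lsPre B).L 0 (LS.ps g) (PowerSeries.constantCoeff g) := by
  rw [lsPre_L]
  constructor
  · intro k hk
    rw [LS.co_ps, if_pos (by push_cast at hk; omega)]
  · rw [LS.co_ps, if_neg (by norm_num)]
    norm_num

/-- `t`, with a pole of order one -/
noncomputable def LS.t : LS B := (HahnSeries.single (-1 : ℤ) (1 : B) : HahnSeries ℤ B)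

theorem L_t : (lsPre B).L 1 LS.t 1 := by
  rw [lsPre_L]
  constructor
  · intro k hk
    change (HahnSeries.single (-1 : ℤ) (1 : B) : HahnSeries ℤ B).coeff k = 0
    rw [HahnSeries.coeff_single_of_ne]
    push_cast at hk
    omega
  · change (HahnSeries.single (-1 : ℤ) (1 : B) : HahnSeries ℤ B).coeff _ = 1
    have h1 : (-((1 : ℕ) : ℤ)) = -1 := by norm_num
    rw [h1, HahnSeries.coeff_single_same]

theorem t_mul_X : (LS.t : LS B) * LS.ps PowerSeries.X = 1 := by
  apply LS.toH_injective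
  rw [LS.toH_mul]
  change HahnSeries.single (-1 : ℤ) (1 : B) * HahnSeries.ofPowerSeries ℤ B PowerSeries.X = 1
  rw [HahnSeries.ofPowerSeries_X, HahnSeries.single_mul_single]
  norm_num

theorem ps_C (b : B) : LS.ps (PowerSeries.C b) = algebraMap B (LS B) b :=
  HahnSeries.ofPowerSeries_C b

end

/-! ### the expansions of the coordinates -/

/-- There are power series `y, z` with constant coefficient `1`, `y² = z + s₁₀ τ¹⁰` and
`z² = 1 + s₂ τ² z + s₃ τ³ y + s₄ τ⁴ + s₆ τ⁶ z + s₇ τ⁷ y + s₈ τ⁸ + s₁₂ τ¹²`. -/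
theorem exists_series {B : Type} [CommRing B] (h2 : IsUnit (2 : B)) (s : Fin 8 → B) :
    ∃ y z : PowerSeries B, PowerSeries.constantCoeff y = 1 ∧ PowerSeries.constantCoeff z = 1 ∧
      y ^ 2 = z + PowerSeries.C (s 6) * PowerSeries.X ^ 10 ∧
      z ^ 2 = 1 + PowerSeries.C (s 0) * PowerSeries.X ^ 2 * z
        + PowerSeries.C (s 1) * PowerSeries.X ^ 3 * y + PowerSeries.C (s 2) * PowerSeries.X ^ 4
        + PowerSeries.C (s 3) * PowerSeries.X ^ 6 * z + PowerSeries.C (s 4) * PowerSeries.X ^ 7 * y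
        + PowerSeries.C (s 5) * PowerSeries.X ^ 8 + PowerSeries.C (s 7) * PowerSeries.X ^ 12 := by
  obtain ⟨a10, ha10⟩ : ∃ a : PowerSeries B, a = PowerSeries.C (s 6) * PowerSeries.X ^ 10 := ⟨_, rfl⟩
  obtain ⟨u, hu⟩ : ∃ u : PowerSeries B, u = PowerSeries.C (s 0) * PowerSeries.X ^ 2
      + PowerSeries.C (s 3) * PowerSeries.X ^ 6 := ⟨_, rfl⟩
  obtain ⟨v, hv⟩ : ∃ v : PowerSeries B, v = PowerSeries.C (s 1) * PowerSeries.X ^ 3
      + PowerSeries.C (s 4) * PowerSeries.X ^ 7 := ⟨_, rfl⟩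
  obtain ⟨w, hw⟩ : ∃ w : PowerSeries B, w = PowerSeries.C (s 2) * PowerSeries.X ^ 4
      + PowerSeries.C (s 5) * PowerSeries.X ^ 8 + PowerSeries.C (s 7) * PowerSeries.X ^ 12 :=
    ⟨_, rfl⟩
  let I : Ideal (PowerSeries B) := Ideal.span {PowerSeries.X}
  have hX : (PowerSeries.X : PowerSeries B) ∈ I := Ideal.subset_span rfl
  have hXk : ∀ k : ℕ, 0 < k → (PowerSeries.X : PowerSeries B) ^ k ∈ I := fun k hk =>
    Ideal.pow_mem_of_mem I hX k hk
  have m10 : a10 ∈ I := by
    rw [ha10]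
    exact I.mul_mem_left _ (hXk 10 (by norm_num))
  have mu : u ∈ I := by
    rw [hu]
    exact I.add_mem (I.mul_mem_left _ (hXk 2 (by norm_num)))
      (I.mul_mem_left _ (hXk 6 (by norm_num)))
  have mv : v ∈ I := by
    rw [hv]
    exact I.add_mem (I.mul_mem_left _ (hXk 3 (by norm_num)))
      (I.mul_mem_left _ (hXk 7 (by norm_num)))
  have mw : w ∈ I := by
    rw [hw]
    exact I.add_mem (I.add_mem (I.mul_mem_left _ (hXk 4 (by norm_num)))
      (I.mul_mem_left _ (hXk 8 (by norm_num)))) (I.mul_mem_left _ (hXk 12 (by norm_num)))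
  let G : Polynomial (PowerSeries B) := (Polynomial.X ^ 2 - Polynomial.C a10) ^ 2
    - (1 + Polynomial.C u * (Polynomial.X ^ 2 - Polynomial.C a10)
      + Polynomial.C v * Polynomial.X + Polynomial.C w)
  have hG : G = Polynomial.X ^ 4 + (Polynomial.C (-(2 * a10) - u) * Polynomial.X ^ 2
      + Polynomial.C (-v) * Polynomial.X + Polynomial.C (a10 ^ 2 - 1 + u * a10 - w)) := by
    simp only [G, map_sub, map_add, map_mul, map_neg, map_pow, map_one, map_ofNat]
    ring
  have hmonic : G.Monic := by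
    rw [hG]
    apply Polynomial.monic_X_pow_add
    refine lt_of_le_of_lt (Polynomial.degree_quadratic_le) ?_
    norm_num
  have hev : ∀ y : PowerSeries B, G.eval y = (y ^ 2 - a10) ^ 2
      - (1 + u * (y ^ 2 - a10) + v * y + w) := by
    intro y
    simp only [G, Polynomial.eval_sub, Polynomial.eval_pow, Polynomial.eval_add,
      Polynomial.eval_mul, Polynomial.eval_X, Polynomial.eval_C, Polynomial.eval_one]
  have h1 : G.eval 1 ∈ I := by
    rw [hev]
    have h3 : ((1 : PowerSeries B) ^ 2 - a10) ^ 2 - (1 + u * (1 ^ 2 - a10) + v * 1 + w) =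
        a10 * (a10 - 2 + u) - u - v - w := by ring
    rw [h3]
    exact I.sub_mem (I.sub_mem (I.sub_mem (I.mul_mem_right _ m10) mu) mv) mw
  have hder : (Polynomial.derivative G).eval 1 = 4 + (-(4 * a10) - 2 * u - v) := by
    rw [hG]
    simp only [Polynomial.derivative_add, Polynomial.derivative_mul, Polynomial.derivative_C,
      Polynomial.derivative_X_pow, Polynomial.derivative_X, Polynomial.eval_add,
      Polynomial.eval_mul, Polynomial.eval_C, Polynomial.eval_pow, Polynomial.eval_X,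
      Polynomial.eval_zero, Polynomial.eval_one]
    norm_num
    ring
  have hunit : IsUnit (Ideal.Quotient.mk I ((Polynomial.derivative G).eval 1)) := by
    rw [hder, map_add]
    have h4 : Ideal.Quotient.mk I (-(4 * a10) - 2 * u - v) = 0 := by
      rw [Ideal.Quotient.eq_zero_iff_mem]
      exact I.sub_mem (I.sub_mem (I.neg_mem_iff.2 (I.mul_mem_left _ m10)) (I.mul_mem_left _ mu)) mv
    rw [h4, add_zero]
    have h5 : (4 : PowerSeries B) = PowerSeries.C (2 * 2) := by
      rw [map_mul, map_ofNat]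
      norm_num
    rw [h5]
    exact (h2.mul h2).map ((Ideal.Quotient.mk I).comp (PowerSeries.C))
  obtain ⟨y, hy, hy1⟩ := HenselianRing.is_henselian (I := I) G hmonic 1 h1 hunit
  have hy0 : G.eval y = 0 := hy
  rw [hev] at hy0
  have hcc : ∀ f ∈ I, PowerSeries.constantCoeff f = 0 := by
    intro f hf
    obtain ⟨g, rfl⟩ := Ideal.mem_span_singleton.1 hf
    rw [map_mul, PowerSeries.constantCoeff_X, zero_mul]
  have hcy : PowerSeries.constantCoeff y = 1 := by
    have h6 := hcc _ hy1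
    rw [map_sub, map_one, sub_eq_zero] at h6
    exact h6
  refine ⟨y, y ^ 2 - a10, hcy, ?_, ?_, ?_⟩
  · rw [map_sub, map_pow, hcy, hcc _ m10]
    norm_num
  · rw [ha10]
    ring
  · rw [hu, hv, hw] at hy0
    linear_combination hy0

/-- the expansions of `X, Y, Z` at infinity -/
theorem exists_expansion {B : Type} [CommRing B] (h2 : IsUnit (2 : B)) (s : Fin 8 → B) :
    ∃ X Y Z : LS B, Eqs s X Y Z ∧ XYZ (lsPre B) X Y Z := by
  obtain ⟨y, z, hy, hz, e1, e2⟩ := exists_series h2 s
  obtain ⟨t, ht⟩ : ∃ t : LS B, t = LS.t := ⟨_, rfl⟩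
  obtain ⟨τ, hτ⟩ : ∃ τ : LS B, τ = LS.ps PowerSeries.X := ⟨_, rfl⟩
  have htτ : t * τ = 1 := by rw [ht, hτ, t_mul_X]
  have htk : ∀ k : ℕ, t ^ k * τ ^ k = 1 := by
    intro k
    rw [← mul_pow, htτ, one_pow]
  have e1' := congrArg LS.ps e1
  have e2' := congrArg LS.ps e2
  simp only [map_add, map_mul, map_pow, map_one, ps_C, ← hτ] at e1' e2'
  refine ⟨t ^ 4, t ^ 5 * LS.ps y, t ^ 6 * LS.ps z, ⟨?_, ?_⟩, ?_, ?_, ?_⟩
  · have h1 : (t ^ 5 * LS.ps y) ^ 2 = t ^ 10 * LS.ps y ^ 2 := by ring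
    rw [h1, e1']
    have h10 := htk 10
    linear_combination (algebraMap B (LS B) (s 6)) * h10
  · have h1 : (t ^ 6 * LS.ps z) ^ 2 = t ^ 12 * LS.ps z ^ 2 := by ring
    rw [h1, e2']
    have k2 := htk 2
    have k3 := htk 3
    have k4 := htk 4
    have k6 := htk 6
    have k7 := htk 7
    have k8 := htk 8
    have k12 := htk 12
    linear_combination (algebraMap B (LS B) (s 0) * t ^ 10 * LS.ps z) * k2
      + (algebraMap B (LS B) (s 1) * t ^ 9 * LS.ps y) * k3
      + (algebraMap B (LS B) (s 2) * t ^ 8) * k4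
      + (algebraMap B (LS B) (s 3) * t ^ 6 * LS.ps z) * k6
      + (algebraMap B (LS B) (s 4) * t ^ 5 * LS.ps y) * k7
      + (algebraMap B (LS B) (s 5) * t ^ 4) * k8
      + (algebraMap B (LS B) (s 7)) * k12
  · have h1 := (L_t (B := B)).pow 4
    rw [← ht] at h1
    exact h1
  · have h1 := ((L_t (B := B)).pow 5).mul (L_ps y)
    rw [← ht, hy] at h1
    exact h1.congr rfl (mul_one 1)
  · have h1 := ((L_t (B := B)).pow 6).mul (L_ps z)
    rw [← ht, hz] at h1
    exact h1.congr rfl (mul_one 1)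

/-! ### pulling back -/

/-- the pull-back of a filtration with leading coefficients -/
noncomputable def PreTail.comap {B R R' : Type} [CommRing B] [CommRing R] [Algebra B R]
    [CommRing R'] [Algebra B R'] (T : PreTail B R') (φ : R →ₐ[B] R') : PreTail B R where
  F n := (T.F n).comap φ.toLinearMap
  lc n := (T.lc n).comp (φ.toLinearMap.restrict (p := (T.F n).comap φ.toLinearMap) (q := T.F n)
    (fun _ h => h))
  le_succ n := Submodule.comap_mono (T.le_succ n)
  one_mem := by
    change φ 1 ∈ T.F 0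
    rw [map_one]
    exact T.one_mem
  lc_one := by
    change T.lc 0 ⟨φ 1, _⟩ = 1
    have h1 : (⟨φ 1, by rw [map_one]; exact T.one_mem⟩ : T.F 0) = ⟨1, T.one_mem⟩ :=
      Subtype.ext (map_one φ)
    rw [h1, T.lc_one]
  mul_mem m n f g hf hg := by
    change φ (f * g) ∈ T.F (m + n)
    rw [map_mul]
    exact T.mul_mem m n _ _ hf hg
  lc_mul m n f g := by
    have h1 := T.lc_mul m n ⟨φ f.1, f.2⟩ ⟨φ g.1, g.2⟩
    have h2 : (⟨φ (f.1 * g.1), by rw [map_mul]; exact T.mul_mem m n _ _ f.2 g.2⟩ : T.F (m + n)) =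
        ⟨φ f.1 * φ g.1, T.mul_mem m n _ _ f.2 g.2⟩ := Subtype.ext (map_mul φ f.1 g.1)
    change T.lc (m + n) ⟨φ (f.1 * g.1), _⟩ = T.lc m ⟨φ f.1, f.2⟩ * T.lc n ⟨φ g.1, g.2⟩
    rw [h2, h1]
  lc_succ n f := T.lc_succ n ⟨φ f.1, f.2⟩

theorem comap_L {B R R' : Type} [CommRing B] [CommRing R] [Algebra B R]
    [CommRing R'] [Algebra B R'] (T : PreTail B R') (φ : R →ₐ[B] R') (n : ℕ) (f : R) (b : B) :
    (T.comap φ).L n f b ↔ T.L n (φ f) b :=
  ⟨fun ⟨h, h2⟩ => ⟨h, h2⟩, fun ⟨h, h2⟩ => ⟨h, h2⟩⟩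

/-- A filtration with `XYZ` on a ring where every element has a normal form is a tail. -/
noncomputable def PreTail.toTail {B R : Type} [CommRing B] [CommRing R] [Algebra B R]
    (T : PreTail B R) (X Y Z : R) (h : XYZ T X Y Z) (hval : ∀ f : R, ∃ P : Fin 4 → Polynomial B, f = val X Y Z P) :
    Tail B R where
  F := T.F
  lc := T.lc
  le_succ := T.le_succ
  exhaust f := by
    obtain ⟨P, rfl⟩ := hval f
    obtain ⟨K, hK⟩ := exists_WB P
    obtain ⟨h1, _⟩ := L_val h K P hK
    exact ⟨K, h1⟩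
  one_mem := T.one_mem
  lc_one := T.lc_one
  mul_mem := T.mul_mem
  lc_mul := T.lc_mul
  lc_zero f := by
    constructor
    · intro h0
      obtain ⟨P, hP⟩ := hval f.1
      have h1 : T.L 0 (val X Y Z P) 0 := ⟨hP ▸ f.2, by
        have h3 : (⟨val X Y Z P, hP ▸ f.2⟩ : T.F 0) = f := Subtype.ext hP.symm
        rw [h3]
        exact h0⟩
      obtain ⟨⟨p0, p1, p2, p3⟩, h2⟩ := (L_val_iff h 0 P 0).1 h1
      unfold cfs cf at h2
      rw [if_pos (by omega), if_neg (by omega), if_neg (by omega), if_neg (by omega), add_zero,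
        add_zero, add_zero] at h2
      have q0 : P 0 = 0 := by
        ext a
        rcases Nat.eq_zero_or_pos a with ha | ha
        · rw [ha]
          exact h2
        · exact p0 a (by omega)
      have q1 : P 1 = 0 := by
        ext a
        exact p1 a (by omega)
      have q2 : P 2 = 0 := by
        ext a
        exact p2 a (by omega)
      have q3 : P 3 = 0 := by
        ext a
        exact p3 a (by omega)
      apply Subtype.ext
      rw [hP]
      unfold val
      rw [q0, q1, q2, q3, map_zero, zero_mul, zero_mul, zero_mul, add_zero, add_zero, add_zero]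
      rfl
    · rintro rfl
      exact map_zero _
  lc_succ := T.lc_succ
  surj n hn b := by
    have h4 := h.hX
    have key : ∃ M : R, T.L n M 1 := by
      unfold IsGap at hn
      have hc : (∃ a, n = 4 * a) ∨ (∃ a, n = 4 * a + 5) ∨ (∃ a, n = 4 * a + 6) ∨
          (∃ a, n = 4 * a + 11) := by
        have : n % 4 = 0 ∨ n % 4 = 1 ∨ n % 4 = 2 ∨ n % 4 = 3 := by omega
        rcases this with h0 | h0 | h0 | h0
        · exact Or.inl ⟨n / 4, by omega⟩
        · exact Or.inr (Or.inl ⟨(n - 5) / 4, by omega⟩)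
        · exact Or.inr (Or.inr (Or.inl ⟨(n - 6) / 4, by omega⟩))
        · exact Or.inr (Or.inr (Or.inr ⟨(n - 11) / 4, by omega⟩))
      rcases hc with ⟨a, rfl⟩ | ⟨a, rfl⟩ | ⟨a, rfl⟩ | ⟨a, rfl⟩
      · exact ⟨X ^ a, h4.pow a⟩
      · exact ⟨X ^ a * Y, ((h4.pow a).mul h.hY).congr rfl (mul_one 1)⟩
      · exact ⟨X ^ a * Z, ((h4.pow a).mul h.hZ).congr rfl (mul_one 1)⟩
      · exact ⟨X ^ a * (Y * Z), ((h4.pow a).mul (h.hY.mul h.hZ)).congr rfl
          (by rw [mul_one, mul_one])⟩
    obtain ⟨M, hM⟩ := key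
    obtain ⟨h5, h6⟩ := hM.smul b
    exact ⟨⟨_, h5⟩, by rw [h6, mul_one]⟩
  gap n hn f := by
    obtain ⟨P, hP⟩ := hval f.1
    have h1 : T.L n (val X Y Z P) (T.lc n f) := ⟨hP ▸ f.2, by
      have h3 : (⟨val X Y Z P, hP ▸ f.2⟩ : T.F n) = f := Subtype.ext hP.symm
      rw [h3]⟩
    obtain ⟨_, h2⟩ := (L_val_iff h n P _).1 h1
    rw [← h2]
    unfold cfs cf
    unfold IsGap at hn
    rw [if_neg (by omega), if_neg (by omega), if_neg (by omega), if_neg (by omega), add_zero,
      add_zero, add_zero]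

/-- the coordinate ring is a tail -/
theorem exists_tail {B : Type} [CommRing B] (h2 : IsUnit (2 : B)) (s : Fin 8 → B) :
    ∃ T : Tail B (CoordRing s), XYZ T.pre (coord s 0) (coord s 1) (coord s 2) := by
  obtain ⟨X, Y, Z, h, hL⟩ := exists_expansion h2 s
  have hXYZ : XYZ ((lsPre B).comap (toR s X Y Z h)) (coord s 0) (coord s 1) (coord s 2) := by
    refine ⟨?_, ?_, ?_⟩
    · rw [comap_L, toR_coord]
      exact hL.hX
    · rw [comap_L, toR_coord]
      exact hL.hY
    · rw [comap_L, toR_coord]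
      exact hL.hZ
  exact ⟨PreTail.toTail _ _ _ _ hXYZ (exists_val s), hXYZ⟩

end KZP
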