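import Pool.Agent.KZP.TailB

/-!
# KZP-TailC: every tail has a unique normal form; the functor of points
-/

set_option autoImplicit false

namespace KZP

open PreTail

section

variable {B R : Type} [CommRing B] [CommRing R] [Algebra B R] (T : Tail B R)

theorem Tail.gapL {n : ℕ} (hn : IsGap n) {f : R} {b : B} (h : T.pre.L n f b) : b = 0 := by
  obtain ⟨h1, h2⟩ := h
  rw [← h2]
  exact T.gap n hn ⟨f, h1⟩

theorem Tail.eq_const {f : R} {b : B} (h : T.pre.L 0 f b) : f = algebraMap B R b := by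
  obtain ⟨h1, h2⟩ := h.sub (L.const b)
  rw [sub_self] at h2
  have h3 := (T.lc_zero ⟨f - algebraMap B R b, h1⟩).1 h2
  have h4 : f - algebraMap B R b = 0 := congrArg Subtype.val h3
  exact sub_eq_zero.1 h4

theorem Tail.skip {n : ℕ} (hn : IsGap (n + 1)) {f : R} {b : B} (h : T.pre.L (n + 1) f b) :
    ∃ c, T.pre.L n f c := by
  have h1 := T.gapL hn h
  rw [h1] at h
  exact h.down

theorem Tail.const_of_four {f : R} (h : T.pre.L 4 f 0) :
    ∃ c, T.pre.L 0 f c ∧ f = algebraMap B R c := by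
  obtain ⟨b3, h3⟩ := h.down
  obtain ⟨b2, h2⟩ := T.skip (n := 2) (Or.inr (Or.inr (Or.inl rfl))) h3
  obtain ⟨b1, h1⟩ := T.skip (n := 1) (Or.inr (Or.inl rfl)) h2
  obtain ⟨b0, h0⟩ := T.skip (n := 0) (Or.inl rfl) h1
  exact ⟨b0, h0, T.eq_const h0⟩

theorem Tail.six_of_eight {f : R} (h : T.pre.L 8 f 0) : ∃ c, T.pre.L 6 f c := by
  obtain ⟨b7, h7⟩ := h.down
  exact T.skip (n := 6) (Or.inr (Or.inr (Or.inr rfl))) h7

theorem Tail.exists_lead {n : ℕ} (hn : ¬ IsGap n) : ∃ f : R, T.pre.L n f 1 := by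
  obtain ⟨f, hf⟩ := T.surj n hn 1
  exact ⟨f.1, f.2, hf⟩

/-- existence of the normal form -/
theorem Tail.exists_normal {h : B} (hh : 2 * h = 1) :
    ∃ (s : Fin 8 → B) (X Y Z : R), XYZ T.pre X Y Z ∧ Eqs s X Y Z := by
  obtain ⟨X0, hX0⟩ := T.exists_lead (n := 4) (by unfold IsGap; omega)
  obtain ⟨Y0, hY0⟩ := T.exists_lead (n := 5) (by unfold IsGap; omega)
  obtain ⟨Z0, hZ0⟩ := T.exists_lead (n := 6) (by unfold IsGap; omega)
  have hhR : (2 : R) * algebraMap B R h = 1 := by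
    have h1 := congrArg (algebraMap B R) hh
    rwa [map_mul, map_ofNat, map_one] at h1
  -- step 1
  have a1 : T.pre.L 12 (Z0 ^ 2 - X0 ^ 3) 0 :=
    (L.sub (hZ0.pow 2) (hX0.pow 3)).congr rfl (sub_self 1)
  obtain ⟨d, a2⟩ := a1.down
  obtain ⟨Z1, hZ1⟩ : ∃ Z1 : R, Z1 = Z0 - algebraMap B R (d * h) * Y0 := ⟨_, rfl⟩
  have bZ1 : T.pre.L 6 Z1 1 := by
    rw [hZ1]
    exact (hZ0.sub ((hY0.cmul (d * h)).upto (by norm_num))).congr rfl (sub_zero 1)
  have a3 : T.pre.L 11 (Z1 ^ 2 - X0 ^ 3) 0 := by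
    have q1 : T.pre.L 11 (Z0 * Y0) 1 := (hZ0.mul hY0).congr rfl (mul_one 1)
    have q2 : T.pre.L 11 (algebraMap B R ((d * h) ^ 2) * Y0 ^ 2) 0 :=
      (L.cmul ((d * h) ^ 2) (hY0.pow 2)).upto (by norm_num)
    refine ((a2.sub (q1.cmul d)).add q2).congr ?_ (by ring)
    rw [hZ1]
    simp only [map_pow, map_mul]
    linear_combination (algebraMap B R d * (Z0 * Y0)) * hhR
  -- step 2
  have a4 : T.pre.L 10 (Y0 ^ 2 - X0 * Z1) 0 :=
    (L.sub (hY0.pow 2) (hX0.mul bZ1)).congr rfl (by ring)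
  obtain ⟨c, a5⟩ := a4.down
  obtain ⟨Y1, hY1⟩ : ∃ Y1 : R, Y1 = Y0 - algebraMap B R (c * h) * X0 := ⟨_, rfl⟩
  have bY1 : T.pre.L 5 Y1 1 := by
    rw [hY1]
    exact (hY0.sub ((hX0.cmul (c * h)).upto (by norm_num))).congr rfl (sub_zero 1)
  have a6 : T.pre.L 9 (Y1 ^ 2 - X0 * Z1) 0 := by
    have q1 : T.pre.L 9 (X0 * Y0) 1 := (hX0.mul hY0).congr rfl (mul_one 1)
    have q2 : T.pre.L 9 (algebraMap B R ((c * h) ^ 2) * X0 ^ 2) 0 :=
      (L.cmul ((c * h) ^ 2) (hX0.pow 2)).upto (by norm_num)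
    refine ((a5.sub (q1.cmul c)).add q2).congr ?_ (by ring)
    rw [hY1]
    simp only [map_pow, map_mul]
    linear_combination (algebraMap B R c * (X0 * Y0)) * hhR
  obtain ⟨c2, a7⟩ := a6.down
  -- step 3
  obtain ⟨Z2, hZ2⟩ : ∃ Z2 : R, Z2 = Z1 + algebraMap B R c2 * X0 := ⟨_, rfl⟩
  have bZ2 : T.pre.L 6 Z2 1 := by
    rw [hZ2]
    exact (bZ1.add ((hX0.cmul c2).upto (by norm_num))).congr rfl (add_zero 1)
  have a8 : T.pre.L 8 (Y1 ^ 2 - X0 * Z2) 0 := by
    refine (a7.sub (L.cmul c2 (hX0.pow 2))).congr ?_ (by ring)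
    rw [hZ2]
    ring
  obtain ⟨c4, a9⟩ := T.six_of_eight a8
  have a10 : T.pre.L 11 (Z2 ^ 2 - X0 ^ 3) 0 := by
    have q1 : T.pre.L 11 (algebraMap B R (2 * c2) * (X0 * Z1)) 0 :=
      (L.cmul (2 * c2) (hX0.mul bZ1)).upto (by norm_num)
    have q2 : T.pre.L 11 (algebraMap B R (c2 ^ 2) * X0 ^ 2) 0 :=
      (L.cmul (c2 ^ 2) (hX0.pow 2)).upto (by norm_num)
    refine ((a3.add q1).add q2).congr ?_ (by ring)
    rw [hZ2]
    simp only [map_pow, map_mul, map_ofNat]
    ring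
  -- step 4
  obtain ⟨X1, hX1⟩ : ∃ X1 : R, X1 = X0 + algebraMap B R c4 := ⟨_, rfl⟩
  have bX1 : T.pre.L 4 X1 1 := by
    rw [hX1]
    exact (hX0.add ((L.const c4).upto (by norm_num))).congr rfl (add_zero 1)
  have a11 : T.pre.L 6 (Y1 ^ 2 - X1 * Z2) 0 := by
    refine (a9.sub (bZ2.cmul c4)).congr ?_ (by ring)
    rw [hX1]
    ring
  obtain ⟨c5, a12⟩ := a11.down
  have a13 : T.pre.L 11 (Z2 ^ 2 - X1 ^ 3) 0 := by
    have q1 : T.pre.L 11 (algebraMap B R (3 * c4) * X0 ^ 2) 0 :=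
      (L.cmul (3 * c4) (hX0.pow 2)).upto (by norm_num)
    have q2 : T.pre.L 11 (algebraMap B R (3 * c4 ^ 2) * X0) 0 :=
      (L.cmul (3 * c4 ^ 2) hX0).upto (by norm_num)
    have q3 : T.pre.L 11 (algebraMap B R (c4 ^ 3)) 0 := (L.const (c4 ^ 3)).upto (by norm_num)
    refine (((a10.sub q1).sub q2).sub q3).congr ?_ (by ring)
    rw [hX1]
    simp only [map_pow, map_mul, map_ofNat]
    ring
  -- step 5
  obtain ⟨Y2, hY2⟩ : ∃ Y2 : R, Y2 = Y1 - algebraMap B R (c5 * h) := ⟨_, rfl⟩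
  have bY2 : T.pre.L 5 Y2 1 := by
    rw [hY2]
    exact (bY1.sub ((L.const (c5 * h)).upto (by norm_num))).congr rfl (sub_zero 1)
  have a14 : T.pre.L 5 (Y2 ^ 2 - X1 * Z2) 0 := by
    have q1 : T.pre.L 5 (algebraMap B R ((c5 * h) ^ 2)) 0 :=
      (L.const ((c5 * h) ^ 2)).upto (by norm_num)
    refine ((a12.sub (bY1.cmul c5)).add q1).congr ?_ (by ring)
    rw [hY2]
    simp only [map_pow, map_mul]
    linear_combination (algebraMap B R c5 * Y1) * hhR
  obtain ⟨c6, a15⟩ := a14.down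
  -- step 6
  obtain ⟨Z3, hZ3⟩ : ∃ Z3 : R, Z3 = Z2 + algebraMap B R c6 := ⟨_, rfl⟩
  have bZ3 : T.pre.L 6 Z3 1 := by
    rw [hZ3]
    exact (bZ2.add ((L.const c6).upto (by norm_num))).congr rfl (add_zero 1)
  have a16 : T.pre.L 4 (Y2 ^ 2 - X1 * Z3) 0 := by
    refine (a15.sub (bX1.cmul c6)).congr ?_ (by ring)
    rw [hZ3]
    ring
  obtain ⟨s10, _, e10⟩ := T.const_of_four a16
  have a17 : T.pre.L 11 (Z3 ^ 2 - X1 ^ 3) 0 := by
    have q1 : T.pre.L 11 (algebraMap B R (2 * c6) * Z2) 0 :=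
      (bZ2.cmul (2 * c6)).upto (by norm_num)
    have q2 : T.pre.L 11 (algebraMap B R (c6 ^ 2)) 0 := (L.const (c6 ^ 2)).upto (by norm_num)
    refine ((a13.add q1).add q2).congr ?_ (by ring)
    rw [hZ3]
    simp only [map_pow, map_mul, map_ofNat]
    ring
  -- step 7
  obtain ⟨s2, b2⟩ := a17.down
  have c10 : T.pre.L 10 (X1 * Z3) 1 := (bX1.mul bZ3).congr rfl (mul_one 1)
  have b3 := (b2.sub (c10.cmul s2)).congr rfl (show s2 - s2 * 1 = 0 by ring)
  obtain ⟨s3, b4⟩ := b3.down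
  have c9 : T.pre.L 9 (X1 * Y2) 1 := (bX1.mul bY2).congr rfl (mul_one 1)
  have b5 := (b4.sub (c9.cmul s3)).congr rfl (show s3 - s3 * 1 = 0 by ring)
  obtain ⟨s4, b6⟩ := b5.down
  have c8 : T.pre.L 8 (X1 ^ 2) 1 := bX1.pow 2
  have b7 := (b6.sub (c8.cmul s4)).congr rfl (show s4 - s4 * 1 = 0 by ring)
  obtain ⟨s6, b8⟩ := T.six_of_eight b7
  have b9 := (b8.sub (bZ3.cmul s6)).congr rfl (show s6 - s6 * 1 = 0 by ring)
  obtain ⟨s7, b10⟩ := b9.down
  have b11 := (b10.sub (bY2.cmul s7)).congr rfl (show s7 - s7 * 1 = 0 by ring)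
  obtain ⟨s8, b12⟩ := b11.down
  have b13 := (b12.sub (bX1.cmul s8)).congr rfl (show s8 - s8 * 1 = 0 by ring)
  obtain ⟨s12, _, e12⟩ := T.const_of_four b13
  refine ⟨![s2, s3, s4, s6, s7, s8, s10, s12], X1, Y2, Z3, ⟨bX1, bY2, bZ3⟩, ?_, ?_⟩
  · have h6 : (![s2, s3, s4, s6, s7, s8, s10, s12] : Fin 8 → B) 6 = s10 := rfl
    rw [h6]
    linear_combination e10
  · have h0 : (![s2, s3, s4, s6, s7, s8, s10, s12] : Fin 8 → B) 0 = s2 := rfl
    have h1 : (![s2, s3, s4, s6, s7, s8, s10, s12] : Fin 8 → B) 1 = s3 := rfl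
    have h2 : (![s2, s3, s4, s6, s7, s8, s10, s12] : Fin 8 → B) 2 = s4 := rfl
    have h3 : (![s2, s3, s4, s6, s7, s8, s10, s12] : Fin 8 → B) 3 = s6 := rfl
    have h4 : (![s2, s3, s4, s6, s7, s8, s10, s12] : Fin 8 → B) 4 = s7 := rfl
    have h5 : (![s2, s3, s4, s6, s7, s8, s10, s12] : Fin 8 → B) 5 = s8 := rfl
    have h7 : (![s2, s3, s4, s6, s7, s8, s10, s12] : Fin 8 → B) 7 = s12 := rfl
    rw [h0, h1, h2, h3, h4, h5, h7]
    linear_combination e12

/-- the two sides of the second equation as normal forms -/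
noncomputable def rhsP (s : Fin 8 → B) : Fin 4 → Polynomial B :=
  ![Polynomial.C (s 2) * Polynomial.X ^ 2 + Polynomial.C (s 5) * Polynomial.X
      + Polynomial.C (s 7),
    Polynomial.C (s 1) * Polynomial.X + Polynomial.C (s 4),
    Polynomial.C (s 0) * Polynomial.X + Polynomial.C (s 3), 0]

theorem val_rhsP (s : Fin 8 → B) (X Y Z : R) : val X Y Z (rhsP s) =
    algebraMap B R (s 0) * (X * Z) + algebraMap B R (s 1) * (X * Y)
      + algebraMap B R (s 2) * X ^ 2 + algebraMap B R (s 3) * Z + algebraMap B R (s 4) * Y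
      + algebraMap B R (s 5) * X + algebraMap B R (s 7) := by
  unfold val rhsP
  simp only [Matrix.cons_val_zero, Matrix.cons_val_one, Matrix.cons_val, map_add, map_mul, map_pow,
    Polynomial.aeval_X, Polynomial.aeval_C, map_zero]
  ring

theorem rhsP_injective (s s' : Fin 8 → B) (h : rhsP s = rhsP s') (h6 : s 6 = s' 6) : s = s' := by
  have p0 := congrFun h 0
  have p1 := congrFun h 1
  have p2 := congrFun h 2
  unfold rhsP at p0 p1 p2
  simp only [Matrix.cons_val_zero, Matrix.cons_val_one, Matrix.cons_val] at p0 p1 p2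
  have q02 := congrArg (fun p => Polynomial.coeff p 2) p0
  have q01 := congrArg (fun p => Polynomial.coeff p 1) p0
  have q00 := congrArg (fun p => Polynomial.coeff p 0) p0
  have q11 := congrArg (fun p => Polynomial.coeff p 1) p1
  have q10 := congrArg (fun p => Polynomial.coeff p 0) p1
  have q21 := congrArg (fun p => Polynomial.coeff p 1) p2
  have q20 := congrArg (fun p => Polynomial.coeff p 0) p2
  simp [Polynomial.coeff_X, Polynomial.coeff_C, Polynomial.coeff_X_pow] at q02 q01 q00 q11 q10 q21 q20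
  funext i
  fin_cases i
  · exact q21
  · exact q11
  · exact q02
  · exact q20
  · exact q10
  · exact q01
  · exact h6
  · exact q00

/-- uniqueness of the normal form -/
theorem Tail.unique_normal {h : B} (hh : 2 * h = 1) {s s' : Fin 8 → B} {X Y Z X' Y' Z' : R}
    (hL : XYZ T.pre X Y Z) (hE : Eqs s X Y Z) (hL' : XYZ T.pre X' Y' Z') (hE' : Eqs s' X' Y' Z') :
    X = X' ∧ Y = Y' ∧ Z = Z' ∧ s = s' := by
  have h2 : ∀ b : B, 2 * b = 0 → b = 0 := by
    intro b hb
    linear_combination h * hb - b * hh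
  obtain ⟨hX, hY, hZ⟩ := hL
  obtain ⟨hX', hY', hZ'⟩ := hL'
  have sX : T.pre.L 4 (X' - X) 0 := (hX'.sub hX).congr rfl (sub_self 1)
  have sY : T.pre.L 5 (Y' - Y) 0 := (hY'.sub hY).congr rfl (sub_self 1)
  have sZ : T.pre.L 6 (Z' - Z) 0 := (hZ'.sub hZ).congr rfl (sub_self 1)
  obtain ⟨α, kα, eα⟩ := T.const_of_four sX
  obtain ⟨β, kβ⟩ := sY.down
  obtain ⟨γ, kγ⟩ := sZ.down
  -- the second equation in weight 11
  have w10 : ∀ (s : Fin 8 → B) (X Y Z : R), XYZ T.pre X Y Z → Eqs s X Y Z →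
      T.pre.L 11 (Z ^ 2 - X ^ 3) 0 := by
    intro s X Y Z hL hE
    have e : Z ^ 2 - X ^ 3 = val X Y Z (rhsP s) := by
      rw [val_rhsP]
      linear_combination hE.2
    rw [e]
    have hWB : WB 10 (rhsP s) := by
      refine ⟨fun a ha => ?_, fun a ha => ?_, fun a ha => ?_, fun a ha => ?_⟩
      · unfold rhsP
        simp only [Matrix.cons_val_zero]
        have h3 : a ≠ 0 := by omega
        have h4 : a ≠ 1 := by omega
        have h5 : a ≠ 2 := by omega
        simp [Polynomial.coeff_X, Polynomial.coeff_C, Polynomial.coeff_X_pow, h3, h5, Ne.symm h4]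
      · unfold rhsP
        simp only [Matrix.cons_val_one, Matrix.cons_val_zero, Matrix.cons_val]
        have h3 : a ≠ 0 := by omega
        have h4 : a ≠ 1 := by omega
        simp [Polynomial.coeff_X, Polynomial.coeff_C, h3, Ne.symm h4]
      · unfold rhsP
        simp only [Matrix.cons_val]
        have h3 : a ≠ 0 := by omega
        have h4 : a ≠ 1 := by omega
        simp [Polynomial.coeff_X, Polynomial.coeff_C, h3, Ne.symm h4]
      · unfold rhsP
        simp only [Matrix.cons_val, Polynomial.coeff_zero]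
    exact (L_val hL 10 _ hWB).up
  have w1 := w10 s X Y Z ⟨hX, hY, hZ⟩ hE
  have w2 := w10 s' X' Y' Z' ⟨hX', hY', hZ'⟩ hE'
  have γ0 : γ = 0 := by
    have q1 : T.pre.L 11 ((Z' - Z) * (Z' + Z)) (γ * (1 + 1)) := kγ.mul (hZ'.add hZ)
    have q2 : T.pre.L 8 ((X' - X) * (X' ^ 2 + X' * X + X ^ 2)) (α * (1 + 1 * 1 + 1)) := by
      have r1 : T.pre.L 8 (X' ^ 2) 1 := hX'.pow 2
      have r2 : T.pre.L 8 (X' * X) (1 * 1) := hX'.mul hX
      have r3 : T.pre.L 8 (X ^ 2) 1 := hX.pow 2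
      have r4 := kα.mul ((r1.add r2).add r3)
      exact r4
    have q3 : T.pre.L 11 ((Z' ^ 2 - X' ^ 3) - (Z ^ 2 - X ^ 3)) (γ * (1 + 1) - 0) :=
      (q1.sub (q2.upto (by norm_num))).congr (by ring) rfl
    have q4 := q3.unique (w2.sub w1)
    apply h2
    linear_combination q4
  rw [γ0] at kγ
  obtain ⟨γ2, kγ2⟩ := kγ.down
  -- the first equation
  have hE0 : T.pre.L 0 ((Y' ^ 2 - X' * Z') - (Y ^ 2 - X * Z)) (s' 6 - s 6) := by
    refine ((L.const (s' 6)).sub (L.const (s 6))).congr ?_ rfl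
    linear_combination hE.1 - hE'.1
  have hEe : (Y' ^ 2 - X' * Z') - (Y ^ 2 - X * Z) =
      (Y' - Y) * (Y' + Y) - ((X' - X) * Z' + X * (Z' - Z)) := by ring
  rw [hEe] at hE0
  have mZ : T.pre.L 6 ((X' - X) * Z') (α * 1) := kα.mul hZ'
  have β0 : β = 0 := by
    have q1 : T.pre.L 9 ((Y' - Y) * (Y' + Y)) (β * (1 + 1)) := kβ.mul (hY'.add hY)
    have q2 : T.pre.L 8 (X * (Z' - Z)) (1 * γ2) := hX.mul kγ2
    have q3 := q1.sub ((mZ.upto (show 6 < 9 by norm_num)).add (q2.upto (show 8 < 9 by norm_num)))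
    have q4 := q3.unique (hE0.upto (show 0 < 9 by norm_num))
    apply h2
    linear_combination q4
  rw [β0] at kβ
  obtain ⟨β', kβ', eβ'⟩ := T.const_of_four kβ
  have mY : T.pre.L 5 ((Y' - Y) * (Y' + Y)) (β' * (1 + 1)) := kβ'.mul (hY'.add hY)
  have γ20 : γ2 = 0 := by
    have q2 : T.pre.L 8 (X * (Z' - Z)) (1 * γ2) := hX.mul kγ2
    have q3 := (mY.upto (show 5 < 8 by norm_num)).sub ((mZ.upto (show 6 < 8 by norm_num)).add q2)
    have q4 := q3.unique (hE0.upto (show 0 < 8 by norm_num))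
    linear_combination -q4
  rw [γ20] at kγ2
  obtain ⟨γ', kγ', eγ'⟩ := T.const_of_four kγ2
  have mX : T.pre.L 4 (X * (Z' - Z)) (1 * γ') := hX.mul kγ'
  have α0 : α = 0 := by
    have q3 := (mY.upto (show 5 < 6 by norm_num)).sub (mZ.add (mX.upto (show 4 < 6 by norm_num)))
    have q4 := q3.unique (hE0.upto (show 0 < 6 by norm_num))
    linear_combination -q4
  have eX : X' = X := by
    rw [α0, map_zero] at eα
    exact sub_eq_zero.1 eα
  have hE1 : T.pre.L 0 ((Y' - Y) * (Y' + Y) - X * (Z' - Z)) (s' 6 - s 6) := by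
    refine hE0.congr ?_ rfl
    rw [eX]
    ring
  have β'0 : β' = 0 := by
    have q3 := mY.sub (mX.upto (show 4 < 5 by norm_num))
    have q4 := q3.unique (hE1.upto (show 0 < 5 by norm_num))
    apply h2
    linear_combination q4
  have eY : Y' = Y := by
    rw [β'0, map_zero] at eβ'
    exact sub_eq_zero.1 eβ'
  have γ'0 : γ' = 0 := by
    have q3 : T.pre.L 4 ((Y' - Y) * (Y' + Y) - X * (Z' - Z)) (0 - 1 * γ') := by
      refine (L.sub (L.zero 4) mX).congr ?_ rfl
      rw [eY]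
      ring
    have q4 := q3.unique (hE1.upto (show 0 < 4 by norm_num))
    linear_combination -q4
  have eZ : Z' = Z := by
    rw [γ'0, map_zero] at eγ'
    exact sub_eq_zero.1 eγ'
  refine ⟨eX.symm, eY.symm, eZ.symm, ?_⟩
  rw [eX, eY, eZ] at hE'
  have e6 : s 6 = s' 6 := by
    have q1 : T.pre.L 0 (algebraMap B R (s 6)) (s' 6) := by
      refine (L.const (s' 6)).congr ?_ rfl
      linear_combination hE.1 - hE'.1
    exact (L.const (s 6)).unique q1
  refine rhsP_injective s s' ?_ e6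
  refine val_injective (T := T.pre) ⟨hX, hY, hZ⟩ _ _ ?_
  rw [val_rhsP, val_rhsP]
  linear_combination hE'.2 - hE.2

/-- every element is in the image of the coordinate ring -/
theorem Tail.surj_val {X Y Z : R} (h : XYZ T.pre X Y Z) :
    ∀ (n : ℕ) (f : R) (b : B), T.pre.L n f b → ∃ P : Fin 4 → Polynomial B, f = val X Y Z P := by
  intro n
  induction n with
  | zero =>
    intro f b hf
    refine ⟨![Polynomial.C b, 0, 0, 0], ?_⟩
    rw [T.eq_const hf]
    unfold val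
    simp only [Matrix.cons_val_zero, Matrix.cons_val_one, Matrix.cons_val, map_zero, zero_mul,
      add_zero, Polynomial.aeval_C]
  | succ n ih =>
    intro f b hf
    by_cases hn : IsGap (n + 1)
    · obtain ⟨c, hc⟩ := T.skip hn hf
      exact ih f c hc
    · have key : ∃ P : Fin 4 → Polynomial B, T.pre.L (n + 1) (val X Y Z P) 1 := by
        unfold IsGap at hn
        have hc : (∃ a, n + 1 = 4 * a) ∨ (∃ a, n + 1 = 4 * a + 5) ∨ (∃ a, n + 1 = 4 * a + 6) ∨
            (∃ a, n + 1 = 4 * a + 11) := by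
          have : (n + 1) % 4 = 0 ∨ (n + 1) % 4 = 1 ∨ (n + 1) % 4 = 2 ∨ (n + 1) % 4 = 3 := by omega
          rcases this with h0 | h0 | h0 | h0
          · exact Or.inl ⟨(n + 1) / 4, by omega⟩
          · exact Or.inr (Or.inl ⟨(n + 1 - 5) / 4, by omega⟩)
          · exact Or.inr (Or.inr (Or.inl ⟨(n + 1 - 6) / 4, by omega⟩))
          · exact Or.inr (Or.inr (Or.inr ⟨(n + 1 - 11) / 4, by omega⟩))
        have hv : ∀ Q : Fin 4 → Polynomial B, val X Y Z Q = Polynomial.aeval X (Q 0)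
          + Polynomial.aeval X (Q 1) * Y + Polynomial.aeval X (Q 2) * Z
          + Polynomial.aeval X (Q 3) * (Y * Z) := fun Q => rfl
        rcases hc with ⟨a, ha⟩ | ⟨a, ha⟩ | ⟨a, ha⟩ | ⟨a, ha⟩
        · refine ⟨![Polynomial.X ^ a, 0, 0, 0], ?_⟩
          rw [ha]
          refine (h.hX.pow a).congr ?_ rfl
          rw [hv]
          simp
        · refine ⟨![0, Polynomial.X ^ a, 0, 0], ?_⟩
          rw [ha]
          refine ((h.hX.pow a).mul h.hY).congr ?_ (mul_one 1)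
          rw [hv]
          simp
        · refine ⟨![0, 0, Polynomial.X ^ a, 0], ?_⟩
          rw [ha]
          refine ((h.hX.pow a).mul h.hZ).congr ?_ (mul_one 1)
          rw [hv]
          simp
        · refine ⟨![0, 0, 0, Polynomial.X ^ a], ?_⟩
          rw [ha]
          refine ((h.hX.pow a).mul (h.hY.mul h.hZ)).congr ?_ (by rw [mul_one, mul_one])
          rw [hv]
          simp
      obtain ⟨P, hP⟩ := key
      have h1 : T.pre.L (n + 1) (f - algebraMap B R b * val X Y Z P) 0 :=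
        (hf.sub (hP.cmul b)).congr rfl (by ring)
      obtain ⟨c, hc⟩ := h1.down
      obtain ⟨Q, hQ⟩ := ih _ c hc
      refine ⟨Q + fun i => Polynomial.C b * P i, ?_⟩
      rw [val_add, ← hQ]
      have h3 : val X Y Z (fun i => Polynomial.C b * P i) = algebraMap B R b * val X Y Z P := by
        unfold val
        simp only [map_mul, Polynomial.aeval_C]
        ring
      rw [h3]
      ring

theorem Tail.all_val {X Y Z : R} (h : XYZ T.pre X Y Z) (f : R) :
    ∃ P : Fin 4 → Polynomial B, f = val X Y Z P := by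
  obtain ⟨n, hn⟩ := T.exhaust f
  exact T.surj_val h n f (T.lc n ⟨f, hn⟩) ⟨hn, rfl⟩

end

/-- **The functor of points.**  Over every commutative ring `B` in which `2` is invertible, the
filtered algebras with associated graded ring `B[t⁴, t⁵, t⁶]` are exactly the coordinate rings of the
family `C_s`, with a unique parameter `s ∈ B⁸` and a unique isomorphism: affine space of dimension
eight is a fine moduli space. -/
theorem tail_main (B : Type) [CommRing B] (h2 : IsUnit (2 : B)) :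
    ∃ T : ∀ s : Fin 8 → B, Tail B (CoordRing s),
      (∀ s, (T s).Lead 4 (coord s 0) 1 ∧ (T s).Lead 5 (coord s 1) 1 ∧
        (T s).Lead 6 (coord s 2) 1) ∧
      ∀ (R : Type) [CommRing R] [Algebra B R] (T' : Tail B R),
        ∃ s : Fin 8 → B, (∃! e : CoordRing s ≃ₐ[B] R, (T s).Compat T' e) ∧
          ∀ (s' : Fin 8 → B) (e' : CoordRing s' ≃ₐ[B] R), (T s').Compat T' e' → s' = s := by
  choose T hT using fun s : Fin 8 → B => exists_tail h2 s
  refine ⟨T, fun s => ⟨(hT s).hX, (hT s).hY, (hT s).hZ⟩, ?_⟩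
  intro R _ _ T'
  obtain ⟨h, hh⟩ : ∃ h : B, 2 * h = 1 := h2.exists_right_inv
  obtain ⟨s, X, Y, Z, hL, hE⟩ := T'.exists_normal hh
  have huniq : ∀ (s' : Fin 8 → B) (e' : CoordRing s' ≃ₐ[B] R), (T s').Compat T' e' →
      X = e' (coord s' 0) ∧ Y = e' (coord s' 1) ∧ Z = e' (coord s' 2) ∧ s = s' := by
    intro s' e' he'
    have hL' : XYZ T'.pre (e' (coord s' 0)) (e' (coord s' 1)) (e' (coord s' 2)) :=
      ⟨(he' 4 _ 1).1 (hT s').hX, (he' 5 _ 1).1 (hT s').hY, (he' 6 _ 1).1 (hT s').hZ⟩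
    have hE' : Eqs s' (e' (coord s' 0)) (e' (coord s' 1)) (e' (coord s' 2)) := by
      obtain ⟨q1, q2⟩ := eqs_coord s'
      constructor
      · have := congrArg e' q1
        simpa only [map_add, map_mul, map_pow, AlgEquiv.commutes] using this
      · have := congrArg e' q2
        simpa only [map_add, map_mul, map_pow, AlgEquiv.commutes] using this
    exact T'.unique_normal hh hL hE hL' hE'
  refine ⟨s, ?_, fun s' e' he' => (huniq s' e' he').2.2.2.symm⟩
  -- the isomorphism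
  have hinj : Function.Injective (toR s X Y Z hE) := by
    rw [injective_iff_map_eq_zero]
    intro f hf
    obtain ⟨P, rfl⟩ := exists_val s f
    rw [toR_val] at hf
    have h3 := val_eq_zero hL P hf
    rw [h3]
    unfold val
    simp
  have hsurj : Function.Surjective (toR s X Y Z hE) := by
    intro f
    obtain ⟨P, rfl⟩ := T'.all_val hL f
    exact ⟨_, toR_val s X Y Z hE P⟩
  refine ⟨AlgEquiv.ofBijective (toR s X Y Z hE) ⟨hinj, hsurj⟩, ?_, ?_⟩
  · intro n f b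
    obtain ⟨P, rfl⟩ := exists_val s f
    have h3 : AlgEquiv.ofBijective (toR s X Y Z hE) ⟨hinj, hsurj⟩
        (val (coord s 0) (coord s 1) (coord s 2) P) = val X Y Z P := toR_val s X Y Z hE P
    rw [h3]
    exact (L_val_iff (hT s) n P b).trans (L_val_iff hL n P b).symm
  · intro e' he'
    obtain ⟨q0, q1, q2, _⟩ := huniq s e' he'
    apply AlgEquiv.coe_algHom_injective
    apply Ideal.Quotient.algHom_ext
    apply MvPolynomial.algHom_ext
    intro i
    have h4 : ∀ i, e' (coord s i) = toR s X Y Z hE (coord s i) := by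
      intro i
      rw [toR_coord]
      fin_cases i
      · exact q0.symm
      · exact q1.symm
      · exact q2.symm
    exact h4 i

end KZP
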