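import Pool.Agent.KZP.TailC

/-!
# KZP-TailD: base change, rescaling
-/

set_option autoImplicit false

namespace KZP

open PreTail

/-- the base change of the coordinate rings -/
noncomputable def baseMap {B B' : Type} [CommRing B] [CommRing B'] (φ : B →+* B') (s : Fin 8 → B) :
    CoordRing s →+* CoordRing (fun i => φ (s i)) :=
  Ideal.quotientMap _ (MvPolynomial.map φ) (by
    rw [Ideal.span_le]
    rintro f (rfl | rfl)
    · change MvPolynomial.map φ (eq1 s) ∈ Ideal.span {eq1 fun i => φ (s i), eq2 fun i => φ (s i)}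
      have h1 : MvPolynomial.map φ (eq1 s) = eq1 fun i => φ (s i) := by
        unfold eq1
        simp only [map_sub, map_mul, map_pow, MvPolynomial.map_X, MvPolynomial.map_C]
      rw [h1]
      exact Ideal.subset_span (by simp)
    · change MvPolynomial.map φ (eq2 s) ∈ Ideal.span {eq1 fun i => φ (s i), eq2 fun i => φ (s i)}
      have h1 : MvPolynomial.map φ (eq2 s) = eq2 fun i => φ (s i) := by
        unfold eq2
        simp only [map_sub, map_mul, map_pow, MvPolynomial.map_X, MvPolynomial.map_C]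
      rw [h1]
      exact Ideal.subset_span (by simp))

theorem baseMap_coord {B B' : Type} [CommRing B] [CommRing B'] (φ : B →+* B') (s : Fin 8 → B)
    (i : Fin 3) : baseMap φ s (coord s i) = coord (fun i => φ (s i)) i := by
  unfold baseMap coord
  rw [Ideal.quotientMap_mk, MvPolynomial.map_X]

theorem baseMap_algebraMap {B B' : Type} [CommRing B] [CommRing B'] (φ : B →+* B')
    (s : Fin 8 → B) (b : B) : baseMap φ s (algebraMap B (CoordRing s) b) =
      algebraMap B' (CoordRing fun i => φ (s i)) (φ b) := by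
  change baseMap φ s (Ideal.Quotient.mk _ (MvPolynomial.C b)) =
    Ideal.Quotient.mk _ (MvPolynomial.C (φ b))
  unfold baseMap
  rw [Ideal.quotientMap_mk, MvPolynomial.map_C]

theorem baseMap_aeval {B B' : Type} [CommRing B] [CommRing B'] (φ : B →+* B')
    (s : Fin 8 → B) (f : CoordRing s) (P : Polynomial B) :
    baseMap φ s (Polynomial.aeval f P) = Polynomial.aeval (baseMap φ s f) (P.map φ) := by
  induction P using Polynomial.induction_on' with
  | add p q hp hq => rw [map_add, map_add, hp, hq, Polynomial.map_add, map_add]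
  | monomial n b =>
    rw [Polynomial.aeval_monomial, map_mul, baseMap_algebraMap, map_pow, Polynomial.map_monomial,
      Polynomial.aeval_monomial]

/-- The base change respects the filtrations and the leading coefficients (which are determined by
the leading coefficients of `X, Y, Z`). -/
theorem tail_base_change {B B' : Type} [CommRing B] [CommRing B'] (φ : B →+* B') (s : Fin 8 → B)
    (T : Tail B (CoordRing s)) (T' : Tail B' (CoordRing fun i => φ (s i)))
    (h : T.Lead 4 (coord s 0) 1 ∧ T.Lead 5 (coord s 1) 1 ∧ T.Lead 6 (coord s 2) 1)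
    (h' : T'.Lead 4 (coord _ 0) 1 ∧ T'.Lead 5 (coord _ 1) 1 ∧ T'.Lead 6 (coord _ 2) 1)
    (n : ℕ) (f : CoordRing s) (b : B) (hf : T.Lead n f b) :
    T'.Lead n (baseMap φ s f) (φ b) := by
  have hL : XYZ T.pre (coord s 0) (coord s 1) (coord s 2) := ⟨h.1, h.2.1, h.2.2⟩
  have hL' : XYZ T'.pre (coord (fun i => φ (s i)) 0) (coord _ 1) (coord _ 2) :=
    ⟨h'.1, h'.2.1, h'.2.2⟩
  obtain ⟨P, rfl⟩ := exists_val s f
  obtain ⟨h1, h2⟩ := (L_val_iff hL n P b).1 hf
  have h3 : baseMap φ s (val (coord s 0) (coord s 1) (coord s 2) P) =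
      val (coord (fun i => φ (s i)) 0) (coord _ 1) (coord _ 2) (fun i => (P i).map φ) := by
    unfold val
    simp only [map_add, map_mul, baseMap_aeval, baseMap_coord]
  rw [h3]
  refine (L_val_iff hL' n _ (φ b)).2 ⟨?_, ?_⟩
  · refine ⟨fun a ha => ?_, fun a ha => ?_, fun a ha => ?_, fun a ha => ?_⟩
    · rw [Polynomial.coeff_map, h1.1 a ha, map_zero]
    · rw [Polynomial.coeff_map, h1.2.1 a ha, map_zero]
    · rw [Polynomial.coeff_map, h1.2.2.1 a ha, map_zero]
    · rw [Polynomial.coeff_map, h1.2.2.2 a ha, map_zero]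
  · have h4 : ∀ (j : ℕ) (Q : Polynomial B), cf n j (Q.map φ) = φ (cf n j Q) := by
      intro j Q
      unfold cf
      split_ifs
      · rw [Polynomial.coeff_map]
      · rw [map_zero]
    rw [← h2]
    unfold cfs
    simp only [h4, map_add]

/-- rescaling the leading coefficients (the tangent vector at the point) by a unit -/
noncomputable def Tail.rescale {B R : Type} [CommRing B] [CommRing R] [Algebra B R] (T : Tail B R)
    (u : Bˣ) : Tail B R where
  F := T.F
  lc n := ((u : B) ^ n) • T.lc n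
  le_succ := T.le_succ
  exhaust := T.exhaust
  one_mem := T.one_mem
  lc_one := by
    rw [LinearMap.smul_apply, T.lc_one, pow_zero, one_smul]
  mul_mem := T.mul_mem
  lc_mul m n f g := by
    rw [LinearMap.smul_apply, LinearMap.smul_apply, LinearMap.smul_apply, T.lc_mul]
    simp only [smul_eq_mul]
    ring
  lc_zero f := by
    rw [LinearMap.smul_apply, pow_zero, one_smul]
    exact T.lc_zero f
  lc_succ n f := by
    rw [LinearMap.smul_apply, ← T.lc_succ n f]
    constructor
    · intro h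
      have h1 : ((u⁻¹ : Bˣ) : B) ^ (n + 1) * ((u : B) ^ (n + 1) * T.lc (n + 1) f) = 0 := by
        rw [smul_eq_mul] at h
        rw [h, mul_zero]
      rwa [← mul_assoc, ← mul_pow, Units.inv_mul, one_pow, one_mul] at h1
    · intro h
      rw [h, smul_zero]
  surj n hn b := by
    obtain ⟨f, hf⟩ := T.surj n hn (((u⁻¹ : Bˣ) : B) ^ n * b)
    refine ⟨f, ?_⟩
    rw [LinearMap.smul_apply, hf, smul_eq_mul, ← mul_assoc, ← mul_pow, Units.mul_inv, one_pow,
      one_mul]
  gap n hn f := by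
    rw [LinearMap.smul_apply, T.gap n hn f, smul_zero]

theorem Tail.rescale_lead {B R : Type} [CommRing B] [CommRing R] [Algebra B R] (T : Tail B R)
    (u : Bˣ) {n : ℕ} {f : R} {b : B} (h : T.Lead n f b) :
    (T.rescale u).Lead n f ((u : B) ^ n * b) := by
  obtain ⟨h1, rfl⟩ := h
  exact ⟨h1, rfl⟩

/-- Rescaling the tangent vector by `u` multiplies the parameters `s_i` by `u^(weight)`: the action of
the multiplicative group on the moduli space. -/
theorem tail_rescale {B : Type} [CommRing B] (h2 : IsUnit (2 : B)) (R : Type) [CommRing R]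
    [Algebra B R] (T : Tail B R) (u : Bˣ) (s s' : Fin 8 → B)
    (T₁ : Tail B (CoordRing s))
    (h₁ : T₁.Lead 4 (coord s 0) 1 ∧ T₁.Lead 5 (coord s 1) 1 ∧ T₁.Lead 6 (coord s 2) 1)
    (T₂ : Tail B (CoordRing s'))
    (h₂ : T₂.Lead 4 (coord s' 0) 1 ∧ T₂.Lead 5 (coord s' 1) 1 ∧ T₂.Lead 6 (coord s' 2) 1)
    (e₁ : CoordRing s ≃ₐ[B] R) (c₁ : T₁.Compat T e₁)
    (e₂ : CoordRing s' ≃ₐ[B] R) (c₂ : T₂.Compat (T.rescale u) e₂) :
    ∀ i, s i = (u : B) ^ wts i * s' i := by
  obtain ⟨h, hh⟩ : ∃ h : B, 2 * h = 1 := h2.exists_right_inv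
  -- the coordinates `X, Y, Z` of `T`
  obtain ⟨X, hX⟩ : ∃ X, X = e₁ (coord s 0) := ⟨_, rfl⟩
  obtain ⟨Y, hY⟩ : ∃ Y, Y = e₁ (coord s 1) := ⟨_, rfl⟩
  obtain ⟨Z, hZ⟩ : ∃ Z, Z = e₁ (coord s 2) := ⟨_, rfl⟩
  have hL1 : XYZ T.pre X Y Z := by
    rw [hX, hY, hZ]
    exact ⟨(c₁ 4 _ 1).1 h₁.1, (c₁ 5 _ 1).1 h₁.2.1, (c₁ 6 _ 1).1 h₁.2.2⟩
  have hE1 : Eqs s X Y Z := by
    rw [hX, hY, hZ]
    obtain ⟨q1, q2⟩ := eqs_coord s
    constructor
    · have := congrArg e₁ q1
      simpa only [map_add, map_mul, map_pow, AlgEquiv.commutes] using this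
    · have := congrArg e₁ q2
      simpa only [map_add, map_mul, map_pow, AlgEquiv.commutes] using this
  obtain ⟨X', hX'⟩ : ∃ X', X' = e₂ (coord s' 0) := ⟨_, rfl⟩
  obtain ⟨Y', hY'⟩ : ∃ Y', Y' = e₂ (coord s' 1) := ⟨_, rfl⟩
  obtain ⟨Z', hZ'⟩ : ∃ Z', Z' = e₂ (coord s' 2) := ⟨_, rfl⟩
  have hL2 : XYZ (T.rescale u).pre X' Y' Z' := by
    rw [hX', hY', hZ']
    exact ⟨(c₂ 4 _ 1).1 h₂.1, (c₂ 5 _ 1).1 h₂.2.1, (c₂ 6 _ 1).1 h₂.2.2⟩
  have hE2 : Eqs s' X' Y' Z' := by
    rw [hX', hY', hZ']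
    obtain ⟨q1, q2⟩ := eqs_coord s'
    constructor
    · have := congrArg e₂ q1
      simpa only [map_add, map_mul, map_pow, AlgEquiv.commutes] using this
    · have := congrArg e₂ q2
      simpa only [map_add, map_mul, map_pow, AlgEquiv.commutes] using this
  -- the coordinates `u⁻⁴ X, …` of the rescaled tail
  obtain ⟨v, hv⟩ : ∃ v : B, v = ((u⁻¹ : Bˣ) : B) := ⟨_, rfl⟩
  have huv : (u : B) * v = 1 := by rw [hv]; exact Units.mul_inv u
  have huvk : ∀ k : ℕ, (u : B) ^ k * v ^ k = 1 := fun k => by rw [← mul_pow, huv, one_pow]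
  have huvR : ∀ k : ℕ, algebraMap B R (u : B) ^ k * algebraMap B R v ^ k = 1 := fun k => by
    rw [← map_pow, ← map_pow, ← map_mul, huvk, map_one]
  have hL3 : XYZ (T.rescale u).pre (algebraMap B R (v ^ 4) * X) (algebraMap B R (v ^ 5) * Y)
      (algebraMap B R (v ^ 6) * Z) := by
    refine ⟨?_, ?_, ?_⟩
    · refine L.congr (T.rescale_lead u (hL1.hX.cmul (v ^ 4))) rfl ?_
      rw [mul_one]
      exact huvk 4
    · refine L.congr (T.rescale_lead u (hL1.hY.cmul (v ^ 5))) rfl ?_
      rw [mul_one]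
      exact huvk 5
    · refine L.congr (T.rescale_lead u (hL1.hZ.cmul (v ^ 6))) rfl ?_
      rw [mul_one]
      exact huvk 6
  have hE3 : Eqs (fun i => v ^ wts i * s i) (algebraMap B R (v ^ 4) * X)
      (algebraMap B R (v ^ 5) * Y) (algebraMap B R (v ^ 6) * Z) := by
    obtain ⟨q1, q2⟩ := hE1
    constructor
    · change (algebraMap B R (v ^ 5) * Y) ^ 2 = algebraMap B R (v ^ 4) * X *
        (algebraMap B R (v ^ 6) * Z) + algebraMap B R (v ^ 10 * s 6)
      simp only [map_mul, map_pow]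
      linear_combination (algebraMap B R v ^ 10) * q1
    · change (algebraMap B R (v ^ 6) * Z) ^ 2 = (algebraMap B R (v ^ 4) * X) ^ 3
        + algebraMap B R (v ^ 2 * s 0) * (algebraMap B R (v ^ 4) * X * (algebraMap B R (v ^ 6) * Z))
        + algebraMap B R (v ^ 3 * s 1) * (algebraMap B R (v ^ 4) * X * (algebraMap B R (v ^ 5) * Y))
        + algebraMap B R (v ^ 4 * s 2) * (algebraMap B R (v ^ 4) * X) ^ 2
        + algebraMap B R (v ^ 6 * s 3) * (algebraMap B R (v ^ 6) * Z)
        + algebraMap B R (v ^ 7 * s 4) * (algebraMap B R (v ^ 5) * Y)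
        + algebraMap B R (v ^ 8 * s 5) * (algebraMap B R (v ^ 4) * X)
        + algebraMap B R (v ^ 12 * s 7)
      simp only [map_mul, map_pow]
      linear_combination (algebraMap B R v ^ 12) * q2
  have hs := ((T.rescale u).unique_normal hh hL3 hE3 hL2 hE2).2.2.2
  intro i
  rw [← hs]
  change s i = (u : B) ^ wts i * (v ^ wts i * s i)
  rw [← mul_assoc, huvk, one_mul]

end KZP
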