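import Pool.Agent.KZP.TailD
import Pool.Agent.KZP.CPole

/-!
# KZP-TailE: the pole order function of a `Tail`
-/

set_option autoImplicit false

namespace KZP

variable {B R : Type} [CommRing B] [CommRing R] [Algebra B R]

/-- Every nonzero function has a pole order and a leading coefficient. -/
theorem Tail.exists_lead_ne_zero (T : Tail B R) {f : R} (hf : f ≠ 0) :
    ∃ n b, b ≠ 0 ∧ T.Lead n f b := by
  obtain ⟨n, hn⟩ := T.exhaust f
  induction n with
  | zero => exact ⟨0, T.lc 0 ⟨f, hn⟩, fun h => hf (by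
      have := (T.lc_zero ⟨f, hn⟩).1 h
      exact congrArg Subtype.val this), hn, rfl⟩
  | succ n ih =>
    by_cases h0 : T.lc (n + 1) ⟨f, hn⟩ = 0
    · exact ih ((T.lc_succ n ⟨f, hn⟩).1 h0)
    · exact ⟨n + 1, _, h0, hn, rfl⟩

theorem Tail.Lead.mul' {T : Tail B R} {m n : ℕ} {f g : R} {b c : B} (hf : T.Lead m f b)
    (hg : T.Lead n g c) : T.Lead (m + n) (f * g) (b * c) :=
  PreTail.L.mul (T := T.pre) hf hg

/-- If the ring of coefficients is a domain, so is the algebra. -/
theorem Tail.isDomain [IsDomain B] (T : Tail B R) : IsDomain R := by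
  have hnt : Nontrivial R := by
    refine ⟨⟨1, 0, fun h => ?_⟩⟩
    have h1 : T.pre.L 0 (1 : R) 1 := PreTail.L.one
    have h2 : T.pre.L 0 (1 : R) 0 := (PreTail.L.zero 0).congr h.symm rfl
    exact one_ne_zero (h1.unique h2)
  have hnz : NoZeroDivisors R := by
    refine ⟨fun {f g} hfg => ?_⟩
    by_contra hcon
    push Not at hcon
    obtain ⟨m, b, hb, hf⟩ := T.exists_lead_ne_zero hcon.1
    obtain ⟨n, c, hc, hg⟩ := T.exists_lead_ne_zero hcon.2
    have h1 : T.pre.L (m + n) (f * g) (b * c) := PreTail.L.mul (T := T.pre) hf hg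
    have h2 : T.pre.L (m + n) (f * g) 0 := (PreTail.L.zero _).congr hfg.symm rfl
    exact mul_ne_zero hb hc (h1.unique h2)
  exact NoZeroDivisors.to_isDomain R

/-- The coordinate ring of `C_s` is a domain if `B` is a domain with `1/2`. -/
theorem isDomain_coordRing [IsDomain B] (h2 : IsUnit (2 : B)) (s : Fin 8 → B) :
    IsDomain (CoordRing s) := by
  obtain ⟨T, -⟩ := exists_tail h2 s
  exact T.isDomain

theorem algebraMap_injective_of_tail (T : Tail B R) : Function.Injective (algebraMap B R) := by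
  intro a b h
  have h1 : T.pre.L 0 (algebraMap B R a) a := PreTail.L.const a
  have h2 : T.pre.L 0 (algebraMap B R b) b := PreTail.L.const b
  exact h1.unique (h2.congr h.symm rfl)

/-! ### over the complex numbers: pole orders -/

theorem isDomain_of_tail (R : Type) [CommRing R] [Algebra ℂ R] (T : Tail ℂ R) : IsDomain R :=
  T.isDomain

section

variable {R : Type} [CommRing R] [Algebra ℂ R] (T : Tail ℂ R)

theorem Tail.F_mono {m n : ℕ} (h : m ≤ n) : T.F m ≤ T.F n := by
  induction n, h using Nat.le_induction with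
  | base => exact le_rfl
  | succ n _ ih => exact ih.trans (T.le_succ n)

open Classical in
/-- the pole order function of a tail -/
noncomputable def Tail.ord (f : R) : ℕ := Nat.find (T.exhaust f)

theorem Tail.mem_F_iff {n : ℕ} {f : R} : f ∈ T.F n ↔ T.ord f ≤ n := by
  classical
  constructor
  · intro h
    exact Nat.find_min' _ h
  · intro h
    exact T.F_mono h (Nat.find_spec (T.exhaust f))

theorem Tail.ord_eq {n : ℕ} {f : R} {b : ℂ} (hb : b ≠ 0) (h : T.Lead n f b) : T.ord f = n := by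
  obtain ⟨h1, h2⟩ := h
  have h3 : T.ord f ≤ n := T.mem_F_iff.1 h1
  by_contra hne
  have h4 : T.ord f ≤ n - 1 := by omega
  have hn : n = (n - 1) + 1 := by omega
  have h5 : T.pre.L n f 0 := by
    obtain ⟨b', h6⟩ : ∃ b', T.pre.L (n - 1) f b' := ⟨_, T.mem_F_iff.2 h4, rfl⟩
    rw [hn]
    exact h6.up
  have h6 : T.pre.L n f b := ⟨h1, h2⟩
  exact hb (h6.unique h5)

theorem Tail.exists_lead_ord {f : R} (hf : f ≠ 0) : ∃ b, b ≠ 0 ∧ T.pre.L (T.ord f) f b := by
  obtain ⟨n, b, hb, h⟩ := T.exists_lead_ne_zero hf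
  rw [T.ord_eq hb h]
  exact ⟨b, hb, h⟩

/-- The pole order function of a tail, as a `PoleOrder`. -/
noncomputable def Tail.pole : PoleOrder R where
  ord := T.ord
  ord_zero := Nat.le_zero.1 (T.mem_F_iff.1 (T.F 0).zero_mem)
  ord_mul f g hf hg := by
    obtain ⟨b, hb, h1⟩ := T.exists_lead_ord hf
    obtain ⟨c, hc, h2⟩ := T.exists_lead_ord hg
    exact T.ord_eq (mul_ne_zero hb hc) (h1.mul h2)
  ord_add f g := T.mem_F_iff.1 ((T.F _).add_mem (T.mem_F_iff.2 (le_max_left _ _))
    (T.mem_F_iff.2 (le_max_right _ _)))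
  ord_eq_zero f hf := by
    have h1 : f ∈ T.F 0 := T.mem_F_iff.2 hf.le
    exact ⟨_, T.eq_const (b := T.lc 0 ⟨f, h1⟩) ⟨h1, rfl⟩⟩
  lead f g hf hg h := by
    obtain ⟨b, hb, h1⟩ := T.exists_lead_ord hf
    obtain ⟨c, hc, h2⟩ := T.exists_lead_ord hg
    refine ⟨b / c, ?_⟩
    rw [h] at h1
    have h3 : T.pre.L (T.ord g) (f - (b / c) • g) 0 :=
      (h1.sub (h2.smul (b / c))).congr rfl (by field_simp; ring)
    rcases Nat.eq_zero_or_pos (T.ord g) with h0 | h0
    · left
      rw [h0] at h3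
      have h4 := T.eq_const h3
      rw [map_zero, sub_eq_zero] at h4
      exact h4
    · right
      obtain ⟨k, hk⟩ : ∃ k, T.ord g = k + 1 := ⟨T.ord g - 1, by omega⟩
      rw [hk] at h3 ⊢
      obtain ⟨b', h4, -⟩ := h3.down
      exact Nat.lt_succ_of_le (T.mem_F_iff.1 h4)

theorem Tail.pole_L (n : ℕ) : T.pole.L n = T.F n := by
  ext f
  exact T.mem_F_iff.symm

theorem Tail.pole_S (n : ℕ) : n ∈ T.pole.S ↔ ¬ IsGap n := by
  constructor
  · rintro ⟨f, hf, rfl⟩ hn
    obtain ⟨b, hb, h1⟩ := T.exists_lead_ord hf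
    exact hb (T.gapL hn h1)
  · intro hn
    obtain ⟨f, hf⟩ := T.exists_lead hn
    refine ⟨f, ?_, T.ord_eq one_ne_zero hf⟩
    rintro rfl
    exact one_ne_zero (hf.unique (PreTail.L.zero n))

theorem Tail.pole_isOddStratum : T.pole.IsOddStratum 4 := by
  classical
  have hdom : IsDomain R := T.isDomain
  have hf : ∀ n, Module.finrank ℂ (T.pole.L n) =
      (Finset.range (n + 1) \ ({1, 2, 3, 7} : Finset ℕ)).card := by
    intro n
    rw [T.pole.finrank_L]
    congr 1
    ext k
    rw [Finset.mem_filter, Finset.mem_sdiff, T.pole_S]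
    simp only [Finset.mem_insert, Finset.mem_singleton, IsGap]
  refine ⟨⟨7, fun n hn => ?_⟩, ?_, ?_⟩
  · rw [hf]
    have h2 : ({1, 2, 3, 7} : Finset ℕ) ⊆ Finset.range (n + 1) := by
      intro k hk
      simp only [Finset.mem_insert, Finset.mem_singleton] at hk
      rw [Finset.mem_range]
      omega
    rw [Finset.card_sdiff_of_subset h2, Finset.card_range]
    have h3 : ({1, 2, 3, 7} : Finset ℕ).card = 4 := by decide
    rw [h3]
    omega
  · show Module.finrank ℂ (T.pole.L 6) = 4
    rw [hf]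
    decide
  · show Odd (Module.finrank ℂ (T.pole.L 3))
    rw [hf]
    decide

end

section

variable (R : Type) [CommRing R] [Algebra ℂ R] (P : PoleOrder R)

theorem PoleOrder.mul_L_T {m n : ℕ} {f g : R} (hf : P.ord f ≤ m) (hg : g ∈ P.T n) :
    f * g ∈ P.T (m + n) := by
  rcases hg with rfl | hg
  · left; rw [mul_zero]
  · by_cases h0 : f = 0
    · left; rw [h0, zero_mul]
    · by_cases h1 : g = 0
      · left; rw [h1, mul_zero]
      · right
        rw [P.ord_mul f g h0 h1]
        omega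

theorem PoleOrder.ord_mul_le (f g : R) : P.ord (f * g) ≤ P.ord f + P.ord g := by
  by_cases h0 : f = 0
  · rw [h0, zero_mul, P.ord_zero]; exact Nat.zero_le _
  · by_cases h1 : g = 0
    · rw [h1, mul_zero, P.ord_zero]; exact Nat.zero_le _
    · exact (P.ord_mul f g h0 h1).le

theorem PoleOrder.ord_pow [IsDomain R] {f : R} (hf : f ≠ 0) (n : ℕ) : P.ord (f ^ n) = P.ord f * n := by
  induction n with
  | zero => rw [pow_zero, P.ord_one, Nat.mul_zero]
  | succ n ih =>
    rw [pow_succ, P.ord_mul _ _ (pow_ne_zero n hf) hf, ih, Nat.mul_succ]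

variable {R P}

/-- existence and uniqueness of the leading coefficient -/
theorem PoleOrder.exists_lc [IsDomain R] {X Y : R} (hX : X ≠ 0) (hY : Y ≠ 0) (hX4 : P.ord X = 4)
    (hY5 : P.ord Y = 5) (n : ℕ) (f : R) (hf : P.ord f ≤ n) :
    ∃! c : ℂ, f * X ^ n - c • Y ^ n ∈ P.T (5 * n) := by
  have hYn : P.ord (Y ^ n) = 5 * n := by rw [P.ord_pow R hY, hY5]
  have hYn0 : Y ^ n ≠ 0 := pow_ne_zero n hY
  have hexi : ∃ c : ℂ, f * X ^ n - c • Y ^ n ∈ P.T (5 * n) := by
    by_cases h0 : f = 0
    · refine ⟨0, ?_⟩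
      rw [h0, zero_mul, zero_smul, sub_zero]
      exact Submodule.zero_mem _
    · have h1 : P.ord (f * X ^ n) = P.ord f + 4 * n := by
        rw [P.ord_mul _ _ h0 (pow_ne_zero n hX), P.ord_pow R hX, hX4]
      rcases Nat.lt_or_ge (P.ord f) n with h2 | h2
      · refine ⟨0, ?_⟩
        rw [zero_smul, sub_zero]
        right
        rw [h1]
        omega
      · have h3 : P.ord (f * X ^ n) = P.ord (Y ^ n) := by
          rw [h1, hYn]; omega
        obtain ⟨c, hc⟩ := P.lead _ _ (mul_ne_zero h0 (pow_ne_zero n hX)) hYn0 h3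
        refine ⟨c, ?_⟩
        rcases hc with hc | hc
        · left; rw [hc, sub_self]
        · right; rw [← hYn]; exact hc
  obtain ⟨c, hc⟩ := hexi
  refine ⟨c, hc, fun c' hc' => ?_⟩
  by_contra hne
  have h1 : (c' - c) • Y ^ n ∈ P.T (5 * n) := by
    have h2 := Submodule.sub_mem _ hc hc'
    have h3 : f * X ^ n - c • Y ^ n - (f * X ^ n - c' • Y ^ n) = (c' - c) • Y ^ n := by
      rw [sub_smul]; ring
    rwa [h3] at h2
  have h2 : Y ^ n ∈ P.T (5 * n) := by
    have h3 := Submodule.smul_mem _ (c' - c)⁻¹ h1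
    rwa [smul_smul, inv_mul_cancel₀ (sub_ne_zero.2 hne), one_smul] at h3
  rcases h2 with h2 | h2
  · exact hYn0 h2
  · rw [hYn] at h2
    exact lt_irrefl _ h2

/-- A pole order of the odd stratum of genus `4` comes from a tail. -/
theorem exists_tail_of_pole (R : Type) [CommRing R] [IsDomain R] [Algebra ℂ R] (P : PoleOrder R)
    (h : P.IsOddStratum 4) : ∃ T : Tail ℂ R, ∀ n, T.F n = P.L n := by
  obtain ⟨X, hX, hX4⟩ := (P.semigroup h 4).2 (by norm_num)
  obtain ⟨Y, hY, hY5⟩ := (P.semigroup h 5).2 (by norm_num)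
  have key := fun n f hf => P.exists_lc hX hY hX4 hY5 n f hf
  choose lc hlc huniq using key
  have hu : ∀ n f (hf : P.ord f ≤ n) (c : ℂ), f * X ^ n - c • Y ^ n ∈ P.T (5 * n) →
      lc n f hf = c := fun n f hf c hc => (huniq n f hf c hc).symm
  let lcl : ∀ n, P.L n →ₗ[ℂ] ℂ := fun n =>
    { toFun := fun f => lc n f.1 f.2
      map_add' := by
        intro f g
        apply hu
        have h1 := Submodule.add_mem _ (hlc n f.1 f.2) (hlc n g.1 g.2)
        have h2 : ((f + g : P.L n) : R) * X ^ n - (lc n f.1 f.2 + lc n g.1 g.2) • Y ^ n =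
            (f.1 * X ^ n - lc n f.1 f.2 • Y ^ n) + (g.1 * X ^ n - lc n g.1 g.2 • Y ^ n) := by
          rw [Submodule.coe_add, add_smul]; ring
        rw [h2]
        exact h1
      map_smul' := by
        intro c f
        apply hu
        have h1 := Submodule.smul_mem _ c (hlc n f.1 f.2)
        have h2 : ((c • f : P.L n) : R) * X ^ n - ((RingHom.id ℂ) c • lc n f.1 f.2) • Y ^ n =
            c • (f.1 * X ^ n - lc n f.1 f.2 • Y ^ n) := by
          rw [Submodule.coe_smul, smul_sub, RingHom.id_apply, smul_eq_mul, mul_smul,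
            smul_mul_assoc]
        rw [h2]
        exact h1 }
  have lcl_iff : ∀ n (f : P.L n) (c : ℂ), lcl n f = c ↔ (f : R) * X ^ n - c • Y ^ n ∈ P.T (5 * n) := by
    intro n f c
    constructor
    · rintro rfl
      exact hlc n f.1 f.2
    · exact hu n f.1 f.2 c
  have hXm : ∀ m, P.ord (X ^ m) = 4 * m := fun m => by rw [P.ord_pow R hX, hX4]
  have hYm : ∀ m, P.ord (Y ^ m) = 5 * m := fun m => by rw [P.ord_pow R hY, hY5]
  have h_one : P.ord (1 : R) ≤ 0 := P.ord_one.le
  have h_mul : ∀ m n (f g : R), f ∈ P.L m → g ∈ P.L n → f * g ∈ P.L (m + n) := by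
    intro m n f g hf hg
    exact (P.ord_mul_le R f g).trans (Nat.add_le_add hf hg)
  have h_zero_iff : ∀ n (f : P.L n), lcl n f = 0 ↔ ((f : R) = 0 ∨ P.ord (f : R) < n) := by
    intro n f
    rw [lcl_iff, zero_smul, sub_zero]
    constructor
    · rintro (h1 | h1)
      · left
        exact (mul_eq_zero.1 h1).resolve_right (pow_ne_zero n hX)
      · by_cases h0 : (f : R) = 0
        · left; exact h0
        · right
          rw [P.ord_mul _ _ h0 (pow_ne_zero n hX), hXm] at h1
          omega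
    · rintro (h1 | h1)
      · left; rw [h1, zero_mul]
      · right
        calc P.ord ((f : R) * X ^ n) ≤ P.ord (f : R) + P.ord (X ^ n) := P.ord_mul_le R _ _
          _ < 5 * n := by rw [hXm]; omega
  refine ⟨{ F := P.L
            lc := lcl
            le_succ := fun n f hf => le_trans hf (Nat.le_succ n)
            exhaust := fun f => ⟨P.ord f, P.mem_L.2 le_rfl⟩
            one_mem := h_one
            lc_one := ?_
            mul_mem := h_mul
            lc_mul := ?_
            lc_zero := ?_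
            lc_succ := ?_
            surj := ?_
            gap := ?_ }, fun n => rfl⟩
  · rw [lcl_iff]
    left
    rw [pow_zero, pow_zero, one_smul, mul_one]
    exact sub_self _
  · intro m n f g
    rw [lcl_iff]
    have h1 := hlc m f.1 f.2
    have h2 := hlc n g.1 g.2
    have h3 : P.ord ((g : R) * X ^ n) ≤ 5 * n := by
      refine (P.ord_mul_le R _ _).trans ?_
      rw [hXm]
      have := g.2
      rw [PoleOrder.mem_L] at this
      omega
    have h4 := P.mul_L_T R h3 h1
    have h5 : P.ord (lc m f.1 f.2 • Y ^ m) ≤ 5 * m := by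
      refine (P.ord_smul_le _ _).trans ?_
      rw [hYm]
    have h6 := P.mul_L_T R h5 h2
    have e : 5 * n + 5 * m = 5 * (m + n) := by ring
    have e' : 5 * m + 5 * n = 5 * (m + n) := by ring
    rw [e] at h4
    rw [e'] at h6
    have h7 := Submodule.add_mem _ h4 h6
    have h8 : (g : R) * X ^ n * (f.1 * X ^ m - lc m f.1 f.2 • Y ^ m) +
        lc m f.1 f.2 • Y ^ m * (g.1 * X ^ n - lc n g.1 g.2 • Y ^ n) =
        (f : R) * (g : R) * X ^ (m + n) - (lcl m f * lcl n g) • Y ^ (m + n) := by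
      show (g : R) * X ^ n * (f.1 * X ^ m - lc m f.1 f.2 • Y ^ m) +
        lc m f.1 f.2 • Y ^ m * (g.1 * X ^ n - lc n g.1 g.2 • Y ^ n) =
        (f : R) * (g : R) * X ^ (m + n) - (lc m f.1 f.2 * lc n g.1 g.2) • Y ^ (m + n)
      simp only [Algebra.smul_def, map_mul]
      ring
    rw [h8] at h7
    exact h7
  · intro f
    rw [h_zero_iff]
    constructor
    · rintro (h1 | h1)
      · exact Subtype.ext h1
      · omega
    · intro h1
      left
      rw [h1]
      rfl
  · intro n f
    rw [h_zero_iff]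
    constructor
    · rintro (h1 | h1)
      · rw [h1]; exact Submodule.zero_mem _
      · exact Nat.lt_succ_iff.1 h1
    · intro h1
      right
      exact Nat.lt_succ_of_le h1
  · intro n hn b
    have h1 : n ∈ P.S := by
      rw [P.semigroup h]
      unfold IsGap at hn
      tauto
    obtain ⟨f, hf, hfn⟩ := h1
    have h2 : lcl n ⟨f, hfn.le⟩ ≠ 0 := by
      rw [Ne, h_zero_iff]
      rintro (h3 | h3)
      · exact hf h3
      · rw [hfn] at h3
        exact lt_irrefl _ h3
    refine ⟨(b / lcl n ⟨f, hfn.le⟩) • ⟨f, hfn.le⟩, ?_⟩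
    rw [map_smul, smul_eq_mul, div_mul_cancel₀ _ h2]
  · intro n hn f
    rw [h_zero_iff]
    by_cases h0 : (f : R) = 0
    · left; exact h0
    · right
      have h1 : P.ord (f : R) ≤ n := f.2
      rcases Nat.lt_or_ge (P.ord (f : R)) n with h2 | h2
      · exact h2
      · exfalso
        have h3 : n ∈ P.S := ⟨f, h0, le_antisymm h1 h2⟩
        rw [P.semigroup h] at h3
        unfold IsGap at hn
        omega

end

/-- Two tails with the same filtration differ by the choice of the tangent vector. -/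
theorem tail_unique_up_to_units {R : Type} [CommRing R] [Algebra ℂ R] (T T' : Tail ℂ R)
    (h : ∀ n, T.F n = T'.F n) :
    ∃ u : ℂˣ, ∀ n f b, T'.Lead n f b ↔ (T.rescale u).Lead n f b := by
  obtain ⟨X, hX⟩ := T.exists_lead (n := 4) (by unfold IsGap; omega)
  obtain ⟨Y, hY⟩ := T.exists_lead (n := 5) (by unfold IsGap; omega)
  -- transfer of lower terms
  have low : ∀ n f, T.pre.L n f 0 → T'.pre.L n f 0 := by
    intro n f hf
    rcases n with _ | n
    · have h1 := T.eq_const hf
      rw [map_zero] at h1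
      rw [h1]
      exact PreTail.L.zero 0
    · obtain ⟨b, h1, -⟩ := hf.down
      have h2 : f ∈ T'.F n := by rw [← h n]; exact h1
      exact PreTail.L.up (T := T'.pre) (b := T'.lc n ⟨f, h2⟩) ⟨h2, rfl⟩
  have low' : ∀ n f, T'.pre.L n f 0 → T.pre.L n f 0 := by
    intro n f hf
    rcases n with _ | n
    · have h1 := T'.eq_const hf
      rw [map_zero] at h1
      rw [h1]
      exact PreTail.L.zero 0
    · obtain ⟨b, h1, -⟩ := hf.down
      have h2 : f ∈ T.F n := by rw [h n]; exact h1
      exact PreTail.L.up (T := T.pre) (b := T.lc n ⟨f, h2⟩) ⟨h2, rfl⟩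
  have ex : ∀ n f b, T.pre.L n f b → ∃ b', T'.pre.L n f b' := by
    rintro n f b ⟨h1, -⟩
    have h2 : f ∈ T'.F n := by rw [← h n]; exact h1
    exact ⟨_, h2, rfl⟩
  obtain ⟨a, ha⟩ := ex 4 X 1 hX
  obtain ⟨b, hb⟩ := ex 5 Y 1 hY
  have ha0 : a ≠ 0 := by
    rintro rfl
    exact one_ne_zero (hX.unique (low' _ _ ha))
  have hb0 : b ≠ 0 := by
    rintro rfl
    exact one_ne_zero (hY.unique (low' _ _ hb))
  have main : ∀ n f c, T.pre.L n f c → T'.pre.L n f ((b / a) ^ n * c) := by
    intro n f c hf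
    obtain ⟨c', hc'⟩ := ex n f c hf
    have powL : ∀ (T : Tail ℂ R) (k : ℕ) (g : R) (d : ℂ), T.pre.L k g d →
        ∀ n, T.pre.L (k * n) (g ^ n) (d ^ n) := by
      intro T k g d hg n
      induction n with
      | zero =>
        rw [pow_zero, pow_zero, Nat.mul_zero]
        exact PreTail.L.one
      | succ n ih =>
        rw [pow_succ, pow_succ]
        exact ih.mul hg
    have e1 : n + 4 * n = 5 * n := by ring
    have h1 : T.pre.L (5 * n) (f * X ^ n - c • Y ^ n) 0 := by
      have h2 := hf.mul (powL T 4 X 1 hX n)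
      rw [e1] at h2
      exact (h2.sub ((powL T 5 Y 1 hY n).smul c)).congr rfl (by rw [one_pow]; ring)
    have h2 : T'.pre.L (5 * n) (f * X ^ n - c • Y ^ n) (c' * a ^ n - c * b ^ n) := by
      have h3 := hc'.mul (powL T' 4 X a ha n)
      rw [e1] at h3
      exact h3.sub ((powL T' 5 Y b hb n).smul c)
    have h3 : c' * a ^ n - c * b ^ n = 0 := h2.unique (low _ _ h1)
    refine hc'.congr rfl ?_
    have h4 : a ^ n ≠ 0 := pow_ne_zero n ha0
    rw [div_pow]
    field_simp
    linear_combination h3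
  refine ⟨Units.mk0 (b / a) (div_ne_zero hb0 ha0), fun n f c => ?_⟩
  constructor
  · intro h1
    obtain ⟨h2, -⟩ := id h1
    have h3 : f ∈ T.F n := by rw [h n]; exact h2
    have h4 : T.pre.L n f (T.lc n ⟨f, h3⟩) := ⟨h3, rfl⟩
    have h5 := main n f _ h4
    have h6 : c = (b / a) ^ n * T.lc n ⟨f, h3⟩ := PreTail.L.unique (T := T'.pre) h1 h5
    rw [h6]
    exact T.rescale_lead (Units.mk0 (b / a) (div_ne_zero hb0 ha0)) (n := n) (f := f) h4
  · rintro ⟨h1, h2⟩
    have h3 : f ∈ T.F n := h1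
    have h4 : T.pre.L n f (T.lc n ⟨f, h3⟩) := ⟨h3, rfl⟩
    have h5 := main n f _ h4
    have h6 : c = (b / a) ^ n * T.lc n ⟨f, h3⟩ := h2.symm
    rw [h6]
    exact h5

end KZP
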