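import Mathlib

/-!
# KZP: the explicit model

The explicit model of the stratum `H(6)^odd` (genus 4, one zero, odd spin) with five marked regular
points: smooth deformations of negative weight of the monomial curve `(t⁴, t⁵, t⁶)` (the simple space
curve singularity `W₈`), i.e. smooth curves `C` of genus 4 with a point `P` with `K_C = 6P` and
`h⁰(3P) = 1`, Weierstrass semigroup `⟨4,5,6⟩`; `X, Y, Z` have poles of order `4, 5, 6` at `P` and embed
`C` canonically in `P³`, with the hyperosculating plane of `P` at infinity.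
-/

namespace KZP

/-! ## the algebraic model -/

/-- parameters `(s₂, s₃, s₄, s₆, s₇, s₈, s₁₀, s₁₂)` (the indices are the weights) -/
abbrev Par := Fin 8 → ℂ
/-- points `(X, Y, Z)` of affine three-space -/
abbrev Pt := Fin 3 → ℂ
/-- parameters together with five points -/
abbrev Tot := Par × (Fin 5 → Pt)

/-- `Y² - XZ - s₁₀` -/
def f1 (s : Par) (p : Pt) : ℂ := p 1 ^ 2 - p 0 * p 2 - s 6

/-- `Z² - X³ - s₂ XZ - s₃ XY - s₄ X² - s₆ Z - s₇ Y - s₈ X - s₁₂` -/
def f2 (s : Par) (p : Pt) : ℂ :=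
  p 2 ^ 2 - p 0 ^ 3 - s 0 * (p 0 * p 2) - s 1 * (p 0 * p 1) - s 2 * p 0 ^ 2
    - s 3 * p 2 - s 4 * p 1 - s 5 * p 0 - s 7

/-- the affine curve `C_s` -/
def Curve (s : Par) : Set Pt := {p | f1 s p = 0 ∧ f2 s p = 0}

/-- gradient of `f1` -/
def g1 (_s : Par) (p : Pt) : Pt := ![- p 2, 2 * p 1, - p 0]

/-- gradient of `f2` -/
def g2 (s : Par) (p : Pt) : Pt :=
  ![- (3 * p 0 ^ 2) - s 0 * p 2 - s 1 * p 1 - 2 * s 2 * p 0 - s 5,
    - (s 1 * p 0) - s 4, 2 * p 2 - s 0 * p 0 - s 3]

/-- the cross product of the two gradients (the three 2×2 minors of the Jacobian matrix) -/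
def tau (s : Par) (p : Pt) : Pt :=
  ![g1 s p 1 * g2 s p 2 - g1 s p 2 * g2 s p 1,
    g1 s p 2 * g2 s p 0 - g1 s p 0 * g2 s p 2,
    g1 s p 0 * g2 s p 1 - g1 s p 1 * g2 s p 0]

/-- `C_s` is smooth: the two gradients are linearly independent at every point -/
def SmoothC (s : Par) : Prop := ∀ p ∈ Curve s, tau s p ≠ 0

/-- The explicit model: `C_s` smooth, together with five distinct labelled points of `C_s`. -/
def XS : Set Tot := {q | SmoothC q.1 ∧ (∀ i, q.2 i ∈ Curve q.1) ∧ Function.Injective q.2}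

end KZP
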